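import Pool.Agent.H98.Theta3.Defs

set_option autoImplicit false

/-! The norm form and the theta series of the body centred cubic lattice. -/

namespace Theta3

/-- the norm form of the body centred cubic lattice (all Selling parameters equal to one) -/
def nB (x : Z3) : ℤ := x.1 ^ 2 + x.2.1 ^ 2 + x.2.2 ^ 2 + (x.1 - x.2.1) ^ 2 +
  (x.1 - x.2.2) ^ 2 + (x.2.1 - x.2.2) ^ 2

/-- theta series of the body centred cubic lattice -/
noncomputable def TB (s : ℝ) : ℝ := ∑' x : Z3, Real.exp (-(s * (nB x : ℝ)))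

/-- sorted Selling parameters -/
structure Sorted (ρ : Rho) : Prop where
  /-- nonnegativity -/
  p0 : 0 ≤ ρ.p
  /-- nonnegativity -/
  q0 : 0 ≤ ρ.q
  /-- nonnegativity -/
  r30 : 0 ≤ ρ.r3
  /-- nonnegativity -/
  r40 : 0 ≤ ρ.r4
  /-- order -/
  h32 : ρ.r3 ≤ ρ.r2
  /-- order -/
  h21 : ρ.r2 ≤ ρ.r1
  /-- order -/
  h41 : ρ.r4 ≤ ρ.r1
  /-- order of the sums over opposite pairs -/
  hs1 : ρ.p + ρ.q ≤ ρ.r1 + ρ.r4
  /-- order of the sums over opposite pairs -/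
  hs2 : ρ.p + ρ.q ≤ ρ.r2 + ρ.r3

end Theta3
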