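import Pool.Agent.H98.Theta3.Fcc
import Pool.Agent.H98.Theta3.Bcc0

set_option autoImplicit false

/-!
# The theta series of the body centred cubic lattice: shells and tail
-/

namespace Theta3

theorem nB_ge (x : Z3) : (1 : ℝ) * sq3 x ≤ (nB x : ℝ) := by
  obtain ⟨a, b, c⟩ := x
  simp only [nB, sq3]
  push_cast
  nlinarith [sq_nonneg ((a : ℝ) - b), sq_nonneg ((a : ℝ) - c), sq_nonneg ((b : ℝ) - c)]

theorem nB_nonneg (x : Z3) : 0 ≤ nB x := by unfold nB; positivity

theorem summable_nB {s : ℝ} (hs : 0 < s) : Summable (fun x : Z3 => Real.exp (-(s * (nB x : ℝ)))) :=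
  summable_of_le (c := s) (by positivity) (fun x => by
    have := mul_le_mul_of_nonneg_left (nB_ge x) hs.le
    linarith [this])

/-- the index box -/
noncomputable def bx3 : Finset Z3 :=
  Finset.Icc (-3 : ℤ) 3 ×ˢ (Finset.Icc (-3 : ℤ) 3 ×ˢ Finset.Icc (-3 : ℤ) 3)

/-- vectors of norm less than 16 -/
noncomputable def B15 : Finset Z3 := bx3.filter (fun x => nB x < 16)

theorem B15_image : B15.image nB = {0, 3, 4, 8, 11, 12} := by decide +kernel

theorem B15_card0 : (B15.filter (fun x => nB x = 0)).card = 1 := by decide +kernel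
theorem B15_card3 : (B15.filter (fun x => nB x = 3)).card = 8 := by decide +kernel
theorem B15_card4 : (B15.filter (fun x => nB x = 4)).card = 6 := by decide +kernel
theorem B15_card8 : (B15.filter (fun x => nB x = 8)).card = 12 := by decide +kernel
theorem B15_card11 : (B15.filter (fun x => nB x = 11)).card = 24 := by decide +kernel
theorem B15_card12 : (B15.filter (fun x => nB x = 12)).card = 8 := by decide +kernel

theorem sum_B15 (g : ℤ → ℝ) : ∑ x ∈ B15, g (nB x) =
    g 0 + 8 * g 3 + 6 * g 4 + 12 * g 8 + 24 * g 11 + 8 * g 12 := by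
  rw [Finset.sum_comp, B15_image]
  rw [Finset.sum_insert (by decide), Finset.sum_insert (by decide), Finset.sum_insert (by decide),
    Finset.sum_insert (by decide), Finset.sum_insert (by decide),
    Finset.sum_singleton, B15_card0, B15_card3, B15_card4, B15_card8, B15_card11, B15_card12]
  simp only [nsmul_eq_mul]
  push_cast
  ring

theorem mem_B15 {x : Z3} (h : nB x < 16) : x ∈ B15 := by
  obtain ⟨a, b, c⟩ := x
  have h1 : a ^ 2 + b ^ 2 + c ^ 2 ≤ nB (a, b, c) := by
    simp only [nB]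
    nlinarith [sq_nonneg (a - b), sq_nonneg (a - c), sq_nonneg (b - c)]
  have ha : a ^ 2 < 16 := by nlinarith [sq_nonneg b, sq_nonneg c]
  have hb : b ^ 2 < 16 := by nlinarith [sq_nonneg a, sq_nonneg c]
  have hc : c ^ 2 < 16 := by nlinarith [sq_nonneg a, sq_nonneg b]
  simp only [B15, bx3, Finset.mem_filter, Finset.mem_product, Finset.mem_Icc]
  refine ⟨⟨⟨?_, ?_⟩, ⟨?_, ?_⟩, ?_, ?_⟩, h⟩ <;> nlinarith

theorem B15_lt {x : Z3} (h : x ∈ B15) : nB x < 16 := (Finset.mem_filter.mp h).2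

/-- vectors of norm less than 8 -/
def B7 : Finset Z3 := {(0, 0, 0), (1, 0, 0), (-1, 0, 0), (0, 1, 0), (0, -1, 0), (0, 0, 1),
  (0, 0, -1), (1, 1, 1), (-1, -1, -1), (1, 1, 0), (-1, -1, 0), (1, 0, 1), (-1, 0, -1),
  (0, 1, 1), (0, -1, -1)}

theorem B7_eq : B15.filter (fun x => nB x < 8) = B7 := by decide +kernel

theorem mem_B7 {x : Z3} (h : nB x < 8) : x ∈ B7 := by
  rw [← B7_eq, Finset.mem_filter]
  exact ⟨mem_B15 (by omega), h⟩

theorem B7_lt {x : Z3} (h : x ∈ B7) : nB x < 8 := by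
  rw [← B7_eq, Finset.mem_filter] at h
  exact h.2

/-- general splitting into a finite part and the rest -/
theorem tsum_split {f : Z3 → ℝ} (hf : Summable f) (h0 : ∀ x, 0 ≤ f x) (S : Finset Z3)
    (p : Z3 → Prop) [DecidablePred p] (h1 : ∀ x, x ∈ S → ¬ p x) (h2 : ∀ x, x ∉ S → p x) :
    ∑' x, f x = ∑ x ∈ S, f x + ∑' x : Z3, if p x then f x else 0 := by
  have h1' : ∀ x, f x = (if x ∈ S then f x else 0) + (if p x then f x else 0) := by
    intro x
    by_cases hx : x ∈ S
    · rw [if_pos hx, if_neg (h1 x hx), add_zero]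
    · rw [if_neg hx, if_pos (h2 x hx), zero_add]
  rw [tsum_congr h1', Summable.tsum_add]
  · congr 1
    rw [tsum_eq_sum (s := S) (fun x hx => if_neg hx)]
    exact Finset.sum_congr rfl (fun x hx => if_pos hx)
  · exact summable_ite hf h0 _
  · exact summable_ite hf h0 _

theorem tsum_split_B15 {f : Z3 → ℝ} (hf : Summable f) (h0 : ∀ x, 0 ≤ f x) :
    ∑' x, f x = ∑ x ∈ B15, f x + ∑' x : Z3, if 16 ≤ nB x then f x else 0 :=
  tsum_split hf h0 B15 _ (fun x hx => by have := B15_lt hx; omega)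
    (fun x hx => by by_contra h; exact hx (mem_B15 (by omega)))

theorem tsum_split_B7 {f : Z3 → ℝ} (hf : Summable f) (h0 : ∀ x, 0 ≤ f x) :
    ∑' x, f x = ∑ x ∈ B7, f x + ∑' x : Z3, if 8 ≤ nB x then f x else 0 :=
  tsum_split hf h0 B7 _ (fun x hx => by have := B7_lt hx; omega)
    (fun x hx => by by_contra h; exact hx (mem_B7 (by omega)))

theorem exp_nB (s : ℝ) (n : ℕ) : Real.exp (-(s * ((n : ℤ) : ℝ))) = Real.exp (-s) ^ n := by
  rw [← Real.exp_nat_mul]
  congr 1
  push_cast
  ring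

theorem TB_eq {s : ℝ} (hs : 0 < s) : TB s = 1 + 8 * Real.exp (-s) ^ 3 + 6 * Real.exp (-s) ^ 4 +
    12 * Real.exp (-s) ^ 8 + 24 * Real.exp (-s) ^ 11 + 8 * Real.exp (-s) ^ 12 +
    ∑' x : Z3, if 16 ≤ nB x then Real.exp (-(s * (nB x : ℝ))) else 0 := by
  unfold TB
  rw [tsum_split_B15 (summable_nB hs) (fun x => (Real.exp_pos _).le)]
  rw [sum_B15 (fun n : ℤ => Real.exp (-(s * (n : ℝ))))]
  have e0 := exp_nB s 0
  have e3 := exp_nB s 3
  have e4 := exp_nB s 4
  have e8 := exp_nB s 8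
  have e11 := exp_nB s 11
  have e12 := exp_nB s 12
  push_cast at e0 e3 e4 e8 e11 e12
  simp only [Int.cast_zero, Int.cast_ofNat, mul_zero, neg_zero, Real.exp_zero, pow_zero] at *
  rw [e3, e4, e8, e11, e12]

/-- an explicit bound at a fixed parameter -/
theorem TB_small : ∑' x : Z3, Real.exp (-((2 / 10 : ℝ) * (nB x : ℝ))) ≤ 1011 := by
  have h := tsum_le_geo (c := (2 / 10 : ℝ)) (by norm_num)
    (L := fun x => (2 / 10 : ℝ) * (nB x : ℝ)) (fun x => by
      have := nB_ge x
      nlinarith)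
  refine h.trans ?_
  have h1 : (12214 / 10000 : ℝ) ≤ Real.exp (2 / 10) := by
    have h3 := Real.sum_le_exp_of_nonneg (x := (2 / 10 : ℝ)) (by norm_num) 5
    simp only [Finset.sum_range_succ, Finset.sum_range_zero, Nat.factorial] at h3
    norm_num at h3 ⊢
    linarith
  have h2 : Real.exp (-(2 / 10)) ≤ 1 / (12214 / 10000) := by
    rw [Real.exp_neg, ← one_div]
    exact one_div_le_one_div_of_le (by norm_num) h1
  have h0 := Real.exp_pos (-(2 / 10))
  set r := Real.exp (-(2 / 10)) with hr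
  have h3 : (1 + r) / (1 - r) ≤ 10034 / 1000 := by
    rw [div_le_iff₀ (by norm_num at h2; linarith)]
    norm_num at h2
    linarith
  have h4 : 0 ≤ (1 + r) / (1 - r) := by
    apply div_nonneg (by linarith)
    norm_num at h2
    linarith
  calc ((1 + r) / (1 - r)) ^ 3 ≤ (10034 / 1000) ^ 3 := pow_le_pow_left₀ h4 h3 3
    _ ≤ 1011 := by norm_num

theorem lin_exp {s : ℝ} (hs : 3 / 10 ≤ s) {n : ℝ} (hn : 16 ≤ n) :
    n * Real.exp (-(s * n)) ≤ Real.exp (-((2 / 10 : ℝ) * n)) *
      (16 * Real.exp (-(16 * (s - 2 / 10)))) := by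
  have h1 : n / 16 ≤ Real.exp ((n - 16) / 16) := by
    have := Real.add_one_le_exp ((n - 16) / 16)
    linarith
  have h2 : Real.exp ((n - 16) / 16) ≤ Real.exp ((s - 2 / 10) * (n - 16)) := by
    apply Real.exp_le_exp.mpr
    nlinarith
  have h3 : n ≤ 16 * Real.exp ((s - 2 / 10) * (n - 16)) := by linarith
  calc n * Real.exp (-(s * n)) ≤ 16 * Real.exp ((s - 2 / 10) * (n - 16)) * Real.exp (-(s * n)) :=
        mul_le_mul_of_nonneg_right h3 (Real.exp_pos _).le
    _ = Real.exp (-((2 / 10 : ℝ) * n)) * (16 * Real.exp (-(16 * (s - 2 / 10)))) := by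
        have e : Real.exp ((s - 2 / 10) * (n - 16)) * Real.exp (-(s * n)) =
            Real.exp (-((2 / 10 : ℝ) * n)) * Real.exp (-(16 * (s - 2 / 10))) := by
          rw [← Real.exp_add, ← Real.exp_add]
          congr 1
          ring
        calc _ = 16 * (Real.exp ((s - 2 / 10) * (n - 16)) * Real.exp (-(s * n))) := by ring
          _ = _ := by rw [e]; ring

theorem summable_lin {s : ℝ} (hs : 3 / 10 ≤ s) :
    Summable (fun x : Z3 => if 16 ≤ nB x then (nB x : ℝ) * Real.exp (-(s * (nB x : ℝ))) else 0) := by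
  refine Summable.of_nonneg_of_le (fun x => ?_) (fun x => ?_)
    ((summable_nB (s := 2 / 10) (by norm_num)).mul_right (16 * Real.exp (-(16 * (s - 2 / 10)))))
  · split_ifs with h
    · have : (16 : ℝ) ≤ (nB x : ℝ) := by exact_mod_cast h
      positivity
    · exact le_refl _
  · split_ifs with h
    · exact lin_exp hs (by exact_mod_cast h)
    · positivity

/-- weighted tail bound -/
theorem tail16_lin {s : ℝ} (hs : 3 / 10 ≤ s) :
    ∑' x : Z3, (if 16 ≤ nB x then (nB x : ℝ) * Real.exp (-(s * (nB x : ℝ))) else 0) ≤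
      400000 * Real.exp (-s) ^ 16 := by
  have h1 : ∑' x : Z3, (if 16 ≤ nB x then (nB x : ℝ) * Real.exp (-(s * (nB x : ℝ))) else 0) ≤
      ∑' x : Z3, Real.exp (-((2 / 10 : ℝ) * (nB x : ℝ))) *
        (16 * Real.exp (-(16 * (s - 2 / 10)))) := by
    refine Summable.tsum_le_tsum (fun x => ?_) (summable_lin hs)
      ((summable_nB (s := 2 / 10) (by norm_num)).mul_right _)
    split_ifs with h
    · exact lin_exp hs (by exact_mod_cast h)
    · positivity
  rw [tsum_mul_right] at h1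
  have h2 : Real.exp (-(16 * (s - 2 / 10))) = Real.exp (32 / 10) * Real.exp (-s) ^ 16 := by
    rw [← Real.exp_nat_mul, ← Real.exp_add]
    congr 1
    push_cast
    ring
  have h3 : Real.exp (32 / 10) ≤ 2454 / 100 := by
    have he := Real.exp_one_lt_d9
    have h5 : Real.exp (32 / 10) = Real.exp 1 ^ 3 * Real.exp (2 / 10) := by
      rw [← Real.exp_nat_mul, ← Real.exp_add]
      congr 1
      norm_num
    have h6 : Real.exp (2 / 10) ≤ 12215 / 10000 := by
      have h3 := Real.exp_bound' (x := (2 / 10 : ℝ)) (by norm_num) (by norm_num)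
        (n := 6) (by norm_num)
      simp only [Finset.sum_range_succ, Finset.sum_range_zero, Nat.factorial] at h3
      norm_num at h3 ⊢
      linarith
    rw [h5]
    calc Real.exp 1 ^ 3 * Real.exp (2 / 10) ≤ 2.7182818286 ^ 3 * (12215 / 10000) := by
          apply mul_le_mul _ h6 (Real.exp_pos _).le (by positivity)
          exact pow_le_pow_left₀ (Real.exp_pos _).le he.le 3
      _ ≤ 2454 / 100 := by norm_num
  have h4 := TB_small
  have h5 : (0 : ℝ) ≤ Real.exp (-s) ^ 16 := by positivity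
  have h6 : (0 : ℝ) ≤ ∑' x : Z3, Real.exp (-((2 / 10 : ℝ) * (nB x : ℝ))) :=
    tsum_nonneg fun x => (Real.exp_pos _).le
  refine h1.trans ?_
  rw [h2]
  have h7 : 16 * (Real.exp (32 / 10) * Real.exp (-s) ^ 16) ≤ 16 * (2454 / 100) *
      Real.exp (-s) ^ 16 := by nlinarith
  calc (∑' x : Z3, Real.exp (-((2 / 10 : ℝ) * (nB x : ℝ)))) *
        (16 * (Real.exp (32 / 10) * Real.exp (-s) ^ 16))
      ≤ 1011 * (16 * (2454 / 100) * Real.exp (-s) ^ 16) := by
        apply mul_le_mul h4 h7 (by positivity) (by norm_num)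
    _ ≤ 400000 * Real.exp (-s) ^ 16 := by nlinarith

end Theta3
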