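import Mathlib

/-! Poisson summation for Gaussians on a lattice of rank three. -/

namespace Theta3

open Complex Real Matrix

/-- One-dimensional Poisson summation with shift and twist. -/
lemma poisson1 (r : ℝ) (hr : 0 < r) (g h : ℝ) :
    ∑' x : ℤ, cexp (-π * ((r : ℂ) * x + g) ^ 2 + 2 * π * I * h * x) =
      (r : ℂ)⁻¹ * ∑' k : ℤ, cexp (-π * (((k : ℂ) - h) / r) ^ 2
        + 2 * π * I * g * (((k : ℂ) - h) / r)) := by
  have hr0 : (r : ℂ) ≠ 0 := by exact_mod_cast hr.ne'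
  have h1 : 0 < (((r : ℂ)) ^ 2).re := by
    have : ((r : ℂ)) ^ 2 = ((r ^ 2 : ℝ) : ℂ) := by push_cast; ring
    rw [this, ofReal_re]
    positivity
  have h2 := Complex.tsum_exp_neg_quadratic h1 (I * h - r * g)
  have h3 : (((r : ℂ)) ^ 2) ^ (1 / 2 : ℂ) = r := by
    have : ((r : ℂ)) ^ 2 = ((r ^ 2 : ℝ) : ℂ) := by push_cast; ring
    rw [this]
    have h4 : ((1 / 2 : ℂ)) = (((1 / 2 : ℝ)) : ℂ) := by push_cast; ring
    rw [h4, ← Complex.ofReal_cpow (by positivity)]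
    congr 1
    rw [← Real.sqrt_eq_rpow, Real.sqrt_sq hr.le]
  rw [h3] at h2
  have h5 : ∀ x : ℤ, cexp (-π * ((r : ℂ) * x + g) ^ 2 + 2 * π * I * h * x) =
      cexp (-π * g ^ 2) * cexp (-π * (r : ℂ) ^ 2 * x ^ 2 + 2 * π * (I * h - r * g) * x) := by
    intro x
    rw [← Complex.exp_add]
    congr 1
    ring
  have h6 : ∀ k : ℤ, cexp (-π * (((k : ℂ) - h) / r) ^ 2
        + 2 * π * I * g * (((k : ℂ) - h) / r)) =
      cexp (-π * g ^ 2) * cexp (-π / (r : ℂ) ^ 2 * (k + I * (I * h - r * g)) ^ 2) := by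
    intro k
    rw [← Complex.exp_add]
    congr 1
    have h7 : (k + I * (I * h - r * g) : ℂ) = (k - h) - I * (r * g) := by
      have : (k + I * (I * h - r * g) : ℂ) = k + I ^ 2 * h - I * (r * g) := by ring
      rw [this, I_sq]; ring
    rw [h7]
    have h8 : ((k - h : ℂ) - I * (r * g)) ^ 2 = (k - h) ^ 2 - 2 * I * (r * g) * (k - h)
        + I ^ 2 * (r * g) ^ 2 := by ring
    rw [h8, I_sq]
    field_simp
    ring
  simp_rw [h5, h6]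
  rw [tsum_mul_left, tsum_mul_left, h2]
  field_simp

/-- Coercivity of an invertible matrix. -/
lemma coercive (B : Matrix (Fin 3) (Fin 3) ℝ) (hB : B.det ≠ 0) :
    ∃ c : ℝ, 0 < c ∧ ∀ v : Fin 3 → ℝ, c * ∑ i, v i ^ 2 ≤ ∑ i, (B.mulVec v i) ^ 2 := by
  have hu : IsUnit B.det := isUnit_iff_ne_zero.mpr hB
  set K : ℝ := ∑ i, ∑ j, (B⁻¹ i j) ^ 2 with hK
  have hK0 : 0 ≤ K := by positivity
  refine ⟨1 / (K + 1), by positivity, fun v => ?_⟩
  have h1 : v = B⁻¹.mulVec (B.mulVec v) := by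
    rw [Matrix.mulVec_mulVec, Matrix.nonsing_inv_mul B hu, Matrix.one_mulVec]
  have h2 : ∀ i, v i ^ 2 ≤ (∑ j, (B⁻¹ i j) ^ 2) * ∑ j, (B.mulVec v j) ^ 2 := by
    intro i
    have h3 : v i = ∑ j, B⁻¹ i j * B.mulVec v j := by
      conv_lhs => rw [h1]
      rfl
    rw [h3]
    exact Finset.sum_mul_sq_le_sq_mul_sq _ _ _
  have h4 : ∑ i, v i ^ 2 ≤ K * ∑ j, (B.mulVec v j) ^ 2 := by
    rw [hK, Finset.sum_mul]
    exact Finset.sum_le_sum fun i _ => h2 i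
  rw [div_mul_eq_mul_div, one_mul, div_le_iff₀ (by positivity)]
  have h5 : 0 ≤ ∑ j, (B.mulVec v j) ^ 2 := by positivity
  nlinarith

lemma summable_gauss1 {c : ℝ} (hc : 0 < c) :
    Summable (fun n : ℤ => Real.exp (-π * (c * (n : ℝ) ^ 2))) := by
  have h := (summable_jacobiTheta₂_term_iff 0 (c * I)).mpr (by simpa using hc)
  have h2 := h.norm
  refine h2.congr fun n => ?_
  rw [norm_jacobiTheta₂_term]
  congr 1
  simp
  ring

/-- The equivalence between triples and functions. -/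
def e3 : (Fin 3 → ℤ) ≃ ℤ × ℤ × ℤ where
  toFun z := (z 0, z 1, z 2)
  invFun p := ![p.1, p.2.1, p.2.2]
  left_inv z := by
    funext i
    fin_cases i <;> rfl
  right_inv p := by rfl

lemma e3_apply (z : Fin 3 → ℤ) : e3 z = (z 0, z 1, z 2) := rfl

lemma e3_symm_apply (x y z : ℤ) : e3.symm (x, y, z) = ![x, y, z] := rfl

lemma summable_gauss3 (B : Matrix (Fin 3) (Fin 3) ℝ) (hB : B.det ≠ 0) :
    Summable (fun z : Fin 3 → ℤ =>
      Real.exp (-π * ∑ i, (B.mulVec (fun j => (z j : ℝ)) i) ^ 2)) := by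
  obtain ⟨c, hc, hb⟩ := coercive B hB
  have h1 := summable_gauss1 hc
  have h2 : Summable (fun p : ℤ × ℤ × ℤ => Real.exp (-π * (c * (p.1 : ℝ) ^ 2)) *
      (Real.exp (-π * (c * (p.2.1 : ℝ) ^ 2)) * Real.exp (-π * (c * (p.2.2 : ℝ) ^ 2)))) := by
    apply Summable.mul_of_nonneg h1
      (Summable.mul_of_nonneg h1 h1 (fun _ => (Real.exp_pos _).le) (fun _ => (Real.exp_pos _).le))
      (fun _ => (Real.exp_pos _).le)
    intro x
    positivity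
  have h3 := (e3.summable_iff).mpr h2
  refine Summable.of_nonneg_of_le (fun z => (Real.exp_pos _).le) (fun z => ?_) h3
  rw [Function.comp_apply, e3_apply, ← Real.exp_add, ← Real.exp_add]
  apply Real.exp_le_exp.mpr
  have h4 := hb (fun j => (z j : ℝ))
  rw [Fin.sum_univ_three] at h4
  have hpi := Real.pi_pos
  nlinarith

lemma fubR {α β : Type*} (f g : α × β → ℂ) (hf : Summable f) (hg : Summable g) (c : ℂ)
    (h : ∀ a, ∑' b, f (a, b) = c * ∑' b, g (a, b)) : ∑' p, f p = c * ∑' p, g p := by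
  rw [hf.tsum_prod, hg.tsum_prod, ← tsum_mul_left]
  exact tsum_congr h

lemma fubL {α β : Type*} (f g : α × β → ℂ) (hf : Summable f) (hg : Summable g) (c : ℂ)
    (h : ∀ b, ∑' a, f (a, b) = c * ∑' a, g (a, b)) : ∑' p, f p = c * ∑' p, g p := by
  rw [← (Equiv.prodComm β α).tsum_eq f, ← (Equiv.prodComm β α).tsum_eq g]
  exact fubR (fun q => f (Equiv.prodComm β α q)) (fun q => g (Equiv.prodComm β α q))
    ((Equiv.prodComm β α).summable_iff.mpr hf) ((Equiv.prodComm β α).summable_iff.mpr hg) c h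

lemma summable_tri (f : ℤ × ℤ × ℤ → ℂ) (B : Matrix (Fin 3) (Fin 3) ℝ) (hB : B.det ≠ 0)
    (h : ∀ x y z : ℤ, ‖f (x, y, z)‖ = Real.exp (-π * ((B 0 0 * x + B 0 1 * y + B 0 2 * z) ^ 2
      + (B 1 0 * x + B 1 1 * y + B 1 2 * z) ^ 2 + (B 2 0 * x + B 2 1 * y + B 2 2 * z) ^ 2))) :
    Summable f := by
  have h1 := summable_gauss3 B hB
  have h2 := (e3.symm.summable_iff).mpr h1
  apply Summable.of_norm
  refine h2.congr fun p => ?_
  obtain ⟨x, y, z⟩ := p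
  rw [h x y z]
  simp [e3_symm_apply, Matrix.mulVec, dotProduct, Fin.sum_univ_three]

/-- Poisson summation for an upper triangular matrix. -/
lemma poisson_tri (r1 r2 r3 s t u : ℝ) (h1 : 0 < r1) (h2 : 0 < r2) (h3 : 0 < r3) :
    ∑' p : ℤ × ℤ × ℤ, cexp (-π * (((r1 : ℂ) * p.1 + s * p.2.1 + t * p.2.2) ^ 2
      + ((r2 : ℂ) * p.2.1 + u * p.2.2) ^ 2 + ((r3 : ℂ) * p.2.2) ^ 2)) =
    ((r1 * r2 * r3 : ℝ) : ℂ)⁻¹ * ∑' p : ℤ × ℤ × ℤ, cexp (-π * (((p.1 : ℂ) / r1) ^ 2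
      + (((p.2.1 : ℂ) - s * (p.1 / r1)) / r2) ^ 2
      + (((p.2.2 : ℂ) - u * (((p.2.1 : ℂ) - s * (p.1 / r1)) / r2) - t * (p.1 / r1)) / r3) ^ 2)) := by
  have k1 : (r1 : ℂ) ≠ 0 := by exact_mod_cast h1.ne'
  have k2 : (r2 : ℂ) ≠ 0 := by exact_mod_cast h2.ne'
  have k3 : (r3 : ℂ) ≠ 0 := by exact_mod_cast h3.ne'
  set M0 : ℤ × ℤ × ℤ → ℂ := fun p => cexp (-π * (((r1 : ℂ) * p.1 + s * p.2.1 + t * p.2.2) ^ 2
      + ((r2 : ℂ) * p.2.1 + u * p.2.2) ^ 2 + ((r3 : ℂ) * p.2.2) ^ 2)) with hM0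
  set M1 : ℤ × ℤ × ℤ → ℂ := fun p => cexp (-π * (((p.1 : ℂ) / r1) ^ 2
      + ((r2 : ℂ) * p.2.1 + u * p.2.2) ^ 2 + ((r3 : ℂ) * p.2.2) ^ 2)
      + 2 * π * I * ((s * p.2.1 + t * p.2.2) * (p.1 / r1))) with hM1
  set M2 : ℤ × ℤ × ℤ → ℂ := fun p => cexp (-π * (((p.1 : ℂ) / r1) ^ 2
      + (((p.2.1 : ℂ) - s * (p.1 / r1)) / r2) ^ 2 + ((r3 : ℂ) * p.2.2) ^ 2)
      + 2 * π * I * (p.2.2 * (u * (((p.2.1 : ℂ) - s * (p.1 / r1)) / r2) + t * (p.1 / r1))))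
      with hM2
  set M3 : ℤ × ℤ × ℤ → ℂ := fun p => cexp (-π * (((p.1 : ℂ) / r1) ^ 2
      + (((p.2.1 : ℂ) - s * (p.1 / r1)) / r2) ^ 2
      + (((p.2.2 : ℂ) - u * (((p.2.1 : ℂ) - s * (p.1 / r1)) / r2) - t * (p.1 / r1)) / r3) ^ 2))
      with hM3
  have s0 : Summable M0 := by
    apply summable_tri M0 !![r1, s, t; 0, r2, u; 0, 0, r3]
    · rw [Matrix.det_fin_three]
      simp
      exact ⟨⟨h1.ne', h2.ne'⟩, h3.ne'⟩
    · intro x y z
      rw [hM0]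
      simp only
      have : (-π * (((r1 : ℂ) * x + s * y + t * z) ^ 2
        + ((r2 : ℂ) * y + u * z) ^ 2 + ((r3 : ℂ) * z) ^ 2) : ℂ) =
        ((-π * ((r1 * x + s * y + t * z) ^ 2 + (r2 * y + u * z) ^ 2 + (r3 * z) ^ 2) : ℝ) : ℂ) := by
        push_cast; ring
      rw [this, Complex.norm_exp, ofReal_re]
      simp
  have s1 : Summable M1 := by
    apply summable_tri M1 !![1 / r1, 0, 0; 0, r2, u; 0, 0, r3]
    · rw [Matrix.det_fin_three]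
      simp
      exact ⟨⟨h1.ne', h2.ne'⟩, h3.ne'⟩
    · intro x y z
      rw [hM1]
      simp only
      have : (-π * (((x : ℂ) / r1) ^ 2
        + ((r2 : ℂ) * y + u * z) ^ 2 + ((r3 : ℂ) * z) ^ 2)
        + 2 * π * I * ((s * y + t * z) * (x / r1)) : ℂ) =
        ((-π * ((x / r1) ^ 2 + (r2 * y + u * z) ^ 2 + (r3 * z) ^ 2) : ℝ) : ℂ) +
        ((2 * π * ((s * y + t * z) * (x / r1)) : ℝ) : ℂ) * I := by
        push_cast; ring
      rw [this, Complex.norm_exp, add_re, ofReal_re, re_ofReal_mul, I_re, mul_zero, add_zero]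
      simp
      ring
  have s2 : Summable M2 := by
    apply summable_tri M2 !![1 / r1, 0, 0; -(s / r1 / r2), 1 / r2, 0; 0, 0, r3]
    · rw [Matrix.det_fin_three]
      simp
      exact ⟨⟨h1.ne', h2.ne'⟩, h3.ne'⟩
    · intro x y z
      rw [hM2]
      simp only
      have : (-π * (((x : ℂ) / r1) ^ 2
      + (((y : ℂ) - s * (x / r1)) / r2) ^ 2 + ((r3 : ℂ) * z) ^ 2)
      + 2 * π * I * (z * (u * (((y : ℂ) - s * (x / r1)) / r2) + t * (x / r1))) : ℂ) =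
        ((-π * ((x / r1) ^ 2 + ((y - s * (x / r1)) / r2) ^ 2 + (r3 * z) ^ 2) : ℝ) : ℂ) +
        ((2 * π * (z * (u * ((y - s * (x / r1)) / r2) + t * (x / r1))) : ℝ) : ℂ) * I := by
        push_cast; ring
      rw [this, Complex.norm_exp, add_re, ofReal_re, re_ofReal_mul, I_re, mul_zero, add_zero]
      simp
      ring
  have s3 : Summable M3 := by
    apply summable_tri M3 !![1 / r1, 0, 0; -(s / r1 / r2), 1 / r2, 0;
      (u * s / r1 / r2 - t / r1) / r3, -(u / r2 / r3), 1 / r3]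
    · rw [Matrix.det_fin_three]
      simp
      exact ⟨⟨h1.ne', h2.ne'⟩, h3.ne'⟩
    · intro x y z
      rw [hM3]
      simp only
      have : (-π * (((x : ℂ) / r1) ^ 2
      + (((y : ℂ) - s * (x / r1)) / r2) ^ 2
      + (((z : ℂ) - u * (((y : ℂ) - s * (x / r1)) / r2) - t * (x / r1)) / r3) ^ 2) : ℂ) =
        ((-π * ((x / r1) ^ 2 + ((y - s * (x / r1)) / r2) ^ 2
          + ((z - u * ((y - s * (x / r1)) / r2) - t * (x / r1)) / r3) ^ 2) : ℝ) : ℂ) := by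
        push_cast; ring
      rw [this, Complex.norm_exp, ofReal_re]
      congr 1
      simp
      ring
  have f1 : ∑' p, M0 p = (r1 : ℂ)⁻¹ * ∑' p, M1 p := by
    apply fubL M0 M1 s0 s1
    rintro ⟨y, z⟩
    have h := poisson1 r1 h1 (s * y + t * z) 0
    have e1 : ∀ x : ℤ, M0 (x, y, z) = cexp (-π * (((r2 : ℂ) * y + u * z) ^ 2 + ((r3 : ℂ) * z) ^ 2))
        * cexp (-π * ((r1 : ℂ) * x + ((s * y + t * z : ℝ) : ℂ)) ^ 2
          + 2 * π * I * ((0 : ℝ) : ℂ) * x) := by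
      intro x
      rw [hM0, ← Complex.exp_add]
      simp only
      congr 1
      push_cast
      ring
    have e2 : ∀ x : ℤ, M1 (x, y, z) = cexp (-π * (((r2 : ℂ) * y + u * z) ^ 2 + ((r3 : ℂ) * z) ^ 2))
        * cexp (-π * (((x : ℂ) - ((0 : ℝ) : ℂ)) / r1) ^ 2
          + 2 * π * I * ((s * y + t * z : ℝ) : ℂ) * (((x : ℂ) - ((0 : ℝ) : ℂ)) / r1)) := by
      intro x
      rw [hM1, ← Complex.exp_add]
      simp only
      congr 1
      push_cast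
      ring
    simp_rw [e1, e2]
    rw [tsum_mul_left, tsum_mul_left, h]
    ring
  have f2 : ∑' p, M1 p = (r2 : ℂ)⁻¹ * ∑' p, M2 p := by
    apply fubR M1 M2 s1 s2
    intro x
    apply fubL (fun q : ℤ × ℤ => M1 (x, q)) (fun q : ℤ × ℤ => M2 (x, q))
      (s1.prod_factor x) (s2.prod_factor x)
    intro z
    have h := poisson1 r2 h2 (u * z) (s * (x / r1))
    have e1 : ∀ y : ℤ, M1 (x, y, z) = cexp (-π * (((x : ℂ) / r1) ^ 2 + ((r3 : ℂ) * z) ^ 2)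
          + 2 * π * I * (t * z * (x / r1)))
        * cexp (-π * ((r2 : ℂ) * y + ((u * z : ℝ) : ℂ)) ^ 2
          + 2 * π * I * ((s * (x / r1) : ℝ) : ℂ) * y) := by
      intro y
      rw [hM1, ← Complex.exp_add]
      simp only
      congr 1
      push_cast
      ring
    have e2 : ∀ y : ℤ, M2 (x, y, z) = cexp (-π * (((x : ℂ) / r1) ^ 2 + ((r3 : ℂ) * z) ^ 2)
          + 2 * π * I * (t * z * (x / r1)))
        * cexp (-π * (((y : ℂ) - ((s * (x / r1) : ℝ) : ℂ)) / r2) ^ 2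
          + 2 * π * I * ((u * z : ℝ) : ℂ) * (((y : ℂ) - ((s * (x / r1) : ℝ) : ℂ)) / r2)) := by
      intro y
      rw [hM2, ← Complex.exp_add]
      simp only
      congr 1
      push_cast
      ring
    simp_rw [e1, e2]
    rw [tsum_mul_left, tsum_mul_left, h]
    ring
  have f3 : ∑' p, M2 p = (r3 : ℂ)⁻¹ * ∑' p, M3 p := by
    apply fubR M2 M3 s2 s3
    intro x
    apply fubR (fun q : ℤ × ℤ => M2 (x, q)) (fun q : ℤ × ℤ => M3 (x, q))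
      (s2.prod_factor x) (s3.prod_factor x)
    intro y
    have h := poisson1 r3 h3 0 (u * ((y - s * (x / r1)) / r2) + t * (x / r1))
    have e1 : ∀ z : ℤ, M2 (x, y, z) = cexp (-π * (((x : ℂ) / r1) ^ 2
          + (((y : ℂ) - s * (x / r1)) / r2) ^ 2))
        * cexp (-π * ((r3 : ℂ) * z + ((0 : ℝ) : ℂ)) ^ 2
          + 2 * π * I * ((u * ((y - s * (x / r1)) / r2) + t * (x / r1) : ℝ) : ℂ) * z) := by
      intro z
      rw [hM2, ← Complex.exp_add]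
      simp only
      congr 1
      push_cast
      ring
    have e2 : ∀ z : ℤ, M3 (x, y, z) = cexp (-π * (((x : ℂ) / r1) ^ 2
          + (((y : ℂ) - s * (x / r1)) / r2) ^ 2))
        * cexp (-π * (((z : ℂ) - ((u * ((y - s * (x / r1)) / r2) + t * (x / r1) : ℝ) : ℂ)) / r3) ^ 2
          + 2 * π * I * ((0 : ℝ) : ℂ)
            * (((z : ℂ) - ((u * ((y - s * (x / r1)) / r2) + t * (x / r1) : ℝ) : ℂ)) / r3)) := by
      intro z
      rw [hM3, ← Complex.exp_add]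
      simp only
      congr 1
      push_cast
      ring
    simp_rw [e1, e2]
    rw [tsum_mul_left, tsum_mul_left, h]
    ring
  rw [f1, f2, f3]
  push_cast
  rw [mul_inv, mul_inv]
  ring

lemma sq_sum_eq (M : Matrix (Fin 3) (Fin 3) ℝ) (v : Fin 3 → ℝ) :
    ∑ i, (M.mulVec v i) ^ 2 = v ⬝ᵥ (Mᵀ * M).mulVec v := by
  rw [← Matrix.mulVec_mulVec, Matrix.dotProduct_mulVec, Matrix.vecMul_transpose]
  simp [dotProduct, pow_two]

lemma dual_eq (A R : Matrix (Fin 3) (Fin 3) ℝ) (h : Aᵀ * A = Rᵀ * R) (v : Fin 3 → ℝ) :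
    ∑ i, ((A⁻¹)ᵀ.mulVec v i) ^ 2 = ∑ i, ((R⁻¹)ᵀ.mulVec v i) ^ 2 := by
  have key : ∀ M : Matrix (Fin 3) (Fin 3) ℝ, ((M⁻¹)ᵀ)ᵀ * (M⁻¹)ᵀ = (Mᵀ * M)⁻¹ := by
    intro M
    rw [Matrix.transpose_transpose, Matrix.mul_inv_rev, Matrix.transpose_nonsing_inv]
  rw [sq_sum_eq, sq_sum_eq, key, key, h]

lemma chol_real (g11 g12 g13 g22 g23 g33 D2 d : ℝ) (h11 : 0 < g11)
    (hD2 : D2 = g11 * g22 - g12 ^ 2) (hD2pos : 0 < D2) (hd : 0 < d)
    (hdet : d = g11 * (g22 * g33 - g23 ^ 2) - g12 * (g12 * g33 - g23 * g13)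
      + g13 * (g12 * g23 - g22 * g13)) :
    ∃ r1 r2 r3 s t u : ℝ, 0 < r1 ∧ 0 < r2 ∧ 0 < r3 ∧ r1 * r1 = g11 ∧ r1 * s = g12 ∧
      r1 * t = g13 ∧ s * s + r2 * r2 = g22 ∧ s * t + r2 * u = g23 ∧
      t * t + u * u + r3 * r3 = g33 ∧ (r1 * r2 * r3) ^ 2 = d := by
  obtain ⟨r1, r1pos, r1sq⟩ : ∃ r1 : ℝ, 0 < r1 ∧ r1 ^ 2 = g11 :=
    ⟨Real.sqrt g11, Real.sqrt_pos.mpr h11, Real.sq_sqrt h11.le⟩
  obtain ⟨r2, r2pos, r2sq⟩ : ∃ r2 : ℝ, 0 < r2 ∧ r2 ^ 2 = D2 / g11 :=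
    ⟨Real.sqrt (D2 / g11), Real.sqrt_pos.mpr (div_pos hD2pos h11),
      Real.sq_sqrt (div_pos hD2pos h11).le⟩
  obtain ⟨r3, r3pos, r3sq⟩ : ∃ r3 : ℝ, 0 < r3 ∧ r3 ^ 2 = d / D2 :=
    ⟨Real.sqrt (d / D2), Real.sqrt_pos.mpr (div_pos hd hD2pos),
      Real.sq_sqrt (div_pos hd hD2pos).le⟩
  have n1 : r1 ≠ 0 := r1pos.ne'
  have n2 : r2 ≠ 0 := r2pos.ne'
  have n3 : D2 ≠ 0 := hD2pos.ne'
  have n4 : g11 ≠ 0 := h11.ne'
  refine ⟨r1, r2, r3, g12 / r1, g13 / r1, (g23 - g12 * g13 / g11) / r2, r1pos, r2pos, r3pos,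
    ?_, ?_, ?_, ?_, ?_, ?_, ?_⟩
  · rw [← pow_two]; exact r1sq
  · field_simp
  · field_simp
  · have ess : (g12 / r1) * (g12 / r1) = g12 ^ 2 / g11 := by
      rw [← r1sq]; field_simp
    rw [ess, ← pow_two, r2sq, hD2]; field_simp; ring
  · have est : (g12 / r1) * (g13 / r1) = g12 * g13 / g11 := by
      rw [← r1sq]; field_simp
    rw [est]; field_simp; ring
  · have ett : (g13 / r1) * (g13 / r1) = g13 ^ 2 / g11 := by
      rw [← r1sq]; field_simp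
    have euu : ((g23 - g12 * g13 / g11) / r2) * ((g23 - g12 * g13 / g11) / r2) =
        (g11 * g23 - g12 * g13) ^ 2 / (g11 * D2) := by
      have : ((g23 - g12 * g13 / g11) / r2) * ((g23 - g12 * g13 / g11) / r2) =
        (g23 - g12 * g13 / g11) ^ 2 / r2 ^ 2 := by field_simp
      rw [this, r2sq]
      field_simp
    rw [ett, euu, ← pow_two r3, r3sq, hdet]
    field_simp
    rw [hD2]
    ring
  · rw [mul_pow, mul_pow, r1sq, r2sq, r3sq]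
    field_simp

/-- Explicit Cholesky decomposition. -/
lemma cholesky (A : Matrix (Fin 3) (Fin 3) ℝ) (hA : A.det ≠ 0) :
    ∃ r1 r2 r3 s t u : ℝ, 0 < r1 ∧ 0 < r2 ∧ 0 < r3 ∧
      Aᵀ * A = (!![r1, s, t; 0, r2, u; 0, 0, r3] : Matrix (Fin 3) (Fin 3) ℝ)ᵀ *
        !![r1, s, t; 0, r2, u; 0, 0, r3] ∧ r1 * r2 * r3 = |A.det| := by
  obtain ⟨g11, hg11⟩ : ∃ g, g = A 0 0 ^ 2 + A 1 0 ^ 2 + A 2 0 ^ 2 := ⟨_, rfl⟩
  obtain ⟨g12, hg12⟩ : ∃ g, g = A 0 0 * A 0 1 + A 1 0 * A 1 1 + A 2 0 * A 2 1 := ⟨_, rfl⟩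
  obtain ⟨g13, hg13⟩ : ∃ g, g = A 0 0 * A 0 2 + A 1 0 * A 1 2 + A 2 0 * A 2 2 := ⟨_, rfl⟩
  obtain ⟨g22, hg22⟩ : ∃ g, g = A 0 1 ^ 2 + A 1 1 ^ 2 + A 2 1 ^ 2 := ⟨_, rfl⟩
  obtain ⟨g23, hg23⟩ : ∃ g, g = A 0 1 * A 0 2 + A 1 1 * A 1 2 + A 2 1 * A 2 2 := ⟨_, rfl⟩
  obtain ⟨g33, hg33⟩ : ∃ g, g = A 0 2 ^ 2 + A 1 2 ^ 2 + A 2 2 ^ 2 := ⟨_, rfl⟩
  obtain ⟨D2, hD2⟩ : ∃ g, g = g11 * g22 - g12 ^ 2 := ⟨_, rfl⟩
  have hdet : A.det ^ 2 = g11 * (g22 * g33 - g23 ^ 2) - g12 * (g12 * g33 - g23 * g13)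
      + g13 * (g12 * g23 - g22 * g13) := by
    rw [Matrix.det_fin_three, hg11, hg12, hg13, hg22, hg23, hg33]
    ring
  have hpos : 0 < A.det ^ 2 := by positivity
  have h33 : 0 ≤ g33 := by rw [hg33]; positivity
  have h22 : 0 ≤ g22 := by rw [hg22]; positivity
  have h11 : 0 ≤ g11 := by rw [hg11]; positivity
  have hD2nn : A.det ^ 2 ≤ D2 * g33 := by
    have e : D2 * g33 - A.det ^ 2 =
        ((A 0 0 * A 1 1 - A 1 0 * A 0 1) * A 1 2 - (A 2 0 * A 0 1 - A 0 0 * A 2 1) * A 2 2) ^ 2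
        + ((A 0 0 * A 1 1 - A 1 0 * A 0 1) * A 0 2 - (A 1 0 * A 2 1 - A 2 0 * A 1 1) * A 2 2) ^ 2
        + ((A 2 0 * A 0 1 - A 0 0 * A 2 1) * A 0 2 - (A 1 0 * A 2 1 - A 2 0 * A 1 1) * A 1 2) ^ 2 := by
      rw [Matrix.det_fin_three, hD2, hg11, hg12, hg22, hg33]
      ring
    have : 0 ≤ D2 * g33 - A.det ^ 2 := by rw [e]; positivity
    linarith
  have hD2pos : 0 < D2 := by
    by_contra hcon
    push Not at hcon
    have : D2 * g33 ≤ 0 := mul_nonpos_of_nonpos_of_nonneg hcon h33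
    linarith
  have hg11pos : 0 < g11 := by
    rcases h11.lt_or_eq with h | h
    · exact h
    · exfalso
      have : D2 = - g12 ^ 2 := by rw [hD2, ← h]; ring
      nlinarith [sq_nonneg g12]
  obtain ⟨r1, r2, r3, s, t, u, r1pos, r2pos, r3pos, e11, e12, e13, e22, e23, e33, ed⟩ :=
    chol_real g11 g12 g13 g22 g23 g33 D2 (A.det ^ 2) hg11pos hD2 hD2pos hpos hdet
  refine ⟨r1, r2, r3, s, t, u, r1pos, r2pos, r3pos, ?_, ?_⟩
  · have m11 : r1 * r1 = A 0 0 ^ 2 + A 1 0 ^ 2 + A 2 0 ^ 2 := e11.trans hg11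
    have m12 : r1 * s = A 0 0 * A 0 1 + A 1 0 * A 1 1 + A 2 0 * A 2 1 := e12.trans hg12
    have m13 : r1 * t = A 0 0 * A 0 2 + A 1 0 * A 1 2 + A 2 0 * A 2 2 := e13.trans hg13
    have m22 := e22.trans hg22
    have m23 := e23.trans hg23
    have m33 := e33.trans hg33
    ext i j
    fin_cases i <;> fin_cases j <;>
      simp [Matrix.mul_apply, Fin.sum_univ_three]
    · linarith
    · linarith
    · linarith
    · linarith
    · linarith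
    · linarith
    · linarith
    · linarith
    · linarith
  · have h2 : |r1 * r2 * r3| = |A.det| := (sq_eq_sq_iff_abs_eq_abs _ _).mp ed
    rw [← h2, abs_of_pos (by positivity)]

theorem poisson (A : Matrix (Fin 3) (Fin 3) ℝ) (hA : A.det ≠ 0) :
    Summable (fun z : Fin 3 → ℤ =>
      Real.exp (-Real.pi * ∑ i, (A.mulVec (fun j => (z j : ℝ)) i) ^ 2)) ∧
    ∑' z : Fin 3 → ℤ, Real.exp (-Real.pi * ∑ i, (A.mulVec (fun j => (z j : ℝ)) i) ^ 2) =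
      |A.det|⁻¹ * ∑' z : Fin 3 → ℤ,
        Real.exp (-Real.pi * ∑ i, ((A⁻¹)ᵀ.mulVec (fun j => (z j : ℝ)) i) ^ 2) := by
  refine ⟨summable_gauss3 A hA, ?_⟩
  obtain ⟨r1, r2, r3, s, t, u, h1, h2, h3, hG, hd⟩ := cholesky A hA
  set R : Matrix (Fin 3) (Fin 3) ℝ := !![r1, s, t; 0, r2, u; 0, 0, r3] with hR
  have hRdet : R.det ≠ 0 := by
    rw [hR, Matrix.det_fin_three]
    simp
    exact ⟨⟨h1.ne', h2.ne'⟩, h3.ne'⟩
  have k1 := h1.ne'
  have k2 := h2.ne'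
  have k3 := h3.ne'
  have hP := poisson_tri r1 r2 r3 s t u h1 h2 h3
  rw [← e3.tsum_eq, ← e3.tsum_eq (fun p : ℤ × ℤ × ℤ => cexp (-π * (((p.1 : ℂ) / r1) ^ 2
      + (((p.2.1 : ℂ) - s * (p.1 / r1)) / r2) ^ 2
      + (((p.2.2 : ℂ) - u * (((p.2.1 : ℂ) - s * (p.1 / r1)) / r2) - t * (p.1 / r1)) / r3) ^ 2)))]
    at hP
  have eL : ∀ z : Fin 3 → ℤ, cexp (-π * (((r1 : ℂ) * (e3 z).1 + s * (e3 z).2.1 + t * (e3 z).2.2) ^ 2
      + ((r2 : ℂ) * (e3 z).2.1 + u * (e3 z).2.2) ^ 2 + ((r3 : ℂ) * (e3 z).2.2) ^ 2)) =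
      ((Real.exp (-Real.pi * ∑ i, (A.mulVec (fun j => (z j : ℝ)) i) ^ 2) : ℝ) : ℂ) := by
    intro z
    rw [sq_sum_eq, hG, ← sq_sum_eq, e3_apply, Complex.ofReal_exp]
    congr 1
    simp [hR, Matrix.mulVec, dotProduct, Fin.sum_univ_three]
  have eR : ∀ z : Fin 3 → ℤ, cexp (-π * ((((e3 z).1 : ℂ) / r1) ^ 2
      + ((((e3 z).2.1 : ℂ) - s * ((e3 z).1 / r1)) / r2) ^ 2
      + ((((e3 z).2.2 : ℂ) - u * ((((e3 z).2.1 : ℂ) - s * ((e3 z).1 / r1)) / r2)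
        - t * ((e3 z).1 / r1)) / r3) ^ 2)) =
      ((Real.exp (-Real.pi * ∑ i, ((A⁻¹)ᵀ.mulVec (fun j => (z j : ℝ)) i) ^ 2) : ℝ) : ℂ) := by
    intro z
    have hY : (R⁻¹)ᵀ.mulVec (fun j => (z j : ℝ)) = ![z 0 / r1, (z 1 - s * (z 0 / r1)) / r2,
        (z 2 - u * ((z 1 - s * (z 0 / r1)) / r2) - t * (z 0 / r1)) / r3] := by
      have hz : (fun j => (z j : ℝ)) = Rᵀ.mulVec ![z 0 / r1, (z 1 - s * (z 0 / r1)) / r2,
        (z 2 - u * ((z 1 - s * (z 0 / r1)) / r2) - t * (z 0 / r1)) / r3] := by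
        funext j
        fin_cases j
        · simp [hR, Matrix.mulVec, dotProduct, Fin.sum_univ_three]
          field_simp
        · simp [hR, Matrix.mulVec, dotProduct, Fin.sum_univ_three]
          field_simp
          ring
        · simp [hR, Matrix.mulVec, dotProduct, Fin.sum_univ_three]
          field_simp
          ring
      rw [hz, Matrix.mulVec_mulVec, ← Matrix.transpose_mul,
        Matrix.mul_nonsing_inv R (isUnit_iff_ne_zero.mpr hRdet), Matrix.transpose_one,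
        Matrix.one_mulVec]
    rw [dual_eq A R hG, hY, e3_apply, Complex.ofReal_exp]
    congr 1
    simp [Fin.sum_univ_three]
  simp_rw [eL, eR] at hP
  rw [← Complex.ofReal_tsum, ← Complex.ofReal_tsum, ← Complex.ofReal_inv, ← Complex.ofReal_mul, hd]
    at hP
  exact_mod_cast hP

end Theta3
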