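import Pool.Agent.H98.Theta3.Bcc
import Pool.Agent.H98.Theta3.Poisson

set_option autoImplicit false

/-!
# The body centred cubic lattice beats the face centred one just above the self-dual point
-/

namespace Theta3

/-- the unimodular change of variables -/
def uni : Z3 ≃ Z3 where
  toFun x := (x.2.1, x.1 + x.2.1, x.1 + x.2.1 + x.2.2)
  invFun y := (y.2.1 - y.1, y.1, y.2.2 - y.2.1)
  left_inv x := by
    obtain ⟨a, b, c⟩ := x
    simp
  right_inv y := by
    obtain ⟨a, b, c⟩ := y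
    simp

theorem uni_apply (x : Z3) : uni x = (x.2.1, x.1 + x.2.1, x.1 + x.2.1 + x.2.2) := rfl

open Matrix in
/-- Poisson duality between the two cubic lattices at the self-dual point. -/
theorem bcc_eq_fcc (t s : ℝ) (ht : 0 < t) (hs : 0 < s) (h1 : 4 * t ^ 3 = Real.pi ^ 3)
    (h2 : 4 * s ^ 3 = t ^ 3) : TF t = TB s := by
  have hpi := Real.pi_pos
  obtain ⟨c, hc0, hc2⟩ : ∃ c : ℝ, 0 < c ∧ c ^ 2 = t / Real.pi :=
    ⟨Real.sqrt (t / Real.pi), Real.sqrt_pos.mpr (div_pos ht hpi), Real.sq_sqrt (by positivity)⟩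
  have hc3 : c ^ 3 = 1 / 2 := by
    have h6 : (c ^ 3) ^ 2 = (1 / 2) ^ 2 := by
      calc (c ^ 3) ^ 2 = (c ^ 2) ^ 3 := by ring
        _ = t ^ 3 / Real.pi ^ 3 := by rw [hc2, div_pow]
        _ = (1 / 2) ^ 2 := by rw [← h1]; field_simp; norm_num
    exact (pow_left_inj₀ (by positivity) (by norm_num) two_ne_zero).mp h6
  have hs1 : s = Real.pi ^ 2 / (4 * t) := by
    have h6 : s ^ 3 = (Real.pi ^ 2 / (4 * t)) ^ 3 := by
      have e1 : (Real.pi ^ 2 / (4 * t)) ^ 3 = (Real.pi ^ 3) ^ 2 / (64 * t ^ 3) := by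
        field_simp
        norm_num
      rw [e1, ← h1]
      have e2 : s ^ 3 = t ^ 3 / 4 := by linarith
      rw [e2]
      field_simp
      norm_num
    exact (pow_left_inj₀ (by positivity) (by positivity) three_ne_zero).mp h6
  have hcne : c ≠ 0 := hc0.ne'
  set A : Matrix (Fin 3) (Fin 3) ℝ := !![-c, 0, 0; c, -c, -c; 0, c, -c] with hA
  have hdet : A.det = -2 * c ^ 3 := by
    rw [hA, Matrix.det_fin_three]
    simp
    ring
  have hdet0 : A.det ≠ 0 := by
    rw [hdet, hc3]; norm_num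
  have habs : |A.det| = 1 := by
    rw [hdet, hc3]; norm_num
  have hinv : A⁻¹ = !![-1 / c, 0, 0; -1 / (2 * c), -1 / (2 * c), 1 / (2 * c);
      -1 / (2 * c), -1 / (2 * c), -1 / (2 * c)] := by
    apply Matrix.inv_eq_right_inv
    rw [hA]
    ext i j
    fin_cases i <;> fin_cases j <;> simp [Matrix.mul_apply, Fin.sum_univ_three] <;> field_simp <;>
      norm_num
  obtain ⟨-, hP⟩ := Theta3.poisson A hdet0
  rw [habs, inv_one, one_mul, hinv] at hP
  have eL : ∀ z : Fin 3 → ℤ, Real.exp (-Real.pi * ∑ i, (A.mulVec (fun j => (z j : ℝ)) i) ^ 2) =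
      Real.exp (-(t * (nF (e3 z) : ℝ))) := by
    intro z
    congr 1
    rw [e3_apply]
    simp only [hA, Matrix.mulVec, dotProduct, Fin.sum_univ_three, nF]
    simp
    have e : t = Real.pi * c ^ 2 := by rw [hc2]; field_simp
    rw [e]
    ring
  have eR : ∀ z : Fin 3 → ℤ, Real.exp (-Real.pi * ∑ i,
      ((!![-1 / c, 0, 0; -1 / (2 * c), -1 / (2 * c), 1 / (2 * c);
      -1 / (2 * c), -1 / (2 * c), -1 / (2 * c)] : Matrix (Fin 3) (Fin 3) ℝ)ᵀ.mulVec
        (fun j => (z j : ℝ)) i) ^ 2) =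
      Real.exp (-(s * (nB (uni (e3 z)) : ℝ))) := by
    intro z
    congr 1
    rw [uni_apply, e3_apply]
    simp only [Matrix.mulVec, dotProduct, Fin.sum_univ_three, nB]
    simp
    rw [hs1]
    have e : t = Real.pi * c ^ 2 := by rw [hc2]; field_simp
    rw [e]
    field_simp
    ring
  simp_rw [eL, eR] at hP
  unfold TF TB
  rw [← uni.tsum_eq (fun x : Z3 => Real.exp (-(s * (nB x : ℝ)))),
    ← e3.tsum_eq (fun x : Z3 => Real.exp (-(t * (nF x : ℝ)))),
    ← e3.tsum_eq (fun x : Z3 => Real.exp (-(s * (nB (uni x) : ℝ))))]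
  exact hP

theorem exp_neg_le {z : ℝ} (hz : 0 ≤ z) : Real.exp (-z) ≤ 1 - z + z ^ 2 / 2 := by
  have h1 := Real.quadratic_le_exp_of_nonneg hz
  rw [Real.exp_neg]
  have h2 : 0 < Real.exp z := Real.exp_pos z
  have h3 : 0 < 1 - z + z ^ 2 / 2 := by nlinarith [sq_nonneg (z - 1)]
  rw [inv_le_comm₀ h2 h3]
  refine le_trans ?_ h1
  rw [inv_le_iff_one_le_mul₀ h3]
  nlinarith [sq_nonneg (z ^ 2)]

/-- the cubic Taylor polynomial is a lower bound for the exponential everywhere -/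
theorem cubic_le_exp (u : ℝ) : 1 + u + u ^ 2 / 2 + u ^ 3 / 6 ≤ Real.exp u := by
  rcases le_total 0 u with hu | hu
  · have h3 := Real.sum_le_exp_of_nonneg hu 4
    simp only [Finset.sum_range_succ, Finset.sum_range_zero, Nat.factorial] at h3
    norm_num at h3
    linarith
  · obtain ⟨v, rfl⟩ : ∃ v, u = -v := ⟨-u, by ring⟩
    have hv : 0 ≤ v := by linarith
    have hmono : MonotoneOn (fun v : ℝ => Real.exp (-v) - (1 - v + v ^ 2 / 2 - v ^ 3 / 6))
        (Set.Ici 0) := by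
      apply monotoneOn_of_deriv_nonneg (convex_Ici 0)
      · fun_prop
      · fun_prop
      · intro x hx
        rw [interior_Ici] at hx
        have hd : HasDerivAt (fun v : ℝ => Real.exp (-v) - (1 - v + v ^ 2 / 2 - v ^ 3 / 6))
            (Real.exp (-x) * (-1) - (0 - 1 + (2 * x ^ (2 - 1) * 1) / 2
              - (3 * x ^ (3 - 1) * 1) / 6)) x := by
          have h1 : HasDerivAt (fun v : ℝ => Real.exp (-v)) (Real.exp (-x) * (-1)) x :=
            (hasDerivAt_neg x).exp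
          have h2 : HasDerivAt (fun v : ℝ => (1 - v + v ^ 2 / 2 - v ^ 3 / 6))
              (0 - 1 + (2 * x ^ (2 - 1) * 1) / 2 - (3 * x ^ (3 - 1) * 1) / 6) x :=
            (((hasDerivAt_const x (1 : ℝ)).sub (hasDerivAt_id x)).add
              (((hasDerivAt_id x).pow 2).div_const 2)).sub (((hasDerivAt_id x).pow 3).div_const 6)
          exact h1.sub h2
        rw [hd.deriv]
        have := exp_neg_le (z := x) (le_of_lt hx)
        norm_num
        nlinarith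
    have h0 := hmono (Set.mem_Ici.mpr le_rfl) (Set.mem_Ici.mpr hv) hv
    simp only [neg_zero, Real.exp_zero] at h0
    nlinarith

theorem q1_ge : (138195 / 1000000 : ℝ) ≤ Real.exp (-(1979082 / 1000000)) := by
  have h3 := Real.exp_bound' (x := (989541 / 1000000 : ℝ)) (by norm_num) (by norm_num)
    (n := 12) (by norm_num)
  simp only [Finset.sum_range_succ, Finset.sum_range_zero, Nat.factorial] at h3
  have h4 : Real.exp (989541 / 1000000) ≤ 2690001 / 1000000 := by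
    norm_num at h3 ⊢
    linarith
  have h5 : Real.exp (-(1979082 / 1000000)) = (Real.exp (989541 / 1000000) ^ 2)⁻¹ := by
    rw [Real.exp_neg, ← Real.exp_nat_mul]
    norm_num
  rw [h5, le_inv_comm₀ (by norm_num) (by positivity)]
  have h6 : Real.exp (989541 / 1000000) ^ 2 ≤ (2690001 / 1000000) ^ 2 :=
    pow_le_pow_left₀ (Real.exp_pos _).le h4 2
  refine h6.trans ?_
  norm_num

theorem r1_le : Real.exp (-(1246739 / 1000000)) ≤ (287442 / 1000000 : ℝ) := by
  have h3 := Real.sum_le_exp_of_nonneg (x := (6233695 / 10000000 : ℝ)) (by norm_num) 12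
  simp only [Finset.sum_range_succ, Finset.sum_range_zero, Nat.factorial] at h3
  have h4 : (18651985 / 10000000 : ℝ) ≤ Real.exp (6233695 / 10000000) := by
    norm_num at h3 ⊢
    linarith
  have h5 : Real.exp (-(1246739 / 1000000)) = (Real.exp (6233695 / 10000000) ^ 2)⁻¹ := by
    rw [Real.exp_neg, ← Real.exp_nat_mul]
    norm_num
  rw [h5, inv_le_comm₀ (by positivity) (by norm_num)]
  have h6 : (18651985 / 10000000 : ℝ) ^ 2 ≤ Real.exp (6233695 / 10000000) ^ 2 :=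
    pow_le_pow_left₀ (by norm_num) h4 2
  refine le_trans ?_ h6
  norm_num

theorem tl_anti {m : ℤ} {t1 t : ℝ} (h1 : 0 < t1) (h : t1 ≤ t) : tl m t ≤ tl m t1 := by
  unfold tl
  refine Summable.tsum_le_tsum (fun x => ?_)
    (summable_ite (summable_nF (by linarith)) (fun x => (Real.exp_pos _).le) _)
    (summable_ite (summable_nF h1) (fun x => (Real.exp_pos _).le) _)
  split_ifs
  · apply Real.exp_le_exp.mpr
    have : (0 : ℝ) ≤ (nF x : ℝ) := by exact_mod_cast nF_nonneg x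
    nlinarith
  · exact le_refl _

/-- lower bound for the decrease of the face centred theta series -/
theorem TF_diff {t1 d : ℝ} (h1 : 0 < t1) (hd : 0 ≤ d) :
    12 * (Real.exp (-t1) ^ 2 * (2 * d - 2 * d ^ 2)) + 6 * (Real.exp (-t1) ^ 4 * (4 * d - 8 * d ^ 2))
      + 24 * (Real.exp (-t1) ^ 6 * (6 * d - 18 * d ^ 2)) ≤ TF t1 - TF (t1 + d) := by
  rw [TF_eq h1, TF_eq (by linarith : 0 < t1 + d)]
  have htl := tl_anti (m := 14) h1 (by linarith : t1 ≤ t1 + d)
  have key : ∀ n : ℕ, Real.exp (-t1) ^ n - Real.exp (-(t1 + d)) ^ n =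
      Real.exp (-t1) ^ n * (1 - Real.exp (-((n : ℝ) * d))) := by
    intro n
    have : Real.exp (-(t1 + d)) ^ n = Real.exp (-t1) ^ n * Real.exp (-((n : ℝ) * d)) := by
      rw [← Real.exp_nat_mul, ← Real.exp_nat_mul, ← Real.exp_add]
      congr 1
      ring
    rw [this]
    ring
  have low : ∀ n : ℕ, Real.exp (-t1) ^ n * ((n : ℝ) * d - ((n : ℝ) * d) ^ 2 / 2) ≤
      Real.exp (-t1) ^ n - Real.exp (-(t1 + d)) ^ n := by
    intro n
    rw [key n]
    apply mul_le_mul_of_nonneg_left _ (by positivity)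
    have := exp_neg_le (z := (n : ℝ) * d) (by positivity)
    linarith
  have pos : ∀ n : ℕ, 0 ≤ Real.exp (-t1) ^ n - Real.exp (-(t1 + d)) ^ n := by
    intro n
    have : Real.exp (-(t1 + d)) ^ n ≤ Real.exp (-t1) ^ n :=
      pow_le_pow_left₀ (Real.exp_pos _).le (Real.exp_le_exp.mpr (by linarith)) n
    linarith
  have l2 := low 2
  have l4 := low 4
  have l6 := low 6
  have p8 := pos 8
  have p10 := pos 10
  have p12 := pos 12
  simp only [Nat.cast_ofNat] at l2 l4 l6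
  have e2 : 2 * d - (2 * d) ^ 2 / 2 = 2 * d - 2 * d ^ 2 := by ring
  have e4 : 4 * d - (4 * d) ^ 2 / 2 = 4 * d - 8 * d ^ 2 := by ring
  have e6 : 6 * d - (6 * d) ^ 2 / 2 = 6 * d - 18 * d ^ 2 := by ring
  rw [e2] at l2
  rw [e4] at l4
  rw [e6] at l6
  linarith

/-- upper bound for the decrease of the body centred theta series -/
theorem TB_diff {s1 d : ℝ} (h1 : 3 / 10 ≤ s1) (hd : 0 ≤ d) :
    TB s1 - TB (s1 + d) ≤ 8 * (Real.exp (-s1) ^ 3 * (3 * d - (3 * d) ^ 2 / 2 + (3 * d) ^ 3 / 6))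
      + 6 * (Real.exp (-s1) ^ 4 * (4 * d - (4 * d) ^ 2 / 2 + (4 * d) ^ 3 / 6))
      + 12 * (Real.exp (-s1) ^ 8 * (8 * d)) + 24 * (Real.exp (-s1) ^ 11 * (11 * d))
      + 8 * (Real.exp (-s1) ^ 12 * (12 * d)) + d * (400000 * Real.exp (-s1) ^ 16) := by
  rw [TB_eq (by linarith : 0 < s1), TB_eq (by linarith : 0 < s1 + d)]
  have key : ∀ n : ℕ, Real.exp (-s1) ^ n - Real.exp (-(s1 + d)) ^ n =
      Real.exp (-s1) ^ n * (1 - Real.exp (-((n : ℝ) * d))) := by
    intro n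
    have : Real.exp (-(s1 + d)) ^ n = Real.exp (-s1) ^ n * Real.exp (-((n : ℝ) * d)) := by
      rw [← Real.exp_nat_mul, ← Real.exp_nat_mul, ← Real.exp_add]
      congr 1
      ring
    rw [this]
    ring
  have up3 : ∀ n : ℕ, Real.exp (-s1) ^ n - Real.exp (-(s1 + d)) ^ n ≤
      Real.exp (-s1) ^ n * ((n : ℝ) * d - ((n : ℝ) * d) ^ 2 / 2 + ((n : ℝ) * d) ^ 3 / 6) := by
    intro n
    rw [key n]
    apply mul_le_mul_of_nonneg_left _ (by positivity)
    have := cubic_le_exp (-((n : ℝ) * d))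
    nlinarith
  have up1 : ∀ n : ℕ, Real.exp (-s1) ^ n - Real.exp (-(s1 + d)) ^ n ≤
      Real.exp (-s1) ^ n * ((n : ℝ) * d) := by
    intro n
    rw [key n]
    apply mul_le_mul_of_nonneg_left _ (by positivity)
    have := Real.add_one_le_exp (-((n : ℝ) * d))
    linarith
  have htail : (∑' x : Z3, if 16 ≤ nB x then Real.exp (-(s1 * (nB x : ℝ))) else 0) -
      (∑' x : Z3, if 16 ≤ nB x then Real.exp (-((s1 + d) * (nB x : ℝ))) else 0) ≤
      d * (400000 * Real.exp (-s1) ^ 16) := by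
    have hs1 := summable_ite (summable_nB (s := s1) (by linarith))
      (fun x => (Real.exp_pos _).le) (fun x => 16 ≤ nB x)
    have hs2 := summable_ite (summable_nB (s := s1 + d) (by linarith))
      (fun x => (Real.exp_pos _).le) (fun x => 16 ≤ nB x)
    rw [← hs1.tsum_sub hs2]
    have hl := tail16_lin h1
    have hl2 : ∑' x : Z3, ((if 16 ≤ nB x then Real.exp (-(s1 * (nB x : ℝ))) else 0) -
        (if 16 ≤ nB x then Real.exp (-((s1 + d) * (nB x : ℝ))) else 0)) ≤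
        ∑' x : Z3, d * (if 16 ≤ nB x then (nB x : ℝ) * Real.exp (-(s1 * (nB x : ℝ))) else 0) := by
      refine Summable.tsum_le_tsum (fun x => ?_) (hs1.sub hs2) ((summable_lin h1).mul_left d)
      split_ifs with h
      · have e : Real.exp (-((s1 + d) * (nB x : ℝ))) =
            Real.exp (-(s1 * (nB x : ℝ))) * Real.exp (-(d * (nB x : ℝ))) := by
          rw [← Real.exp_add]
          congr 1
          ring
        rw [e]
        have h3 := Real.add_one_le_exp (-(d * (nB x : ℝ)))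
        have h4 := Real.exp_pos (-(s1 * (nB x : ℝ)))
        nlinarith
      · simp
    rw [tsum_mul_left] at hl2
    exact hl2.trans (mul_le_mul_of_nonneg_left hl hd)
  have u3 := up3 3
  have u4 := up3 4
  have u8 := up1 8
  have u11 := up1 11
  have u12 := up1 12
  simp only [Nat.cast_ofNat] at u3 u4 u8 u11 u12
  linarith

theorem poly_nonneg {y : ℝ} (h0 : 0 ≤ y) (h1 : y ≤ 1) : 0 ≤ y - y ^ 2 / 2 + y ^ 3 / 6 := by
  have h2 : 0 ≤ y ^ 3 := by positivity
  nlinarith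

theorem num_ineq (d w : ℝ) (hd0 : 0 < d) (hd1 : d < 19 / 1000) (hw0 : 0 < w)
    (hw1 : w ≤ 629961 / 1000000 * d) :
    8 * ((287442 / 1000000 : ℝ) ^ 3 *
        (3 * w - (3 * w) ^ 2 / 2 + (3 * w) ^ 3 / 6))
      + 6 * ((287442 / 1000000 : ℝ) ^ 4 * (4 * w - (4 * w) ^ 2 / 2 + (4 * w) ^ 3 / 6))
      + 12 * ((287442 / 1000000 : ℝ) ^ 8 * (8 * w)) + 24 * ((287442 / 1000000 : ℝ) ^ 11 * (11 * w))
      + 8 * ((287442 / 1000000 : ℝ) ^ 12 * (12 * w))
      + w * (400000 * (287442 / 1000000 : ℝ) ^ 16) <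
      12 * ((138195 / 1000000 : ℝ) ^ 2 * (2 * d - 2 * d ^ 2)) +
      6 * ((138195 / 1000000 : ℝ) ^ 4 * (4 * d - 8 * d ^ 2)) +
      24 * ((138195 / 1000000 : ℝ) ^ 6 * (6 * d - 18 * d ^ 2)) := by
  obtain ⟨v, hv⟩ : ∃ v, v = 629961 / 1000000 * d := ⟨_, rfl⟩
  have hw1' : w ≤ v := by rw [hv]; exact hw1
  have hv0 : 0 < v := by rw [hv]; positivity
  have hv2 : v ≤ 12 / 1000 := by rw [hv]; linarith
  have m3 : 3 * w - (3 * w) ^ 2 / 2 + (3 * w) ^ 3 / 6 ≤
      3 * v - (3 * v) ^ 2 / 2 + (3 * v) ^ 3 / 6 := by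
    have h0 : 0 ≤ 3 - 9 / 2 * (v + w) + 9 / 2 * (v ^ 2 + v * w + w ^ 2) := by
      have : 0 ≤ v ^ 2 + v * w + w ^ 2 := by positivity
      linarith
    have : 0 ≤ (v - w) * (3 - 9 / 2 * (v + w) + 9 / 2 * (v ^ 2 + v * w + w ^ 2)) :=
      mul_nonneg (by linarith) h0
    linarith
  have m4 : 4 * w - (4 * w) ^ 2 / 2 + (4 * w) ^ 3 / 6 ≤
      4 * v - (4 * v) ^ 2 / 2 + (4 * v) ^ 3 / 6 := by
    have h0 : 0 ≤ 4 - 8 * (v + w) + 32 / 3 * (v ^ 2 + v * w + w ^ 2) := by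
      have : 0 ≤ v ^ 2 + v * w + w ^ 2 := by positivity
      linarith
    have : 0 ≤ (v - w) * (4 - 8 * (v + w) + 32 / 3 * (v ^ 2 + v * w + w ^ 2)) :=
      mul_nonneg (by linarith) h0
    linarith
  have hfin : 8 * ((287442 / 1000000 : ℝ) ^ 3 *
      (3 * v - (3 * v) ^ 2 / 2 + (3 * v) ^ 3 / 6))
    + 6 * ((287442 / 1000000 : ℝ) ^ 4 * (4 * v - (4 * v) ^ 2 / 2 + (4 * v) ^ 3 / 6))
    + 12 * ((287442 / 1000000 : ℝ) ^ 8 * (8 * v)) + 24 * ((287442 / 1000000 : ℝ) ^ 11 * (11 * v))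
    + 8 * ((287442 / 1000000 : ℝ) ^ 12 * (12 * v))
    + v * (400000 * (287442 / 1000000 : ℝ) ^ 16) <
    12 * ((138195 / 1000000 : ℝ) ^ 2 * (2 * d - 2 * d ^ 2)) +
    6 * ((138195 / 1000000 : ℝ) ^ 4 * (4 * d - 8 * d ^ 2)) +
    24 * ((138195 / 1000000 : ℝ) ^ 6 * (6 * d - 18 * d ^ 2)) := by
    rw [hv]
    have hd2 : 0 < d * (19 / 1000 - d) := mul_pos hd0 (by linarith)
    have hd3 : 0 < d * (d * (19 / 1000 - d)) := mul_pos hd0 hd2
    norm_num
    linarith
  linarith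

theorem bcc_gt_fcc (t s : ℝ) (ht : Real.pi ^ 3 < 4 * t ^ 3) (ht2 : t ≤ 2046 / 1024) (hs0 : 0 < s)
    (hst : 4 * s ^ 3 = t ^ 3) : TF t < TB s := by
  have hpi := Real.pi_pos
  have hpi1 := Real.pi_gt_d6
  have hpi2 := Real.pi_lt_d6
  have ht0 : 0 < t := by
    have : 0 < t ^ 3 := by have : 0 < Real.pi ^ 3 := by positivity
                           linarith
    by_contra h
    push Not at h
    have : t ^ 3 ≤ 0 := by nlinarith [sq_nonneg t]
    linarith
  obtain ⟨k, hk⟩ : ∃ k, k = s / t := ⟨_, rfl⟩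
  have hkpos : 0 < k := by rw [hk]; positivity
  have hsk : s = k * t := by rw [hk]; field_simp
  have hk3 : 4 * k ^ 3 = 1 := by
    have : 4 * (k * t) ^ 3 = t ^ 3 := by rw [← hsk]; exact hst
    have h3 : t ^ 3 ≠ 0 := by positivity
    have h4 : (4 * k ^ 3) * t ^ 3 = 1 * t ^ 3 := by linarith
    exact mul_right_cancel₀ h3 h4
  have hk1 : 62996 / 100000 < k := by
    by_contra h
    push Not at h
    have : k ^ 3 ≤ (62996 / 100000) ^ 3 := pow_le_pow_left₀ hkpos.le h 3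
    norm_num at this
    linarith
  have hk2 : k < 629961 / 1000000 := by
    by_contra h
    push Not at h
    have : (629961 / 1000000 : ℝ) ^ 3 ≤ k ^ 3 := pow_le_pow_left₀ (by norm_num) h 3
    norm_num at this
    linarith
  obtain ⟨t1, ht1⟩ : ∃ t1, t1 = Real.pi * k := ⟨_, rfl⟩
  obtain ⟨s1, hs1⟩ : ∃ s1, s1 = k * t1 := ⟨_, rfl⟩
  have ht1pos : 0 < t1 := by rw [ht1]; positivity
  have hs1pos : 0 < s1 := by rw [hs1]; positivity
  have e1 : 4 * t1 ^ 3 = Real.pi ^ 3 := by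
    rw [ht1]
    calc 4 * (Real.pi * k) ^ 3 = Real.pi ^ 3 * (4 * k ^ 3) := by ring
      _ = Real.pi ^ 3 := by rw [hk3, mul_one]
  have e2 : 4 * s1 ^ 3 = t1 ^ 3 := by
    rw [hs1]
    calc 4 * (k * t1) ^ 3 = t1 ^ 3 * (4 * k ^ 3) := by ring
      _ = t1 ^ 3 := by rw [hk3, mul_one]
  have heq := bcc_eq_fcc t1 s1 ht1pos hs1pos e1 e2
  have hlt : t1 < t := by
    have : t1 ^ 3 < t ^ 3 := by linarith
    exact lt_of_pow_lt_pow_left₀ 3 ht0.le this
  have ht1lo : 1979077 / 1000000 < t1 := by rw [ht1]; nlinarith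
  have ht1hi : t1 < 1979082 / 1000000 := by rw [ht1]; nlinarith
  have hs1lo : 1246739 / 1000000 < s1 := by rw [hs1]; nlinarith
  obtain ⟨d, hd⟩ : ∃ d, d = t - t1 := ⟨_, rfl⟩
  have hd0 : 0 < d := by linarith
  have hd1 : d < 19 / 1000 := by
    rw [hd]
    norm_num at ht2
    linarith
  have et : t = t1 + d := by linarith
  have es : s = s1 + k * d := by rw [hsk, hs1, hd]; ring
  have hF := TF_diff ht1pos hd0.le
  have hB := TB_diff (s1 := s1) (d := k * d) (by linarith) (by positivity)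
  rw [← et] at hF
  rw [← es] at hB
  -- numerical bounds
  have hq : (138195 / 1000000 : ℝ) ≤ Real.exp (-t1) :=
    q1_ge.trans (Real.exp_le_exp.mpr (by linarith))
  have hr : Real.exp (-s1) ≤ (287442 / 1000000 : ℝ) :=
    (Real.exp_le_exp.mpr (by linarith)).trans r1_le
  have hr0 := Real.exp_pos (-s1)
  have q2 : (138195 / 1000000 : ℝ) ^ 2 ≤ Real.exp (-t1) ^ 2 := pow_le_pow_left₀ (by norm_num) hq 2
  have q4 : (138195 / 1000000 : ℝ) ^ 4 ≤ Real.exp (-t1) ^ 4 := pow_le_pow_left₀ (by norm_num) hq 4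
  have q6 : (138195 / 1000000 : ℝ) ^ 6 ≤ Real.exp (-t1) ^ 6 := pow_le_pow_left₀ (by norm_num) hq 6
  have r3 : Real.exp (-s1) ^ 3 ≤ (287442 / 1000000 : ℝ) ^ 3 := pow_le_pow_left₀ hr0.le hr 3
  have r4 : Real.exp (-s1) ^ 4 ≤ (287442 / 1000000 : ℝ) ^ 4 := pow_le_pow_left₀ hr0.le hr 4
  have r8 : Real.exp (-s1) ^ 8 ≤ (287442 / 1000000 : ℝ) ^ 8 := pow_le_pow_left₀ hr0.le hr 8
  have r11 : Real.exp (-s1) ^ 11 ≤ (287442 / 1000000 : ℝ) ^ 11 := pow_le_pow_left₀ hr0.le hr 11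
  have r12 : Real.exp (-s1) ^ 12 ≤ (287442 / 1000000 : ℝ) ^ 12 := pow_le_pow_left₀ hr0.le hr 12
  have r16 : Real.exp (-s1) ^ 16 ≤ (287442 / 1000000 : ℝ) ^ 16 := pow_le_pow_left₀ hr0.le hr 16
  obtain ⟨w, hw⟩ : ∃ w, w = k * d := ⟨_, rfl⟩
  rw [← hw] at hB
  have hw0 : 0 < w := by rw [hw]; positivity
  have hw1 : w ≤ 629961 / 1000000 * d := by
    rw [hw]; exact mul_le_mul_of_nonneg_right hk2.le hd0.le
  have hw2 : w ≤ 12 / 1000 := by linarith
  have h01 : ∀ a b : ℝ, 0 ≤ b → b ≤ 50 * a → 0 ≤ a * d - b * d ^ 2 := by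
    intro a b hb hab
    have e : a * d - b * d ^ 2 = d * (a - b * d) := by ring
    rw [e]
    apply mul_nonneg hd0.le
    have : b * d ≤ b * (1 / 50) := mul_le_mul_of_nonneg_left (by linarith) hb
    linarith
  -- lower bound of the left side
  have hF2 : 12 * ((138195 / 1000000 : ℝ) ^ 2 * (2 * d - 2 * d ^ 2)) +
      6 * ((138195 / 1000000 : ℝ) ^ 4 * (4 * d - 8 * d ^ 2)) +
      24 * ((138195 / 1000000 : ℝ) ^ 6 * (6 * d - 18 * d ^ 2)) ≤ TF t1 - TF t := by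
    have a2 := mul_le_mul_of_nonneg_right q2 (h01 2 2 (by norm_num) (by norm_num))
    have a4 := mul_le_mul_of_nonneg_right q4 (h01 4 8 (by norm_num) (by norm_num))
    have a6 := mul_le_mul_of_nonneg_right q6 (h01 6 18 (by norm_num) (by norm_num))
    linarith
  have hB2 : TB s1 - TB s ≤ 8 * ((287442 / 1000000 : ℝ) ^ 3 *
        (3 * w - (3 * w) ^ 2 / 2 + (3 * w) ^ 3 / 6))
      + 6 * ((287442 / 1000000 : ℝ) ^ 4 * (4 * w - (4 * w) ^ 2 / 2 + (4 * w) ^ 3 / 6))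
      + 12 * ((287442 / 1000000 : ℝ) ^ 8 * (8 * w)) + 24 * ((287442 / 1000000 : ℝ) ^ 11 * (11 * w))
      + 8 * ((287442 / 1000000 : ℝ) ^ 12 * (12 * w))
      + w * (400000 * (287442 / 1000000 : ℝ) ^ 16) := by
    have hpoly : ∀ a : ℝ, 0 ≤ a → a ≤ 4 → 0 ≤ a * w - (a * w) ^ 2 / 2 + (a * w) ^ 3 / 6 := by
      intro a ha ha4
      have h0 : 0 ≤ a * w := by positivity
      have h1 : a * w ≤ 4 * (12 / 1000) := mul_le_mul ha4 hw2 hw0.le (by norm_num)
      exact poly_nonneg h0 (by linarith)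
    have b3 := mul_le_mul_of_nonneg_right r3
      (hpoly 3 (by norm_num) (by norm_num))
    have b4 := mul_le_mul_of_nonneg_right r4
      (hpoly 4 (by norm_num) (by norm_num))
    have b8 := mul_le_mul_of_nonneg_right r8 (by positivity : 0 ≤ 8 * w)
    have b11 := mul_le_mul_of_nonneg_right r11 (by positivity : 0 ≤ 11 * w)
    have b12 := mul_le_mul_of_nonneg_right r12 (by positivity : 0 ≤ 12 * w)
    have b16 := mul_le_mul_of_nonneg_left r16 (by positivity : 0 ≤ w * 400000)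
    linarith
  have hmain := num_ineq d w hd0 hd1 hw0 hw1
  linarith

end Theta3
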