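import Pool.Agent.H98.Theta3.BccGt

set_option autoImplicit false

/-!
# Local minimality of the body centred cubic lattice
-/

namespace Theta3

/-- first cubic coordinate -/
def w1 (x : Z3) : ℝ := -(x.1 : ℝ) + x.2.1 + x.2.2
/-- second cubic coordinate -/
def w2 (x : Z3) : ℝ := (x.1 : ℝ) - x.2.1 + x.2.2
/-- third cubic coordinate -/
def w3 (x : Z3) : ℝ := (x.1 : ℝ) + x.2.1 - x.2.2

theorem nB_w (x : Z3) : (nB x : ℝ) = w1 x ^ 2 + w2 x ^ 2 + w3 x ^ 2 := by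
  simp only [nB, w1, w2, w3]
  push_cast
  ring

/-- the weight of the tail -/
noncomputable def wt (s : ℝ) (x : Z3) : ℝ := if 8 ≤ nB x then Real.exp (-(s * (nB x : ℝ))) else 0

theorem wt_nonneg (s : ℝ) (x : Z3) : 0 ≤ wt s x := by
  unfold wt
  split_ifs
  · exact (Real.exp_pos _).le
  · exact le_refl _

/-- cyclic permutation -/
def cyc : Z3 ≃ Z3 where
  toFun x := (x.2.1, x.2.2, x.1)
  invFun x := (x.2.2, x.1, x.2.1)
  left_inv _ := rfl
  right_inv _ := rfl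

/-- sign change -/
def sgn : Z3 ≃ Z3 where
  toFun x := (x.1, x.1 - x.2.2, x.1 - x.2.1)
  invFun x := (x.1, x.1 - x.2.2, x.1 - x.2.1)
  left_inv x := by
    obtain ⟨a, b, c⟩ := x
    simp
  right_inv x := by
    obtain ⟨a, b, c⟩ := x
    simp

theorem cyc_apply (x : Z3) : cyc x = (x.2.1, x.2.2, x.1) := rfl
theorem sgn_apply (x : Z3) : sgn x = (x.1, x.1 - x.2.2, x.1 - x.2.1) := rfl

theorem nB_cyc (x : Z3) : nB (cyc x) = nB x := by
  rw [cyc_apply]
  simp only [nB]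
  ring

theorem nB_sgn (x : Z3) : nB (sgn x) = nB x := by
  rw [sgn_apply]
  simp only [nB]
  ring

theorem wt_cyc (s : ℝ) (x : Z3) : wt s (cyc x) = wt s x := by
  unfold wt
  rw [nB_cyc]

theorem wt_sgn (s : ℝ) (x : Z3) : wt s (sgn x) = wt s x := by
  unfold wt
  rw [nB_sgn]

theorem w1_cyc (x : Z3) : w1 (cyc x) = w2 x := by rw [cyc_apply]; simp only [w1, w2]; ring
theorem w2_cyc (x : Z3) : w2 (cyc x) = w3 x := by rw [cyc_apply]; simp only [w2, w3]; ring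
theorem w3_cyc (x : Z3) : w3 (cyc x) = w1 x := by rw [cyc_apply]; simp only [w3, w1]; ring
theorem w1_sgn (x : Z3) : w1 (sgn x) = -w1 x := by
  rw [sgn_apply]; simp only [w1]; push_cast; ring
theorem w2_sgn (x : Z3) : w2 (sgn x) = w2 x := by
  rw [sgn_apply]; simp only [w2]; push_cast; ring
theorem w3_sgn (x : Z3) : w3 (sgn x) = w3 x := by
  rw [sgn_apply]; simp only [w3]; push_cast; ring

theorem summable_wt {s : ℝ} (hs : 0 < s) : Summable (wt s) :=
  summable_ite (summable_nB hs) (fun _ => (Real.exp_pos _).le) (fun x => 8 ≤ nB x)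

theorem summable_wt_nB {s : ℝ} (hs : 0 < s) : Summable (fun x => wt s x * (nB x : ℝ)) := by
  refine Summable.of_nonneg_of_le (fun x => ?_) (fun x => ?_)
    ((summable_nB (s := s / 2) (by linarith)).mul_left (2 / s))
  · have : (0 : ℝ) ≤ (nB x : ℝ) := by exact_mod_cast nB_nonneg x
    exact mul_nonneg (wt_nonneg s x) this
  · have hn : (0 : ℝ) ≤ (nB x : ℝ) := by exact_mod_cast nB_nonneg x
    have h1 : wt s x ≤ Real.exp (-(s * (nB x : ℝ))) := by
      unfold wt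
      split_ifs
      · exact le_refl _
      · exact (Real.exp_pos _).le
    have h2 : (nB x : ℝ) ≤ 2 / s * Real.exp (s / 2 * (nB x : ℝ)) := by
      have := Real.add_one_le_exp (s / 2 * (nB x : ℝ))
      have h3 : (nB x : ℝ) = 2 / s * (s / 2 * (nB x : ℝ)) := by field_simp
      have h4 : 0 < 2 / s := by positivity
      calc (nB x : ℝ) = 2 / s * (s / 2 * (nB x : ℝ)) := h3
        _ ≤ 2 / s * Real.exp (s / 2 * (nB x : ℝ)) :=
          mul_le_mul_of_nonneg_left (by linarith) h4.le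
    calc wt s x * (nB x : ℝ) ≤ Real.exp (-(s * (nB x : ℝ))) *
          (2 / s * Real.exp (s / 2 * (nB x : ℝ))) :=
          mul_le_mul h1 h2 hn (Real.exp_pos _).le
      _ = 2 / s * Real.exp (-(s / 2 * (nB x : ℝ))) := by
          have : Real.exp (-(s * (nB x : ℝ))) * Real.exp (s / 2 * (nB x : ℝ)) =
              Real.exp (-(s / 2 * (nB x : ℝ))) := by
            rw [← Real.exp_add]; congr 1; ring
          rw [← this]; ring

theorem summable_wt_of_le {s : ℝ} (hs : 0 < s) (g : Z3 → ℝ) (hg : ∀ x, |g x| ≤ (nB x : ℝ)) :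
    Summable (fun x => wt s x * g x) := by
  refine Summable.of_norm_bounded (summable_wt_nB hs) (fun x => ?_)
  rw [Real.norm_eq_abs, abs_mul, abs_of_nonneg (wt_nonneg s x)]
  exact mul_le_mul_of_nonneg_left (hg x) (wt_nonneg s x)

theorem tsum_cyc (g : Z3 → ℝ) (s : ℝ) :
    ∑' x, wt s x * g (cyc x) = ∑' x, wt s x * g x := by
  rw [← cyc.tsum_eq (fun x => wt s x * g x)]
  exact tsum_congr fun x => by rw [wt_cyc]

theorem tsum_sgn (g : Z3 → ℝ) (s : ℝ) :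
    ∑' x, wt s x * g (sgn x) = ∑' x, wt s x * g x := by
  rw [← sgn.tsum_eq (fun x => wt s x * g x)]
  exact tsum_congr fun x => by rw [wt_sgn]

/-- the moment of the tail -/
noncomputable def mom (s : ℝ) : ℝ := ∑' x, wt s x * (nB x : ℝ)

theorem moments {s : ℝ} (hs : 0 < s) (a b c d e f : ℝ) :
    ∑' x, wt s x * (a * w1 x ^ 2 + b * w2 x ^ 2 + c * w3 x ^ 2 +
      2 * (d * (w2 x * w3 x) + e * (w3 x * w1 x) + f * (w1 x * w2 x))) =
      (a + b + c) * (mom s / 3) := by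
  have b1 : ∀ x, |w1 x ^ 2| ≤ (nB x : ℝ) := fun x => by
    rw [abs_of_nonneg (sq_nonneg _), nB_w]; nlinarith [sq_nonneg (w2 x), sq_nonneg (w3 x)]
  have b2 : ∀ x, |w2 x ^ 2| ≤ (nB x : ℝ) := fun x => by
    rw [abs_of_nonneg (sq_nonneg _), nB_w]; nlinarith [sq_nonneg (w1 x), sq_nonneg (w3 x)]
  have b3 : ∀ x, |w3 x ^ 2| ≤ (nB x : ℝ) := fun x => by
    rw [abs_of_nonneg (sq_nonneg _), nB_w]; nlinarith [sq_nonneg (w1 x), sq_nonneg (w2 x)]
  have b23 : ∀ x, |w2 x * w3 x| ≤ (nB x : ℝ) := fun x => by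
    rw [abs_le, nB_w]
    constructor <;> nlinarith [sq_nonneg (w1 x), sq_nonneg (w2 x - w3 x), sq_nonneg (w2 x + w3 x)]
  have b31 : ∀ x, |w3 x * w1 x| ≤ (nB x : ℝ) := fun x => by
    rw [abs_le, nB_w]
    constructor <;> nlinarith [sq_nonneg (w2 x), sq_nonneg (w3 x - w1 x), sq_nonneg (w3 x + w1 x)]
  have b12 : ∀ x, |w1 x * w2 x| ≤ (nB x : ℝ) := fun x => by
    rw [abs_le, nB_w]
    constructor <;> nlinarith [sq_nonneg (w3 x), sq_nonneg (w1 x - w2 x), sq_nonneg (w1 x + w2 x)]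
  have s1 := summable_wt_of_le hs _ b1
  have s2 := summable_wt_of_le hs _ b2
  have s3 := summable_wt_of_le hs _ b3
  have s23 := summable_wt_of_le hs _ b23
  have s31 := summable_wt_of_le hs _ b31
  have s12 := summable_wt_of_le hs _ b12
  have e21 : ∑' x, wt s x * w2 x ^ 2 = ∑' x, wt s x * w1 x ^ 2 := by
    rw [← tsum_cyc (fun x => w1 x ^ 2) s]
    exact tsum_congr fun x => by rw [w1_cyc]
  have e32 : ∑' x, wt s x * w3 x ^ 2 = ∑' x, wt s x * w2 x ^ 2 := by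
    rw [← tsum_cyc (fun x => w2 x ^ 2) s]
    exact tsum_congr fun x => by rw [w2_cyc]
  have z12 : ∑' x, wt s x * (w1 x * w2 x) = 0 := by
    have h := tsum_sgn (fun x => w1 x * w2 x) s
    have h2 : ∑' x, wt s x * (w1 (sgn x) * w2 (sgn x)) = -∑' x, wt s x * (w1 x * w2 x) := by
      rw [← tsum_neg]
      exact tsum_congr fun x => by rw [w1_sgn, w2_sgn]; ring
    rw [h2] at h
    linarith
  have z23 : ∑' x, wt s x * (w2 x * w3 x) = 0 := by
    rw [← z12, ← tsum_cyc (fun x => w1 x * w2 x) s]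
    exact tsum_congr fun x => by rw [w1_cyc, w2_cyc]
  have z31 : ∑' x, wt s x * (w3 x * w1 x) = 0 := by
    rw [← z23, ← tsum_cyc (fun x => w2 x * w3 x) s]
    exact tsum_congr fun x => by rw [w2_cyc, w3_cyc]
  have hm : mom s = 3 * ∑' x, wt s x * w1 x ^ 2 := by
    have : mom s = ∑' x, (wt s x * w1 x ^ 2 + wt s x * w2 x ^ 2 + wt s x * w3 x ^ 2) := by
      unfold mom
      exact tsum_congr fun x => by rw [nB_w]; ring
    rw [this, ((s1.add s2).tsum_add s3), s1.tsum_add s2, e32, e21]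
    ring
  have hexp : ∀ x, wt s x * (a * w1 x ^ 2 + b * w2 x ^ 2 + c * w3 x ^ 2 +
      2 * (d * (w2 x * w3 x) + e * (w3 x * w1 x) + f * (w1 x * w2 x))) =
      (a * (wt s x * w1 x ^ 2) + b * (wt s x * w2 x ^ 2) + c * (wt s x * w3 x ^ 2)) +
      (2 * d * (wt s x * (w2 x * w3 x)) + 2 * e * (wt s x * (w3 x * w1 x)) +
        2 * f * (wt s x * (w1 x * w2 x))) := fun x => by ring
  rw [tsum_congr hexp]
  rw [Summable.tsum_add (((s1.mul_left a).add (s2.mul_left b)).add (s3.mul_left c))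
    (((s23.mul_left (2 * d)).add (s31.mul_left (2 * e))).add (s12.mul_left (2 * f)))]
  rw [Summable.tsum_add ((s1.mul_left a).add (s2.mul_left b)) (s3.mul_left c),
    Summable.tsum_add (s1.mul_left a) (s2.mul_left b),
    Summable.tsum_add ((s23.mul_left (2 * d)).add (s31.mul_left (2 * e))) (s12.mul_left (2 * f)),
    Summable.tsum_add (s23.mul_left (2 * d)) (s31.mul_left (2 * e))]
  simp only [tsum_mul_left]
  rw [z12, z23, z31, e32, e21, hm]
  ring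

theorem mom_nonneg (s : ℝ) : 0 ≤ mom s := by
  unfold mom
  refine tsum_nonneg fun x => ?_
  have hn : (0 : ℝ) ≤ (nB x : ℝ) := by exact_mod_cast nB_nonneg x
  exact mul_nonneg (wt_nonneg s x) hn

theorem mom_le {s : ℝ} (hs : 3 / 10 ≤ s) : mom s ≤ 96 * Real.exp (-s) ^ 8 +
    264 * Real.exp (-s) ^ 11 + 96 * Real.exp (-s) ^ 12 + 400000 * Real.exp (-s) ^ 16 := by
  unfold mom
  rw [tsum_split_B15 (f := fun x => wt s x * (nB x : ℝ)) (summable_wt_nB (by linarith))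
    (fun x => mul_nonneg (wt_nonneg s x) (by exact_mod_cast nB_nonneg x))]
  have h1 : ∑ x ∈ B15, wt s x * (nB x : ℝ) =
      96 * Real.exp (-s) ^ 8 + 264 * Real.exp (-s) ^ 11 + 96 * Real.exp (-s) ^ 12 := by
    have := sum_B15 (fun n : ℤ => (if 8 ≤ n then Real.exp (-(s * (n : ℝ))) else 0) * (n : ℝ))
    simp only [wt]
    rw [this]
    have e8 := exp_nB s 8
    have e11 := exp_nB s 11
    have e12 := exp_nB s 12
    push_cast at e8 e11 e12
    norm_num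
    rw [e8, e11, e12]
    ring
  have h2 : ∑' x : Z3, (if 16 ≤ nB x then wt s x * (nB x : ℝ) else 0) ≤
      400000 * Real.exp (-s) ^ 16 := by
    refine le_trans (le_of_eq ?_) (tail16_lin hs)
    refine tsum_congr fun x => ?_
    by_cases h : 16 ≤ nB x
    · rw [if_pos h, if_pos h, wt, if_pos (by omega : 8 ≤ nB x)]
      ring
    · rw [if_neg h, if_neg h]
  rw [h1]
  linarith

/-- the tail of a nearby form, bounded below by its tangent -/
theorem tail_lower {s : ℝ} (hs : 0 < s) (ρ : Rho) (a b c d e f : ℝ)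
    (hfrm : ∀ x, frm ρ x = s * (nB x : ℝ) + s * (a * w1 x ^ 2 + b * w2 x ^ 2 + c * w3 x ^ 2 +
      2 * (d * (w2 x * w3 x) + e * (w3 x * w1 x) + f * (w1 x * w2 x))))
    (hsum : Summable (fun x : Z3 => Real.exp (-(frm ρ x)))) :
    (∑' x, wt s x) - s * ((a + b + c) * (mom s / 3)) ≤
      ∑' x : Z3, if 8 ≤ nB x then Real.exp (-(frm ρ x)) else 0 := by
  have hg : ∀ x, |a * w1 x ^ 2 + b * w2 x ^ 2 + c * w3 x ^ 2 +
      2 * (d * (w2 x * w3 x) + e * (w3 x * w1 x) + f * (w1 x * w2 x))| ≤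
      (|a| + |b| + |c| + 2 * (|d| + |e| + |f|)) * (nB x : ℝ) := by
    intro x
    have b1 : |w1 x ^ 2| ≤ (nB x : ℝ) := by
      rw [abs_of_nonneg (sq_nonneg _), nB_w]; nlinarith [sq_nonneg (w2 x), sq_nonneg (w3 x)]
    have b2 : |w2 x ^ 2| ≤ (nB x : ℝ) := by
      rw [abs_of_nonneg (sq_nonneg _), nB_w]; nlinarith [sq_nonneg (w1 x), sq_nonneg (w3 x)]
    have b3 : |w3 x ^ 2| ≤ (nB x : ℝ) := by
      rw [abs_of_nonneg (sq_nonneg _), nB_w]; nlinarith [sq_nonneg (w1 x), sq_nonneg (w2 x)]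
    have b23 : |w2 x * w3 x| ≤ (nB x : ℝ) := by
      rw [abs_le, nB_w]
      constructor <;> nlinarith [sq_nonneg (w1 x), sq_nonneg (w2 x - w3 x),
        sq_nonneg (w2 x + w3 x)]
    have b31 : |w3 x * w1 x| ≤ (nB x : ℝ) := by
      rw [abs_le, nB_w]
      constructor <;> nlinarith [sq_nonneg (w2 x), sq_nonneg (w3 x - w1 x),
        sq_nonneg (w3 x + w1 x)]
    have b12 : |w1 x * w2 x| ≤ (nB x : ℝ) := by
      rw [abs_le, nB_w]
      constructor <;> nlinarith [sq_nonneg (w3 x), sq_nonneg (w1 x - w2 x),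
        sq_nonneg (w1 x + w2 x)]
    have t1 : |a * w1 x ^ 2| ≤ |a| * (nB x : ℝ) := by
      rw [abs_mul]; exact mul_le_mul_of_nonneg_left b1 (abs_nonneg a)
    have t2 : |b * w2 x ^ 2| ≤ |b| * (nB x : ℝ) := by
      rw [abs_mul]; exact mul_le_mul_of_nonneg_left b2 (abs_nonneg b)
    have t3 : |c * w3 x ^ 2| ≤ |c| * (nB x : ℝ) := by
      rw [abs_mul]; exact mul_le_mul_of_nonneg_left b3 (abs_nonneg c)
    have t23 : |d * (w2 x * w3 x)| ≤ |d| * (nB x : ℝ) := by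
      rw [abs_mul]; exact mul_le_mul_of_nonneg_left b23 (abs_nonneg d)
    have t31 : |e * (w3 x * w1 x)| ≤ |e| * (nB x : ℝ) := by
      rw [abs_mul]; exact mul_le_mul_of_nonneg_left b31 (abs_nonneg e)
    have t12 : |f * (w1 x * w2 x)| ≤ |f| * (nB x : ℝ) := by
      rw [abs_mul]; exact mul_le_mul_of_nonneg_left b12 (abs_nonneg f)
    rw [abs_le] at t1 t2 t3 t23 t31 t12 ⊢
    constructor <;> linarith [t1.1, t1.2, t2.1, t2.2, t3.1, t3.2, t23.1, t23.2, t31.1, t31.2,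
      t12.1, t12.2]
  have sg : Summable (fun x => wt s x * (a * w1 x ^ 2 + b * w2 x ^ 2 + c * w3 x ^ 2 +
      2 * (d * (w2 x * w3 x) + e * (w3 x * w1 x) + f * (w1 x * w2 x)))) := by
    refine Summable.of_norm_bounded ((summable_wt_nB hs).mul_left
      (|a| + |b| + |c| + 2 * (|d| + |e| + |f|))) (fun x => ?_)
    rw [Real.norm_eq_abs, abs_mul, abs_of_nonneg (wt_nonneg s x)]
    have := mul_le_mul_of_nonneg_left (hg x) (wt_nonneg s x)
    linarith
  have key : ∀ x, wt s x - s * (wt s x * (a * w1 x ^ 2 + b * w2 x ^ 2 + c * w3 x ^ 2 +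
      2 * (d * (w2 x * w3 x) + e * (w3 x * w1 x) + f * (w1 x * w2 x)))) ≤
      if 8 ≤ nB x then Real.exp (-(frm ρ x)) else 0 := by
    intro x
    unfold wt
    split_ifs with h
    · rw [hfrm x]
      obtain ⟨G, hG⟩ : ∃ G, G = a * w1 x ^ 2 + b * w2 x ^ 2 + c * w3 x ^ 2 +
        2 * (d * (w2 x * w3 x) + e * (w3 x * w1 x) + f * (w1 x * w2 x)) := ⟨_, rfl⟩
      rw [← hG]
      have e1 : Real.exp (-(s * (nB x : ℝ) + s * G)) =
          Real.exp (-(s * (nB x : ℝ))) * Real.exp (-(s * G)) := by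
        rw [← Real.exp_add]; congr 1; ring
      rw [e1]
      have h2 := Real.add_one_le_exp (-(s * G))
      have h3 := mul_le_mul_of_nonneg_left h2 (Real.exp_pos (-(s * (nB x : ℝ)))).le
      linarith
    · simp
  rw [← moments hs a b c d e f, ← tsum_mul_left, ← Summable.tsum_sub (summable_wt hs)
    (sg.mul_left s)]
  exact Summable.tsum_le_tsum key ((summable_wt hs).sub (sg.mul_left s))
    (summable_ite hsum (fun x => (Real.exp_pos _).le) _)

/-- the scalar inequality behind local minimality -/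
theorem poly_core (g S2 S3 T T' Q s r K : ℝ)
    (h0 : g = S2 / 2 - S3 / 3 + T' - g ^ 2 / 2 - g ^ 3 / 6 + g * S2 / 2)
    (hg1 : -(1575 / 10000) ≤ g)
    (hS2 : 0 ≤ S2) (hS2' : S2 ≤ 83 / 10000)
    (hS3 : S3 ≤ 525 / 10000 * S2) (hS3' : -(525 / 10000 * S2) ≤ S3)
    (hT : 0 ≤ T) (hT2 : T ≤ 11 / 10000) (hT'0 : 0 ≤ T') (hT' : T' ≤ 108 / 100 * T)
    (hQ : Q ≤ 132 / 10000 * T)
    (hs1 : 12466 / 10000 ≤ s) (hs2 : s ≤ 12588 / 10000)
    (hr1 : 2839 / 10000 ≤ r) (hr2 : r ≤ 2876 / 10000) (hK : K = 4 + 4 * r + 1 / 20) :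
    0 ≤ g ∧ 0 ≤ -(g * K) + s * (8 * T + 2 * g ^ 2 + 8 * r * S2)
      - s ^ 2 * (2 / 3 * g ^ 3 + 8 * g * T + 32 * Q) - 32 / 3 * r * s ^ 2 * S3 := by
  -- sign and size of g
  obtain ⟨N, hN⟩ : ∃ N, N = S2 / 2 - S3 / 3 + T' := ⟨_, rfl⟩
  obtain ⟨D, hD⟩ : ∃ D, D = 1 + g / 2 + g ^ 2 / 6 - S2 / 2 := ⟨_, rfl⟩
  have hgD : g * D = N := by rw [hD, hN]; linarith
  have hD9 : 9 / 10 ≤ D := by rw [hD]; nlinarith [sq_nonneg g]
  have hN0 : 0 ≤ N := by rw [hN]; linarith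
  have hN1 : N ≤ 55 / 10000 := by rw [hN]; linarith
  have hg0 : 0 ≤ g := by
    by_contra h
    push Not at h
    have : g * D < 0 := mul_neg_of_neg_of_pos h (by linarith)
    linarith
  have hg7 : g ≤ 7 / 1000 := by
    by_contra h
    push Not at h
    have : 7 / 1000 * (9 / 10) < g * D := by
      apply mul_lt_mul h hD9 (by norm_num) hg0
    norm_num at this
    linarith
  refine ⟨hg0, ?_⟩
  have hK1 : 51356 / 10000 ≤ K := by rw [hK]; linarith
  have hK2 : K ≤ 52004 / 10000 := by rw [hK]; linarith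
  -- rewrite g K
  have e1 : g = N - (g ^ 2 / 2 + g ^ 3 / 6) + g * S2 / 2 := by rw [hN]; linarith
  have p1 : 0 ≤ g ^ 2 / 2 + g ^ 3 / 6 := by positivity
  have p2 : g * S2 / 2 ≤ 7 / 2000 * S2 := by
    have := mul_le_mul_of_nonneg_right hg7 hS2
    linarith
  have e2 : g ≤ N + 7 / 2000 * S2 := by linarith
  have e3 : g * K ≤ (N + 7 / 2000 * S2) * K := mul_le_mul_of_nonneg_right e2 (by linarith)
  -- coefficient of S3
  have hs2' : s ^ 2 ≤ (12588 / 10000) ^ 2 := pow_le_pow_left₀ (by linarith) hs2 2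
  have hs1' : (12466 / 10000 : ℝ) ^ 2 ≤ s ^ 2 := pow_le_pow_left₀ (by norm_num) hs1 2
  obtain ⟨G, hG⟩ : ∃ G, G = 32 / 3 * r * s ^ 2 - K / 3 := ⟨_, rfl⟩
  have hrs1 : (2839 / 10000) * (12466 / 10000 : ℝ) ^ 2 ≤ r * s ^ 2 :=
    mul_le_mul hr1 hs1' (by norm_num) (by linarith)
  have hrs2 : r * s ^ 2 ≤ (2876 / 10000) * (12588 / 10000 : ℝ) ^ 2 :=
    mul_le_mul hr2 hs2' (by positivity) (by norm_num)
  have hG0 : 0 ≤ G := by rw [hG]; norm_num at hrs1; linarith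
  have hG1 : G ≤ 3151 / 1000 := by rw [hG]; norm_num at hrs2; linarith
  have hGS : G * S3 ≤ 3151 / 1000 * (525 / 10000 * S2) := by
    calc G * S3 ≤ G * (525 / 10000 * S2) := mul_le_mul_of_nonneg_left hS3 hG0
      _ ≤ 3151 / 1000 * (525 / 10000 * S2) := mul_le_mul_of_nonneg_right hG1 (by positivity)
  -- coefficient of S2
  have hrs : (2839 / 10000) * (12466 / 10000 : ℝ) ≤ r * s :=
    mul_le_mul hr1 hs1 (by norm_num) (by linarith)
  have hS2c : 22 / 100 * S2 ≤ 8 * (r * s) * S2 - K / 2 * S2 := by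
    have : 22 / 100 ≤ 8 * (r * s) - K / 2 := by norm_num at hrs; linarith
    have := mul_le_mul_of_nonneg_right this hS2
    linarith
  -- coefficient of T
  have hKT : K * T' ≤ 52004 / 10000 * (108 / 100 * T) :=
    mul_le_mul hK2 hT' hT'0 (by norm_num)
  have hsT : 8 * (12466 / 10000) * T ≤ 8 * s * T :=
    mul_le_mul_of_nonneg_right (by linarith) hT
  have hgT : s ^ 2 * (8 * g * T) ≤ (12588 / 10000) ^ 2 * (8 * (7 / 1000) * T) := by
    apply mul_le_mul hs2' _ (by positivity) (by norm_num)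
    exact mul_le_mul_of_nonneg_right (by linarith) hT
  have hQT : s ^ 2 * (32 * Q) ≤ (12588 / 10000) ^ 2 * (32 * (132 / 10000 * T)) := by
    calc s ^ 2 * (32 * Q) ≤ s ^ 2 * (32 * (132 / 10000 * T)) :=
          mul_le_mul_of_nonneg_left (by linarith) (by positivity)
      _ ≤ (12588 / 10000) ^ 2 * (32 * (132 / 10000 * T)) :=
          mul_le_mul_of_nonneg_right hs2' (by positivity)
  -- g^2, g^3
  have hgg : 0 ≤ s * (2 * g ^ 2) - s ^ 2 * (2 / 3 * g ^ 3) := by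
    have : s * (2 * g ^ 2) - s ^ 2 * (2 / 3 * g ^ 3) = s * g ^ 2 * (2 - 2 / 3 * (s * g)) := by ring
    rw [this]
    apply mul_nonneg (by positivity)
    have : s * g ≤ (12588 / 10000) * (7 / 1000) := mul_le_mul hs2 hg7 hg0 (by norm_num)
    linarith
  have hKS : 7 / 2000 * S2 * K ≤ 7 / 2000 * S2 * (52004 / 10000) :=
    mul_le_mul_of_nonneg_left hK2 (by positivity)
  have total : -(g * K) + s * (8 * T + 2 * g ^ 2 + 8 * r * S2)
      - s ^ 2 * (2 / 3 * g ^ 3 + 8 * g * T + 32 * Q) - 32 / 3 * r * s ^ 2 * S3 =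
      (-(g * K) + (N + 7 / 2000 * S2) * K) + (8 * (r * s) * S2 - K / 2 * S2) - G * S3
        - 7 / 2000 * S2 * K
        + (8 * s * T - K * T') - s ^ 2 * (8 * g * T) - s ^ 2 * (32 * Q) +
        (s * (2 * g ^ 2) - s ^ 2 * (2 / 3 * g ^ 3)) := by
    rw [hG, hN]; ring
  rw [total]
  norm_num at hgT hQT hKT hsT hKS hGS
  linarith

theorem sum_B7 (g : Z3 → ℝ) : ∑ x ∈ B7, g x = g (0, 0, 0) + (g (1, 0, 0) + g (-1, 0, 0)) +
    (g (0, 1, 0) + g (0, -1, 0)) + (g (0, 0, 1) + g (0, 0, -1)) + (g (1, 1, 1) + g (-1, -1, -1)) +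
    (g (1, 1, 0) + g (-1, -1, 0)) + (g (1, 0, 1) + g (-1, 0, -1)) +
    (g (0, 1, 1) + g (0, -1, -1)) := by
  unfold B7
  rw [Finset.sum_insert (by decide), Finset.sum_insert (by decide), Finset.sum_insert (by decide),
    Finset.sum_insert (by decide), Finset.sum_insert (by decide), Finset.sum_insert (by decide),
    Finset.sum_insert (by decide), Finset.sum_insert (by decide), Finset.sum_insert (by decide),
    Finset.sum_insert (by decide), Finset.sum_insert (by decide), Finset.sum_insert (by decide),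
    Finset.sum_insert (by decide), Finset.sum_insert (by decide), Finset.sum_singleton]
  ring

theorem TB_eq7 {s : ℝ} (hs : 0 < s) : TB s = 1 + 8 * Real.exp (-s) ^ 3 + 6 * Real.exp (-s) ^ 4 +
    ∑' x, wt s x := by
  unfold TB
  rw [tsum_split_B7 (summable_nB hs) (fun x => (Real.exp_pos _).le), sum_B7]
  have e3 : Real.exp (-(s * 3)) = Real.exp (-s) ^ 3 := by
    have := exp_nB s 3
    push_cast at this
    exact this
  have e4 : Real.exp (-(s * 4)) = Real.exp (-s) ^ 4 := by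
    have := exp_nB s 4
    push_cast at this
    exact this
  have hw : (∑' x : Z3, if 8 ≤ nB x then Real.exp (-(s * (nB x : ℝ))) else 0) = ∑' x, wt s x := rfl
  rw [hw]
  simp only [nB]
  norm_num
  rw [e3, e4]
  ring

/-- lower bound for one exponential by its cubic Taylor polynomial -/
theorem exp_shell (s y : ℝ) (n : ℕ) : Real.exp (-s) ^ n * (1 - y + y ^ 2 / 2 - y ^ 3 / 6) ≤
    Real.exp (-(s * n + y)) := by
  have h : Real.exp (-(s * n + y)) = Real.exp (-s) ^ n * Real.exp (-y) := by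
    rw [← Real.exp_nat_mul, ← Real.exp_add]
    congr 1
    ring
  rw [h]
  apply mul_le_mul_of_nonneg_left _ (by positivity)
  have := cubic_le_exp (-y)
  linarith

theorem exp_hi : Real.exp (-(12466 / 10000)) ≤ (2876 / 10000 : ℝ) := by
  have h3 := Real.sum_le_exp_of_nonneg (x := (6233 / 10000 : ℝ)) (by norm_num) 10
  simp only [Finset.sum_range_succ, Finset.sum_range_zero, Nat.factorial] at h3
  have h4 : (18650 / 10000 : ℝ) ≤ Real.exp (6233 / 10000) := by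
    norm_num at h3 ⊢
    linarith
  have h5 : Real.exp (-(12466 / 10000)) = (Real.exp (6233 / 10000) ^ 2)⁻¹ := by
    rw [Real.exp_neg, ← Real.exp_nat_mul]
    norm_num
  rw [h5, inv_le_comm₀ (by positivity) (by norm_num)]
  have h6 : (18650 / 10000 : ℝ) ^ 2 ≤ Real.exp (6233 / 10000) ^ 2 :=
    pow_le_pow_left₀ (by norm_num) h4 2
  refine le_trans ?_ h6
  norm_num

theorem exp_lo : (2839 / 10000 : ℝ) ≤ Real.exp (-(12588 / 10000)) := by
  have h3 := Real.exp_bound' (x := (6294 / 10000 : ℝ)) (by norm_num) (by norm_num)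
    (n := 10) (by norm_num)
  simp only [Finset.sum_range_succ, Finset.sum_range_zero, Nat.factorial] at h3
  have h4 : Real.exp (6294 / 10000) ≤ 18766 / 10000 := by
    norm_num at h3 ⊢
    linarith
  have h5 : Real.exp (-(12588 / 10000)) = (Real.exp (6294 / 10000) ^ 2)⁻¹ := by
    rw [Real.exp_neg, ← Real.exp_nat_mul]
    norm_num
  rw [h5, le_inv_comm₀ (by norm_num) (by positivity)]
  have h6 : Real.exp (6294 / 10000) ^ 2 ≤ (18766 / 10000) ^ 2 :=
    pow_le_pow_left₀ (Real.exp_pos _).le h4 2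
  refine h6.trans ?_
  norm_num

theorem sq_le_of_abs {u B : ℝ} (h1 : -B ≤ u) (h2 : u ≤ B) : u ^ 2 ≤ B ^ 2 := by nlinarith

theorem abs_mul_le_half (e f : ℝ) : |e * f| ≤ (e ^ 2 + f ^ 2) / 2 := by
  rw [abs_le]
  constructor <;> nlinarith [sq_nonneg (e - f), sq_nonneg (e + f)]

theorem def_bound (d e f : ℝ) (hd1 : -(263 / 10000) ≤ d) (hd2 : d ≤ 263 / 10000) :
    |d * e * f| ≤ 132 / 10000 * (d ^ 2 + e ^ 2 + f ^ 2) := by
  have h1 := abs_mul_le_half e f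
  have h2 : |d| ≤ 263 / 10000 := abs_le.mpr ⟨hd1, hd2⟩
  rw [mul_assoc, abs_mul]
  have h3 : |d| * |e * f| ≤ 263 / 10000 * ((e ^ 2 + f ^ 2) / 2) :=
    mul_le_mul h2 h1 (abs_nonneg _) (by norm_num)
  linarith [sq_nonneg d, sq_nonneg e, sq_nonneg f]

/-- the main estimate in cubic coordinates -/
theorem local_core (ρ : Rho) (s a b c d e f : ℝ) (hs1 : 12466 / 10000 ≤ s)
    (hs2 : s ≤ 12588 / 10000)
    (hfrm : ∀ x, frm ρ x = s * (nB x : ℝ) + s * (a * w1 x ^ 2 + b * w2 x ^ 2 + c * w3 x ^ 2 +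
      2 * (d * (w2 x * w3 x) + e * (w3 x * w1 x) + f * (w1 x * w2 x))))
    (hdet : (1 + a) * (1 + b) * (1 + c) - (1 + a) * d ^ 2 - (1 + b) * e ^ 2 - (1 + c) * f ^ 2 +
      2 * d * e * f = 1)
    (ha1 : -(525 / 10000) ≤ a) (ha2 : a ≤ 525 / 10000)
    (hb1 : -(525 / 10000) ≤ b) (hb2 : b ≤ 525 / 10000)
    (hc1 : -(525 / 10000) ≤ c) (hc2 : c ≤ 525 / 10000)
    (hd1 : -(263 / 10000) ≤ d) (hd2 : d ≤ 263 / 10000)
    (he1 : -(132 / 10000) ≤ e) (he2 : e ≤ 132 / 10000)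
    (hf1 : -(132 / 10000) ≤ f) (hf2 : f ≤ 132 / 10000)
    (hsum : Summable (fun x : Z3 => Real.exp (-(frm ρ x)))) : TB s ≤ Th ρ := by
  have hs0 : 0 < s := by linarith
  obtain ⟨r, hr⟩ : ∃ r, r = Real.exp (-s) := ⟨_, rfl⟩
  have hr2 : r ≤ 2876 / 10000 := by
    rw [hr]; exact (Real.exp_le_exp.mpr (by linarith)).trans exp_hi
  have hr1 : 2839 / 10000 ≤ r := by
    rw [hr]; exact exp_lo.trans (Real.exp_le_exp.mpr (by linarith))
  have hr0 : 0 < r := by linarith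
  obtain ⟨g, hg⟩ : ∃ g, g = a + b + c := ⟨_, rfl⟩
  obtain ⟨S2, hS2⟩ : ∃ S2, S2 = a ^ 2 + b ^ 2 + c ^ 2 := ⟨_, rfl⟩
  obtain ⟨S3, hS3⟩ : ∃ S3, S3 = a ^ 3 + b ^ 3 + c ^ 3 := ⟨_, rfl⟩
  obtain ⟨T, hT⟩ : ∃ T, T = d ^ 2 + e ^ 2 + f ^ 2 := ⟨_, rfl⟩
  obtain ⟨T', hT'⟩ : ∃ T', T' = (1 + a) * d ^ 2 + (1 + b) * e ^ 2 + (1 + c) * f ^ 2 -
    2 * (d * e * f) := ⟨_, rfl⟩
  have h0 : g = S2 / 2 - S3 / 3 + T' - g ^ 2 / 2 - g ^ 3 / 6 + g * S2 / 2 := by
    rw [hg, hS2, hS3, hT']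
    linear_combination hdet
  have hS20 : 0 ≤ S2 := by rw [hS2]; positivity
  have hS21 : S2 ≤ 83 / 10000 := by
    rw [hS2]
    have q1 := sq_le_of_abs ha1 ha2
    have q2 := sq_le_of_abs hb1 hb2
    have q3 := sq_le_of_abs hc1 hc2
    norm_num at q1 q2 q3
    linarith
  have cub : ∀ u : ℝ, -(525 / 10000) ≤ u → u ≤ 525 / 10000 →
      u ^ 3 ≤ 525 / 10000 * u ^ 2 ∧ -(525 / 10000 * u ^ 2) ≤ u ^ 3 := by
    intro u h1 h2
    constructor
    · have : 0 ≤ (525 / 10000 - u) * u ^ 2 := mul_nonneg (by linarith) (sq_nonneg u)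
      linarith
    · have : 0 ≤ (525 / 10000 + u) * u ^ 2 := mul_nonneg (by linarith) (sq_nonneg u)
      linarith
  have ca := cub a ha1 ha2
  have cb := cub b hb1 hb2
  have cc := cub c hc1 hc2
  have hS31 : S3 ≤ 525 / 10000 * S2 := by rw [hS3, hS2]; linarith [ca.1, cb.1, cc.1]
  have hS32 : -(525 / 10000 * S2) ≤ S3 := by rw [hS3, hS2]; linarith [ca.2, cb.2, cc.2]
  have hT0 : 0 ≤ T := by rw [hT]; positivity
  have hT1 : T ≤ 11 / 10000 := by
    rw [hT]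
    have q1 := sq_le_of_abs hd1 hd2
    have q2 := sq_le_of_abs he1 he2
    have q3 := sq_le_of_abs hf1 hf2
    norm_num at q1 q2 q3
    linarith
  have hQ2 : |d * e * f| ≤ 132 / 10000 * T := by rw [hT]; exact def_bound d e f hd1 hd2
  have hQ := abs_le.mp hQ2
  have hT'1 : T' ≤ 108 / 100 * T := by
    have t1 : a * d ^ 2 ≤ 525 / 10000 * d ^ 2 := mul_le_mul_of_nonneg_right ha2 (sq_nonneg d)
    have t2 : b * e ^ 2 ≤ 525 / 10000 * e ^ 2 := mul_le_mul_of_nonneg_right hb2 (sq_nonneg e)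
    have t3 : c * f ^ 2 ≤ 525 / 10000 * f ^ 2 := mul_le_mul_of_nonneg_right hc2 (sq_nonneg f)
    rw [hT', hT]
    rw [hT] at hQ
    linarith [hQ.1, hQ.2, sq_nonneg d, sq_nonneg e, sq_nonneg f]
  have hT'0 : 0 ≤ T' := by
    have t1 : -(525 / 10000) * d ^ 2 ≤ a * d ^ 2 := mul_le_mul_of_nonneg_right ha1 (sq_nonneg d)
    have t2 : -(525 / 10000) * e ^ 2 ≤ b * e ^ 2 := mul_le_mul_of_nonneg_right hb1 (sq_nonneg e)
    have t3 : -(525 / 10000) * f ^ 2 ≤ c * f ^ 2 := mul_le_mul_of_nonneg_right hc1 (sq_nonneg f)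
    rw [hT']
    rw [hT] at hQ
    linarith [hQ.1, hQ.2, sq_nonneg d, sq_nonneg e, sq_nonneg f]
  obtain ⟨hg0, hmain⟩ := poly_core g S2 S3 T T' (d * e * f) s r (4 + 4 * r + 1 / 20) h0
    (by rw [hg]; linarith) hS20 hS21 hS31 hS32 hT0 hT1 hT'0 hT'1 hQ.2 hs1 hs2 hr1 hr2 rfl
  -- the moment
  have hmom : mom s ≤ 3 / 10 * r ^ 3 := by
    have h1 := mom_le (s := s) (by linarith)
    rw [← hr] at h1
    refine h1.trans ?_
    have r5 : r ^ 5 ≤ (2876 / 10000) ^ 5 := pow_le_pow_left₀ hr0.le hr2 5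
    have r8 : r ^ 8 ≤ (2876 / 10000) ^ 8 := pow_le_pow_left₀ hr0.le hr2 8
    have r9 : r ^ 9 ≤ (2876 / 10000) ^ 9 := pow_le_pow_left₀ hr0.le hr2 9
    have r13 : r ^ 13 ≤ (2876 / 10000) ^ 13 := pow_le_pow_left₀ hr0.le hr2 13
    have e : 96 * r ^ 8 + 264 * r ^ 11 + 96 * r ^ 12 + 400000 * r ^ 16 =
        (96 * r ^ 5 + 264 * r ^ 8 + 96 * r ^ 9 + 400000 * r ^ 13) * r ^ 3 := by ring
    rw [e]
    apply mul_le_mul_of_nonneg_right _ (by positivity)
    norm_num at r5 r8 r9 r13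
    linarith
  -- the tail
  have htail := tail_lower hs0 ρ a b c d e f hfrm hsum
  rw [← hg] at htail
  -- the shells
  have hTh : Th ρ = ∑ x ∈ B7, Real.exp (-(frm ρ x)) +
      ∑' x : Z3, if 8 ≤ nB x then Real.exp (-(frm ρ x)) else 0 :=
    tsum_split_B7 hsum (fun x => (Real.exp_pos _).le)
  have hneg : ∀ x y z : ℤ, frm ρ (-x, -y, -z) = frm ρ (x, y, z) := by
    intro x y z
    simp only [frm]
    push_cast
    ring
  have n1 := hneg 1 0 0
  have n2 := hneg 0 1 0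
  have n3 := hneg 0 0 1
  have n4 := hneg 1 1 1
  have n5 := hneg 1 1 0
  have n6 := hneg 1 0 1
  have n7 := hneg 0 1 1
  simp only [neg_zero] at n1 n2 n3 n4 n5 n6 n7
  have z0 : frm ρ (0, 0, 0) = 0 := by simp [frm]
  have f1 : frm ρ (1, 0, 0) = s * (3 : ℕ) + s * (g + 2 * (d - e - f)) := by
    rw [hfrm]; simp only [nB, w1, w2, w3]; push_cast; rw [hg]; ring
  have f2 : frm ρ (0, 1, 0) = s * (3 : ℕ) + s * (g + 2 * (-d + e - f)) := by
    rw [hfrm]; simp only [nB, w1, w2, w3]; push_cast; rw [hg]; ring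
  have f3 : frm ρ (0, 0, 1) = s * (3 : ℕ) + s * (g + 2 * (-d - e + f)) := by
    rw [hfrm]; simp only [nB, w1, w2, w3]; push_cast; rw [hg]; ring
  have f4 : frm ρ (1, 1, 1) = s * (3 : ℕ) + s * (g + 2 * (d + e + f)) := by
    rw [hfrm]; simp only [nB, w1, w2, w3]; push_cast; rw [hg]; ring
  have f5 : frm ρ (1, 1, 0) = s * (4 : ℕ) + 4 * s * c := by
    rw [hfrm]; simp only [nB, w1, w2, w3]; push_cast; ring
  have f6 : frm ρ (1, 0, 1) = s * (4 : ℕ) + 4 * s * b := by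
    rw [hfrm]; simp only [nB, w1, w2, w3]; push_cast; ring
  have f7 : frm ρ (0, 1, 1) = s * (4 : ℕ) + 4 * s * a := by
    rw [hfrm]; simp only [nB, w1, w2, w3]; push_cast; ring
  have x1 := exp_shell s (s * (g + 2 * (d - e - f))) 3
  have x2 := exp_shell s (s * (g + 2 * (-d + e - f))) 3
  have x3 := exp_shell s (s * (g + 2 * (-d - e + f))) 3
  have x4 := exp_shell s (s * (g + 2 * (d + e + f))) 3
  have x5 := exp_shell s (4 * s * c) 4
  have x6 := exp_shell s (4 * s * b) 4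
  have x7 := exp_shell s (4 * s * a) 4
  rw [← f1, ← hr] at x1
  rw [← f2, ← hr] at x2
  rw [← f3, ← hr] at x3
  rw [← f4, ← hr] at x4
  rw [← f5, ← hr] at x5
  rw [← f6, ← hr] at x6
  rw [← f7, ← hr] at x7
  rw [hTh, sum_B7, n1, n2, n3, n4, n5, n6, n7, z0, TB_eq7 hs0, ← hr]
  simp only [neg_zero, Real.exp_zero]
  have hfin : 2 * r ^ 3 * (s * (-(g * (4 + 4 * r + 1 / 20)) + s * (8 * T + 2 * g ^ 2 + 8 * r * S2)
      - s ^ 2 * (2 / 3 * g ^ 3 + 8 * g * T + 32 * (d * e * f)) - 32 / 3 * r * s ^ 2 * S3)) =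
      2 * (r ^ 3 * (1 - s * (g + 2 * (d - e - f)) + (s * (g + 2 * (d - e - f))) ^ 2 / 2 -
        (s * (g + 2 * (d - e - f))) ^ 3 / 6)) +
      2 * (r ^ 3 * (1 - s * (g + 2 * (-d + e - f)) + (s * (g + 2 * (-d + e - f))) ^ 2 / 2 -
        (s * (g + 2 * (-d + e - f))) ^ 3 / 6)) +
      2 * (r ^ 3 * (1 - s * (g + 2 * (-d - e + f)) + (s * (g + 2 * (-d - e + f))) ^ 2 / 2 -
        (s * (g + 2 * (-d - e + f))) ^ 3 / 6)) +
      2 * (r ^ 3 * (1 - s * (g + 2 * (d + e + f)) + (s * (g + 2 * (d + e + f))) ^ 2 / 2 -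
        (s * (g + 2 * (d + e + f))) ^ 3 / 6)) +
      2 * (r ^ 4 * (1 - 4 * s * c + (4 * s * c) ^ 2 / 2 - (4 * s * c) ^ 3 / 6)) +
      2 * (r ^ 4 * (1 - 4 * s * b + (4 * s * b) ^ 2 / 2 - (4 * s * b) ^ 3 / 6)) +
      2 * (r ^ 4 * (1 - 4 * s * a + (4 * s * a) ^ 2 / 2 - (4 * s * a) ^ 3 / 6)) -
      (8 * r ^ 3 + 6 * r ^ 4) - 2 * r ^ 3 * s * g / 20 := by
    have hga : g * r ^ 4 * s = (a + b + c) * r ^ 4 * s := by rw [hg]
    rw [hT, hS2, hS3]
    linear_combination (-8) * hga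
  have hpos : 0 ≤ 2 * r ^ 3 * (s * (-(g * (4 + 4 * r + 1 / 20)) +
      s * (8 * T + 2 * g ^ 2 + 8 * r * S2)
      - s ^ 2 * (2 / 3 * g ^ 3 + 8 * g * T + 32 * (d * e * f)) - 32 / 3 * r * s ^ 2 * S3)) :=
    mul_nonneg (by positivity) (mul_nonneg hs0.le hmain)
  rw [hfin] at hpos
  have hm2 : s * (g * (mom s / 3)) ≤ 2 * r ^ 3 * s * g / 20 := by
    have h1 : s * g * mom s ≤ s * g * (3 / 10 * r ^ 3) :=
      mul_le_mul_of_nonneg_left hmom (by positivity)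
    linarith
  linarith

theorem dt_lower (p q r1 r2 r3 r4 u : ℝ) (hu : 0 < u) (hp : u ≤ p) (hq : u ≤ q) (h1 : u ≤ r1)
    (h2 : u ≤ r2) (h3 : u ≤ r3) (h4 : u ≤ r4) : 16 * u ^ 3 ≤ dt ⟨p, q, r1, r2, r3, r4⟩ := by
  have m1 : u * u ≤ p * q := mul_le_mul hp hq hu.le (by linarith)
  have m2 : u * u * (4 * u) ≤ p * q * (r1 + r2 + r3 + r4) :=
    mul_le_mul m1 (by linarith) (by positivity) (by nlinarith)
  have m3 : (2 * u) * (2 * u) ≤ (r1 + r3) * (r2 + r4) :=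
    mul_le_mul (by linarith) (by linarith) (by positivity) (by linarith)
  have m4 : u * ((2 * u) * (2 * u)) ≤ p * ((r1 + r3) * (r2 + r4)) :=
    mul_le_mul hp m3 (by positivity) (by linarith)
  have m5 : (2 * u) * (2 * u) ≤ (r1 + r2) * (r3 + r4) :=
    mul_le_mul (by linarith) (by linarith) (by positivity) (by linarith)
  have m6 : u * ((2 * u) * (2 * u)) ≤ q * ((r1 + r2) * (r3 + r4)) :=
    mul_le_mul hq m5 (by positivity) (by linarith)
  have m7 : u * u ≤ r1 * r2 := mul_le_mul h1 h2 hu.le (by linarith)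
  have m8 : u * u * (2 * u) ≤ r1 * r2 * (r3 + r4) :=
    mul_le_mul m7 (by linarith) (by positivity) (by nlinarith)
  have m9 : u * u ≤ r3 * r4 := mul_le_mul h3 h4 hu.le (by linarith)
  have m10 : u * u * (2 * u) ≤ r3 * r4 * (r1 + r2) :=
    mul_le_mul m9 (by linarith) (by positivity) (by nlinarith)
  simp only [dt]
  linarith

theorem cross_nonneg (B C D E F : ℝ) (h1 : D ≤ B) (h2 : -D ≤ B) (h3 : D ≤ C) (h4 : -D ≤ C) :
    0 ≤ B * E ^ 2 + C * F ^ 2 - 2 * D * E * F := by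
  rcases le_total 0 D with h | h
  · have e1 := mul_nonneg (sub_nonneg.mpr h1) (sq_nonneg E)
    have e2 := mul_nonneg (sub_nonneg.mpr h3) (sq_nonneg F)
    have e3 := mul_nonneg h (sq_nonneg (E - F))
    linarith
  · have e1 := mul_nonneg (by linarith : 0 ≤ B + D) (sq_nonneg E)
    have e2 := mul_nonneg (by linarith : 0 ≤ C + D) (sq_nonneg F)
    have e3 := mul_nonneg (by linarith : 0 ≤ -D) (sq_nonneg (E + F))
    linarith

theorem bcc_local (ρ : Rho) (t s : ℝ) (hS : Sorted ρ) (h1 : 0 < ρ.r1)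
    (hp1 : 3892 * ρ.r1 ≤ 4096 * ρ.p) (hp2 : 4096 * ρ.p ≤ 4300 * ρ.r1)
    (hq1 : 3892 * ρ.r1 ≤ 4096 * ρ.q) (hq2 : 4096 * ρ.q ≤ 4300 * ρ.r1)
    (h21 : 3892 * ρ.r1 ≤ 4096 * ρ.r2) (h31 : 3892 * ρ.r1 ≤ 4096 * ρ.r3)
    (h41 : 3892 * ρ.r1 ≤ 4096 * ρ.r4) (ht : 1979 / 1000 ≤ t) (ht2 : t ≤ 2046 / 1024)
    (hdt : dt ρ = 4 * t ^ 3) (hs0 : 0 < s) (hst : 4 * s ^ 3 = t ^ 3)
    (hsum : Summable (fun x : Z3 => Real.exp (-(frm ρ x)))) : TB s ≤ Th ρ := by
  obtain ⟨p, q, r1, r2, r3, r4⟩ := ρ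
  obtain ⟨-, -, -, -, h32, h21', h41', hs1, hs2⟩ := hS
  simp only at *
  have hs16 : dt ⟨p, q, r1, r2, r3, r4⟩ = 16 * s ^ 3 := by rw [hdt]; linarith
  -- bounds for s
  have hsl : 12466 / 10000 ≤ s := by
    by_contra h
    push Not at h
    have e1 : s ^ 3 ≤ (12466 / 10000) ^ 3 := pow_le_pow_left₀ hs0.le h.le 3
    have e2 : (1979 / 1000 : ℝ) ^ 3 ≤ t ^ 3 := pow_le_pow_left₀ (by norm_num) ht 3
    norm_num at e1 e2
    linarith
  have hsu : s ≤ 12588 / 10000 := by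
    by_contra h
    push Not at h
    have e1 : (12588 / 10000 : ℝ) ^ 3 ≤ s ^ 3 := pow_le_pow_left₀ (by norm_num) h.le 3
    have e2 : t ^ 3 ≤ (2046 / 1024) ^ 3 := pow_le_pow_left₀ (by linarith) ht2 3
    norm_num at e1 e2
    linarith
  have hlow : 3892 / 4096 * r1 ≤ s := by
    by_contra h
    push Not at h
    have e1 := dt_lower p q r1 r2 r3 r4 (3892 / 4096 * r1) (by positivity) (by linarith)
      (by linarith) (by linarith) (by linarith) (by linarith) (by linarith)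
    rw [hs16] at e1
    have e2 : s ^ 3 < (3892 / 4096 * r1) ^ 3 := pow_lt_pow_left₀ h hs0.le three_ne_zero
    linarith
  have hcross := cross_nonneg (p + q + r2 + r3) (p + q + r1 + r4) (p - q) (r1 - r4) (r2 - r3)
    (by linarith) (by linarith) (by linarith) (by linarith)
  have hupp : s ≤ r1 := by
    by_contra h
    push Not at h
    have e1 : r1 ^ 3 < s ^ 3 := pow_lt_pow_left₀ h h1.le three_ne_zero
    have e2 : 4 * dt ⟨p, q, r1, r2, r3, r4⟩ = (r1 + r2 + r3 + r4) * (p + q + r2 + r3) *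
        (p + q + r1 + r4) - (r1 + r2 + r3 + r4) * (p - q) ^ 2 -
        ((p + q + r2 + r3) * (r1 - r4) ^ 2 + (p + q + r1 + r4) * (r2 - r3) ^ 2 -
          2 * (p - q) * (r1 - r4) * (r2 - r3)) := by
      simp only [dt]; ring
    have e3 : (r1 + r2 + r3 + r4) * (p + q + r2 + r3) ≤ (4 * r1) * (4 * r1) :=
      mul_le_mul (by linarith) (by linarith) (by linarith) (by linarith)
    have e4 : (r1 + r2 + r3 + r4) * (p + q + r2 + r3) * (p + q + r1 + r4) ≤
        (4 * r1) * (4 * r1) * (4 * r1) :=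
      mul_le_mul e3 (by linarith) (by linarith) (by positivity)
    have e5 : 0 ≤ (r1 + r2 + r3 + r4) * (p - q) ^ 2 :=
      mul_nonneg (by linarith) (sq_nonneg _)
    rw [hs16] at e2
    linarith
  -- coordinates
  obtain ⟨a, ha⟩ : ∃ a, r1 + r2 + r3 + r4 = 4 * s * (1 + a) :=
    ⟨(r1 + r2 + r3 + r4) / (4 * s) - 1, by field_simp; ring⟩
  obtain ⟨b, hb⟩ : ∃ b, p + q + r2 + r3 = 4 * s * (1 + b) :=
    ⟨(p + q + r2 + r3) / (4 * s) - 1, by field_simp; ring⟩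
  obtain ⟨c, hc⟩ : ∃ c, p + q + r1 + r4 = 4 * s * (1 + c) :=
    ⟨(p + q + r1 + r4) / (4 * s) - 1, by field_simp; ring⟩
  obtain ⟨d, hd⟩ : ∃ d, p - q = 4 * s * d := ⟨(p - q) / (4 * s), by field_simp⟩
  obtain ⟨e, he⟩ : ∃ e, r1 - r4 = 4 * s * e := ⟨(r1 - r4) / (4 * s), by field_simp⟩
  obtain ⟨f, hf⟩ : ∃ f, r2 - r3 = 4 * s * f := ⟨(r2 - r3) / (4 * s), by field_simp⟩
  have hp : p = s * (1 + b + c - a) + 2 * s * d := by linarith
  have hq : q = s * (1 + b + c - a) - 2 * s * d := by linarith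
  have hr1 : r1 = s * (1 + a + c - b) + 2 * s * e := by linarith
  have hr4 : r4 = s * (1 + a + c - b) - 2 * s * e := by linarith
  have hr2 : r2 = s * (1 + a + b - c) + 2 * s * f := by linarith
  have hr3 : r3 = s * (1 + a + b - c) - 2 * s * f := by linarith
  have up : ∀ u B : ℝ, 4 * s * u ≤ 4 * s * B → u ≤ B := fun u B h =>
    le_of_mul_le_mul_left h (by linarith)
  have lo : ∀ u B : ℝ, 4 * s * B ≤ 4 * s * u → B ≤ u := fun u B h =>
    le_of_mul_le_mul_left h (by linarith)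
  refine local_core ⟨p, q, r1, r2, r3, r4⟩ s a b c d e f hsl hsu ?_ ?_
    (lo a _ (by linarith)) (up a _ (by linarith))
    (lo b _ (by linarith)) (up b _ (by linarith))
    (lo c _ (by linarith)) (up c _ (by linarith))
    (lo d _ (by linarith)) (up d _ (by linarith))
    (lo e _ (by linarith)) (up e _ (by linarith))
    (lo f _ (by linarith)) (up f _ (by linarith)) hsum
  · intro x
    simp only [frm, nB, w1, w2, w3]
    push_cast
    rw [hp, hq, hr1, hr2, hr3, hr4]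
    ring
  · have h3 : s ^ 3 ≠ 0 := by positivity
    have h4 : 16 * s ^ 3 * ((1 + a) * (1 + b) * (1 + c) - (1 + a) * d ^ 2 - (1 + b) * e ^ 2 -
        (1 + c) * f ^ 2 + 2 * d * e * f) = 16 * s ^ 3 * 1 := by
      have h5 : dt ⟨p, q, r1, r2, r3, r4⟩ = 16 * s ^ 3 * ((1 + a) * (1 + b) * (1 + c) -
          (1 + a) * d ^ 2 - (1 + b) * e ^ 2 - (1 + c) * f ^ 2 + 2 * d * e * f) := by
        simp only [dt]
        rw [hp, hq, hr1, hr2, hr3, hr4]
        ring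
      rw [← h5, hs16, mul_one]
    exact mul_left_cancel₀ (by positivity) h4

end Theta3
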