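import Pool.Agent.H98.Theta3.Check

set_option autoImplicit false

/-! Combining certificates. -/

namespace Theta3

variable {l r : Tr} {lp hp lq hq l2 h2 l3 h3 l4 h4 : Nat}

theorem chk_P (hl : chk l lp (Nat.shiftRight (Nat.add lp hp) 1) lq hq l2 h2 l3 h3 l4 h4 = true)
    (hr : chk r (Nat.shiftRight (Nat.add lp hp) 1) hp lq hq l2 h2 l3 h3 l4 h4 = true) :
    chk (.P l r) lp hp lq hq l2 h2 l3 h3 l4 h4 = true := by
  have e : chk (.P l r) lp hp lq hq l2 h2 l3 h3 l4 h4 =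
    frc (Nat.shiftRight (Nat.add lp hp) 1) (fun m =>
        bq (chk l lp m lq hq l2 h2 l3 h3 l4 h4) (chk r m hp lq hq l2 h2 l3 h3 l4 h4) false) := rfl
  rw [e, frc_eq, bq_false]
  exact ⟨hl, hr⟩

theorem chk_Q (hl : chk l lp hp lq (Nat.shiftRight (Nat.add lq hq) 1) l2 h2 l3 h3 l4 h4 = true)
    (hr : chk r lp hp (Nat.shiftRight (Nat.add lq hq) 1) hq l2 h2 l3 h3 l4 h4 = true) :
    chk (.Q l r) lp hp lq hq l2 h2 l3 h3 l4 h4 = true := by
  have e : chk (.Q l r) lp hp lq hq l2 h2 l3 h3 l4 h4 =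
    frc (Nat.shiftRight (Nat.add lq hq) 1) (fun m =>
        bq (chk l lp hp lq m l2 h2 l3 h3 l4 h4) (chk r lp hp m hq l2 h2 l3 h3 l4 h4) false) := rfl
  rw [e, frc_eq, bq_false]
  exact ⟨hl, hr⟩

theorem chk_B (hl : chk l lp hp lq hq l2 (Nat.shiftRight (Nat.add l2 h2) 1) l3 h3 l4 h4 = true)
    (hr : chk r lp hp lq hq (Nat.shiftRight (Nat.add l2 h2) 1) h2 l3 h3 l4 h4 = true) :
    chk (.B l r) lp hp lq hq l2 h2 l3 h3 l4 h4 = true := by
  have e : chk (.B l r) lp hp lq hq l2 h2 l3 h3 l4 h4 =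
    frc (Nat.shiftRight (Nat.add l2 h2) 1) (fun m =>
        bq (chk l lp hp lq hq l2 m l3 h3 l4 h4) (chk r lp hp lq hq m h2 l3 h3 l4 h4) false) := rfl
  rw [e, frc_eq, bq_false]
  exact ⟨hl, hr⟩

theorem chk_C (hl : chk l lp hp lq hq l2 h2 l3 (Nat.shiftRight (Nat.add l3 h3) 1) l4 h4 = true)
    (hr : chk r lp hp lq hq l2 h2 (Nat.shiftRight (Nat.add l3 h3) 1) h3 l4 h4 = true) :
    chk (.C l r) lp hp lq hq l2 h2 l3 h3 l4 h4 = true := by
  have e : chk (.C l r) lp hp lq hq l2 h2 l3 h3 l4 h4 =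
    frc (Nat.shiftRight (Nat.add l3 h3) 1) (fun m =>
        bq (chk l lp hp lq hq l2 h2 l3 m l4 h4) (chk r lp hp lq hq l2 h2 m h3 l4 h4) false) := rfl
  rw [e, frc_eq, bq_false]
  exact ⟨hl, hr⟩

theorem chk_D (hl : chk l lp hp lq hq l2 h2 l3 h3 l4 (Nat.shiftRight (Nat.add l4 h4) 1) = true)
    (hr : chk r lp hp lq hq l2 h2 l3 h3 (Nat.shiftRight (Nat.add l4 h4) 1) h4 = true) :
    chk (.D l r) lp hp lq hq l2 h2 l3 h3 l4 h4 = true := by
  have e : chk (.D l r) lp hp lq hq l2 h2 l3 h3 l4 h4 =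
    frc (Nat.shiftRight (Nat.add l4 h4) 1) (fun m =>
        bq (chk l lp hp lq hq l2 h2 l3 h3 l4 m) (chk r lp hp lq hq l2 h2 l3 h3 m h4) false) := rfl
  rw [e, frc_eq, bq_false]
  exact ⟨hl, hr⟩

end Theta3
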