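import Pool.Agent.H98.Theta3.Cert0
import Pool.Agent.H98.Theta3.Cert1
import Pool.Agent.H98.Theta3.Cert2
import Pool.Agent.H98.Theta3.Cert3
import Pool.Agent.H98.Theta3.Cert4
import Pool.Agent.H98.Theta3.Cert5
import Pool.Agent.H98.Theta3.Cert6
import Pool.Agent.H98.Theta3.Cert7
import Pool.Agent.H98.Theta3.Cert8
import Pool.Agent.H98.Theta3.Cert9
import Pool.Agent.H98.Theta3.Cert10
import Pool.Agent.H98.Theta3.Cert11
import Pool.Agent.H98.Theta3.Cert12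
import Pool.Agent.H98.Theta3.Cert13
import Pool.Agent.H98.Theta3.Cert14
import Pool.Agent.H98.Theta3.Cert15
import Pool.Agent.H98.Theta3.Cert16
import Pool.Agent.H98.Theta3.Cert17
import Pool.Agent.H98.Theta3.Combine

set_option autoImplicit false
set_option maxRecDepth 100000

/-! The whole certificate (generated). -/

namespace Theta3

/-- the root of the certificate tree -/
def root : Tr := (.P (.Q (.P (.Q (.B c0 (.C c1 (.D c2 (.P (.Q (.D c3 (.B c4 (.C c5 (.P (.Q (.D c6 (.B c7 (.C c8 (.P (.Q (.D c9 (.B c10 (.C c11 (.P (.Q c12 c13) (.Q c14 c15))))) (.D c16 (.C c17 (.B c18 (.Q c19 c20))))) (.Q (.D c21 (.B c22 (.C c23 (.P c24 c25)))) c26))))) (.D c27 c28)) (.Q c29 c30))))) c31) (.Q c32 (.D c33 (.B c34 (.C c35 (.D c36 (.P c37 c38)))))))))) (.D c39 (.C c40 (.B c41 (.Q c42 c43))))) (.B c44 (.D c45 (.Q c46 (.C c47 (.D c48 (.P (.Q (.B c49 (.C c50 (.D c51 (.P c52 (.Q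 c53 c54))))) (.B c55 (.C c56 (.Q c57 c58)))) (.Q (.C c59 (.B c60 (.P c61 c62))) (.B c63 (.C c64 (.D c65 (.P (.Q (.B c66 (.C c67 (.D c68 (.D c69 c70)))) (.Q (.B c71 (.C c72 (.P c73 c74))) c75)) (.Q (.P (.C c76 (.B c77 (.Q c78 c79))) c80) (.B c81 (.C c82 (.D c83 (.P (.Q (.B c84 (.C c85 (.D c86 (.D c87 (.P c88 c89))))) (.Q (.P c90 (.B c91 (.C c92 (.D c93 (.C c94 c95))))) c96)) (.Q (.P (.Q c97 (.C c98 (.B c99 (.D c100 c101)))) c102) (.B c103 (.C c104 (.D c105 (.D (.D c106 (.P c107 c108)) (.D (.P (.Q (.B c109 (.C c110 (.P c111 c112))) c113) c114) (.P (.Q (.P (.B c115 (.C c116 (.B c117 c118))) c119) c120) c121)))))))))))))))))))))))) c122) c123)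

theorem root_ok : chk root 0 8192 0 8192 0 4096 0 4096 0 4096 = true :=
  (chk_P (chk_Q (chk_P (chk_Q (chk_B c0_ok (chk_C c1_ok (chk_D c2_ok (chk_P (chk_Q (chk_D c3_ok (chk_B c4_ok (chk_C c5_ok (chk_P (chk_Q (chk_D c6_ok (chk_B c7_ok (chk_C c8_ok (chk_P (chk_Q (chk_D c9_ok (chk_B c10_ok (chk_C c11_ok (chk_P (chk_Q c12_ok c13_ok) (chk_Q c14_ok c15_ok))))) (chk_D c16_ok (chk_C c17_ok (chk_B c18_ok (chk_Q c19_ok c20_ok))))) (chk_Q (chk_D c21_ok (chk_B c22_ok (chk_C c23_ok (chk_P c24_ok c25_ok)))) c26_ok))))) (chk_D c27_ok c28_ok)) (chk_Q c29_ok c30_ok))))) c31_ok) (chk_Q c32_ok (chk_D c33_ok (chk_B c34_ok (chk_C c35_ok (chk_D c36_ok (chk_P c37_ok c38_ok)))))))))) (chk_D c39_ok (chk_C c40_ok (chk_B c41_ok (chk_Q c42_ok c43_ok))))) (chk_B c44_ok (chk_D c45_ok (chk_Q c46_ok (chk_C c47_ok (chk_D c48_ok (chk_P (chk_Q (chk_B c49_ok (chk_C c50_ok (chk_D c51_ok (chk_P c52_ok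 (chk_Q c53_ok c54_ok))))) (chk_B c55_ok (chk_C c56_ok (chk_Q c57_ok c58_ok)))) (chk_Q (chk_C c59_ok (chk_B c60_ok (chk_P c61_ok c62_ok))) (chk_B c63_ok (chk_C c64_ok (chk_D c65_ok (chk_P (chk_Q (chk_B c66_ok (chk_C c67_ok (chk_D c68_ok (chk_D c69_ok c70_ok)))) (chk_Q (chk_B c71_ok (chk_C c72_ok (chk_P c73_ok c74_ok))) c75_ok)) (chk_Q (chk_P (chk_C c76_ok (chk_B c77_ok (chk_Q c78_ok c79_ok))) c80_ok) (chk_B c81_ok (chk_C c82_ok (chk_D c83_ok (chk_P (chk_Q (chk_B c84_ok (chk_C c85_ok (chk_D c86_ok (chk_D c87_ok (chk_P c88_ok c89_ok))))) (chk_Q (chk_P c90_ok (chk_B c91_ok (chk_C c92_ok (chk_D c93_ok (chk_C c94_ok c95_ok))))) c96_ok)) (chk_Q (chk_P (chk_Q c97_ok (chk_C c98_ok (chk_B c99_ok (chk_D c100_ok c101_ok)))) c102_ok) (chk_B c103_ok (chk_C c104_ok (chk_D c105_ok (chk_D (chk_D c106_ok (chk_P c107_ok c108_ok)) (chk_D (chk_P (chk_Q (chk_B c109_ok (chk_C c110_ok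 (chk_P c111_ok c112_ok))) c113_ok) c114_ok) (chk_P (chk_Q (chk_P (chk_B c115_ok (chk_C c116_ok (chk_B c117_ok c118_ok))) c119_ok) c120_ok) c121_ok)))))))))))))))))))))))) c122_ok) c123_ok)

end Theta3
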