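import Pool.Agent.H98.Theta3.Table

set_option autoImplicit false

/-!
# The certificate checker

All functions use raw operations on natural numbers and recursors, so that the kernel evaluates
them quickly.
-/

namespace Theta3

/-- evaluate the argument first -/
noncomputable def frc (n : Nat) (k : Nat → Bool) : Bool :=
  Nat.rec (k (nat_lit 0)) (fun m _ => k (Nat.succ m)) n

theorem frc_eq (n : Nat) (k : Nat → Bool) : frc n k = k n := by cases n <;> rfl

/-- case distinction -/
noncomputable def bq (c x y : Bool) : Bool := Bool.rec y x c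

theorem bq_true (c x y : Bool) : bq c x y = true ↔ (c = true ∧ x = true) ∨ (c = false ∧ y = true) := by
  cases c <;> simp [bq]

theorem bq_false (c x : Bool) : bq c x false = true ↔ (c = true ∧ x = true) := by
  cases c <;> simp [bq]

/-- table lookup -/
noncomputable def lk (i : Nat) : Nat :=
  Nat.mod (Nat.shiftRight TAB (Nat.mul (nat_lit 48) i)) (nat_lit 281474976710656)

/-- packed dot product -/
noncomputable def dotp (a b : Nat) : Nat :=
  Nat.mod (Nat.shiftRight (Nat.mul a b) (nat_lit 400)) (nat_lit 1208925819614629174706176)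

/-- accumulation of the weights -/
noncomputable def acc (s cen : Nat) (k : Nat → Nat → Nat → Bool) (l : List Nat) :
    Nat → Nat → Nat → Nat → Bool :=
  List.rec (fun _ M W A => k M W A)
    (fun C _ ih n M W A => Nat.rec (k M W A) (fun n' _ =>
      frc (Nat.shiftRight (Nat.mul s (dotp C cen)) (nat_lit 20)) (fun i =>
        bq (Nat.ble (nat_lit 2048) i) (ih n' M W A)
          (frc (lk i) (fun T => ih n' (Nat.add M (Nat.mul (Nat.succ T) C)) (Nat.add W T)
            (Nat.add A (Nat.mul T (Nat.add (nat_lit 128) i))))))) n) l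

/-- vertex inequalities -/
noncomputable def vchk (M Y : Nat) (l : List (Nat × Nat)) : Bool :=
  List.rec true (fun v _ ih => frc (dotp M v.1) (fun X =>
    bq (Nat.ble (Nat.mul (Nat.mul (Nat.mul X X) X) (nat_lit 4611686018427387904))
      (Nat.mul Y v.2)) ih false)) l

/-- upper bound for `2^101 exp (-D/2^30)` -/
noncomputable def expU (D : Nat) : Nat :=
  Nat.mul (Nat.succ (lk (Nat.shiftRight D (nat_lit 23))))
    (Nat.add (Nat.sub (nat_lit 2305843009213693952)
      (Nat.mul (Nat.mod D (nat_lit 8388608)) (nat_lit 2147483648)))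
      (Nat.mul (Nat.mod D (nat_lit 8388608)) (Nat.mod D (nat_lit 8388608))))

/-- slice end points -/
noncomputable def tau (k : Nat) : Nat :=
  Nat.mod (Nat.shiftRight TAUT (Nat.mul (nat_lit 16) k)) (nat_lit 65536)

/-- theta bounds at the slice end points -/
noncomputable def gk (k : Nat) : Nat :=
  Nat.mod (Nat.shiftRight GKT (Nat.mul (nat_lit 64) k)) (nat_lit 18446744073709551616)

/-- comparison with the theta bound at an end point -/
noncomputable def endOK (K c h k : Nat) : Bool :=
  frc (Nat.sub (Nat.add (Nat.mul c (nat_lit 8388608)) (nat_lit 8589934592)) (Nat.mul h (tau k)))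
    (fun D => bq (Nat.ble k (nat_lit 33)) (bq (Nat.ble (nat_lit 1) D)
      (bq (Nat.ble D (nat_lit 17179869183))
      (Nat.ble (Nat.succ (Nat.mul (gk k) (expU D)))
        (Nat.mul K (nat_lit 20282409603651670423947251286016))) false) false) false)

/-- one tangent -/
noncomputable def pairOK (VS : List (Nat × Nat)) (cen n s c h : Nat) (fin : Nat → Bool) : Bool :=
  acc s cen (fun M W A => frc M (fun M => frc W (fun W =>
    frc (Nat.sub A (Nat.mul c (Nat.add W (nat_lit 32)))) (fun K =>
      bq (Nat.ble (nat_lit 1) K)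
      (frc (Nat.mul (Nat.mul (Nat.mul h W) (Nat.mul h W)) (Nat.mul h W)) (fun Y =>
        bq (vchk M Y VS) (fin K) false)) false)))) SL n (nat_lit 0) (nat_lit 0) (nat_lit 0)

/-- a chain of slices, starting with slice end point `k0` -/
noncomputable def leaf (VS : List (Nat × Nat)) (cen : Nat) (es : List Nat) : Nat → Bool :=
  List.rec (fun _ => false)
    (fun e _ ih k0 =>
      frc (Nat.mod e (nat_lit 64)) (fun k1 =>
      frc (Nat.mod (Nat.shiftRight e (nat_lit 6)) (nat_lit 64)) (fun n =>
      frc (Nat.mod (Nat.shiftRight e (nat_lit 12)) (nat_lit 262144)) (fun s =>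
      frc (Nat.mod (Nat.shiftRight e (nat_lit 30)) (nat_lit 4096)) (fun c =>
      frc (Nat.shiftRight e (nat_lit 42)) (fun h =>
        pairOK VS cen n s c h (fun K => bq (endOK K c h k0)
          (bq (Nat.beq k1 (nat_lit 34)) (Nat.ble h (nat_lit 2097152))
            (bq (endOK K c h k1) (ih k1) false)) false))))))) es

/-- the four vertices over a pair `(r2, r3, r4)`, part with given `q` -/
noncomputable def v2 (lp hp q bs s a b e : Nat) (tl : List (Nat × Nat))
    (k : List (Nat × Nat) → Bool) : Bool :=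
  frc (Nat.add (Nat.mul q s) a) (fun u => frc (Nat.add (Nat.mul q b) e) (fun w =>
  frc (Nat.add bs (Nat.mul q (nat_lit 2135987035920910082395021706169552114602704522356652769947041607822219725780640550022962086936576))) (fun bq' =>
  frc (Nat.add (Nat.mul lp u) w) (fun d1 => frc (Nat.add (Nat.mul hp u) w) (fun d2 =>
  frc (Nat.add bq' (Nat.mul lp (nat_lit 2582249878086908589655919172003011874329705792829223512830659356540647622016841194629645353280137831435903171972747493376))) (fun V1 =>
  frc (Nat.add bq' (Nat.mul hp (nat_lit 2582249878086908589655919172003011874329705792829223512830659356540647622016841194629645353280137831435903171972747493376))) (fun V2 =>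
    k ((V1, d1) :: (V2, d2) :: tl))))))))

/-- the four vertices over `(r2, r3, r4)` -/
noncomputable def v4 (lp hp lq hq r2 r3 r4 : Nat) (tl : List (Nat × Nat))
    (k : List (Nat × Nat) → Bool) : Bool :=
  frc (Nat.add (Nat.add (nat_lit 4096) r2) (Nat.add r3 r4)) (fun s =>
  frc (Nat.mul (Nat.add (nat_lit 4096) r3) (Nat.add r2 r4)) (fun a =>
  frc (Nat.mul (Nat.add (nat_lit 4096) r2) (Nat.add r3 r4)) (fun b =>
  frc (Nat.add (Nat.mul (Nat.mul (nat_lit 4096) r2) (Nat.add r3 r4))
    (Nat.mul (Nat.mul r3 r4) (Nat.add (nat_lit 4096) r2))) (fun e =>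
  frc (Nat.add (Nat.add (nat_lit 7237005577332262213973186563042994240829374041602535252466099000494570602496)
    (Nat.mul r2 (nat_lit 1461501637330902918203684832716283019655932542976)))
    (Nat.add (Nat.mul r3 (nat_lit 1208925819614629174706176)) r4)) (fun bs =>
    v2 lp hp lq bs s a b e tl (fun tl' => v2 lp hp hq bs s a b e tl' k))))))

/-- all 32 vertices -/
noncomputable def v32 (lp hp lq hq l2 h2 l3 h3 l4 h4 : Nat) (k : List (Nat × Nat) → Bool) : Bool :=
  v4 lp hp lq hq l2 l3 l4 [] (fun t => v4 lp hp lq hq l2 l3 h4 t (fun t =>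
  v4 lp hp lq hq l2 h3 l4 t (fun t => v4 lp hp lq hq l2 h3 h4 t (fun t =>
  v4 lp hp lq hq h2 l3 l4 t (fun t => v4 lp hp lq hq h2 l3 h4 t (fun t =>
  v4 lp hp lq hq h2 h3 l4 t (fun t => v4 lp hp lq hq h2 h3 h4 t k)))))))

/-- packed vector, reversed order -/
noncomputable def rpk (p q r1 r2 r3 r4 : Nat) : Nat :=
  Nat.add (Nat.add (Nat.add (Nat.mul p (nat_lit 2582249878086908589655919172003011874329705792829223512830659356540647622016841194629645353280137831435903171972747493376))
    (Nat.mul q (nat_lit 2135987035920910082395021706169552114602704522356652769947041607822219725780640550022962086936576)))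
    (Nat.mul r1 (nat_lit 1766847064778384329583297500742918515827483896875618958121606201292619776)))
    (Nat.add (Nat.mul r2 (nat_lit 1461501637330902918203684832716283019655932542976))
      (Nat.add (Nat.mul r3 (nat_lit 1208925819614629174706176)) r4))

/-- certificate trees -/
inductive Tr where
  /-- outside of the domain -/
  | O
  /-- thin lattices -/
  | T
  /-- neighbourhood of the fcc form -/
  | F
  /-- leaf -/
  | L (es : List Nat)
  /-- bisection in `p` -/
  | P (l r : Tr)
  /-- bisection in `q` -/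
  | Q (l r : Tr)
  /-- bisection in `r2` -/
  | B (l r : Tr)
  /-- bisection in `r3` -/
  | C (l r : Tr)
  /-- bisection in `r4` -/
  | D (l r : Tr)

/-- is the box in the neighbourhood of the bcc form? -/
noncomputable def inB (lp hp lq hq l2 h2 l3 h3 l4 h4 : Nat) : Bool :=
  bq (Nat.ble (nat_lit 3892) lp) (bq (Nat.ble hp (nat_lit 4300)) (bq (Nat.ble (nat_lit 3892) lq)
    (bq (Nat.ble hq (nat_lit 4300)) (bq (Nat.ble (nat_lit 3892) l2) (bq (Nat.ble (nat_lit 3892) l3)
      (bq (Nat.ble (nat_lit 3892) l4) (bq (Nat.ble h2 (nat_lit 4300))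
        (bq (Nat.ble h3 (nat_lit 4300)) (Nat.ble h4 (nat_lit 4300)) false) false) false) false)
          false) false) false) false) false

/-- leaf check -/
noncomputable def leafB (es : List Nat) (lp hp lq hq l2 h2 l3 h3 l4 h4 : Nat) : Bool :=
  v32 lp hp lq hq l2 h2 l3 h3 l4 h4 (fun VS =>
    frc (rpk (Nat.add lp hp) (Nat.add lq hq) (nat_lit 8192) (Nat.add l2 h2) (Nat.add l3 h3)
      (Nat.add l4 h4)) (fun cen =>
      bq (inB lp hp lq hq l2 h2 l3 h3 l4 h4) (leaf VS cen es (nat_lit 4))
        (leaf VS cen es (nat_lit 0))))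

/-- the checker -/
noncomputable def chk (t : Tr) : Nat → Nat → Nat → Nat → Nat → Nat → Nat → Nat → Nat → Nat → Bool :=
  Tr.rec
    (fun lp _ lq _ _ h2 l3 h3 _ h4 => bq (Nat.ble (Nat.succ h2) l3) true
      (bq (Nat.ble (Nat.succ (Nat.add (nat_lit 4096) h4)) (Nat.add lp lq)) true
        (Nat.ble (Nat.succ (Nat.add h2 h3)) (Nat.add lp lq))))
    (fun _ hp _ hq _ h2 _ h3 _ h4 => bq (Nat.ble (Nat.add hp (Nat.add h3 h4)) (nat_lit 983)) true
      (bq (Nat.ble (Nat.add hq (Nat.add h2 h4)) (nat_lit 983)) true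
        (Nat.ble (Nat.add (Nat.add hp hq) (Nat.add h2 h3)) (nat_lit 983))))
    (fun _ hp _ hq l2 _ l3 _ l4 _ => bq (Nat.ble hp (nat_lit 204)) (bq (Nat.ble hq (nat_lit 204))
      (bq (Nat.ble (nat_lit 3892) l2) (bq (Nat.ble (nat_lit 3892) l3)
        (Nat.ble (nat_lit 3892) l4) false) false) false) false)
    (fun es lp hp lq hq l2 h2 l3 h3 l4 h4 => leafB es lp hp lq hq l2 h2 l3 h3 l4 h4)
    (fun _ _ kl kr lp hp lq hq l2 h2 l3 h3 l4 h4 =>
      frc (Nat.shiftRight (Nat.add lp hp) (nat_lit 1)) (fun m =>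
        bq (kl lp m lq hq l2 h2 l3 h3 l4 h4) (kr m hp lq hq l2 h2 l3 h3 l4 h4) false))
    (fun _ _ kl kr lp hp lq hq l2 h2 l3 h3 l4 h4 =>
      frc (Nat.shiftRight (Nat.add lq hq) (nat_lit 1)) (fun m =>
        bq (kl lp hp lq m l2 h2 l3 h3 l4 h4) (kr lp hp m hq l2 h2 l3 h3 l4 h4) false))
    (fun _ _ kl kr lp hp lq hq l2 h2 l3 h3 l4 h4 =>
      frc (Nat.shiftRight (Nat.add l2 h2) (nat_lit 1)) (fun m =>
        bq (kl lp hp lq hq l2 m l3 h3 l4 h4) (kr lp hp lq hq m h2 l3 h3 l4 h4) false))
    (fun _ _ kl kr lp hp lq hq l2 h2 l3 h3 l4 h4 =>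
      frc (Nat.shiftRight (Nat.add l3 h3) (nat_lit 1)) (fun m =>
        bq (kl lp hp lq hq l2 h2 l3 m l4 h4) (kr lp hp lq hq l2 h2 m h3 l4 h4) false))
    (fun _ _ kl kr lp hp lq hq l2 h2 l3 h3 l4 h4 =>
      frc (Nat.shiftRight (Nat.add l4 h4) (nat_lit 1)) (fun m =>
        bq (kl lp hp lq hq l2 h2 l3 h3 l4 m) (kr lp hp lq hq l2 h2 l3 h3 m h4) false)) t

end Theta3
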