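import Mathlib

set_option autoImplicit false

/-!
# Three-dimensional lattice theta functions: basic objects

Ternary forms in Selling coordinates, their theta functions, and summability.
-/

namespace Theta3

/-- index set -/
abbrev Z3 := ℤ × ℤ × ℤ

/-- Selling parameters of a ternary form -/
structure Rho where
  /-- parameter `01` -/
  p : ℝ
  /-- parameter `23` -/
  q : ℝ
  /-- parameter `02` -/
  r1 : ℝ
  /-- parameter `03` -/
  r2 : ℝ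
  /-- parameter `12` -/
  r3 : ℝ
  /-- parameter `13` -/
  r4 : ℝ

/-- the quadratic form with given Selling parameters -/
def frm (ρ : Rho) (x : Z3) : ℝ :=
  ρ.p * (x.1 : ℝ) ^ 2 + ρ.q * ((x.2.1 : ℝ) - x.2.2) ^ 2 + ρ.r1 * (x.2.1 : ℝ) ^ 2 +
    ρ.r2 * (x.2.2 : ℝ) ^ 2 + ρ.r3 * ((x.1 : ℝ) - x.2.1) ^ 2 + ρ.r4 * ((x.1 : ℝ) - x.2.2) ^ 2

/-- the determinant of the form -/
def dt (ρ : Rho) : ℝ :=
  ρ.p * ρ.q * (ρ.r1 + ρ.r2 + ρ.r3 + ρ.r4) + ρ.p * ((ρ.r1 + ρ.r3) * (ρ.r2 + ρ.r4)) +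
    ρ.q * ((ρ.r1 + ρ.r2) * (ρ.r3 + ρ.r4)) +
    (ρ.r1 * ρ.r2 * (ρ.r3 + ρ.r4) + ρ.r3 * ρ.r4 * (ρ.r1 + ρ.r2))

/-- theta series of a form -/
noncomputable def Th (ρ : Rho) : ℝ := ∑' x : Z3, Real.exp (-(frm ρ x))

/-- the norm form of the face centred cubic lattice (even sums) -/
def nF (x : Z3) : ℤ := x.2.1 ^ 2 + x.2.2 ^ 2 + (x.1 - x.2.1) ^ 2 + (x.1 - x.2.2) ^ 2

/-- theta series of the face centred cubic lattice -/
noncomputable def TF (t : ℝ) : ℝ := ∑' x : Z3, Real.exp (-(t * (nF x : ℝ)))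

/-! ### Summability -/

/-- square of the Euclidean norm -/
def sq3 (x : Z3) : ℝ := (x.1 : ℝ) ^ 2 + (x.2.1 : ℝ) ^ 2 + (x.2.2 : ℝ) ^ 2

theorem summable_geo_int {r : ℝ} (h0 : 0 ≤ r) (h1 : r < 1) :
    Summable (fun n : ℤ => r ^ n.natAbs) := by
  refine Summable.of_nat_of_neg_add_one ?_ ?_
  · simpa using summable_geometric_of_lt_one h0 h1
  · have h : (fun n : ℕ => r ^ (-((n : ℤ) + 1)).natAbs) = fun n : ℕ => r ^ n * r := by
      funext n
      have : (-((n : ℤ) + 1)).natAbs = n + 1 := by omega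
      rw [this, pow_succ]
    rw [h]
    exact (summable_geometric_of_lt_one h0 h1).mul_right r

theorem tsum_geo_int {r : ℝ} (h0 : 0 ≤ r) (h1 : r < 1) :
    ∑' n : ℤ, r ^ n.natAbs = (1 + r) / (1 - r) := by
  have h2 : (fun n : ℕ => r ^ (-((n : ℤ) + 1)).natAbs) = fun n : ℕ => r ^ n * r := by
    funext n
    have : (-((n : ℤ) + 1)).natAbs = n + 1 := by omega
    rw [this, pow_succ]
  have hs := summable_geometric_of_lt_one h0 h1
  rw [tsum_of_nat_of_neg_add_one (f := fun n : ℤ => r ^ n.natAbs) (by simpa using hs)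
    (by rw [h2]; exact hs.mul_right r)]
  rw [h2, tsum_mul_right]
  simp only [Int.natAbs_natCast]
  rw [tsum_geometric_of_lt_one h0 h1]
  have : 1 - r ≠ 0 := by linarith
  field_simp

theorem summable_geo3 {r : ℝ} (h0 : 0 ≤ r) (h1 : r < 1) :
    Summable (fun x : Z3 => r ^ x.1.natAbs * (r ^ x.2.1.natAbs * r ^ x.2.2.natAbs)) := by
  have h := summable_geo_int h0 h1
  have h2 : Summable (fun x : ℤ × ℤ => r ^ x.1.natAbs * r ^ x.2.natAbs) :=
    Summable.mul_of_nonneg h h (fun _ => pow_nonneg h0 _) (fun _ => pow_nonneg h0 _)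
  exact Summable.mul_of_nonneg (f := fun n : ℤ => r ^ n.natAbs)
    (g := fun x : ℤ × ℤ => r ^ x.1.natAbs * r ^ x.2.natAbs) h h2
    (fun _ => pow_nonneg h0 _) (fun _ => mul_nonneg (pow_nonneg h0 _) (pow_nonneg h0 _))

theorem tsum_geo3 {r : ℝ} (h0 : 0 ≤ r) (h1 : r < 1) :
    ∑' x : Z3, r ^ x.1.natAbs * (r ^ x.2.1.natAbs * r ^ x.2.2.natAbs) =
      ((1 + r) / (1 - r)) ^ 3 := by
  have h := summable_geo_int h0 h1
  have h2 : Summable (fun x : ℤ × ℤ => r ^ x.1.natAbs * r ^ x.2.natAbs) :=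
    Summable.mul_of_nonneg h h (fun _ => pow_nonneg h0 _) (fun _ => pow_nonneg h0 _)
  have e1 : (∑' n : ℤ, r ^ n.natAbs) * (∑' x : ℤ × ℤ, r ^ x.1.natAbs * r ^ x.2.natAbs) =
      ∑' x : Z3, r ^ x.1.natAbs * (r ^ x.2.1.natAbs * r ^ x.2.2.natAbs) :=
    h.tsum_mul_tsum h2 (summable_geo3 h0 h1)
  have e2 : (∑' n : ℤ, r ^ n.natAbs) * (∑' n : ℤ, r ^ n.natAbs) =
      ∑' x : ℤ × ℤ, r ^ x.1.natAbs * r ^ x.2.natAbs :=
    h.tsum_mul_tsum h h2
  rw [← e1, ← e2, tsum_geo_int h0 h1]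
  ring

theorem natAbs_le_sq (n : ℤ) : (n.natAbs : ℝ) ≤ (n : ℝ) ^ 2 := by
  have h := Nat.le_self_pow (n := 2) (by norm_num) n.natAbs
  have h2 : ((n.natAbs : ℕ) : ℝ) ≤ ((n.natAbs : ℕ) : ℝ) ^ 2 := by exact_mod_cast h
  have h3 : ((n.natAbs : ℕ) : ℝ) ^ 2 = (n : ℝ) ^ 2 := by
    rw [Nat.cast_natAbs]
    push_cast
    exact sq_abs _
  rw [h3] at h2
  exact h2

/-- comparison of a Gaussian with a geometric term -/
theorem exp_le_geo3 {c : ℝ} (hc : 0 ≤ c) {L : ℝ} {x : Z3} (h : c * sq3 x ≤ L) :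
    Real.exp (-L) ≤ Real.exp (-c) ^ x.1.natAbs *
      (Real.exp (-c) ^ x.2.1.natAbs * Real.exp (-c) ^ x.2.2.natAbs) := by
  rw [← Real.exp_nat_mul, ← Real.exp_nat_mul, ← Real.exp_nat_mul, ← Real.exp_add, ← Real.exp_add]
  apply Real.exp_le_exp.mpr
  have h1 := natAbs_le_sq x.1
  have h2 := natAbs_le_sq x.2.1
  have h3 := natAbs_le_sq x.2.2
  unfold sq3 at h
  nlinarith [mul_le_mul_of_nonneg_left h1 hc, mul_le_mul_of_nonneg_left h2 hc,
    mul_le_mul_of_nonneg_left h3 hc]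

theorem summable_of_le {c : ℝ} (hc : 0 < c) {L : Z3 → ℝ} (h : ∀ x, c * sq3 x ≤ L x) :
    Summable (fun x : Z3 => Real.exp (-(L x))) := by
  have hr : Real.exp (-c) < 1 := by rw [Real.exp_lt_one_iff]; linarith
  exact Summable.of_nonneg_of_le (fun x => (Real.exp_pos _).le)
    (fun x => exp_le_geo3 hc.le (h x)) (summable_geo3 (Real.exp_pos _).le hr)

theorem tsum_le_geo {c : ℝ} (hc : 0 < c) {L : Z3 → ℝ} (h : ∀ x, c * sq3 x ≤ L x) :
    ∑' x : Z3, Real.exp (-(L x)) ≤ ((1 + Real.exp (-c)) / (1 - Real.exp (-c))) ^ 3 := by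
  have hr : Real.exp (-c) < 1 := by rw [Real.exp_lt_one_iff]; linarith
  rw [← tsum_geo3 (Real.exp_pos _).le hr]
  exact (summable_of_le hc h).tsum_le_tsum (fun x => exp_le_geo3 hc.le (h x))
    (summable_geo3 (Real.exp_pos _).le hr)

theorem nF_ge (x : Z3) : (58 / 100 : ℝ) * sq3 x ≤ (nF x : ℝ) := by
  obtain ⟨a, b, c⟩ := x
  simp only [nF, sq3]
  push_cast
  nlinarith [sq_nonneg ((b : ℝ) * (142 / 100) - a), sq_nonneg ((c : ℝ) * (142 / 100) - a),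
    sq_nonneg (a : ℝ)]

theorem summable_nF {t : ℝ} (ht : 0 < t) : Summable (fun x : Z3 => Real.exp (-(t * (nF x : ℝ)))) :=
  summable_of_le (c := t * (58 / 100)) (by positivity) (fun x => by
    have := mul_le_mul_of_nonneg_left (nF_ge x) ht.le
    linarith [this])

theorem nF_nonneg (x : Z3) : 0 ≤ nF x := by unfold nF; positivity

theorem nF_even (x : Z3) : ∃ m : ℤ, nF x = 2 * m :=
  ⟨x.1 ^ 2 + x.2.1 ^ 2 + x.2.2 ^ 2 - x.1 * x.2.1 - x.1 * x.2.2, by unfold nF; ring⟩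

end Theta3
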