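import Mathlib

set_option autoImplicit false

/-! Elementary bounds for the exponential function. -/

namespace Theta3

theorem exp_cubic_neg {v : ℝ} (hv : 0 ≤ v) : 1 - v + v ^ 2 / 2 - v ^ 3 / 6 ≤ Real.exp (-v) := by
  have hq : ∀ z : ℝ, 0 ≤ z → Real.exp (-z) ≤ 1 - z + z ^ 2 / 2 := by
    intro z hz
    have h := Real.quadratic_le_exp_of_nonneg hz
    have hp : 0 < 1 + z + z ^ 2 / 2 := by positivity
    have h1 : Real.exp (-z) ≤ 1 / (1 + z + z ^ 2 / 2) := by
      rw [Real.exp_neg, ← one_div]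
      exact one_div_le_one_div_of_le hp h
    refine h1.trans ?_
    rw [div_le_iff₀ hp]
    nlinarith [sq_nonneg (z ^ 2)]
  have hd : ∀ x : ℝ, HasDerivAt (fun x : ℝ => Real.exp (-x) - (1 - x + x ^ 2 / 2 - x ^ 3 / 6))
      (-Real.exp (-x) + 1 - x + x ^ 2 / 2) x := by
    intro x
    have h1 : HasDerivAt (fun x : ℝ => Real.exp (-x)) (Real.exp (-x) * (-1)) x :=
      (hasDerivAt_neg x).exp
    have h2 : HasDerivAt (fun x : ℝ => 1 - x + x ^ 2 / 2 - x ^ 3 / 6)
        (0 - 1 + (2 * x) / 2 - (3 * x ^ 2) / 6) x := by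
      have h3 : HasDerivAt (fun x : ℝ => 1 - x + x ^ 2 / 2 - x ^ 3 / 6)
          (0 - 1 + (((2 : ℕ) : ℝ) * x ^ (2 - 1)) / 2 - (((3 : ℕ) : ℝ) * x ^ (3 - 1)) / 6) x :=
        (((hasDerivAt_const x (1 : ℝ)).sub (hasDerivAt_id x)).add
          ((hasDerivAt_pow 2 x).div_const 2)).sub ((hasDerivAt_pow 3 x).div_const 6)
      refine h3.congr_deriv ?_
      norm_num
    refine (h1.sub h2).congr_deriv ?_
    ring
  have hm : MonotoneOn (fun x : ℝ => Real.exp (-x) - (1 - x + x ^ 2 / 2 - x ^ 3 / 6))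
      (Set.Ici 0) := by
    apply monotoneOn_of_deriv_nonneg (convex_Ici 0)
    · exact fun x _ => (hd x).continuousAt.continuousWithinAt
    · exact fun x _ => (hd x).differentiableAt.differentiableWithinAt
    · intro x hx
      rw [interior_Ici, Set.mem_Ioi] at hx
      rw [(hd x).deriv]
      linarith [hq x hx.le]
  have h := hm (Set.mem_Ici.mpr (le_refl 0)) (Set.mem_Ici.mpr hv) hv
  simp only [neg_zero, Real.exp_zero] at h
  norm_num at h
  linarith

theorem exp_cubic (u : ℝ) : 1 + u + u ^ 2 / 2 + u ^ 3 / 6 ≤ Real.exp u := by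
  rcases le_total 0 u with h | h
  · have h3 := Real.sum_le_exp_of_nonneg h 4
    simp only [Finset.sum_range_succ, Finset.sum_range_zero, Nat.factorial] at h3
    norm_num at h3
    linarith
  · have h3 := exp_cubic_neg (v := -u) (by linarith)
    rw [neg_neg] at h3
    have e : 1 + u + u ^ 2 / 2 + u ^ 3 / 6 = 1 - (-u) + (-u) ^ 2 / 2 - (-u) ^ 3 / 6 := by ring
    rw [e]
    exact h3

/-- the chord slope of `exp (-t z)` from `0` is nondecreasing in `t`; cubic lower bound at `t0` -/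
theorem exp_sub_one_ge {t t0 : ℝ} (z : ℝ) (h0 : 0 < t0) (h : t0 ≤ t) :
    t * (-z + t0 * z ^ 2 / 2 - t0 ^ 2 * z ^ 3 / 6) ≤ Real.exp (-(t * z)) - 1 := by
  have ht : 0 < t := lt_of_lt_of_le h0 h
  have hl : 0 ≤ t0 / t := by positivity
  have hm : 0 ≤ 1 - t0 / t := by
    rw [sub_nonneg, div_le_one ht]; exact h
  have h1 := convexOn_exp.2 (Set.mem_univ (-(t * z))) (Set.mem_univ 0) hl hm (by ring)
  simp only [smul_eq_mul, mul_zero, add_zero, Real.exp_zero, mul_one] at h1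
  have e1 : t0 / t * -(t * z) = -(t0 * z) := by field_simp
  rw [e1] at h1
  have h2 := exp_cubic (-(t0 * z))
  have h3 : t0 * (-z + t0 * z ^ 2 / 2 - t0 ^ 2 * z ^ 3 / 6) ≤
      t0 / t * (Real.exp (-(t * z)) - 1) := by
    have e2 : t0 * (-z + t0 * z ^ 2 / 2 - t0 ^ 2 * z ^ 3 / 6) =
      (1 + (-(t0 * z)) + (-(t0 * z)) ^ 2 / 2 + (-(t0 * z)) ^ 3 / 6) - 1 := by ring
    rw [e2]
    have e3 : t0 / t * (Real.exp (-(t * z)) - 1) =
      (t0 / t * Real.exp (-(t * z)) + (1 - t0 / t)) - 1 := by ring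
    rw [e3]
    linarith
  have h4 := mul_le_mul_of_nonneg_left h3 (show 0 ≤ t / t0 by positivity)
  have e4 : t / t0 * (t0 * (-z + t0 * z ^ 2 / 2 - t0 ^ 2 * z ^ 3 / 6)) =
    t * (-z + t0 * z ^ 2 / 2 - t0 ^ 2 * z ^ 3 / 6) := by field_simp
  have e5 : t / t0 * (t0 / t * (Real.exp (-(t * z)) - 1)) = Real.exp (-(t * z)) - 1 := by
    field_simp
  rw [e4, e5] at h4
  exact h4

end Theta3
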