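import Pool.Agent.H98.Theta3.Defs

set_option autoImplicit false

/-!
# The theta series of the face centred cubic lattice: shells and tail
-/

namespace Theta3

/-- the index box -/
noncomputable def bx4 : Finset Z3 :=
  Finset.Icc (-4 : ℤ) 4 ×ˢ (Finset.Icc (-4 : ℤ) 4 ×ˢ Finset.Icc (-4 : ℤ) 4)

/-- vectors of norm at most 12 -/
noncomputable def F12 : Finset Z3 := bx4.filter (fun x => nF x ≤ 12)

theorem F12_image : F12.image nF = {0, 2, 4, 6, 8, 10, 12} := by decide +kernel

theorem F12_card0 : (F12.filter (fun x => nF x = 0)).card = 1 := by decide +kernel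
theorem F12_card2 : (F12.filter (fun x => nF x = 2)).card = 12 := by decide +kernel
theorem F12_card4 : (F12.filter (fun x => nF x = 4)).card = 6 := by decide +kernel
theorem F12_card6 : (F12.filter (fun x => nF x = 6)).card = 24 := by decide +kernel
theorem F12_card8 : (F12.filter (fun x => nF x = 8)).card = 12 := by decide +kernel
theorem F12_card10 : (F12.filter (fun x => nF x = 10)).card = 24 := by decide +kernel
theorem F12_card12 : (F12.filter (fun x => nF x = 12)).card = 8 := by decide +kernel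

theorem sum_F12 (g : ℤ → ℝ) : ∑ x ∈ F12, g (nF x) =
    g 0 + 12 * g 2 + 6 * g 4 + 24 * g 6 + 12 * g 8 + 24 * g 10 + 8 * g 12 := by
  rw [Finset.sum_comp, F12_image]
  rw [Finset.sum_insert (by decide), Finset.sum_insert (by decide), Finset.sum_insert (by decide),
    Finset.sum_insert (by decide), Finset.sum_insert (by decide), Finset.sum_insert (by decide),
    Finset.sum_singleton, F12_card0, F12_card2, F12_card4, F12_card6, F12_card8, F12_card10,
    F12_card12]
  simp only [nsmul_eq_mul]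
  push_cast
  ring

theorem mem_F12 {x : Z3} (h : nF x < 14) : x ∈ F12 := by
  obtain ⟨m, hm⟩ := nF_even x
  have h12 : nF x ≤ 12 := by omega
  obtain ⟨a, b, c⟩ := x
  have h58 : 58 * (a ^ 2 + b ^ 2 + c ^ 2) ≤ 100 * nF (a, b, c) := by
    simp only [nF]
    nlinarith [sq_nonneg (b * 142 - 100 * a), sq_nonneg (c * 142 - 100 * a), sq_nonneg a]
  have ha : a ^ 2 < 25 := by nlinarith [sq_nonneg b, sq_nonneg c]
  have hb : b ^ 2 < 25 := by nlinarith [sq_nonneg a, sq_nonneg c]
  have hc : c ^ 2 < 25 := by nlinarith [sq_nonneg a, sq_nonneg b]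
  simp only [F12, bx4, Finset.mem_filter, Finset.mem_product, Finset.mem_Icc]
  refine ⟨⟨⟨?_, ?_⟩, ⟨?_, ?_⟩, ?_, ?_⟩, h12⟩ <;> nlinarith

theorem F12_le {x : Z3} (h : x ∈ F12) : nF x ≤ 12 := (Finset.mem_filter.mp h).2

/-- the part of the series with norm at least `m` -/
noncomputable def tl (m : ℤ) (t : ℝ) : ℝ :=
  ∑' x : Z3, if m ≤ nF x then Real.exp (-(t * (nF x : ℝ))) else 0

theorem summable_ite {f : Z3 → ℝ} (hf : Summable f) (h0 : ∀ x, 0 ≤ f x) (p : Z3 → Prop)
    [DecidablePred p] : Summable (fun x => if p x then f x else 0) := by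
  refine Summable.of_nonneg_of_le (fun x => ?_) (fun x => ?_) hf
  · split_ifs
    · exact h0 x
    · exact le_refl _
  · split_ifs
    · exact le_refl _
    · exact h0 x

theorem tsum_split_F12 {f : Z3 → ℝ} (hf : Summable f) (h0 : ∀ x, 0 ≤ f x) :
    ∑' x, f x = ∑ x ∈ F12, f x + ∑' x : Z3, if 14 ≤ nF x then f x else 0 := by
  have h1 : ∀ x, f x = (if x ∈ F12 then f x else 0) + (if 14 ≤ nF x then f x else 0) := by
    intro x
    by_cases hx : x ∈ F12
    · have := F12_le hx
      rw [if_pos hx, if_neg (by omega), add_zero]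
    · have : ¬ nF x < 14 := fun h => hx (mem_F12 h)
      rw [if_neg hx, if_pos (by omega), zero_add]
  rw [tsum_congr h1, Summable.tsum_add]
  · congr 1
    rw [tsum_eq_sum (s := F12) (fun x hx => if_neg hx)]
    exact Finset.sum_congr rfl (fun x hx => if_pos hx)
  · exact summable_ite hf h0 _
  · exact summable_ite hf h0 _

theorem TF_eq {t : ℝ} (ht : 0 < t) : TF t = 1 + 12 * Real.exp (-t) ^ 2 + 6 * Real.exp (-t) ^ 4 +
    24 * Real.exp (-t) ^ 6 + 12 * Real.exp (-t) ^ 8 + 24 * Real.exp (-t) ^ 10 +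
    8 * Real.exp (-t) ^ 12 + tl 14 t := by
  unfold TF
  rw [tsum_split_F12 (summable_nF ht) (fun x => (Real.exp_pos _).le)]
  rw [sum_F12 (fun n : ℤ => Real.exp (-(t * (n : ℝ))))]
  have h : ∀ n : ℕ, Real.exp (-(t * ((n : ℤ) : ℝ))) = Real.exp (-t) ^ n := by
    intro n
    rw [← Real.exp_nat_mul]
    congr 1
    push_cast
    ring
  have e0 := h 0
  have e2 := h 2
  have e4 := h 4
  have e6 := h 6
  have e8 := h 8
  have e10 := h 10
  have e12 := h 12
  push_cast at e0 e2 e4 e6 e8 e10 e12
  simp only [Int.cast_zero, Int.cast_ofNat, mul_zero, neg_zero, Real.exp_zero, pow_zero] at *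
  rw [e2, e4, e6, e8, e10, e12]
  rfl

/-- an explicit bound at a fixed parameter -/
theorem TF_small : ∑' x : Z3, Real.exp (-((35 / 100 : ℝ) * (nF x : ℝ))) ≤ 1000 := by
  have h := tsum_le_geo (c := (203 / 1000 : ℝ)) (by norm_num)
    (L := fun x => (35 / 100 : ℝ) * (nF x : ℝ)) (fun x => by
      have := nF_ge x
      nlinarith)
  refine h.trans ?_
  have h1 : (1225 / 1000 : ℝ) ≤ Real.exp (203 / 1000) := by
    have := Real.quadratic_le_exp_of_nonneg (x := (203 / 1000 : ℝ)) (by norm_num)
    have h3 := Real.sum_le_exp_of_nonneg (x := (203 / 1000 : ℝ)) (by norm_num) 5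
    simp only [Finset.sum_range_succ, Finset.sum_range_zero, Nat.factorial] at h3
    norm_num at h3 ⊢
    linarith
  have h2 : Real.exp (-(203 / 1000)) ≤ 1 / (1225 / 1000) := by
    rw [Real.exp_neg, ← one_div]
    exact one_div_le_one_div_of_le (by norm_num) h1
  have h0 := Real.exp_pos (-(203 / 1000))
  set r := Real.exp (-(203 / 1000)) with hr
  have h3 : (1 + r) / (1 - r) ≤ 989 / 100 := by
    rw [div_le_iff₀ (by norm_num at h2; linarith)]
    norm_num at h2
    linarith
  have h4 : 0 ≤ (1 + r) / (1 - r) := by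
    apply div_nonneg (by linarith)
    norm_num at h2
    linarith
  calc ((1 + r) / (1 - r)) ^ 3 ≤ (989 / 100) ^ 3 := pow_le_pow_left₀ h4 h3 3
    _ ≤ 1000 := by norm_num

/-- tail bound -/
theorem tl14_le {t : ℝ} (ht : 35 / 100 ≤ t) :
    tl 14 t ≤ 1000 * Real.exp (-(14 * (t - 35 / 100))) := by
  unfold tl
  have hs := summable_nF (t := 35 / 100) (by norm_num)
  calc ∑' x : Z3, (if 14 ≤ nF x then Real.exp (-(t * (nF x : ℝ))) else 0)
      ≤ ∑' x : Z3, Real.exp (-((35 / 100 : ℝ) * (nF x : ℝ))) *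
        Real.exp (-(14 * (t - 35 / 100))) := by
        refine Summable.tsum_le_tsum (fun x => ?_)
          (summable_ite (summable_nF (by linarith)) (fun x => (Real.exp_pos _).le) _)
          (hs.mul_right _)
        split_ifs with h
        · rw [← Real.exp_add]
          apply Real.exp_le_exp.mpr
          have h14 : (14 : ℝ) ≤ (nF x : ℝ) := by exact_mod_cast h
          nlinarith
        · positivity
    _ = (∑' x : Z3, Real.exp (-((35 / 100 : ℝ) * (nF x : ℝ)))) *
        Real.exp (-(14 * (t - 35 / 100))) := tsum_mul_right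
    _ ≤ 1000 * Real.exp (-(14 * (t - 35 / 100))) :=
        mul_le_mul_of_nonneg_right TF_small (Real.exp_pos _).le

theorem tl_nonneg (m : ℤ) (t : ℝ) : 0 ≤ tl m t := by
  unfold tl
  refine tsum_nonneg (fun x => ?_)
  split_ifs
  · exact (Real.exp_pos _).le
  · exact le_refl _

/-- upper bound for the theta series by a polynomial in `exp (-t)` -/
theorem TF_le {t : ℝ} (ht : 35 / 100 ≤ t) : TF t ≤ 1 + 12 * Real.exp (-t) ^ 2 +
    6 * Real.exp (-t) ^ 4 + 24 * Real.exp (-t) ^ 6 + 12 * Real.exp (-t) ^ 8 +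
    24 * Real.exp (-t) ^ 10 + 8 * Real.exp (-t) ^ 12 + 134400 * Real.exp (-t) ^ 14 := by
  rw [TF_eq (by linarith)]
  have h := tl14_le ht
  have h1 : Real.exp (-(14 * (t - 35 / 100))) = Real.exp (49 / 10) * Real.exp (-t) ^ 14 := by
    rw [← Real.exp_nat_mul, ← Real.exp_add]
    congr 1
    push_cast
    ring
  have h2 : Real.exp (49 / 10) ≤ 1344 / 10 := by
    have he := Real.exp_one_lt_d9
    have h5 : Real.exp (49 / 10) = Real.exp 1 ^ 5 * Real.exp (-(1 / 10)) := by
      rw [← Real.exp_nat_mul, ← Real.exp_add]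
      congr 1
      norm_num
    have h6 : Real.exp (-(1 / 10)) ≤ 1 / (11051 / 10000) := by
      rw [Real.exp_neg, ← one_div]
      apply one_div_le_one_div_of_le (by norm_num)
      have h3 := Real.sum_le_exp_of_nonneg (x := (1 / 10 : ℝ)) (by norm_num) 4
      simp only [Finset.sum_range_succ, Finset.sum_range_zero, Nat.factorial] at h3
      norm_num at h3 ⊢
      linarith
    rw [h5]
    calc Real.exp 1 ^ 5 * Real.exp (-(1 / 10)) ≤ 2.7182818286 ^ 5 * (1 / (11051 / 10000)) := by
          apply mul_le_mul _ h6 (Real.exp_pos _).le (by positivity)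
          exact pow_le_pow_left₀ (Real.exp_pos _).le he.le 5
      _ ≤ 1344 / 10 := by norm_num
  have h3 : 1000 * Real.exp (-(14 * (t - 35 / 100))) ≤ 134400 * Real.exp (-t) ^ 14 := by
    rw [h1]
    have : 0 ≤ Real.exp (-t) ^ 14 := by positivity
    nlinarith
  linarith

end Theta3
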