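import Mathlib

set_option autoImplicit false

/-! The polynomial inequality at the face centred cubic form. -/

namespace Theta3

/-- cubic polynomial -/
noncomputable def Pc (T z : ℝ) : ℝ := -z + T * z ^ 2 / 2 - T ^ 2 * z ^ 3 / 6

section
variable {a b c d e f : ℝ}

theorem abs_prod3 {x y z m : ℝ} (hx : |x| ≤ m) (hy : |y| ≤ m) (hz : |z| ≤ m) :
    |x * y * z| ≤ m / 3 * (x ^ 2 + y ^ 2 + z ^ 2) := by
  have hm : 0 ≤ m := (abs_nonneg x).trans hx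
  have g : ∀ u v w : ℝ, |u| ≤ m → |u * v * w| ≤ m / 2 * (v ^ 2 + w ^ 2) := by
    intro u v w hu
    rw [mul_assoc, abs_mul]
    have h1 : |v * w| ≤ (v ^ 2 + w ^ 2) / 2 := by
      rw [abs_le]; constructor <;> nlinarith [sq_nonneg (v + w), sq_nonneg (v - w)]
    calc |u| * |v * w| ≤ m * ((v ^ 2 + w ^ 2) / 2) :=
          mul_le_mul hu h1 (abs_nonneg _) hm
      _ = _ := by ring
  have g1 := g x y z hx
  have g2 := g y x z hy
  have g3 := g z x y hz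
  have e2 : y * x * z = x * y * z := by ring
  have e3 : z * x * y = x * y * z := by ring
  rw [e2] at g2
  rw [e3] at g3
  linarith

theorem abs_cube {x m : ℝ} (hx : |x| ≤ m) : |x ^ 3| ≤ m * x ^ 2 := by
  have : x ^ 3 = x * x ^ 2 := by ring
  rw [this, abs_mul, abs_of_nonneg (sq_nonneg x)]
  exact mul_le_mul_of_nonneg_right hx (sq_nonneg x)

theorem abs_mul_sq {x y m : ℝ} (hx : |x| ≤ m) : |x * y ^ 2| ≤ m * y ^ 2 := by
  rw [abs_mul, abs_of_nonneg (sq_nonneg y)]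
  exact mul_le_mul_of_nonneg_right hx (sq_nonneg y)

theorem fcc_poly {k T : ℝ} (ha : |a| ≤ 38 / 1000) (hb : |b| ≤ 38 / 1000) (hc : |c| ≤ 38 / 1000)
    (hd : |d| ≤ 27 / 1000) (he : |e| ≤ 27 / 1000) (hf : |f| ≤ 27 / 1000)
    (hdet : (1 + a) * (1 + b) * (1 + c) - (1 + a) * d ^ 2 - (1 + b) * e ^ 2 - (1 + c) * f ^ 2 +
      2 * d * e * f = 1)
    (hT : (T = 1979 / 1000 ∧ 1227 / 100000 ≤ k ∧ k ≤ 192 / 10000) ∨
      (T = 22 / 10 ∧ 0 ≤ k ∧ k ≤ 123 / 10000)) :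
    (a ^ 2 + b ^ 2 + c ^ 2 + d ^ 2 + e ^ 2 + f ^ 2) / 100 ≤
      2 * (Pc T (b + c + 2 * d) + Pc T (b + c - 2 * d) + Pc T (a + b - 2 * f) +
        Pc T (a + b + 2 * f) + Pc T (a + c + 2 * e) + Pc T (a + c - 2 * e)) +
      2 * k * (Pc T (4 * a) + Pc T (4 * b) + Pc T (4 * c)) - 52 * k ^ 2 * (a + b + c) := by
  obtain ⟨s, hs⟩ : ∃ s, s = a + b + c := ⟨_, rfl⟩
  obtain ⟨Q, hQ⟩ : ∃ Q, Q = a ^ 2 + b ^ 2 + c ^ 2 := ⟨_, rfl⟩
  obtain ⟨D, hD⟩ : ∃ D, D = d ^ 2 + e ^ 2 + f ^ 2 := ⟨_, rfl⟩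
  obtain ⟨C, hC⟩ : ∃ C, C = a ^ 3 + b ^ 3 + c ^ 3 := ⟨_, rfl⟩
  obtain ⟨W, hW⟩ : ∃ W, W = a * d ^ 2 + b * e ^ 2 + c * f ^ 2 := ⟨_, rfl⟩
  obtain ⟨X, hX⟩ : ∃ X, X = a * b * c := ⟨_, rfl⟩
  obtain ⟨Y, hY⟩ : ∃ Y, Y = d * e * f := ⟨_, rfl⟩
  have hQ0 : 0 ≤ Q := by rw [hQ]; positivity
  have hD0 : 0 ≤ D := by rw [hD]; positivity
  have hsq : ∀ {x m : ℝ}, |x| ≤ m → x ^ 2 ≤ m ^ 2 := by
    intro x m h
    have := pow_le_pow_left₀ (abs_nonneg x) h 2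
    rwa [sq_abs] at this
  have hQ1 : Q ≤ 4332 / 1000000 := by
    have := hsq ha; have := hsq hb; have := hsq hc
    rw [hQ]; linarith
  have hD1 : D ≤ 2187 / 1000000 := by
    have := hsq hd; have := hsq he; have := hsq hf
    rw [hD]; linarith
  have hC1 : |C| ≤ 38 / 1000 * Q := by
    have h1 := abs_cube ha
    have h2 := abs_cube hb
    have h3 := abs_cube hc
    rw [hC, hQ]
    have := abs_add_three (a ^ 3) (b ^ 3) (c ^ 3)
    linarith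
  have hW1 : |W| ≤ 38 / 1000 * D := by
    have h1 := abs_mul_sq (y := d) ha
    have h2 := abs_mul_sq (y := e) hb
    have h3 := abs_mul_sq (y := f) hc
    rw [hW, hD]
    have := abs_add_three (a * d ^ 2) (b * e ^ 2) (c * f ^ 2)
    linarith
  have hX1 : |X| ≤ 38 / 3000 * Q := by
    rw [hX, hQ]
    have := abs_prod3 ha hb hc
    linarith
  have hY1 : |Y| ≤ 27 / 3000 * D := by
    rw [hY, hD]
    have := abs_prod3 hd he hf
    linarith
  have F1 : s = Q / 2 + D - s ^ 2 / 2 - X + W - 2 * Y := by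
    rw [hs, hQ, hD, hW, hX, hY]
    linear_combination (1 : ℝ) * hdet
  have hs1 : |s| ≤ 114 / 1000 := by
    rw [hs]
    have := abs_add_three a b c
    linarith
  have hs2 : |s| ≤ 49 / 10000 := by
    have h1 : s ^ 2 ≤ 114 / 1000 * |s| := by
      have h := mul_le_mul_of_nonneg_right hs1 (abs_nonneg s)
      have e : |s| * |s| = s ^ 2 := by rw [← sq_abs]; ring
      rw [e] at h
      exact h
    rw [abs_le] at hX1 hW1 hY1
    have h2 : |s| ≤ Q / 2 + D + s ^ 2 / 2 + 38 / 3000 * Q + 38 / 1000 * D + 54 / 3000 * D := by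
      rw [abs_le]
      constructor
      · linarith [sq_nonneg s]
      · linarith [sq_nonneg s]
    linarith
  have hk0 : 0 ≤ k := by rcases hT with h | h <;> linarith [h.2.1]
  have hk1 : k ≤ 192 / 10000 := by rcases hT with h | h <;> linarith [h.2.2]
  have hT0 : 1979 / 1000 ≤ T ∧ T ≤ 22 / 10 := by
    rcases hT with h | h <;> rw [h.1] <;> norm_num
  obtain ⟨u, hu⟩ : ∃ u, u = 8 + 8 * k + 52 * k ^ 2 := ⟨_, rfl⟩
  have hk2 : k ^ 2 ≤ 192 / 10000 * k := by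
    have h := mul_le_mul_of_nonneg_right hk1 hk0
    rw [← pow_two] at h
    exact h
  have hu1 : u ≤ 818 / 100 := by rw [hu]; linarith
  have hu0 : 8 ≤ u := by rw [hu]; linarith [sq_nonneg k]
  have hT3 : 39 / 10 ≤ T ^ 2 := by
    have h := pow_le_pow_left₀ (by norm_num) hT0.1 2
    norm_num at h
    linarith
  have key : 2 * (Pc T (b + c + 2 * d) + Pc T (b + c - 2 * d) + Pc T (a + b - 2 * f) +
        Pc T (a + b + 2 * f) + Pc T (a + c + 2 * e) + Pc T (a + c - 2 * e)) +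
      2 * k * (Pc T (4 * a) + Pc T (4 * b) + Pc T (4 * c)) - 52 * k ^ 2 * (a + b + c) =
      Q * (2 * T - u / 2 + 16 * k * T) + D * (8 * T - u) + s ^ 2 * (2 * T + u / 2) + u * X +
      (8 * T ^ 2 - u) * W + 2 * u * Y - 2 * T ^ 2 * (s * Q) - 8 * T ^ 2 * (s * D) +
      T ^ 2 * (2 / 3 - 64 / 3 * k) * C := by
    have e1 : 2 * (Pc T (b + c + 2 * d) + Pc T (b + c - 2 * d) + Pc T (a + b - 2 * f) +
        Pc T (a + b + 2 * f) + Pc T (a + c + 2 * e) + Pc T (a + c - 2 * e)) +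
      2 * k * (Pc T (4 * a) + Pc T (4 * b) + Pc T (4 * c)) - 52 * k ^ 2 * (a + b + c) =
      -u * s + T / 2 * (4 * Q + 4 * s ^ 2 + 16 * D) -
      T ^ 2 / 6 * (12 * s * Q - 4 * C + 48 * s * D - 48 * W) +
      k * (16 * T * Q - 64 / 3 * T ^ 2 * C) := by
      rw [hs, hQ, hD, hC, hW, hu]
      unfold Pc
      ring
    rw [e1]
    linear_combination (-u) * F1
  have hsum : a ^ 2 + b ^ 2 + c ^ 2 + d ^ 2 + e ^ 2 + f ^ 2 = Q + D := by rw [hQ, hD]; ring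
  rw [key, hsum]
  have hlow : ∀ {x B w : ℝ}, |x| ≤ B → 0 ≤ w → -(w * B) ≤ w * x := by
    intro x B w hx hw
    have := mul_le_mul_of_nonneg_left (neg_le_of_abs_le hx) hw
    linarith
  have b1 := hlow hX1 (show 0 ≤ u by linarith)
  have b2 := hlow hW1 (show 0 ≤ 8 * T ^ 2 - u by linarith)
  have b3 := hlow hY1 (show 0 ≤ 2 * u by linarith)
  have b4 := mul_le_mul_of_nonneg_right (le_of_abs_le hs2) hQ0
  have b5 := mul_le_mul_of_nonneg_right (le_of_abs_le hs2) hD0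
  have b6 := hlow hC1 (show 0 ≤ T ^ 2 * (2 / 3 - 64 / 3 * k) by
    apply mul_nonneg (sq_nonneg T); linarith)
  have b7 : 0 ≤ s ^ 2 * (2 * T + u / 2) := mul_nonneg (sq_nonneg s) (by linarith [hT0.1])
  have hT2 : 0 ≤ T ^ 2 := sq_nonneg T
  have b4' := mul_le_mul_of_nonneg_left b4 (show 0 ≤ 2 * T ^ 2 by linarith)
  have b5' := mul_le_mul_of_nonneg_left b5 (show 0 ≤ 8 * T ^ 2 by linarith)
  have hku : u ≤ 8 + 9 * k := by rw [hu]; linarith
  have cQ : 1 / 100 ≤ 2 * T - u / 2 + 16 * k * T - u * (38 / 3000) - 2 * T ^ 2 * (49 / 10000) -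
      T ^ 2 * (2 / 3 - 64 / 3 * k) * (38 / 1000) := by
    rcases hT with ⟨h1, h2, h3⟩ | ⟨h1, h2, h3⟩
    · rw [h1]
      norm_num
      linarith
    · rw [h1]
      norm_num
      linarith
  have cD : 1 / 100 ≤ 8 * T - u - (8 * T ^ 2 - u) * (38 / 1000) - 2 * u * (27 / 3000) -
      8 * T ^ 2 * (49 / 10000) := by
    rcases hT with ⟨h1, h2, h3⟩ | ⟨h1, h2, h3⟩
    · rw [h1]
      norm_num
      linarith
    · rw [h1]
      norm_num
      linarith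
  have cQ' := mul_le_mul_of_nonneg_left cQ hQ0
  have cD' := mul_le_mul_of_nonneg_left cD hD0
  linarith [b1, b2, b3, b4', b5', b6, b7, cQ', cD']

theorem fcc_sigma (ha : |a| ≤ 38 / 1000) (hb : |b| ≤ 38 / 1000) (hc : |c| ≤ 38 / 1000)
    (hd : |d| ≤ 27 / 1000) (he : |e| ≤ 27 / 1000) (hf : |f| ≤ 27 / 1000)
    (hdet : (1 + a) * (1 + b) * (1 + c) - (1 + a) * d ^ 2 - (1 + b) * e ^ 2 - (1 + c) * f ^ 2 +
      2 * d * e * f = 1) : 0 ≤ a + b + c := by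
  obtain ⟨s, hs⟩ : ∃ s, s = a + b + c := ⟨_, rfl⟩
  have h1 := abs_mul_sq (y := d) ha
  have h2 := abs_mul_sq (y := e) hb
  have h3 := abs_mul_sq (y := f) hc
  have h4 := abs_prod3 ha hb hc
  have h5 := abs_prod3 hd he hf
  have F1 : s * (1 + s / 2) = (a ^ 2 + b ^ 2 + c ^ 2) / 2 + (d ^ 2 + e ^ 2 + f ^ 2) - a * b * c +
      (a * d ^ 2 + b * e ^ 2 + c * f ^ 2) - 2 * (d * e * f) := by
    rw [hs]
    linear_combination (1 : ℝ) * hdet
  rw [abs_le] at h1 h2 h3 h4 h5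
  have h6 : 0 ≤ s * (1 + s / 2) := by
    rw [F1]
    linarith [sq_nonneg a, sq_nonneg b, sq_nonneg c, sq_nonneg d, sq_nonneg e, sq_nonneg f]
  have h7 : 0 < 1 + s / 2 := by
    rw [hs]
    have := abs_le.mp ha
    have := abs_le.mp hb
    have := abs_le.mp hc
    linarith
  rw [← hs]
  by_contra hcon
  push Not at hcon
  have := mul_neg_of_neg_of_pos hcon h7
  linarith

end

end Theta3
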