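import Pool.Agent.H98.Theta3.Fcc

set_option autoImplicit false

/-!
# The tail of the theta series near the face centred cubic lattice
-/

namespace Theta3

/-! ### Splitting off the two first shells -/

/-- the vectors of norm at most 4 -/
theorem F12_filter4 : F12.filter (fun x => nF x ≤ 4) =
    {(0,0,0), (0,0,1), (0,0,-1), (0,1,0), (0,-1,0), (1,0,0), (-1,0,0), (1,1,1), (-1,-1,-1),
      (1,0,1), (-1,0,-1), (1,1,0), (-1,-1,0), (0,1,1), (0,-1,-1), (0,1,-1), (0,-1,1),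
      (2,1,1), (-2,-1,-1)} := by decide +kernel

theorem split4 {f : Z3 → ℝ} (hf : Summable f) (h0 : ∀ x, 0 ≤ f x)
    (he : ∀ x : Z3, f (-x.1, -x.2.1, -x.2.2) = f x) :
    ∑' x, f x = f (0,0,0) +
      2 * (f (0,0,1) + f (0,1,0) + f (1,0,0) + f (1,1,1) + f (1,0,1) + f (1,1,0)) +
      2 * (f (0,1,1) + f (0,1,-1) + f (2,1,1)) + ∑' x : Z3, if 6 ≤ nF x then f x else 0 := by
  set S : Finset Z3 := F12.filter (fun x => nF x ≤ 4) with hS
  have hmem : ∀ x : Z3, nF x < 6 → x ∈ S := by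
    intro x hx
    rw [hS, Finset.mem_filter]
    obtain ⟨m, hm⟩ := nF_even x
    exact ⟨mem_F12 (by omega), by omega⟩
  have hmem' : ∀ x ∈ S, nF x ≤ 4 := fun x hx => (Finset.mem_filter.mp hx).2
  have h1 : ∀ x, f x = (if x ∈ S then f x else 0) + (if 6 ≤ nF x then f x else 0) := by
    intro x
    by_cases hx : x ∈ S
    · have := hmem' x hx
      rw [if_pos hx, if_neg (by omega), add_zero]
    · have : ¬ nF x < 6 := fun h => hx (hmem x h)
      rw [if_neg hx, if_pos (by omega), zero_add]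
  have h2 : ∑' x, f x = ∑ x ∈ S, f x + ∑' x : Z3, if 6 ≤ nF x then f x else 0 := by
    rw [tsum_congr h1, Summable.tsum_add (summable_ite hf h0 _) (summable_ite hf h0 _)]
    congr 1
    · rw [tsum_eq_sum (s := S) (fun x hx => if_neg hx)]
      exact Finset.sum_congr rfl (fun x hx => if_pos hx)
  rw [h2, hS, F12_filter4]
  have hn : ∀ a b c : ℤ, f (-a, -b, -c) = f (a, b, c) := fun a b c => he (a, b, c)
  have n1 := hn 0 0 1
  have n2 := hn 0 1 0
  have n3 := hn 1 0 0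
  have n4 := hn 1 1 1
  have n5 := hn 1 0 1
  have n6 := hn 1 1 0
  have n7 := hn 0 1 1
  have n8 := hn 0 1 (-1)
  have n9 := hn 2 1 1
  simp only [neg_zero, neg_neg] at n1 n2 n3 n4 n5 n6 n7 n8 n9
  rw [Finset.sum_insert (by decide), Finset.sum_insert (by decide), Finset.sum_insert (by decide),
    Finset.sum_insert (by decide), Finset.sum_insert (by decide), Finset.sum_insert (by decide),
    Finset.sum_insert (by decide), Finset.sum_insert (by decide), Finset.sum_insert (by decide),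
    Finset.sum_insert (by decide), Finset.sum_insert (by decide), Finset.sum_insert (by decide),
    Finset.sum_insert (by decide), Finset.sum_insert (by decide), Finset.sum_insert (by decide),
    Finset.sum_insert (by decide), Finset.sum_insert (by decide), Finset.sum_insert (by decide),
    Finset.sum_singleton, n1, n2, n3, n4, n5, n6, n7, n8, n9]
  ring

/-! ### Averaging over a symmetry -/

/-- the tail sum -/
noncomputable def T6 (Q : Z3 → ℝ) : ℝ := ∑' x : Z3, if 6 ≤ nF x then Real.exp (-(Q x)) else 0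

theorem exp_avg_le (a b : ℝ) : Real.exp (-((a + b) / 2)) ≤ (Real.exp (-a) + Real.exp (-b)) / 2 := by
  have h1 := Real.add_one_le_exp (-a + (a + b) / 2)
  have h2 := Real.add_one_le_exp (-b + (a + b) / 2)
  have e1 : Real.exp (-a) = Real.exp (-((a + b) / 2)) * Real.exp (-a + (a + b) / 2) := by
    rw [← Real.exp_add]; congr 1; ring
  have e2 : Real.exp (-b) = Real.exp (-((a + b) / 2)) * Real.exp (-b + (a + b) / 2) := by
    rw [← Real.exp_add]; congr 1; ring
  rw [e1, e2]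
  have h0 := Real.exp_pos (-((a + b) / 2))
  nlinarith

theorem exp_avg3_le (a b c : ℝ) : Real.exp (-((a + b + c) / 3)) ≤
    (Real.exp (-a) + Real.exp (-b) + Real.exp (-c)) / 3 := by
  have h1 := Real.add_one_le_exp (-a + (a + b + c) / 3)
  have h2 := Real.add_one_le_exp (-b + (a + b + c) / 3)
  have h3 := Real.add_one_le_exp (-c + (a + b + c) / 3)
  have e1 : Real.exp (-a) = Real.exp (-((a + b + c) / 3)) * Real.exp (-a + (a + b + c) / 3) := by
    rw [← Real.exp_add]; congr 1; ring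
  have e2 : Real.exp (-b) = Real.exp (-((a + b + c) / 3)) * Real.exp (-b + (a + b + c) / 3) := by
    rw [← Real.exp_add]; congr 1; ring
  have e3 : Real.exp (-c) = Real.exp (-((a + b + c) / 3)) * Real.exp (-c + (a + b + c) / 3) := by
    rw [← Real.exp_add]; congr 1; ring
  rw [e1, e2, e3]
  have h0 := Real.exp_pos (-((a + b + c) / 3))
  nlinarith

theorem T6_comp (g : Z3 ≃ Z3) (hg : ∀ x, nF (g x) = nF x) (Q : Z3 → ℝ) :
    T6 (fun x => Q (g x)) = T6 Q := by
  unfold T6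
  rw [← g.tsum_eq (fun x : Z3 => if 6 ≤ nF x then Real.exp (-(Q x)) else 0)]
  refine tsum_congr fun x => ?_
  rw [hg]

theorem sum_exp_ite {Q : Z3 → ℝ} (h : Summable fun x => Real.exp (-(Q x))) :
    Summable fun x : Z3 => if 6 ≤ nF x then Real.exp (-(Q x)) else 0 :=
  summable_ite h (fun x => (Real.exp_pos _).le) _

theorem avg2 (g : Z3 ≃ Z3) (hg : ∀ x, nF (g x) = nF x) {Q : Z3 → ℝ}
    (h : Summable fun x => Real.exp (-(Q x))) :
    (Summable fun x => Real.exp (-((Q x + Q (g x)) / 2))) ∧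
      T6 (fun x => (Q x + Q (g x)) / 2) ≤ T6 Q := by
  have h2 : Summable fun x => Real.exp (-(Q (g x))) := g.summable_iff.2 h
  have hs : Summable fun x => Real.exp (-((Q x + Q (g x)) / 2)) :=
    Summable.of_nonneg_of_le (fun x => (Real.exp_pos _).le) (fun x => exp_avg_le _ _)
      ((h.add h2).div_const 2)
  refine ⟨hs, ?_⟩
  have e : T6 Q = (T6 Q + T6 (fun x => Q (g x))) / 2 := by rw [T6_comp g hg]; ring
  rw [e]
  unfold T6
  rw [← (sum_exp_ite h).tsum_add (sum_exp_ite h2), ← tsum_div_const]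
  refine (sum_exp_ite hs).tsum_le_tsum (fun x => ?_)
    (((sum_exp_ite h).add (sum_exp_ite h2)).div_const 2)
  split_ifs
  · exact exp_avg_le _ _
  · simp

theorem avg3 (g : Z3 ≃ Z3) (hg : ∀ x, nF (g x) = nF x) {Q : Z3 → ℝ}
    (h : Summable fun x => Real.exp (-(Q x))) :
    (Summable fun x => Real.exp (-((Q x + Q (g x) + Q (g (g x))) / 3))) ∧
      T6 (fun x => (Q x + Q (g x) + Q (g (g x))) / 3) ≤ T6 Q := by
  have h2 : Summable fun x => Real.exp (-(Q (g x))) := g.summable_iff.2 h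
  have h3 : Summable fun x => Real.exp (-(Q (g (g x)))) := g.summable_iff.2 h2
  have hs : Summable fun x => Real.exp (-((Q x + Q (g x) + Q (g (g x))) / 3)) :=
    Summable.of_nonneg_of_le (fun x => (Real.exp_pos _).le) (fun x => exp_avg3_le _ _ _)
      (((h.add h2).add h3).div_const 3)
  refine ⟨hs, ?_⟩
  have e : T6 Q = (T6 Q + T6 (fun x => Q (g x)) + T6 (fun x => Q (g (g x)))) / 3 := by
    have e2 : T6 (fun x => Q (g (g x))) = T6 (fun x => Q (g x)) :=
      T6_comp g hg (fun x => Q (g x))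
    rw [e2, T6_comp g hg]; ring
  rw [e]
  unfold T6
  rw [← (sum_exp_ite h).tsum_add (sum_exp_ite h2),
    ← ((sum_exp_ite h).add (sum_exp_ite h2)).tsum_add (sum_exp_ite h3), ← tsum_div_const]
  refine (sum_exp_ite hs).tsum_le_tsum (fun x => ?_)
    ((((sum_exp_ite h).add (sum_exp_ite h2)).add (sum_exp_ite h3)).div_const 3)
  split_ifs
  · exact exp_avg3_le _ _ _
  · simp

/-- sign change of the first cubic coordinate -/
def g1 : Z3 ≃ Z3 where
  toFun x := (-x.1, x.2.1 - x.1, x.2.2 - x.1)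
  invFun x := (-x.1, x.2.1 - x.1, x.2.2 - x.1)
  left_inv x := by ext <;> simp
  right_inv x := by ext <;> simp

/-- sign change of the second cubic coordinate -/
def g2 : Z3 ≃ Z3 where
  toFun x := (x.1, x.1 - x.2.2, x.1 - x.2.1)
  invFun x := (x.1, x.1 - x.2.2, x.1 - x.2.1)
  left_inv x := by ext <;> simp
  right_inv x := by ext <;> simp

/-- cyclic shift of the cubic coordinates -/
def g3 : Z3 ≃ Z3 where
  toFun x := (x.2.1 + x.2.2 - x.1, x.2.2 - x.1, x.2.2)
  invFun x := (x.2.2 - x.2.1, x.1 - x.2.1, x.2.2)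
  left_inv x := by ext <;> simp
  right_inv x := by ext <;> simp <;> ring

theorem g1_nF (x : Z3) : nF (g1 x) = nF x := by
  simp only [nF, g1, Equiv.coe_fn_mk]; ring

theorem g2_nF (x : Z3) : nF (g2 x) = nF x := by
  simp only [nF, g2, Equiv.coe_fn_mk]; ring

theorem g3_nF (x : Z3) : nF (g3 x) = nF x := by
  simp only [nF, g3, Equiv.coe_fn_mk]; ring

/-- averaging over all symmetries gives the isotropic form -/
theorem avg_form (ρ : Rho) (t σ : ℝ)
    (htr : 3/4*(ρ.r1+ρ.r2+ρ.r3+ρ.r4)+ρ.p+ρ.q = t*(3+σ))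
    (hsum : Summable (fun x : Z3 => Real.exp (-(frm ρ x)))) :
    (Summable fun x : Z3 => Real.exp (-(t * (1 + σ / 3) * (nF x : ℝ)))) ∧
      T6 (fun x => t * (1 + σ / 3) * (nF x : ℝ)) ≤ T6 (frm ρ) := by
  obtain ⟨s1, l1⟩ := avg2 g1 g1_nF hsum
  obtain ⟨s2, l2⟩ := avg2 g2 g2_nF s1
  obtain ⟨s3, l3⟩ := avg3 g3 g3_nF s2
  have e : ∀ x : Z3, (((frm ρ x + frm ρ (g1 x)) / 2 + (frm ρ (g2 x) + frm ρ (g1 (g2 x))) / 2) / 2 +
      ((frm ρ (g3 x) + frm ρ (g1 (g3 x))) / 2 + (frm ρ (g2 (g3 x)) + frm ρ (g1 (g2 (g3 x)))) / 2) / 2 +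
      ((frm ρ (g3 (g3 x)) + frm ρ (g1 (g3 (g3 x)))) / 2 +
        (frm ρ (g2 (g3 (g3 x))) + frm ρ (g1 (g2 (g3 (g3 x))))) / 2) / 2) / 3 =
      t * (1 + σ / 3) * (nF x : ℝ) := by
    intro x
    have h1 : t * (1 + σ / 3) = (3/4*(ρ.r1+ρ.r2+ρ.r3+ρ.r4)+ρ.p+ρ.q) / 3 := by rw [htr]; ring
    rw [h1]
    simp only [frm, nF, g1, g2, g3, Equiv.coe_fn_mk]
    push_cast
    ring
  simp only [e] at s3 l3
  exact ⟨s3, l3.trans (l2.trans l1)⟩

/-! ### The isotropic tail -/

theorem nF_neg (x : Z3) : nF (-x.1, -x.2.1, -x.2.2) = nF x := by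
  simp only [nF]; ring

/-- the tail of the isotropic series by shells -/
theorem T6_iso {s : ℝ} (hs : 0 < s) : T6 (fun x => s * (nF x : ℝ)) =
    24 * Real.exp (-s) ^ 6 + 12 * Real.exp (-s) ^ 8 + 24 * Real.exp (-s) ^ 10 +
    8 * Real.exp (-s) ^ 12 + tl 14 s := by
  have h1 := split4 (f := fun x : Z3 => Real.exp (-(s * (nF x : ℝ)))) (summable_nF hs)
    (fun x => (Real.exp_pos _).le) (fun x => by simp only [nF_neg])
  have h2 := TF_eq hs
  unfold TF at h2
  rw [h2] at h1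
  have e : ∀ n : ℕ, Real.exp (-(s * (n : ℝ))) = Real.exp (-s) ^ n := by
    intro n
    rw [← Real.exp_nat_mul]
    congr 1
    ring
  have e0 := e 0
  have e2 := e 2
  have e4 := e 4
  push_cast at e0 e2 e4
  have k0 : nF (0,0,0) = 0 := by decide
  have k1 : nF (0,0,1) = 2 := by decide
  have k2 : nF (0,1,0) = 2 := by decide
  have k3 : nF (1,0,0) = 2 := by decide
  have k4 : nF (1,1,1) = 2 := by decide
  have k5 : nF (1,0,1) = 2 := by decide
  have k6 : nF (1,1,0) = 2 := by decide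
  have k7 : nF (0,1,1) = 4 := by decide
  have k8 : nF (0,1,-1) = 4 := by decide
  have k9 : nF (2,1,1) = 4 := by decide
  simp only [k0, k1, k2, k3, k4, k5, k6, k7, k8, k9, Int.cast_zero, Int.cast_ofNat] at h1
  rw [e2, e4, e0, pow_zero] at h1
  unfold T6
  linarith

theorem exp_bound : Real.exp (-(148425 / 100000 : ℝ)) ≤ 2268 / 10000 := by
  have h1 := Real.exp_one_gt_d9
  have h2 := Real.sum_le_exp_of_nonneg (x := (48425 / 100000 : ℝ)) (by norm_num) 6
  simp only [Finset.sum_range_succ, Finset.sum_range_zero, Nat.factorial] at h2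
  norm_num at h2
  have h3 : Real.exp (148425 / 100000) = Real.exp 1 * Real.exp (48425 / 100000) := by
    rw [← Real.exp_add]; norm_num
  have h4 : (10000 / 2268 : ℝ) ≤ Real.exp (148425 / 100000) := by
    rw [h3]
    have h5 : (16229 / 10000 : ℝ) ≤ Real.exp (48425 / 100000) := by
      norm_num; linarith
    have h6 : (0 : ℝ) < Real.exp (48425 / 100000) := Real.exp_pos _
    nlinarith
  rw [Real.exp_neg]
  have h5 : (Real.exp (148425 / 100000))⁻¹ ≤ (10000 / 2268 : ℝ)⁻¹ :=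
    inv_anti₀ (by norm_num) h4
  norm_num at h5 ⊢
  exact h5

/-- the isotropic tail with a slower decay -/
theorem T6_slow {t : ℝ} (ht : 1979/1000 ≤ t) :
    T6 (fun x => 3 / 4 * t * (nF x : ℝ)) ≤ 258 / 10 * Real.exp (-(3 / 4 * t)) ^ 6 := by
  rw [T6_iso (by linarith)]
  have h14 := tl14_le (t := 3 / 4 * t) (by linarith)
  have e14 : Real.exp (-(14 * (3 / 4 * t - 35 / 100))) =
      Real.exp (49 / 10) * Real.exp (-(3 / 4 * t)) ^ 14 := by
    rw [← Real.exp_nat_mul, ← Real.exp_add]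
    congr 1
    push_cast
    ring
  have h2 : Real.exp (49 / 10) ≤ 1344 / 10 := by
    have he := Real.exp_one_lt_d9
    have h5 : Real.exp (49 / 10) = Real.exp 1 ^ 5 * Real.exp (-(1 / 10)) := by
      rw [← Real.exp_nat_mul, ← Real.exp_add]
      congr 1
      norm_num
    have h6 : Real.exp (-(1 / 10)) ≤ 1 / (11051 / 10000) := by
      rw [Real.exp_neg, ← one_div]
      apply one_div_le_one_div_of_le (by norm_num)
      have h3 := Real.sum_le_exp_of_nonneg (x := (1 / 10 : ℝ)) (by norm_num) 4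
      simp only [Finset.sum_range_succ, Finset.sum_range_zero, Nat.factorial] at h3
      norm_num at h3 ⊢
      linarith
    rw [h5]
    calc Real.exp 1 ^ 5 * Real.exp (-(1 / 10)) ≤ 2.7182818286 ^ 5 * (1 / (11051 / 10000)) := by
          apply mul_le_mul _ h6 (Real.exp_pos _).le (by positivity)
          exact pow_le_pow_left₀ (Real.exp_pos _).le he.le 5
      _ ≤ 1344 / 10 := by norm_num
  have hy : Real.exp (-(3 / 4 * t)) ≤ 2268 / 10000 :=
    (Real.exp_le_exp.mpr (by linarith)).trans exp_bound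
  have hy0 := Real.exp_pos (-(3 / 4 * t))
  set y := Real.exp (-(3 / 4 * t)) with hydef
  have h3 : tl 14 (3 / 4 * t) ≤ 134400 * y ^ 14 := by
    rw [e14] at h14
    have : 0 ≤ y ^ 14 := by positivity
    nlinarith
  have hy2 : y ^ 2 ≤ 51439 / 1000000 := by nlinarith
  have hy4 : y ^ 4 ≤ 26460 / 10000000 := by nlinarith [sq_nonneg (y ^ 2)]
  have hy6 : y ^ 6 ≤ 1362 / 10000000 := by
    have h20 : 0 ≤ y ^ 2 := by positivity
    have e : y ^ 6 = y ^ 2 * y ^ 4 := by ring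
    rw [e]
    nlinarith
  have hy8 : y ^ 8 ≤ 70014 / 10000000000 := by
    have h20 : 0 ≤ y ^ 4 := by positivity
    have e : y ^ 8 = y ^ 4 * y ^ 4 := by ring
    rw [e]
    nlinarith
  have hfac : 24 * y ^ 6 + 12 * y ^ 8 + 24 * y ^ 10 + 8 * y ^ 12 + 134400 * y ^ 14 =
      y ^ 6 * (24 + 12 * y ^ 2 + 24 * y ^ 4 + 8 * y ^ 6 + 134400 * y ^ 8) := by ring
  have hle : 24 + 12 * y ^ 2 + 24 * y ^ 4 + 8 * y ^ 6 + 134400 * y ^ 8 ≤ 258 / 10 := by
    linarith
  have h60 : 0 ≤ y ^ 6 := by positivity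
  calc 24 * y ^ 6 + 12 * y ^ 8 + 24 * y ^ 10 + 8 * y ^ 12 + tl 14 (3 / 4 * t)
      ≤ 24 * y ^ 6 + 12 * y ^ 8 + 24 * y ^ 10 + 8 * y ^ 12 + 134400 * y ^ 14 := by linarith
    _ = y ^ 6 * (24 + 12 * y ^ 2 + 24 * y ^ 4 + 8 * y ^ 6 + 134400 * y ^ 8) := hfac
    _ ≤ y ^ 6 * (258 / 10) := mul_le_mul_of_nonneg_left hle h60
    _ = 258 / 10 * y ^ 6 := by ring

/-- pointwise comparison of the weighted term -/
theorem weight_le {t n : ℝ} (ht : 1979/1000 ≤ t) (hn : 6 ≤ n) :
    n * Real.exp (-(t * n)) ≤ 6 * Real.exp (-(3 / 2 * t)) * Real.exp (-(3 / 4 * t * n)) := by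
  have h1 : n / 6 ≤ Real.exp ((n - 6) * t / 4) := by
    have h2 := Real.add_one_le_exp ((n - 6) * t / 4)
    have h3 : n / 6 ≤ (n - 6) * t / 4 + 1 := by nlinarith
    linarith
  have e : Real.exp (-(3 / 2 * t)) * Real.exp (-(3 / 4 * t * n)) =
      Real.exp ((n - 6) * t / 4) * Real.exp (-(t * n)) := by
    rw [← Real.exp_add, ← Real.exp_add]
    congr 1
    ring
  have h0 := Real.exp_pos (-(t * n))
  rw [mul_assoc, e]
  nlinarith

theorem fcc_tail (ρ : Rho) (t σ : ℝ) (ht : 1979/1000 ≤ t) (hσ : 0 ≤ σ)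
    (htr : 3/4*(ρ.r1+ρ.r2+ρ.r3+ρ.r4)+ρ.p+ρ.q = t*(3+σ))
    (hsum : Summable (fun x : Z3 => Real.exp (-(frm ρ x)))) :
    (∑' x : Z3, if 6 ≤ nF x then Real.exp (-(t * (nF x : ℝ))) else 0) -
      52 * t * σ * Real.exp (-t) ^ 6 ≤
      ∑' x : Z3, if 6 ≤ nF x then Real.exp (-(frm ρ x)) else 0 := by
  obtain ⟨s1, l1⟩ := avg_form ρ t σ htr hsum
  have ht0 : 0 < t := by linarith
  have hst : Summable fun x : Z3 => Real.exp (-(t * (nF x : ℝ))) := summable_nF ht0
  have hsl : Summable fun x : Z3 => Real.exp (-(3 / 4 * t * (nF x : ℝ))) :=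
    summable_nF (by linarith)
  -- pointwise lower bound
  have key : ∀ x : Z3, (if 6 ≤ nF x then Real.exp (-(t * (nF x : ℝ))) else 0) ≤
      (if 6 ≤ nF x then Real.exp (-(t * (1 + σ / 3) * (nF x : ℝ))) else 0) +
      2 * t * σ * Real.exp (-(3 / 2 * t)) *
        (if 6 ≤ nF x then Real.exp (-(3 / 4 * t * (nF x : ℝ))) else 0) := by
    intro x
    split_ifs with h
    · have hn : (6 : ℝ) ≤ (nF x : ℝ) := by exact_mod_cast h
      have h1 := weight_le ht hn
      have h2 := Real.add_one_le_exp (-(t * (σ / 3) * (nF x : ℝ)))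
      have e : Real.exp (-(t * (1 + σ / 3) * (nF x : ℝ))) =
          Real.exp (-(t * (nF x : ℝ))) * Real.exp (-(t * (σ / 3) * (nF x : ℝ))) := by
        rw [← Real.exp_add]
        congr 1
        ring
      have h0 := Real.exp_pos (-(t * (nF x : ℝ)))
      rw [e]
      have h3 : Real.exp (-(t * (nF x : ℝ))) * (-(t * (σ / 3) * (nF x : ℝ)) + 1) ≤
          Real.exp (-(t * (nF x : ℝ))) * Real.exp (-(t * (σ / 3) * (nF x : ℝ))) :=
        mul_le_mul_of_nonneg_left h2 h0.le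
      have h4 : t * (σ / 3) * ((nF x : ℝ) * Real.exp (-(t * (nF x : ℝ)))) ≤
          t * (σ / 3) * (6 * Real.exp (-(3 / 2 * t)) * Real.exp (-(3 / 4 * t * (nF x : ℝ)))) :=
        mul_le_mul_of_nonneg_left h1 (by positivity)
      nlinarith
    · simp
  have hT : T6 (fun x => t * (nF x : ℝ)) ≤ T6 (fun x => t * (1 + σ / 3) * (nF x : ℝ)) +
      2 * t * σ * Real.exp (-(3 / 2 * t)) * T6 (fun x => 3 / 4 * t * (nF x : ℝ)) := by
    unfold T6
    rw [← tsum_mul_left, ← (sum_exp_ite s1).tsum_add ((sum_exp_ite hsl).mul_left _)]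
    exact (sum_exp_ite hst).tsum_le_tsum key
      ((sum_exp_ite s1).add ((sum_exp_ite hsl).mul_left _))
  have hslow := T6_slow ht
  have e6 : Real.exp (-(3 / 2 * t)) * Real.exp (-(3 / 4 * t)) ^ 6 = Real.exp (-t) ^ 6 := by
    rw [← Real.exp_nat_mul, ← Real.exp_nat_mul, ← Real.exp_add]
    congr 1
    push_cast
    ring
  have hc : 0 ≤ 2 * t * σ * Real.exp (-(3 / 2 * t)) := by positivity
  have h5 : 2 * t * σ * Real.exp (-(3 / 2 * t)) * T6 (fun x => 3 / 4 * t * (nF x : ℝ)) ≤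
      52 * t * σ * Real.exp (-t) ^ 6 := by
    calc 2 * t * σ * Real.exp (-(3 / 2 * t)) * T6 (fun x => 3 / 4 * t * (nF x : ℝ))
        ≤ 2 * t * σ * Real.exp (-(3 / 2 * t)) * (258 / 10 * Real.exp (-(3 / 4 * t)) ^ 6) :=
          mul_le_mul_of_nonneg_left hslow hc
      _ = 516 / 10 * t * σ * (Real.exp (-(3 / 2 * t)) * Real.exp (-(3 / 4 * t)) ^ 6) := by ring
      _ = 516 / 10 * t * σ * Real.exp (-t) ^ 6 := by rw [e6]
      _ ≤ 52 * t * σ * Real.exp (-t) ^ 6 := by
          have : 0 ≤ t * σ * Real.exp (-t) ^ 6 := by positivity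
          nlinarith
  have h6 : T6 (fun x => t * (nF x : ℝ)) - 52 * t * σ * Real.exp (-t) ^ 6 ≤ T6 (frm ρ) := by
    linarith
  exact h6

end Theta3
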