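import Pool.Agent.H98.Theta3.Bcc0
import Pool.Agent.H98.Theta3.FccTail
import Pool.Agent.H98.Theta3.ExpLow
import Pool.Agent.H98.Theta3.FccPoly

set_option autoImplicit false

/-!
# The face centred cubic lattice is a strict local minimum
-/

namespace Theta3

/-- size estimates in cubic coordinates -/
theorem cubic_size {A B C D E F t : ℝ} (ht : 0 < t) (hB0 : 0 < B) (hAB : B ≤ A)
    (hAB2 : A ≤ 10518 / 10000 * B) (hCB : B ≤ C) (hCB2 : C ≤ 10518 / 10000 * B)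
    (hD : |D| ≤ 259 / 10000 * B) (hE : |E| ≤ 259 / 10000 * B) (hF : |F| ≤ 259 / 10000 * B)
    (hdet : A * B * C - A * D ^ 2 - B * E ^ 2 - C * F ^ 2 + 2 * D * E * F = t ^ 3) :
    (A ≤ 1038 / 1000 * t ∧ B ≤ 1038 / 1000 * t ∧ C ≤ 1038 / 1000 * t ∧ 962 / 1000 * t ≤ B) := by
  have hA0 : 0 < A := by linarith
  have hC0 : 0 < C := by linarith
  obtain ⟨hD1, hD2⟩ := abs_le.mp hD
  obtain ⟨hE1, hE2⟩ := abs_le.mp hE
  obtain ⟨hF1, hF2⟩ := abs_le.mp hF
  have sq_le : ∀ x : ℝ, |x| ≤ 259 / 10000 * B → x ^ 2 ≤ 671 / 1000000 * B ^ 2 := by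
    intro x hx
    have h := pow_le_pow_left₀ (abs_nonneg x) hx 2
    rw [sq_abs] at h
    nlinarith [sq_nonneg B]
  have sD := sq_le D hD
  have sE := sq_le E hE
  have sF := sq_le F hF
  have B2 : 0 < B ^ 2 := by positivity
  have B3 : 0 < B ^ 3 := by positivity
  have hAC : B ^ 2 ≤ A * C := by nlinarith
  have hAC2 : A * C ≤ (10518 / 10000) ^ 2 * B ^ 2 := by nlinarith
  -- lower bound of the determinant
  have m1 : A * D ^ 2 ≤ 671 / 1000000 * (A * B * C) := by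
    have h1 := mul_le_mul_of_nonneg_left sD hA0.le
    have h2 := mul_le_mul_of_nonneg_left hCB (mul_pos hA0 hB0).le
    nlinarith
  have m2 : B * E ^ 2 ≤ 671 / 1000000 * (A * B * C) := by
    have h1 := mul_le_mul_of_nonneg_left sE hB0.le
    have h2 := mul_le_mul_of_nonneg_left hAC hB0.le
    nlinarith
  have m3 : C * F ^ 2 ≤ 671 / 1000000 * (A * B * C) := by
    have h1 := mul_le_mul_of_nonneg_left sF hC0.le
    have h2 := mul_le_mul_of_nonneg_left hAB (mul_pos hC0 hB0).le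
    nlinarith
  have hABC : B ^ 3 ≤ A * B * C := by nlinarith
  have m4 : -(36 / 1000000 * (A * B * C)) ≤ 2 * D * E * F := by
    have h1 : 0 ≤ 259 / 10000 * B * (D ^ 2 + E ^ 2) + 2 * D * E * F := by
      nlinarith [mul_nonneg (show 0 ≤ 259 / 10000 * B + F by linarith) (sq_nonneg (D + E)),
        mul_nonneg (show 0 ≤ 259 / 10000 * B - F by linarith) (sq_nonneg (D - E))]
    have h2 : 259 / 10000 * B * (D ^ 2 + E ^ 2) ≤ 259 / 10000 * B * (2 * (671 / 1000000 * B ^ 2)) :=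
      mul_le_mul_of_nonneg_left (by linarith) (by positivity)
    nlinarith
  have lo : 9979 / 10000 * (A * B * C) ≤ t ^ 3 := by
    rw [← hdet]
    nlinarith [mul_pos (mul_pos hA0 hB0) hC0]
  -- upper bound of the determinant
  have hi : t ^ 3 ≤ A * B * C := by
    have h1 : 0 ≤ B * (D ^ 2 + E ^ 2) - 2 * D * E * F := by
      nlinarith [mul_nonneg (show 0 ≤ B + F by linarith) (sq_nonneg (D - E)),
        mul_nonneg (show 0 ≤ B - F by linarith) (sq_nonneg (D + E))]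
    have h2 : B * D ^ 2 ≤ A * D ^ 2 := mul_le_mul_of_nonneg_right hAB (sq_nonneg D)
    have h3 : 0 ≤ C * F ^ 2 := by positivity
    rw [← hdet]
    linarith
  have hA : A ≤ 1038 / 1000 * t := by
    apply le_of_pow_le_pow_left₀ (n := 3) (by norm_num) (by positivity)
    have h1 : A ^ 2 ≤ (10518 / 10000) ^ 2 * B ^ 2 := by nlinarith
    have h2 : A ^ 3 ≤ (10518 / 10000) ^ 2 * (A * B * C) := by
      calc A ^ 3 = A ^ 2 * A := by ring
        _ ≤ ((10518 / 10000) ^ 2 * B ^ 2) * A := mul_le_mul_of_nonneg_right h1 hA0.le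
        _ = (10518 / 10000) ^ 2 * (A * B) * B := by ring
        _ ≤ (10518 / 10000) ^ 2 * (A * B) * C :=
          mul_le_mul_of_nonneg_left hCB (by positivity)
        _ = _ := by ring
    nlinarith
  have hC : C ≤ 1038 / 1000 * t := by
    apply le_of_pow_le_pow_left₀ (n := 3) (by norm_num) (by positivity)
    have h1 : C ^ 2 ≤ (10518 / 10000) ^ 2 * B ^ 2 := by nlinarith
    have h2 : C ^ 3 ≤ (10518 / 10000) ^ 2 * (A * B * C) := by
      calc C ^ 3 = C ^ 2 * C := by ring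
        _ ≤ ((10518 / 10000) ^ 2 * B ^ 2) * C := mul_le_mul_of_nonneg_right h1 hC0.le
        _ = (10518 / 10000) ^ 2 * (B * C) * B := by ring
        _ ≤ (10518 / 10000) ^ 2 * (B * C) * A :=
          mul_le_mul_of_nonneg_left hAB (by positivity)
        _ = _ := by ring
    nlinarith
  refine ⟨hA, by linarith, hC, ?_⟩
  apply le_of_pow_le_pow_left₀ (n := 3) (by norm_num) hB0.le
  have h2 : A * B * C ≤ (10518 / 10000) ^ 2 * B ^ 3 := by
    calc A * B * C = (A * C) * B := by ring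
      _ ≤ ((10518 / 10000) ^ 2 * B ^ 2) * B := mul_le_mul_of_nonneg_right hAC2 hB0.le
      _ = _ := by ring
  nlinarith

/-- cubic coordinates -/
theorem fcc_coords {ρ : Rho} {t : ℝ} (hS : Sorted ρ) (h1 : 0 < ρ.r1)
    (hp : 4096 * ρ.p ≤ 204 * ρ.r1) (hq : 4096 * ρ.q ≤ 204 * ρ.r1)
    (h2 : 3892 * ρ.r1 ≤ 4096 * ρ.r2) (h3 : 3892 * ρ.r1 ≤ 4096 * ρ.r3)
    (h4 : 3892 * ρ.r1 ≤ 4096 * ρ.r4) (ht : 0 < t) (hdt : dt ρ = 4 * t ^ 3) :
    ∃ a b c d e f : ℝ, |a| ≤ 38 / 1000 ∧ |b| ≤ 38 / 1000 ∧ |c| ≤ 38 / 1000 ∧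
      |d| ≤ 27 / 1000 ∧ |e| ≤ 27 / 1000 ∧ |f| ≤ 27 / 1000 ∧
      (1 + a) * (1 + b) * (1 + c) - (1 + a) * d ^ 2 - (1 + b) * e ^ 2 - (1 + c) * f ^ 2 +
      2 * d * e * f = 1 ∧
      ρ.p = t * (a - b) ∧ ρ.q = t * (c - b) ∧ ρ.r1 = t * (1 + b - d - e + f) ∧
      ρ.r2 = t * (1 + b + d + e + f) ∧ ρ.r3 = t * (1 + b - d + e - f) ∧
      ρ.r4 = t * (1 + b + d - e - f) := by
  obtain ⟨p0, q0, r30, r40, h32, h21, h41, hs1, hs2⟩ := id hS
  obtain ⟨B, hB⟩ : ∃ B, B = (ρ.r1 + ρ.r2 + ρ.r3 + ρ.r4) / 4 := ⟨_, rfl⟩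
  obtain ⟨A, hA⟩ : ∃ A, A = B + ρ.p := ⟨_, rfl⟩
  obtain ⟨C, hC⟩ : ∃ C, C = B + ρ.q := ⟨_, rfl⟩
  obtain ⟨D, hD⟩ : ∃ D, D = (-ρ.r1 + ρ.r2 - ρ.r3 + ρ.r4) / 4 := ⟨_, rfl⟩
  obtain ⟨E, hE⟩ : ∃ E, E = (-ρ.r1 + ρ.r2 + ρ.r3 - ρ.r4) / 4 := ⟨_, rfl⟩
  obtain ⟨F, hF⟩ : ∃ F, F = (ρ.r1 + ρ.r2 - ρ.r3 - ρ.r4) / 4 := ⟨_, rfl⟩
  have hB0 : 0 < B := by rw [hB]; linarith
  have hdet : A * B * C - A * D ^ 2 - B * E ^ 2 - C * F ^ 2 + 2 * D * E * F = t ^ 3 := by
    have h : 4 * (A * B * C - A * D ^ 2 - B * E ^ 2 - C * F ^ 2 + 2 * D * E * F) = dt ρ := by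
      rw [hA, hC, hB, hD, hE, hF]; unfold dt; ring
    linarith
  have aD : |D| ≤ 259 / 10000 * B := by
    rw [abs_le, hD, hB]; constructor <;> linarith
  have aE : |E| ≤ 259 / 10000 * B := by
    rw [abs_le, hE, hB]; constructor <;> linarith
  have aF : |F| ≤ 259 / 10000 * B := by
    rw [abs_le, hF, hB]; constructor <;> linarith
  obtain ⟨g1, g2, g3, g4⟩ := cubic_size ht hB0 (show B ≤ A by linarith)
    (show A ≤ 10518 / 10000 * B by rw [hA, hB]; linarith) (show B ≤ C by linarith)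
    (show C ≤ 10518 / 10000 * B by rw [hC, hB]; linarith) aD aE aF hdet
  have hdiv : ∀ x : ℝ, x / t * t = x := fun x => by field_simp
  have habs : ∀ x m : ℝ, |x| ≤ m * t → |x / t| ≤ m := by
    intro x m h
    rw [abs_div, abs_of_pos ht, div_le_iff₀ ht]
    exact h
  have aD' : |D / t| ≤ 27 / 1000 := habs D _ (aD.trans (by linarith))
  have aE' : |E / t| ≤ 27 / 1000 := habs E _ (aE.trans (by linarith))
  have aF' : |F / t| ≤ 27 / 1000 := habs F _ (aF.trans (by linarith))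
  have h38 : ∀ x : ℝ, 962 / 1000 * t ≤ x → x ≤ 1038 / 1000 * t → |x / t - 1| ≤ 38 / 1000 := by
    intro x l1 l2
    have e : x / t - 1 = (x - t) / t := by field_simp
    rw [e]
    apply habs
    rw [abs_le]; constructor <;> linarith
  refine ⟨A / t - 1, B / t - 1, C / t - 1, D / t, E / t, F / t, h38 A (by linarith) g1,
    h38 B g4 g2, h38 C (by linarith) g3, aD', aE', aF', ?_, ?_, ?_, ?_, ?_, ?_, ?_⟩
  · have e : (1 + (A / t - 1)) * (1 + (B / t - 1)) * (1 + (C / t - 1)) -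
        (1 + (A / t - 1)) * (D / t) ^ 2 - (1 + (B / t - 1)) * (E / t) ^ 2 -
        (1 + (C / t - 1)) * (F / t) ^ 2 + 2 * (D / t) * (E / t) * (F / t) =
        (A * B * C - A * D ^ 2 - B * E ^ 2 - C * F ^ 2 + 2 * D * E * F) / t ^ 3 := by
      field_simp
      ring
    rw [e, hdet]
    field_simp
  · have : t * (A / t - 1 - (B / t - 1)) = A - B := by field_simp; ring
    rw [this]; linarith
  · have : t * (C / t - 1 - (B / t - 1)) = C - B := by field_simp; ring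
    rw [this]; linarith
  · have : t * (1 + (B / t - 1) - D / t - E / t + F / t) = B - D - E + F := by field_simp; ring
    rw [this]; linarith
  · have : t * (1 + (B / t - 1) + D / t + E / t + F / t) = B + D + E + F := by field_simp; ring
    rw [this]; linarith
  · have : t * (1 + (B / t - 1) - D / t + E / t - F / t) = B - D + E - F := by field_simp; ring
    rw [this]; linarith
  · have : t * (1 + (B / t - 1) + D / t - E / t - F / t) = B + D - E - F := by field_simp; ring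
    rw [this]; linarith

theorem exp_bounds_lo {t : ℝ} (h : t ≤ 22 / 10) : 1227 / 100000 ≤ Real.exp (-t) ^ 2 := by
  have e : Real.exp (-(22 / 10)) ^ 2 = Real.exp (-1) ^ 4 * Real.exp (-(1 / 10)) ^ 4 := by
    rw [← Real.exp_nat_mul, ← Real.exp_nat_mul, ← Real.exp_nat_mul, ← Real.exp_add]
    congr 1
    norm_num
  have h1 : Real.exp (-(22 / 10)) ^ 2 ≤ Real.exp (-t) ^ 2 :=
    pow_le_pow_left₀ (Real.exp_pos _).le (Real.exp_le_exp.mpr (by linarith)) 2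
  have h2 := Real.exp_neg_one_gt_d9
  have h3 := exp_cubic_neg (v := 1 / 10) (by norm_num)
  have h4 : (36787944 / 100000000 : ℝ) ^ 4 ≤ Real.exp (-1) ^ 4 :=
    pow_le_pow_left₀ (by norm_num) (by norm_num at h2 ⊢; linarith) 4
  have h5 : (9048 / 10000 : ℝ) ^ 4 ≤ Real.exp (-(1 / 10)) ^ 4 :=
    pow_le_pow_left₀ (by norm_num) (by norm_num at h3 ⊢; linarith) 4
  refine le_trans ?_ h1
  rw [e]
  refine le_trans ?_ (mul_le_mul h4 h5 (by positivity) (by positivity))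
  norm_num

theorem exp_bounds_hi2 {t : ℝ} (h : 22 / 10 ≤ t) : Real.exp (-t) ^ 2 ≤ 123 / 10000 := by
  have e : Real.exp (-(22 / 10)) ^ 2 = Real.exp (-1) ^ 4 * Real.exp (-(1 / 10)) ^ 4 := by
    rw [← Real.exp_nat_mul, ← Real.exp_nat_mul, ← Real.exp_nat_mul, ← Real.exp_add]
    congr 1
    norm_num
  have h1 : Real.exp (-t) ^ 2 ≤ Real.exp (-(22 / 10)) ^ 2 :=
    pow_le_pow_left₀ (Real.exp_pos _).le (Real.exp_le_exp.mpr (by linarith)) 2
  have h2 := Real.exp_neg_one_lt_d9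
  have h3 : Real.exp (-(1 / 10)) ≤ 905 / 1000 := by
    have h := Real.quadratic_le_exp_of_nonneg (x := (1 / 10 : ℝ)) (by norm_num)
    have h' : Real.exp (-(1 / 10)) ≤ 1 / (1 + 1 / 10 + (1 / 10) ^ 2 / 2) := by
      rw [Real.exp_neg, ← one_div]
      exact one_div_le_one_div_of_le (by norm_num) h
    norm_num at h' ⊢
    linarith
  have h4 : Real.exp (-1) ^ 4 ≤ (3678795 / 10000000 : ℝ) ^ 4 :=
    pow_le_pow_left₀ (Real.exp_pos _).le (by norm_num at h2 ⊢; linarith) 4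
  have h5 : Real.exp (-(1 / 10)) ^ 4 ≤ (905 / 1000 : ℝ) ^ 4 :=
    pow_le_pow_left₀ (Real.exp_pos _).le h3 4
  refine h1.trans ?_
  rw [e]
  refine (mul_le_mul h4 h5 (by positivity) (by positivity)).trans ?_
  norm_num

theorem exp_bounds_hi1 {t : ℝ} (h : 1979 / 1000 ≤ t) : Real.exp (-t) ^ 2 ≤ 192 / 10000 := by
  have e : Real.exp (-(1979 / 1000)) ^ 2 = Real.exp (-1) ^ 4 * Real.exp (42 / 1000) := by
    rw [← Real.exp_nat_mul, ← Real.exp_nat_mul, ← Real.exp_add]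
    congr 1
    norm_num
  have h1 : Real.exp (-t) ^ 2 ≤ Real.exp (-(1979 / 1000)) ^ 2 :=
    pow_le_pow_left₀ (Real.exp_pos _).le (Real.exp_le_exp.mpr (by linarith)) 2
  have h2 := Real.exp_neg_one_lt_d9
  have h3 : Real.exp (42 / 1000) ≤ 1044 / 1000 := by
    have h := Real.add_one_le_exp (-(42 / 1000 : ℝ))
    have h6 : Real.exp (42 / 1000) = 1 / Real.exp (-(42 / 1000)) := by
      rw [Real.exp_neg]; field_simp
    rw [h6]
    refine (one_div_le_one_div_of_le (by norm_num) h).trans ?_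
    norm_num
  have h4 : Real.exp (-1) ^ 4 ≤ (3678795 / 10000000 : ℝ) ^ 4 :=
    pow_le_pow_left₀ (Real.exp_pos _).le (by norm_num at h2 ⊢; linarith) 4
  refine h1.trans ?_
  rw [e]
  refine (mul_le_mul h4 h3 (by positivity) (by positivity)).trans ?_
  norm_num

theorem fcc_local (ρ : Rho) (t : ℝ) (hS : Sorted ρ) (h1 : 0 < ρ.r1)
    (hp : 4096 * ρ.p ≤ 204 * ρ.r1) (hq : 4096 * ρ.q ≤ 204 * ρ.r1)
    (h2 : 3892 * ρ.r1 ≤ 4096 * ρ.r2) (h3 : 3892 * ρ.r1 ≤ 4096 * ρ.r3)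
    (h4 : 3892 * ρ.r1 ≤ 4096 * ρ.r4) (ht : 1979 / 1000 ≤ t) (hdt : dt ρ = 4 * t ^ 3)
    (hsum : Summable (fun x : Z3 => Real.exp (-(frm ρ x)))) :
    TF t < Th ρ ∨ (ρ.p = 0 ∧ ρ.q = 0 ∧ ρ.r1 = t ∧ ρ.r2 = t ∧ ρ.r3 = t ∧ ρ.r4 = t) := by
  have ht0 : 0 < t := by linarith
  obtain ⟨a, b, c, d, e, f, ha, hb, hc, hd, he, hf, hdet, ep, eq, e1, e2, e3, e4⟩ :=
    fcc_coords hS h1 hp hq h2 h3 h4 ht0 hdt
  have hsig := fcc_sigma ha hb hc hd he hf hdet
  have htail := fcc_tail ρ t (a + b + c) ht hsig (by rw [ep, eq, e1, e2, e3, e4]; ring) hsum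
  obtain ⟨T, hT0, hTt, hT⟩ : ∃ T : ℝ, 0 < T ∧ T ≤ t ∧
      ((T = 1979 / 1000 ∧ 1227 / 100000 ≤ Real.exp (-t) ^ 2 ∧ Real.exp (-t) ^ 2 ≤ 192 / 10000) ∨
      (T = 22 / 10 ∧ 0 ≤ Real.exp (-t) ^ 2 ∧ Real.exp (-t) ^ 2 ≤ 123 / 10000)) := by
    rcases le_total t (22 / 10) with h | h
    · exact ⟨1979 / 1000, by norm_num, ht, Or.inl ⟨rfl, exp_bounds_lo h, exp_bounds_hi1 ht⟩⟩
    · exact ⟨22 / 10, by norm_num, h, Or.inr ⟨rfl, by positivity, exp_bounds_hi2 h⟩⟩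
  have hpoly := fcc_poly ha hb hc hd he hf hdet hT
  -- the two series
  have sF := split4 (summable_nF ht0) (fun x => (Real.exp_pos _).le) (fun x => by
    congr 3
    unfold nF
    push_cast
    ring)
  have sR := split4 hsum (fun x => (Real.exp_pos _).le) (fun x => by
    congr 2
    unfold frm
    push_cast
    ring)
  have fF : ∀ (x : Z3) (n : ℕ), nF x = (n : ℤ) →
      Real.exp (-(t * (nF x : ℝ))) = Real.exp (-t) ^ n := by
    intro x n h
    rw [h, ← Real.exp_nat_mul]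
    congr 1
    push_cast
    ring
  rw [fF (0,0,0) 0 (by decide), fF (0,0,1) 2 (by decide), fF (0,1,0) 2 (by decide),
    fF (1,0,0) 2 (by decide), fF (1,1,1) 2 (by decide), fF (1,0,1) 2 (by decide),
    fF (1,1,0) 2 (by decide), fF (0,1,1) 4 (by decide), fF (0,1,-1) 4 (by decide),
    fF (2,1,1) 4 (by decide)] at sF
  have fR : ∀ (x : Z3) (n : ℕ) (z : ℝ), frm ρ x = t * (n + z) →
      Real.exp (-t) ^ n * (1 + t * Pc T z) ≤ Real.exp (-(frm ρ x)) := by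
    intro x n z h
    have h5 := exp_sub_one_ge z hT0 hTt
    have h6 : Real.exp (-(frm ρ x)) = Real.exp (-t) ^ n * Real.exp (-(t * z)) := by
      rw [h, ← Real.exp_nat_mul, ← Real.exp_add]
      congr 1
      ring
    rw [h6]
    refine mul_le_mul_of_nonneg_left ?_ (by positivity)
    unfold Pc
    linarith
  have g1 := fR (0,0,1) 2 (b + c + 2 * d) (by unfold frm; rw [ep, eq, e1, e2, e3, e4]; push_cast; ring)
  have g2 := fR (0,1,0) 2 (b + c - 2 * d) (by unfold frm; rw [ep, eq, e1, e2, e3, e4]; push_cast; ring)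
  have g3 := fR (1,0,0) 2 (a + b - 2 * f) (by unfold frm; rw [ep, eq, e1, e2, e3, e4]; push_cast; ring)
  have g4 := fR (1,1,1) 2 (a + b + 2 * f) (by unfold frm; rw [ep, eq, e1, e2, e3, e4]; push_cast; ring)
  have g5 := fR (1,0,1) 2 (a + c + 2 * e) (by unfold frm; rw [ep, eq, e1, e2, e3, e4]; push_cast; ring)
  have g6 := fR (1,1,0) 2 (a + c - 2 * e) (by unfold frm; rw [ep, eq, e1, e2, e3, e4]; push_cast; ring)
  have g7 := fR (2,1,1) 4 (4 * a) (by unfold frm; rw [ep, eq, e1, e2, e3, e4]; push_cast; ring)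
  have g8 := fR (0,1,1) 4 (4 * b) (by unfold frm; rw [ep, eq, e1, e2, e3, e4]; push_cast; ring)
  have g9 := fR (0,1,-1) 4 (4 * c) (by unfold frm; rw [ep, eq, e1, e2, e3, e4]; push_cast; ring)
  have g0 : Real.exp (-(frm ρ (0,0,0))) = 1 := by unfold frm; simp
  rw [g0] at sR
  have hTh : Th ρ = _ := sR
  have hTF : TF t = _ := sF
  have hy : 0 < Real.exp (-t) := Real.exp_pos _
  have hfin : t * Real.exp (-t) ^ 2 *
      ((a ^ 2 + b ^ 2 + c ^ 2 + d ^ 2 + e ^ 2 + f ^ 2) / 100) ≤ Th ρ - TF t := by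
    have h7 := mul_le_mul_of_nonneg_left hpoly
      (show 0 ≤ t * Real.exp (-t) ^ 2 by positivity)
    rw [hTh, hTF]
    generalize Real.exp (-t) = y at *
    linarith
  by_cases hz : a ^ 2 + b ^ 2 + c ^ 2 + d ^ 2 + e ^ 2 + f ^ 2 = 0
  · right
    have z0 : ∀ x : ℝ, x ^ 2 ≤ 0 → x = 0 := fun x h =>
      (pow_eq_zero_iff (two_ne_zero)).mp (le_antisymm h (sq_nonneg x))
    have qa := sq_nonneg a
    have qb := sq_nonneg b
    have qc := sq_nonneg c
    have qd := sq_nonneg d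
    have qe := sq_nonneg e
    have qf := sq_nonneg f
    clear hpoly hfin g1 g2 g3 g4 g5 g6 g7 g8 g9 hTh hTF sR sF htail hdet
    have za : a = 0 := z0 a (by linarith)
    have zb : b = 0 := z0 b (by linarith)
    have zc : c = 0 := z0 c (by linarith)
    have zd : d = 0 := z0 d (by linarith)
    have ze : e = 0 := z0 e (by linarith)
    have zf : f = 0 := z0 f (by linarith)
    rw [ep, eq, e1, e2, e3, e4, za, zb, zc, zd, ze, zf]
    refine ⟨?_, ?_, ?_, ?_, ?_, ?_⟩ <;> ring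
  · left
    have h8 : 0 < a ^ 2 + b ^ 2 + c ^ 2 + d ^ 2 + e ^ 2 + f ^ 2 :=
      lt_of_le_of_ne (by positivity) (Ne.symm hz)
    have h9 : 0 < t * Real.exp (-t) ^ 2 *
      ((a ^ 2 + b ^ 2 + c ^ 2 + d ^ 2 + e ^ 2 + f ^ 2) / 100) := by positivity
    linarith

end Theta3
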