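import Mathlib

/-!
# Selling reduction of ternary positive definite forms, with sorting
-/

namespace Theta3

open Matrix

namespace Sell

/-- The determinant of three integer vectors. -/
def D (a b c : Fin 3 → ℤ) : ℤ :=
  a 0 * (b 1 * c 2 - b 2 * c 1) - a 1 * (b 0 * c 2 - b 2 * c 0) + a 2 * (b 0 * c 1 - b 1 * c 0)

/-- Superbases. -/
structure SB (a b c d : Fin 3 → ℤ) : Prop where
  sum : ∀ i, a i + b i + c i + d i = 0
  det : D b c d = 1 ∨ D b c d = -1

variable {a b c d : Fin 3 → ℤ}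

lemma SB.sol (h : SB a b c d) (i : Fin 3) : a i = -(b i + c i + d i) := by
  have := h.sum i
  linarith

lemma SB.swap1 (h : SB a b c d) : SB b a c d := by
  refine ⟨fun i => by linarith [h.sum i], ?_⟩
  have e : D a c d = - D b c d := by
    unfold D
    rw [h.sol 0, h.sol 1, h.sol 2]
    ring
  rw [e]
  rcases h.det with h1 | h1 <;> rw [h1] <;> simp

lemma SB.swap2 (h : SB a b c d) : SB a c b d := by
  refine ⟨fun i => by linarith [h.sum i], ?_⟩
  have e : D c b d = - D b c d := by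
    unfold D
    ring
  rw [e]
  rcases h.det with h1 | h1 <;> rw [h1] <;> simp

lemma SB.swap3 (h : SB a b c d) : SB a b d c := by
  refine ⟨fun i => by linarith [h.sum i], ?_⟩
  have e : D b d c = - D b c d := by
    unfold D
    ring
  rw [e]
  rcases h.det with h1 | h1 <;> rw [h1] <;> simp

lemma SB.move (h : SB a b c d) : SB (-a) b (c + a) (d + a) := by
  refine ⟨fun i => by simp only [Pi.neg_apply, Pi.add_apply]; linarith [h.sum i], ?_⟩
  have e : D b (c + a) (d + a) = - D b c d := by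
    unfold D
    simp only [Pi.add_apply]
    rw [h.sol 0, h.sol 1, h.sol 2]
    ring
  rw [e]
  rcases h.det with h1 | h1 <;> rw [h1] <;> simp

/-- Image of an integer vector. -/
noncomputable def g (A : Matrix (Fin 3) (Fin 3) ℝ) (a : Fin 3 → ℤ) : Fin 3 → ℝ :=
  A.mulVec (fun j => (a j : ℝ))

/-- Bilinear form. -/
noncomputable def B (A : Matrix (Fin 3) (Fin 3) ℝ) (a b : Fin 3 → ℤ) : ℝ := ∑ i, g A a i * g A b i

variable {A : Matrix (Fin 3) (Fin 3) ℝ}

lemma g_add (a b : Fin 3 → ℤ) (i : Fin 3) : g A (a + b) i = g A a i + g A b i := by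
  unfold g mulVec dotProduct
  rw [← Finset.sum_add_distrib]
  refine Finset.sum_congr rfl fun j _ => ?_
  simp only [Pi.add_apply]
  push_cast
  ring

lemma g_neg (a : Fin 3 → ℤ) (i : Fin 3) : g A (-a) i = - g A a i := by
  unfold g mulVec dotProduct
  rw [← Finset.sum_neg_distrib]
  refine Finset.sum_congr rfl fun j _ => ?_
  simp only [Pi.neg_apply]
  push_cast
  ring

lemma B_comm (a b : Fin 3 → ℤ) : B A a b = B A b a := by
  unfold B
  exact Finset.sum_congr rfl fun i _ => mul_comm _ _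

lemma B_add_left (a b c : Fin 3 → ℤ) : B A (a + b) c = B A a c + B A b c := by
  unfold B
  rw [← Finset.sum_add_distrib]
  exact Finset.sum_congr rfl fun i _ => by rw [g_add]; ring

lemma B_add_right (a b c : Fin 3 → ℤ) : B A a (b + c) = B A a b + B A a c := by
  rw [B_comm, B_add_left, B_comm b, B_comm c]

lemma B_neg_left (a b : Fin 3 → ℤ) : B A (-a) b = - B A a b := by
  unfold B
  rw [← Finset.sum_neg_distrib]
  exact Finset.sum_congr rfl fun i _ => by rw [g_neg]; ring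

lemma B_neg_right (a b : Fin 3 → ℤ) : B A a (-b) = - B A a b := by
  rw [B_comm, B_neg_left, B_comm]

lemma B_self_nonneg (a : Fin 3 → ℤ) : 0 ≤ B A a a :=
  Finset.sum_nonneg fun _ _ => mul_self_nonneg _

lemma SB.rel (h : SB a b c d) (x : Fin 3 → ℤ) : B A x a + B A x b + B A x c + B A x d = 0 := by
  have h1 : a = -(b + c + d) := by
    funext i
    simpa using h.sol i
  have h2 : B A x a = -(B A x b + B A x c + B A x d) := by
    rw [h1, B_neg_right, B_add_right, B_add_right]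
  rw [h2]; ring

/-- Sum of the norms. -/
noncomputable def F (A : Matrix (Fin 3) (Fin 3) ℝ) (a b c d : Fin 3 → ℤ) : ℝ :=
  B A a a + B A b b + B A c c + B A d d

lemma F_move (h : SB a b c d) : F A (-a) b (c + a) (d + a) = F A a b c d - 2 * B A a b := by
  have h1 := h.rel (A := A) a
  unfold F
  rw [B_neg_left, B_neg_right, B_add_left, B_add_right, B_add_right, B_add_left, B_add_right,
    B_add_right, B_comm c a, B_comm d a]
  linarith

/-- Bound of the coordinates by the form. -/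
lemma coord_bound (hA : A.det ≠ 0) : ∃ K : ℝ, 0 ≤ K ∧ ∀ (a : Fin 3 → ℤ) (j : Fin 3),
    ((a j : ℤ) : ℝ) ^ 2 ≤ K * B A a a := by
  refine ⟨∑ j, ∑ i, (A⁻¹ j i) ^ 2, Finset.sum_nonneg fun j _ => Finset.sum_nonneg fun i _ =>
    sq_nonneg _, fun a j => ?_⟩
  have h1 : A⁻¹.mulVec (g A a) = fun j => (a j : ℝ) := by
    unfold g
    rw [mulVec_mulVec, nonsing_inv_mul _ (isUnit_iff_ne_zero.mpr hA), one_mulVec]
  have h2 : ((a j : ℤ) : ℝ) = ∑ i, A⁻¹ j i * g A a i := by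
    have := congrFun h1 j
    rw [← this]
    rfl
  rw [h2]
  have h3 := Finset.sum_mul_sq_le_sq_mul_sq Finset.univ (fun i => A⁻¹ j i) (g A a)
  refine h3.trans ?_
  have h4 : ∑ i, g A a i ^ 2 = B A a a := by
    unfold B
    exact Finset.sum_congr rfl fun i _ => sq _
  rw [h4]
  refine mul_le_mul_of_nonneg_right ?_ (B_self_nonneg a)
  exact Finset.single_le_sum (f := fun j => ∑ i, (A⁻¹ j i) ^ 2)
    (fun _ _ => Finset.sum_nonneg fun _ _ => sq_nonneg _) (Finset.mem_univ j)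

lemma finite_ball (hA : A.det ≠ 0) (C : ℝ) : {a : Fin 3 → ℤ | B A a a ≤ C}.Finite := by
  obtain ⟨K, hK, hb⟩ := coord_bound hA
  obtain ⟨N, hN⟩ := exists_nat_ge (K * C + 1)
  refine (Set.finite_Icc (fun _ : Fin 3 => -(N : ℤ)) (fun _ => (N : ℤ))).subset ?_
  intro a ha
  have h1 : ∀ j, |a j| ≤ (N : ℤ) := by
    intro j
    have h2 := hb a j
    have h3 : K * B A a a ≤ K * C := mul_le_mul_of_nonneg_left ha hK
    have h4 : ((a j : ℤ) : ℝ) ^ 2 ≤ N := by linarith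
    have h5 : (a j) ^ 2 ≤ (N : ℤ) := by exact_mod_cast h4
    by_contra hcon
    push Not at hcon
    have h6 : (N : ℤ) + 1 ≤ |a j| := hcon
    have h7 : |a j| ^ 2 = a j ^ 2 := sq_abs _
    have h8 : (0 : ℤ) ≤ N := Nat.cast_nonneg _
    nlinarith
  exact ⟨fun j => (abs_le.mp (h1 j)).1, fun j => (abs_le.mp (h1 j)).2⟩

/-- A superbase with the least norm sum. -/
lemma exists_min (hA : A.det ≠ 0) : ∃ a b c d : Fin 3 → ℤ, SB a b c d ∧
    ∀ a' b' c' d', SB a' b' c' d' → F A a b c d ≤ F A a' b' c' d' := by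
  set a₀ : Fin 3 → ℤ := ![-1, -1, -1] with ha₀
  set b₀ : Fin 3 → ℤ := ![1, 0, 0] with hb₀
  set c₀ : Fin 3 → ℤ := ![0, 1, 0] with hc₀
  set d₀ : Fin 3 → ℤ := ![0, 0, 1] with hd₀
  have h0 : SB a₀ b₀ c₀ d₀ := by
    refine ⟨fun i => ?_, Or.inl ?_⟩
    · fin_cases i <;> simp [ha₀, hb₀, hc₀, hd₀]
    · simp [D, hb₀, hc₀, hd₀]
  set C := F A a₀ b₀ c₀ d₀ with hC
  have hfin := finite_ball hA C
  set S : Set ((Fin 3 → ℤ) × (Fin 3 → ℤ) × (Fin 3 → ℤ) × (Fin 3 → ℤ)) :=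
    {w | SB w.1 w.2.1 w.2.2.1 w.2.2.2 ∧ F A w.1 w.2.1 w.2.2.1 w.2.2.2 ≤ C} with hS
  have hSfin : S.Finite := by
    refine (hfin.prod (hfin.prod (hfin.prod hfin))).subset ?_
    rintro ⟨a, b, c, d⟩ ⟨-, h2⟩
    simp only at h2
    unfold F at h2
    have e1 := B_self_nonneg (A := A) a
    have e2 := B_self_nonneg (A := A) b
    have e3 := B_self_nonneg (A := A) c
    have e4 := B_self_nonneg (A := A) d
    refine ⟨?_, ?_, ?_, ?_⟩ <;> simp only [Set.mem_ofPred_eq] <;> linarith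
  have hne : S.Nonempty := ⟨(a₀, b₀, c₀, d₀), h0, le_rfl⟩
  obtain ⟨w, hw, hmin⟩ := Set.exists_min_image S (fun w => F A w.1 w.2.1 w.2.2.1 w.2.2.2) hSfin hne
  refine ⟨w.1, w.2.1, w.2.2.1, w.2.2.2, hw.1, fun a' b' c' d' h' => ?_⟩
  by_cases h2 : F A a' b' c' d' ≤ C
  · exact hmin (a', b', c', d') ⟨h', h2⟩
  · exact hw.2.trans (not_le.mp h2).le

/-- Minimal superbases. -/
def Mn (A : Matrix (Fin 3) (Fin 3) ℝ) (a b c d : Fin 3 → ℤ) : Prop :=
  SB a b c d ∧ ∀ a' b' c' d', SB a' b' c' d' → F A a b c d ≤ F A a' b' c' d'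

lemma Mn.swap1 (h : Mn A a b c d) : Mn A b a c d := by
  refine ⟨h.1.swap1, fun a' b' c' d' h' => ?_⟩
  have := h.2 a' b' c' d' h'
  unfold F at this ⊢
  linarith

lemma Mn.swap2 (h : Mn A a b c d) : Mn A a c b d := by
  refine ⟨h.1.swap2, fun a' b' c' d' h' => ?_⟩
  have := h.2 a' b' c' d' h'
  unfold F at this ⊢
  linarith

lemma Mn.swap3 (h : Mn A a b c d) : Mn A a b d c := by
  refine ⟨h.1.swap3, fun a' b' c' d' h' => ?_⟩
  have := h.2 a' b' c' d' h'
  unfold F at this ⊢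
  linarith

lemma Mn.ab (h : Mn A a b c d) : B A a b ≤ 0 := by
  have h1 := h.2 _ _ _ _ h.1.move
  rw [F_move h.1] at h1
  linarith

lemma Mn.ac (h : Mn A a b c d) : B A a c ≤ 0 := h.swap2.ab

lemma Mn.ad (h : Mn A a b c d) : B A a d ≤ 0 := h.swap3.swap2.ab

lemma Mn.bc (h : Mn A a b c d) : B A b c ≤ 0 := h.swap1.ac

lemma Mn.bd (h : Mn A a b c d) : B A b d ≤ 0 := h.swap1.ad

lemma Mn.cd (h : Mn A a b c d) : B A c d ≤ 0 := h.swap2.bd

lemma step1 (h : Mn A a b c d) : ∃ a b c d, Mn A a b c d ∧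
    -B A a b + -B A c d ≤ -B A a c + -B A b d ∧ -B A a b + -B A c d ≤ -B A a d + -B A b c := by
  have e1 := B_comm (A := A) b c
  have e2 := B_comm (A := A) b d
  have e3 := B_comm (A := A) c d
  have e4 := B_comm (A := A) a b
  have e5 := B_comm (A := A) a c
  have e6 := B_comm (A := A) a d
  by_cases h1 : -B A a b + -B A c d ≤ -B A a c + -B A b d
  · by_cases h2 : -B A a b + -B A c d ≤ -B A a d + -B A b c
    · exact ⟨a, b, c, d, h, h1, h2⟩
    · refine ⟨a, d, c, b, h.swap3.swap2.swap3, ?_, ?_⟩ <;> linarith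
  · by_cases h2 : -B A a c + -B A b d ≤ -B A a d + -B A b c
    · refine ⟨a, c, b, d, h.swap2, ?_, ?_⟩ <;> linarith
    · refine ⟨a, d, c, b, h.swap3.swap2.swap3, ?_, ?_⟩ <;> linarith

lemma step2 (h : Mn A a b c d)
    (h1 : -B A a b + -B A c d ≤ -B A a c + -B A b d)
    (h2 : -B A a b + -B A c d ≤ -B A a d + -B A b c) : ∃ a b c d, Mn A a b c d ∧
    -B A a b + -B A c d ≤ -B A a c + -B A b d ∧ -B A a b + -B A c d ≤ -B A a d + -B A b c ∧
    -B A a d ≤ -B A a c ∧ -B A b c ≤ -B A a c ∧ -B A b d ≤ -B A a c := by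
  have e1 := B_comm (A := A) b c
  have e2 := B_comm (A := A) b d
  have e3 := B_comm (A := A) c d
  have e4 := B_comm (A := A) a b
  have e5 := B_comm (A := A) a c
  have e6 := B_comm (A := A) a d
  rcases le_total (-B A a d) (-B A a c) with h3 | h3 <;>
  rcases le_total (-B A b d) (-B A b c) with h4 | h4
  · rcases le_total (-B A b c) (-B A a c) with h5 | h5
    · exact ⟨a, b, c, d, h, h1, h2, h3, h5, by linarith⟩
    · refine ⟨b, a, c, d, h.swap1, ?_, ?_, ?_, ?_, ?_⟩ <;> linarith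
  · rcases le_total (-B A b d) (-B A a c) with h5 | h5
    · exact ⟨a, b, c, d, h, h1, h2, h3, by linarith, h5⟩
    · refine ⟨b, a, d, c, h.swap1.swap3, ?_, ?_, ?_, ?_, ?_⟩ <;> linarith
  · rcases le_total (-B A b c) (-B A a d) with h5 | h5
    · refine ⟨a, b, d, c, h.swap3, ?_, ?_, ?_, ?_, ?_⟩ <;> linarith
    · refine ⟨b, a, c, d, h.swap1, ?_, ?_, ?_, ?_, ?_⟩ <;> linarith
  · rcases le_total (-B A b d) (-B A a d) with h5 | h5
    · refine ⟨a, b, d, c, h.swap3, ?_, ?_, ?_, ?_, ?_⟩ <;> linarith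
    · refine ⟨b, a, d, c, h.swap1.swap3, ?_, ?_, ?_, ?_, ?_⟩ <;> linarith

lemma step3 (h : Mn A a b c d)
    (h1 : -B A a b + -B A c d ≤ -B A a c + -B A b d)
    (h2 : -B A a b + -B A c d ≤ -B A a d + -B A b c)
    (h3 : -B A a d ≤ -B A a c) (h4 : -B A b c ≤ -B A a c) (h5 : -B A b d ≤ -B A a c) :
    ∃ a b c d, Mn A a b c d ∧
    -B A a b + -B A c d ≤ -B A a c + -B A b d ∧ -B A a b + -B A c d ≤ -B A a d + -B A b c ∧
    -B A a d ≤ -B A a c ∧ -B A b c ≤ -B A a d ∧ -B A b d ≤ -B A a c := by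
  have e1 := B_comm (A := A) b c
  have e2 := B_comm (A := A) b d
  have e3 := B_comm (A := A) c d
  have e4 := B_comm (A := A) a b
  have e5 := B_comm (A := A) a c
  have e6 := B_comm (A := A) a d
  rcases le_total (-B A b c) (-B A a d) with h6 | h6
  · exact ⟨a, b, c, d, h, h1, h2, h3, h6, h5⟩
  · have h7 : Mn A c d a b := h.swap2.swap1.swap3.swap2
    refine ⟨c, d, a, b, h7, ?_, ?_, ?_, ?_, ?_⟩ <;> linarith

lemma det_eq (b c d : Fin 3 → ℤ) : ((Matrix.of ![b, c, d])ᵀ).det = D b c d := by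
  rw [Matrix.det_transpose, Matrix.det_fin_three]
  simp only [Matrix.of_apply, Matrix.cons_val_zero, Matrix.cons_val_one, Matrix.cons_val_two,
    Matrix.head_cons, Matrix.tail_cons]
  unfold D
  ring

lemma gram3 (u0 u1 u2 v0 v1 v2 w0 w1 w2 : ℝ) :
    (u0 * u0 + u1 * u1 + u2 * u2) * (v0 * v0 + v1 * v1 + v2 * v2) * (w0 * w0 + w1 * w1 + w2 * w2) +
      2 * ((u0 * v0 + u1 * v1 + u2 * v2) * (u0 * w0 + u1 * w1 + u2 * w2) *
        (v0 * w0 + v1 * w1 + v2 * w2)) -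
      (u0 * u0 + u1 * u1 + u2 * u2) * (v0 * w0 + v1 * w1 + v2 * w2) ^ 2 -
      (v0 * v0 + v1 * v1 + v2 * v2) * (u0 * w0 + u1 * w1 + u2 * w2) ^ 2 -
      (w0 * w0 + w1 * w1 + w2 * w2) * (u0 * v0 + u1 * v1 + u2 * v2) ^ 2 =
    (u0 * v1 * w2 - u0 * w1 * v2 - v0 * u1 * w2 + v0 * w1 * u2 + w0 * u1 * v2 - w0 * v1 * u2) ^ 2 := by
  ring

/-- The Gram determinant. -/
lemma gram_det (b c d : Fin 3 → ℤ) (h : D b c d = 1 ∨ D b c d = -1) :
    B A b b * B A c c * B A d d + 2 * (B A b c * B A b d * B A c d) - B A b b * B A c d ^ 2 -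
      B A c c * B A b d ^ 2 - B A d d * B A b c ^ 2 = A.det ^ 2 := by
  have h1 : (((D b c d : ℤ)) : ℝ) ^ 2 = 1 := by
    rcases h with h | h <;> rw [h] <;> norm_num
  set U : Matrix (Fin 3) (Fin 3) ℝ := ((Matrix.of ![b, c, d])ᵀ).map (Int.castRingHom ℝ) with hU
  have hdU : U.det = ((D b c d : ℤ) : ℝ) := by
    rw [← det_eq, hU, ← RingHom.mapMatrix_apply, ← RingHom.map_det]
    rfl
  have h2 : A.det ^ 2 = (A * U).det ^ 2 := by rw [det_mul, hdU, mul_pow, h1, mul_one]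
  have e0 : ∀ i, (A * U) i 0 = g A b i := fun i => rfl
  have e1 : ∀ i, (A * U) i 1 = g A c i := fun i => rfl
  have e2 : ∀ i, (A * U) i 2 = g A d i := fun i => rfl
  rw [h2, Matrix.det_fin_three]
  simp only [e0, e1, e2]
  unfold B
  simp only [Fin.sum_univ_three]
  exact gram3 _ _ _ _ _ _ _ _ _

end Sell

open Sell

theorem selling (A : Matrix (Fin 3) (Fin 3) ℝ) (hA : A.det ≠ 0) :
    ∃ (U : Matrix (Fin 3) (Fin 3) ℤ) (p q r1 r2 r3 r4 : ℝ), (U.det = 1 ∨ U.det = -1) ∧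
      0 ≤ p ∧ 0 ≤ q ∧ 0 ≤ r3 ∧ 0 ≤ r4 ∧ r3 ≤ r2 ∧ r2 ≤ r1 ∧ r4 ≤ r1 ∧ p + q ≤ r1 + r4 ∧
      p + q ≤ r2 + r3 ∧
      p*q*(r1+r2+r3+r4) + p*(r1+r3)*(r2+r4) + q*(r1+r2)*(r3+r4) + r1*r2*r3 + r1*r2*r4 +
        r1*r3*r4 + r2*r3*r4 = A.det ^ 2 ∧
      ∀ x y z : ℤ, ∑ i, (A.mulVec (fun j => ((U.mulVec ![x, y, z]) j : ℝ)) i) ^ 2 =
        p*x^2 + r1*y^2 + r2*z^2 + r3*(x-y)^2 + r4*(x-z)^2 + q*(y-z)^2 := by
  obtain ⟨a, b, c, d, h0, hm⟩ := exists_min hA
  obtain ⟨a, b, c, d, h, h1, h2⟩ := step1 (A := A) ⟨h0, hm⟩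
  obtain ⟨a, b, c, d, h, h1, h2, h3, h4, h5⟩ := step2 h h1 h2
  obtain ⟨a, b, c, d, h, h1, h2, h3, h4, h5⟩ := step3 h h1 h2 h3 h4 h5
  have rb := h.1.rel (A := A) b
  have rc := h.1.rel (A := A) c
  have rd := h.1.rel (A := A) d
  rw [B_comm b a] at rb
  rw [B_comm c a, B_comm c b] at rc
  rw [B_comm d a, B_comm d b, B_comm d c] at rd
  have hbb : B A b b = -B A a b + -B A b c + -B A b d := by linarith
  have hcc : B A c c = -B A a c + -B A b c + -B A c d := by linarith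
  have hdd : B A d d = -B A a d + -B A b d + -B A c d := by linarith
  refine ⟨(Matrix.of ![b, c, d])ᵀ, -B A a b, -B A c d, -B A a c, -B A a d, -B A b c, -B A b d,
    ?_, by linarith [h.ab], by linarith [h.cd], by linarith [h.bc], by linarith [h.bd], h4, h3, h5,
    h1, h2, ?_, ?_⟩
  · rw [det_eq]; exact h.1.det
  · have hG := gram_det (A := A) b c d h.1.det
    rw [hbb, hcc, hdd] at hG
    rw [← hG]
    ring
  · intro x y z
    have hw : ∀ i, A.mulVec (fun j => ((((Matrix.of ![b, c, d])ᵀ).mulVec ![x, y, z]) j : ℝ)) i =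
        x * g A b i + y * g A c i + z * g A d i := by
      intro i
      unfold g mulVec dotProduct
      simp only [Fin.sum_univ_three, Matrix.transpose_apply, Matrix.of_apply]
      simp only [Matrix.cons_val_zero, Matrix.cons_val_one, Matrix.cons_val]
      push_cast
      ring
    simp only [hw]
    have e : ∑ i, ((x : ℝ) * g A b i + y * g A c i + z * g A d i) ^ 2 =
        x ^ 2 * B A b b + y ^ 2 * B A c c + z ^ 2 * B A d d + 2 * x * y * B A b c +
        2 * x * z * B A b d + 2 * y * z * B A c d := by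
      unfold B
      simp only [Fin.sum_univ_three]
      ring
    rw [e, hbb, hcc, hdd]
    ring

end Theta3
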