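import Pool.Agent.H98.Theta3.Defs
import Pool.Agent.H98.Theta3.Bcc0
import Pool.Agent.H98.Theta3.Poisson
import Pool.Agent.H98.Theta3.Selling

set_option autoImplicit false

/-!
# Assembly: from the reduced statement on Selling forms to the frozen statement
-/

namespace Theta3

open Matrix

/-- the bijection of `ℤ³` given by a unimodular matrix -/
noncomputable def uEquiv (U : Matrix (Fin 3) (Fin 3) ℤ) (h : IsUnit U.det) : (Fin 3 → ℤ) ≃ (Fin 3 → ℤ) where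
  toFun v := U.mulVec v
  invFun v := U⁻¹.mulVec v
  left_inv v := by
    show U⁻¹.mulVec (U.mulVec v) = v
    rw [Matrix.mulVec_mulVec, Matrix.nonsing_inv_mul _ h, Matrix.one_mulVec]
  right_inv v := by
    show U.mulVec (U⁻¹.mulVec v) = v
    rw [Matrix.mulVec_mulVec, Matrix.mul_nonsing_inv _ h, Matrix.one_mulVec]

/-- change of variables in a lattice sum -/
theorem tsum_change (U : Matrix (Fin 3) (Fin 3) ℤ) (h : IsUnit U.det) (f : (Fin 3 → ℤ) → ℝ) :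
    ∑' z : Fin 3 → ℤ, f z = ∑' x : Z3, f (U.mulVec ![x.1, x.2.1, x.2.2]) := by
  rw [← (uEquiv U h).tsum_eq, ← e3.symm.tsum_eq]
  rfl

/-- change of variables for summability -/
theorem summable_change (U : Matrix (Fin 3) (Fin 3) ℤ) (h : IsUnit U.det) {f : (Fin 3 → ℤ) → ℝ}
    (hf : Summable f) : Summable fun x : Z3 => f (U.mulVec ![x.1, x.2.1, x.2.2]) :=
  hf.comp_injective (i := fun x : Z3 => U.mulVec ![x.1, x.2.1, x.2.2])
    ((uEquiv U h).injective.comp e3.symm.injective)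

/-- casting commutes with integer matrices -/
theorem cast_mulVec (U : Matrix (Fin 3) (Fin 3) ℤ) (v : Fin 3 → ℤ) :
    (fun j => ((U.mulVec v) j : ℝ)) = (U.map (Int.cast : ℤ → ℝ)).mulVec (fun j => (v j : ℝ)) := by
  funext j
  simp [Matrix.mulVec, dotProduct]

/-- two real matrices with the same squared norms on `ℤ³` have the same Gram matrix -/
theorem gram_eq_of (M N : Matrix (Fin 3) (Fin 3) ℝ)
    (h : ∀ x y z : ℤ, ∑ i, (M.mulVec (fun j => ((![x, y, z] : Fin 3 → ℤ) j : ℝ)) i) ^ 2 =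
      ∑ i, (N.mulVec (fun j => ((![x, y, z] : Fin 3 → ℤ) j : ℝ)) i) ^ 2) : Mᵀ * M = Nᵀ * N := by
  have h1 := h 1 0 0
  have h2 := h 0 1 0
  have h3 := h 0 0 1
  have h4 := h 1 1 0
  have h5 := h 1 0 1
  have h6 := h 0 1 1
  simp only [Matrix.mulVec, dotProduct, Fin.sum_univ_three, Matrix.cons_val_zero,
    Matrix.cons_val_one, Matrix.cons_val, Int.cast_one, Int.cast_zero, mul_one, mul_zero,
    add_zero, zero_add] at h1 h2 h3 h4 h5 h6
  ext i j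
  simp only [Matrix.mul_apply, Matrix.transpose_apply, Fin.sum_univ_three]
  fin_cases i <;> fin_cases j <;> simp <;> linarith

/-- Poisson summation in the normalisation of the problem -/
theorem poisson_norm (A : Matrix (Fin 3) (Fin 3) ℝ) (hA : |A.det| = 1) {β : ℝ} (hβ : 0 < β) :
    ∑' z : Fin 3 → ℤ, Real.exp (-Real.pi * β *
        ∑ i, (A.mulVec (fun j => (z j : ℝ)) i) ^ 2) =
      ((Real.sqrt β) ^ 3)⁻¹ * ∑' z : Fin 3 → ℤ,
        Real.exp (-(∑ i, ((((Real.sqrt Real.pi / Real.sqrt β) • (A⁻¹)ᵀ).mulVec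
          (fun j => (z j : ℝ))) i) ^ 2)) := by
  have hs : 0 < Real.sqrt β := Real.sqrt_pos.2 hβ
  have hdet : (Real.sqrt β • A).det = (Real.sqrt β) ^ 3 * A.det := by
    rw [Matrix.det_smul]; simp
  have hA0 : A.det ≠ 0 := by
    intro h; rw [h] at hA; simp at hA
  have hdet0 : (Real.sqrt β • A).det ≠ 0 := by
    rw [hdet]; exact mul_ne_zero (pow_ne_zero _ hs.ne') hA0
  have hinv : (Real.sqrt β • A)⁻¹ = (Real.sqrt β)⁻¹ • A⁻¹ := by
    apply Matrix.inv_eq_right_inv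
    rw [Matrix.smul_mul, Matrix.mul_smul, smul_smul, mul_inv_cancel₀ hs.ne', one_smul,
      Matrix.mul_nonsing_inv _ (isUnit_iff_ne_zero.2 hA0)]
  have hP := (poisson (Real.sqrt β • A) hdet0).2
  have habs : |(Real.sqrt β • A).det| = (Real.sqrt β) ^ 3 := by
    rw [hdet, abs_mul, hA, mul_one, abs_of_pos (pow_pos hs 3)]
  rw [habs] at hP
  have e1 : ∀ z : Fin 3 → ℤ, Real.exp (-Real.pi * ∑ i, ((Real.sqrt β • A).mulVec
      (fun j => (z j : ℝ)) i) ^ 2) = Real.exp (-Real.pi * β *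
        ∑ i, (A.mulVec (fun j => (z j : ℝ)) i) ^ 2) := by
    intro z
    congr 1
    rw [mul_assoc (-Real.pi) β]
    congr 1
    rw [Finset.mul_sum]
    refine Finset.sum_congr rfl fun i _ => ?_
    rw [Matrix.smul_mulVec, Pi.smul_apply, smul_eq_mul, mul_pow, Real.sq_sqrt hβ.le]
  have e2 : ∀ z : Fin 3 → ℤ, Real.exp (-Real.pi * ∑ i, (((Real.sqrt β • A)⁻¹)ᵀ.mulVec
      (fun j => (z j : ℝ)) i) ^ 2) = Real.exp (-(∑ i, ((((Real.sqrt Real.pi / Real.sqrt β) •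
        (A⁻¹)ᵀ).mulVec (fun j => (z j : ℝ))) i) ^ 2)) := by
    intro z
    congr 1
    rw [hinv, Matrix.transpose_smul, neg_mul, Finset.mul_sum]
    congr 1
    refine Finset.sum_congr rfl fun i _ => ?_
    rw [Matrix.smul_mulVec, Matrix.smul_mulVec, Pi.smul_apply, Pi.smul_apply, smul_eq_mul,
      smul_eq_mul, mul_pow, mul_pow, div_pow, Real.sq_sqrt hβ.le, Real.sq_sqrt Real.pi_pos.le,
      inv_pow, Real.sq_sqrt hβ.le]
    ring
  rw [tsum_congr e1, tsum_congr e2] at hP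
  exact hP

/-- summability in the normalisation of the problem -/
theorem summable_norm (M : Matrix (Fin 3) (Fin 3) ℝ) (hM : M.det ≠ 0) :
    Summable fun z : Fin 3 → ℤ =>
      Real.exp (-(∑ i, (M.mulVec (fun j => (z j : ℝ)) i) ^ 2)) := by
  have hp : 0 < Real.sqrt Real.pi := Real.sqrt_pos.2 Real.pi_pos
  have hd : ((Real.sqrt Real.pi)⁻¹ • M).det ≠ 0 := by
    rw [Matrix.det_smul]
    exact mul_ne_zero (pow_ne_zero _ (inv_ne_zero hp.ne')) hM
  have h := (poisson ((Real.sqrt Real.pi)⁻¹ • M) hd).1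
  refine h.congr fun z => ?_
  congr 1
  rw [neg_mul, Finset.mul_sum]
  congr 1
  refine Finset.sum_congr rfl fun i _ => ?_
  rw [Matrix.smul_mulVec, Pi.smul_apply, smul_eq_mul, mul_pow, inv_pow,
    Real.sq_sqrt Real.pi_pos.le, ← mul_assoc, mul_inv_cancel₀ Real.pi_pos.ne', one_mul]

/-- the generator of the body centred cubic lattice -/
noncomputable def BM : Matrix (Fin 3) (Fin 3) ℝ :=
  (2:ℝ) ^ ((1:ℝ)/3) • !![(1:ℝ), 0, 1/2; 0, 1, 1/2; 0, 0, 1/2]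

/-- the change of basis for the face centred cubic lattice -/
def U0 : Matrix (Fin 3) (Fin 3) ℤ := !![-1, 0, 0; 1, -1, -1; 0, 0, -1]

theorem U0_det : U0.det = -1 := by decide +kernel

theorem c_pos : (0:ℝ) < (2:ℝ) ^ ((1:ℝ)/3) := by positivity

theorem c_cube : ((2:ℝ) ^ ((1:ℝ)/3)) ^ 3 = 2 := by
  rw [← Real.rpow_natCast, ← Real.rpow_mul (by norm_num)]
  norm_num

theorem BM_det : BM.det = 1 := by
  unfold BM
  rw [Matrix.det_smul, Fintype.card_fin, c_cube, Matrix.det_fin_three]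
  simp

theorem BM_inv_transpose : (BM⁻¹)ᵀ = ((2:ℝ) ^ ((1:ℝ)/3))⁻¹ •
    !![(1:ℝ), 0, 0; 0, 1, 0; -1, -1, 2] := by
  have h : BM⁻¹ = ((2:ℝ) ^ ((1:ℝ)/3))⁻¹ • !![(1:ℝ), 0, -1; 0, 1, -1; 0, 0, 2] := by
    apply Matrix.inv_eq_right_inv
    unfold BM
    rw [Matrix.smul_mul, Matrix.mul_smul, smul_smul, mul_inv_cancel₀ c_pos.ne', one_smul]
    ext i j
    fin_cases i <;> fin_cases j <;> simp [Matrix.mul_apply, Fin.sum_univ_three]
  rw [h, Matrix.transpose_smul]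
  congr 1
  ext i j
  fin_cases i <;> fin_cases j <;> rfl

/-- the squared norm of the dual lattice of the body centred cubic lattice -/
theorem BM_norm (κ : ℝ) (x y z : ℤ) :
    ∑ i, (((κ • (BM⁻¹)ᵀ).mulVec (fun j => ((U0.mulVec ![x, y, z]) j : ℝ))) i) ^ 2 =
      κ ^ 2 * (((2:ℝ) ^ ((1:ℝ)/3))⁻¹) ^ 2 * (nF (x, y, z) : ℝ) := by
  rw [BM_inv_transpose, smul_smul]
  simp only [Matrix.smul_mulVec, Pi.smul_apply, smul_eq_mul, mul_pow, ← Finset.mul_sum]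
  congr 1
  simp only [Matrix.mulVec, dotProduct, Fin.sum_univ_three, U0, nF]
  simp
  ring

/-- the real matrix of an integer matrix -/
abbrev rm (U : Matrix (Fin 3) (Fin 3) ℤ) : Matrix (Fin 3) (Fin 3) ℝ := U.map (Int.cast : ℤ → ℝ)

theorem rm_mul (U V : Matrix (Fin 3) (Fin 3) ℤ) : rm (U * V) = rm U * rm V := by
  ext i j
  simp [rm, Matrix.mul_apply, Matrix.map_apply]

theorem rm_one : rm 1 = 1 := by
  ext i j
  simp only [rm, Matrix.map_apply, Matrix.one_apply]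
  split_ifs <;> simp

theorem rm_transpose (U : Matrix (Fin 3) (Fin 3) ℤ) : rm Uᵀ = (rm U)ᵀ := rfl

theorem rm_inv (U : Matrix (Fin 3) (Fin 3) ℤ) (hU : IsUnit U.det) : rm U⁻¹ = (rm U)⁻¹ := by
  symm
  apply Matrix.inv_eq_right_inv
  rw [← rm_mul, Matrix.mul_nonsing_inv _ hU, rm_one]

theorem rm_isUnit (U : Matrix (Fin 3) (Fin 3) ℤ) (hU : IsUnit U.det) : IsUnit (rm U).det := by
  have h : rm U * rm U⁻¹ = 1 := by rw [← rm_mul, Matrix.mul_nonsing_inv _ hU, rm_one]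
  have h2 := congrArg Matrix.det h
  rw [Matrix.det_mul, Matrix.det_one] at h2
  exact IsUnit.of_mul_eq_one _ h2

/-- Equal Gram matrices give an orthogonal map between the lattices. -/
theorem range_of_gram (A : Matrix (Fin 3) (Fin 3) ℝ) (hA : A.det ≠ 0)
    (U : Matrix (Fin 3) (Fin 3) ℤ) (hU : IsUnit U.det) {κ : ℝ} (hκ : κ ≠ 0)
    (h : ((κ • (A⁻¹)ᵀ) * rm U)ᵀ * ((κ • (A⁻¹)ᵀ) * rm U) =
      ((κ • (BM⁻¹)ᵀ) * rm U0)ᵀ * ((κ • (BM⁻¹)ᵀ) * rm U0)) :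
    ∃ R ∈ Matrix.orthogonalGroup (Fin 3) ℝ,
      Set.range (fun z : Fin 3 → ℤ => A.mulVec (fun j => (z j : ℝ))) =
        Set.range (fun z : Fin 3 → ℤ => (R * BM).mulVec (fun j => (z j : ℝ))) := by
  have hB : IsUnit BM.det := by rw [BM_det]; exact isUnit_one
  have hA' : IsUnit A.det := isUnit_iff_ne_zero.2 hA
  have hU0 : IsUnit U0.det := by rw [U0_det]; exact isUnit_one.neg
  have hUr := rm_isUnit U hU
  have hU0r := rm_isUnit U0 hU0
  have hUrt : IsUnit ((rm U)ᵀ).det := by rwa [Matrix.det_transpose]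
  have hU0rt : IsUnit ((rm U0)ᵀ).det := by rwa [Matrix.det_transpose]
  have hBt : IsUnit (BMᵀ).det := by rwa [Matrix.det_transpose]
  -- cancel the scalar
  have h1 : (rm U)ᵀ * (A⁻¹ * (A⁻¹)ᵀ) * rm U = (rm U0)ᵀ * (BM⁻¹ * (BM⁻¹)ᵀ) * rm U0 := by
    have e : ∀ (X V : Matrix (Fin 3) (Fin 3) ℝ), ((κ • Xᵀ) * V)ᵀ * ((κ • Xᵀ) * V) =
        (κ * κ) • (Vᵀ * (X * Xᵀ) * V) := by
      intro X V
      rw [Matrix.transpose_mul, Matrix.transpose_smul, Matrix.transpose_transpose,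
        Matrix.mul_smul, Matrix.smul_mul, Matrix.smul_mul, Matrix.mul_smul, smul_smul]
      congr 1
      simp only [Matrix.mul_assoc]
    rw [e, e] at h
    exact smul_right_injective _ (mul_ne_zero hκ hκ) h
  -- invert
  have inv_form : ∀ (X V : Matrix (Fin 3) (Fin 3) ℝ), IsUnit X.det →
      (Vᵀ * (X⁻¹ * (X⁻¹)ᵀ) * V)⁻¹ = V⁻¹ * (Xᵀ * X) * (Vᵀ)⁻¹ := by
    intro X V hX
    have hXt : IsUnit (Xᵀ).det := by rwa [Matrix.det_transpose]
    rw [Matrix.mul_inv_rev, Matrix.mul_inv_rev, Matrix.mul_inv_rev, Matrix.transpose_nonsing_inv,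
      Matrix.nonsing_inv_nonsing_inv _ hX, Matrix.nonsing_inv_nonsing_inv _ hXt]
    simp only [Matrix.mul_assoc]
  have h2 : (rm U)⁻¹ * (Aᵀ * A) * ((rm U)ᵀ)⁻¹ = (rm U0)⁻¹ * (BMᵀ * BM) * ((rm U0)ᵀ)⁻¹ := by
    rw [← inv_form A (rm U) hA', ← inv_form BM (rm U0) hB, h1]
  set V : Matrix (Fin 3) (Fin 3) ℤ := (U⁻¹)ᵀ * U0ᵀ with hV
  have hVr : rm V = ((rm U)ᵀ)⁻¹ * (rm U0)ᵀ := by
    rw [hV, rm_mul, rm_transpose, rm_transpose, rm_inv U hU, Matrix.transpose_nonsing_inv]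
  have hVu : IsUnit V.det := by
    rw [hV, Matrix.det_mul, Matrix.det_transpose, Matrix.det_transpose]
    exact (Matrix.isUnit_nonsing_inv_det U hU).mul hU0
  -- the Gram matrix of `A * V`
  have h3 : (A * rm V)ᵀ * (A * rm V) = BMᵀ * BM := by
    have e1 : (A * rm V)ᵀ * (A * rm V) =
        rm U0 * ((rm U)⁻¹ * (Aᵀ * A) * ((rm U)ᵀ)⁻¹) * (rm U0)ᵀ := by
      rw [hVr, Matrix.transpose_mul, Matrix.transpose_mul, Matrix.transpose_transpose,
        Matrix.transpose_nonsing_inv, Matrix.transpose_transpose]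
      simp only [Matrix.mul_assoc]
    rw [e1, h2]
    calc rm U0 * ((rm U0)⁻¹ * (BMᵀ * BM) * ((rm U0)ᵀ)⁻¹) * (rm U0)ᵀ
        = (rm U0 * (rm U0)⁻¹) * (BMᵀ * BM) * (((rm U0)ᵀ)⁻¹ * (rm U0)ᵀ) := by
          simp only [Matrix.mul_assoc]
      _ = BMᵀ * BM := by
          rw [Matrix.mul_nonsing_inv _ hU0r, Matrix.nonsing_inv_mul _ hU0rt, Matrix.one_mul,
            Matrix.mul_one]
  refine ⟨A * rm V * BM⁻¹, ?_, ?_⟩
  · rw [Matrix.mem_orthogonalGroup_iff', Matrix.transpose_mul]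
    calc (BM⁻¹)ᵀ * (A * rm V)ᵀ * (A * rm V * BM⁻¹)
        = (BM⁻¹)ᵀ * ((A * rm V)ᵀ * (A * rm V)) * BM⁻¹ := by simp only [Matrix.mul_assoc]
      _ = ((BM⁻¹)ᵀ * BMᵀ) * (BM * BM⁻¹) := by rw [h3]; simp only [Matrix.mul_assoc]
      _ = 1 := by
          rw [← Matrix.transpose_mul, Matrix.mul_nonsing_inv _ hB, Matrix.transpose_one,
            Matrix.one_mul]
  · have hRB : A * rm V * BM⁻¹ * BM = A * rm V := by
      rw [Matrix.mul_assoc, Matrix.nonsing_inv_mul _ hB, Matrix.mul_one]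
    rw [hRB]
    have hcomp : ∀ z : Fin 3 → ℤ, (A * rm V).mulVec (fun j => (z j : ℝ)) =
        A.mulVec (fun j => ((V.mulVec z) j : ℝ)) := by
      intro z
      rw [cast_mulVec, Matrix.mulVec_mulVec]
    ext w
    constructor
    · rintro ⟨z, rfl⟩
      refine ⟨V⁻¹.mulVec z, ?_⟩
      show (A * rm V).mulVec (fun j => ((V⁻¹.mulVec z) j : ℝ)) = A.mulVec (fun j => (z j : ℝ))
      rw [hcomp, Matrix.mulVec_mulVec, Matrix.mul_nonsing_inv _ hVu, Matrix.one_mulVec]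
    · rintro ⟨z, rfl⟩
      exact ⟨V.mulVec z, (hcomp z).symm⟩

/-- **Assembly**: the frozen statement follows from the reduced statement. -/
theorem frozen_of_main
    (hmain : ∀ (ρ : Rho) (t : ℝ), Sorted ρ → Real.pi ^ 3 < 4 * t ^ 3 → 0 < t → dt ρ = 4 * t ^ 3 →
      Summable (fun x : Z3 => Real.exp (-(frm ρ x))) →
      TF t < Th ρ ∨ (ρ.p = 0 ∧ ρ.q = 0 ∧ ρ.r1 = t ∧ ρ.r2 = t ∧ ρ.r3 = t ∧ ρ.r4 = t)) :
    ∀ β : ℝ, 0 < β → β < 1 →
      ∀ A : Matrix (Fin 3) (Fin 3) ℝ, |A.det| = 1 →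
        ((∑' z : Fin 3 → ℤ, Real.exp (-Real.pi * β *
            ∑ i, (((2:ℝ) ^ ((1:ℝ)/3) • !![(1:ℝ), 0, 1/2; 0, 1, 1/2; 0, 0, 1/2]).mulVec
              (fun j => (z j : ℝ)) i) ^ 2))
          ≤ ∑' z : Fin 3 → ℤ, Real.exp (-Real.pi * β *
              ∑ i, (A.mulVec (fun j => (z j : ℝ)) i) ^ 2)) ∧
        ((∑' z : Fin 3 → ℤ, Real.exp (-Real.pi * β *
            ∑ i, (((2:ℝ) ^ ((1:ℝ)/3) • !![(1:ℝ), 0, 1/2; 0, 1, 1/2; 0, 0, 1/2]).mulVec
              (fun j => (z j : ℝ)) i) ^ 2))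
          = ∑' z : Fin 3 → ℤ, Real.exp (-Real.pi * β *
              ∑ i, (A.mulVec (fun j => (z j : ℝ)) i) ^ 2) →
          ∃ R ∈ Matrix.orthogonalGroup (Fin 3) ℝ,
            Set.range (fun z : Fin 3 → ℤ => A.mulVec (fun j => (z j : ℝ))) =
              Set.range (fun z : Fin 3 → ℤ =>
                (R * ((2:ℝ) ^ ((1:ℝ)/3) • !![(1:ℝ), 0, 1/2; 0, 1, 1/2; 0, 0, 1/2])).mulVec
                  (fun j => (z j : ℝ)))) := by
  intro β hβ hβ1 A hA
  have hs : 0 < Real.sqrt β := Real.sqrt_pos.2 hβ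
  have hp : 0 < Real.sqrt Real.pi := Real.sqrt_pos.2 Real.pi_pos
  have hA0 : A.det ≠ 0 := by
    intro h; rw [h] at hA; simp at hA
  have hBdet : |BM.det| = 1 := by rw [BM_det]; simp
  set κ : ℝ := Real.sqrt Real.pi / Real.sqrt β with hκ
  have hκ0 : 0 < κ := div_pos hp hs
  have hκ2 : κ ^ 2 = Real.pi / β := by
    rw [hκ, div_pow, Real.sq_sqrt hβ.le, Real.sq_sqrt Real.pi_pos.le]
  have PA := poisson_norm A hA hβ
  have PB := poisson_norm BM hBdet hβ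
  rw [← hκ] at PA PB
  -- the matrix of the dual lattice
  set M : Matrix (Fin 3) (Fin 3) ℝ := κ • (A⁻¹)ᵀ with hM
  have hMdet : M.det = κ ^ 3 * (A.det)⁻¹ := by
    rw [hM, Matrix.det_smul, Matrix.det_transpose, Matrix.det_nonsing_inv, Fintype.card_fin,
      Ring.inverse_eq_inv']
  have hMdet0 : M.det ≠ 0 := by
    rw [hMdet]; exact mul_ne_zero (pow_ne_zero _ hκ0.ne') (inv_ne_zero hA0)
  have hMsq : M.det ^ 2 = Real.pi ^ 3 / β ^ 3 := by
    have h1 : (A.det) ^ 2 = 1 := by rw [← sq_abs, hA]; norm_num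
    have h2 : ((A.det)⁻¹) ^ 2 = 1 := by rw [inv_pow, h1, inv_one]
    rw [hMdet, mul_pow, h2, mul_one, ← pow_mul, show 3 * 2 = 2 * 3 from rfl, pow_mul, hκ2, div_pow]
  obtain ⟨U, p, q, r1, r2, r3, r4, hUdet, hp0, hq0, h30, h40, h32, h21, h41, hs1, hs2, hdet, hfrm⟩ :=
    selling M hMdet0
  have hU : IsUnit U.det := by
    rcases hUdet with h | h
    · rw [h]; exact isUnit_one
    · rw [h]; exact isUnit_one.neg
  set c : ℝ := (2:ℝ) ^ ((1:ℝ)/3) with hc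
  have hc0 : 0 < c := c_pos
  have hc3 : c ^ 3 = 2 := c_cube
  set t : ℝ := κ ^ 2 * (c⁻¹) ^ 2 with ht
  have ht0 : 0 < t := by positivity
  have ht3 : 4 * t ^ 3 = Real.pi ^ 3 / β ^ 3 := by
    have h6 : (c⁻¹) ^ 6 = 1 / 4 := by
      rw [inv_pow, show c ^ 6 = (c ^ 3) ^ 2 by ring, hc3]; norm_num
    have : t ^ 3 = (κ ^ 2) ^ 3 * (c⁻¹) ^ 6 := by rw [ht]; ring
    rw [this, hκ2, h6, div_pow]; ring
  let ρ : Rho := ⟨p, q, r1, r2, r3, r4⟩
  have hS : Sorted ρ := ⟨hp0, hq0, h30, h40, h32, h21, h41, hs1, hs2⟩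
  have hdt : dt ρ = 4 * t ^ 3 := by
    rw [ht3, ← hMsq, ← hdet]
    simp only [dt, ρ]
    ring
  have hlt : Real.pi ^ 3 < 4 * t ^ 3 := by
    rw [ht3, lt_div_iff₀ (pow_pos hβ 3)]
    have h1 : β ^ 3 < 1 := pow_lt_one₀ hβ.le hβ1 (by norm_num)
    have h2 : 0 < Real.pi ^ 3 := pow_pos Real.pi_pos 3
    nlinarith
  have hform : ∀ x : Z3, ∑ i, (M.mulVec (fun j => ((U.mulVec ![x.1, x.2.1, x.2.2]) j : ℝ)) i) ^ 2 =
      frm ρ x := by
    intro x
    rw [hfrm]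
    simp only [frm, ρ]
    ring
  have hsum : Summable (fun x : Z3 => Real.exp (-(frm ρ x))) := by
    have h1 := summable_change U hU (summable_norm M hMdet0)
    refine h1.congr fun x => ?_
    simp only [hform]
  have hTh : ∑' z : Fin 3 → ℤ, Real.exp (-(∑ i, (M.mulVec (fun j => (z j : ℝ)) i) ^ 2)) = Th ρ := by
    rw [tsum_change U hU]
    unfold Th
    exact tsum_congr fun x => by simp only [hform]
  have hU0 : IsUnit U0.det := by rw [U0_det]; exact isUnit_one.neg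
  have hTF : ∑' z : Fin 3 → ℤ, Real.exp (-(∑ i, ((κ • (BM⁻¹)ᵀ).mulVec
      (fun j => (z j : ℝ)) i) ^ 2)) = TF t := by
    rw [tsum_change U0 hU0]
    unfold TF
    refine tsum_congr fun x => ?_
    rw [BM_norm κ x.1 x.2.1 x.2.2]
  rw [hTh] at PA
  rw [hTF] at PB
  change (_ ≤ _) ∧ (_ = _ → _)
  have hpos : 0 < ((Real.sqrt β) ^ 3)⁻¹ := inv_pos.2 (pow_pos hs 3)
  have PB' : ∑' z : Fin 3 → ℤ, Real.exp (-Real.pi * β *
      ∑ i, ((c • !![(1:ℝ), 0, 1/2; 0, 1, 1/2; 0, 0, 1/2]).mulVec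
        (fun j => (z j : ℝ)) i) ^ 2) = ((Real.sqrt β) ^ 3)⁻¹ * TF t := PB
  rw [PA, PB']
  rcases hmain ρ t hS hlt ht0 hdt hsum with hlt' | ⟨e1, e2, e3', e4, e5, e6⟩
  · refine ⟨mul_le_mul_of_nonneg_left hlt'.le hpos.le, fun heq => ?_⟩
    exact absurd (mul_left_cancel₀ hpos.ne' heq) hlt'.ne
  · have hfn : ∀ x : Z3, frm ρ x = t * (nF x : ℝ) := by
      intro x
      unfold frm nF
      rw [e1, e2, e3', e4, e5, e6]
      push_cast
      ring
    have hTT : Th ρ = TF t := by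
      unfold Th TF
      exact tsum_congr fun x => by rw [hfn]
    refine ⟨by rw [hTT], fun _ => ?_⟩
    apply range_of_gram A hA0 U hU hκ0.ne'
    apply gram_eq_of
    intro x y z
    rw [← Matrix.mulVec_mulVec, ← Matrix.mulVec_mulVec, ← cast_mulVec, ← cast_mulVec]
    have h1 := hform (x, y, z)
    rw [hfn] at h1
    rw [BM_norm κ x y z]
    exact h1

end Theta3
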