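import Pool.Agent.H98.Theta3.MainOf
import Pool.Agent.H98.Theta3.FccLocal
import Pool.Agent.H98.Theta3.BccLocal
import Pool.Agent.H98.Theta3.BccGt

set_option autoImplicit false

/-!
# The face centred cubic lattice minimises the theta series for large parameters
-/

namespace Theta3

theorem main (ρ : Rho) (t : ℝ)
    (hS : Sorted ρ) (ht : Real.pi ^ 3 < 4 * t ^ 3) (ht0 : 0 < t) (hdt : dt ρ = 4 * t ^ 3)
    (hsum : Summable (fun x : Z3 => Real.exp (-(frm ρ x)))) :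
    TF t < Th ρ ∨ (ρ.p = 0 ∧ ρ.q = 0 ∧ ρ.r1 = t ∧ ρ.r2 = t ∧ ρ.r3 = t ∧ ρ.r4 = t) := by
  refine main_of ?_ ?_ ?_ ρ t hS ht ht0 hdt hsum
  · intro ρ t a1 a2 a3 a4 a5 a6 a7 a8 a9 a10
    exact fcc_local ρ t a1 a2 a3 a4 a5 a6 a7 a8 a9 a10
  · intro ρ t s a1 a2 a3 a4 a5 a6 a7 _ a8 _ a9 _ a10 a11 a12 a13 a14 a15
    exact bcc_local ρ t s a1 a2 a3 a4 a5 a6 a7 a8 a9 a10 a11 a12 a13 a14 a15
  · intro t s a1 a2 a3 a4
    exact bcc_gt_fcc t s a1 a2 a3 a4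

end Theta3
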