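import Pool.Agent.H98.Theta3.SoundB
import Pool.Agent.H98.Theta3.Fcc

set_option autoImplicit false

/-!
# Thin lattices
-/

namespace Theta3

theorem planar {a b c m : ℝ} (ha : 0 ≤ a) (hb : 0 ≤ b) (hc : 0 ≤ c) (hm : 0 ≤ m)
    (h1 : m ≤ a + b) (h2 : m ≤ b + c) (h3 : m ≤ c + a) :
    3 * m ^ 2 ≤ 4 * (a * b + b * c + c * a) := by
  have key : ∀ x y z : ℝ, 0 ≤ x → x ≤ y → y ≤ z → m ≤ x + y →
      3 * m ^ 2 ≤ 4 * (x * y + y * z + z * x) := by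
    intro x y z hx hxy hyz hxm
    have g : m ^ 2 ≤ (x + y) ^ 2 := pow_le_pow_left₀ hm hxm 2
    nlinarith [mul_nonneg hx (sub_nonneg.mpr hxy), mul_nonneg (hx.trans hxy) (sub_nonneg.mpr hyz),
      mul_nonneg hx (sub_nonneg.mpr hyz), mul_nonneg (hx.trans hxy) (sub_nonneg.mpr hxy)]
  rcases le_total a b with hab | hab <;> rcases le_total b c with hbc | hbc <;>
    rcases le_total a c with hac | hac
  · linarith [key a b c ha hab hbc h1]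
  · linarith [key a b c ha hab hbc h1]
  · linarith [key a c b ha hac hbc (by linarith)]
  · linarith [key c a b hc hac hab (by linarith)]
  · linarith [key b a c hb hab hac (by linarith)]
  · linarith [key b c a hb hbc hac (by linarith)]
  · linarith [key c b a hc hbc hab (by linarith)]
  · linarith [key c b a hc hbc hab (by linarith)]

theorem dt_ge {ρ : Rho} {m : ℝ} (p0 : 0 ≤ ρ.p) (q0 : 0 ≤ ρ.q) (r10 : 0 ≤ ρ.r1) (r20 : 0 ≤ ρ.r2)
    (r30 : 0 ≤ ρ.r3) (r40 : 0 ≤ ρ.r4) (hm : 0 ≤ m) (h1 : m ≤ ρ.p + ρ.r3 + ρ.r4)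
    (h2 : m ≤ ρ.q + ρ.r2 + ρ.r4) (h3 : m ≤ ρ.p + ρ.q + ρ.r2 + ρ.r3) :
    3 * m ^ 2 * ρ.r1 ≤ 4 * dt ρ := by
  have h := planar (a := ρ.p + ρ.r3) (b := ρ.q + ρ.r2) (c := ρ.r4) (m := m) (by linarith)
    (by linarith) (by linarith) hm (by linarith) (by linarith) (by linarith)
  have h4 := mul_le_mul_of_nonneg_right h r10
  have h5 : 0 ≤ ρ.p * ρ.q * (ρ.r2 + ρ.r3 + ρ.r4) + ρ.p * (ρ.r3 * (ρ.r2 + ρ.r4)) +
    ρ.q * (ρ.r2 * (ρ.r3 + ρ.r4)) + ρ.r3 * ρ.r4 * ρ.r2 := by positivity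
  have e : dt ρ = ((ρ.p + ρ.r3) * (ρ.q + ρ.r2) + (ρ.q + ρ.r2) * ρ.r4 + ρ.r4 * (ρ.p + ρ.r3)) *
      ρ.r1 + (ρ.p * ρ.q * (ρ.r2 + ρ.r3 + ρ.r4) + ρ.p * (ρ.r3 * (ρ.r2 + ρ.r4)) +
    ρ.q * (ρ.r2 * (ρ.r3 + ρ.r4)) + ρ.r3 * ρ.r4 * ρ.r2) := by unfold dt; ring
  rw [e]
  linarith

theorem Th_ge_one {ρ : Rho} (hs : Summable (fun x : Z3 => Real.exp (-(frm ρ x)))) {x : Z3}
    (hx : x ∈ SV) : 1 + 2 * Real.exp (-(frm ρ x)) ≤ Th ρ := by
  have h := Th_ge hs (l := [x]) (List.singleton_sublist.mpr hx)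
  simpa using h

theorem exp_bd1 : (608 / 100 : ℝ) ≤ Real.exp (1808 / 1000) := by
  have h3 := Real.sum_le_exp_of_nonneg (x := (1808 / 1000 : ℝ)) (by norm_num) 10
  simp only [Finset.sum_range_succ, Finset.sum_range_zero, Nat.factorial] at h3
  norm_num at h3 ⊢
  linarith

theorem exp_bd2 : (723 / 100 : ℝ) ≤ Real.exp (2026 / 1024) := by
  have h3 := Real.sum_le_exp_of_nonneg (x := (2026 / 1024 : ℝ)) (by norm_num) 12
  simp only [Finset.sum_range_succ, Finset.sum_range_zero, Nat.factorial] at h3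
  norm_num at h3 ⊢
  linarith

theorem thin_exp {t : ℝ} (ht : 2026 / 1024 ≤ t) : TF t < 1 + 2 * Real.exp (-(10858 / 10000 * t)) := by
  have h := TF_le (t := t) (by linarith)
  set y := Real.exp (-t) with hy
  have hy0 : 0 < y := Real.exp_pos _
  have hy1 : y ≤ 1384 / 10000 := by
    have h1 : y ≤ Real.exp (-(2026 / 1024)) := Real.exp_le_exp.mpr (by linarith)
    have h2 : Real.exp (-(2026 / 1024)) ≤ 1 / (723 / 100) := by
      rw [Real.exp_neg, ← one_div]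
      exact one_div_le_one_div_of_le (by norm_num) exp_bd2
    refine h1.trans (h2.trans ?_)
    norm_num
  have e1 : Real.exp (-(10858 / 10000 * t)) = y ^ 2 * Real.exp (9142 / 10000 * t) := by
    rw [hy, ← Real.exp_nat_mul, ← Real.exp_add]
    congr 1
    push_cast
    ring
  have h3 : (608 / 100 : ℝ) ≤ Real.exp (9142 / 10000 * t) :=
    exp_bd1.trans (Real.exp_le_exp.mpr (by linarith))
  rw [e1]
  have g : ∀ n : ℕ, y ^ n ≤ (1384 / 10000) ^ n := fun n => pow_le_pow_left₀ hy0.le hy1 n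
  have hb : 12 + 6 * y ^ 2 + 24 * y ^ 4 + 12 * y ^ 6 + 24 * y ^ 8 + 8 * y ^ 10 + 134400 * y ^ 12 <
      1214 / 100 := by
    have g2 := g 2
    have g4 := g 4
    have g6 := g 6
    have g8 := g 8
    have g10 := g 10
    have g12 := g 12
    norm_num at g2 g4 g6 g8 g10 g12 ⊢
    linarith
  have hy2 : 0 < y ^ 2 := by positivity
  have h5 := mul_lt_mul_of_pos_left hb hy2
  have h6 := mul_le_mul_of_nonneg_left h3 hy2.le
  nlinarith

theorem thin_sound {ρ : Rho} {t m : ℝ} (p0 : 0 ≤ ρ.p) (q0 : 0 ≤ ρ.q) (r10 : 0 < ρ.r1)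
    (r20 : 0 ≤ ρ.r2) (r30 : 0 ≤ ρ.r3) (r40 : 0 ≤ ρ.r4) (ht : 2026 / 1024 ≤ t)
    (hdt : dt ρ = 4 * t ^ 3) (hs : Summable (fun x : Z3 => Real.exp (-(frm ρ x))))
    (hm : 4096 * m ≤ 983 * ρ.r1)
    (h : m = ρ.p + ρ.r3 + ρ.r4 ∨ m = ρ.q + ρ.r2 + ρ.r4 ∨ m = ρ.p + ρ.q + ρ.r2 + ρ.r3) :
    TF t < Th ρ := by
  -- the smallest of the three
  obtain ⟨n, x, hx, hn, hnm, n1, n2, n3⟩ : ∃ (n : ℝ) (x : Z3), x ∈ SV ∧ n = frm ρ x ∧ n ≤ m ∧
      n ≤ ρ.p + ρ.r3 + ρ.r4 ∧ n ≤ ρ.q + ρ.r2 + ρ.r4 ∧ n ≤ ρ.p + ρ.q + ρ.r2 + ρ.r3 := by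
    have f1 : ρ.p + ρ.r3 + ρ.r4 = frm ρ (1, 0, 0) := by unfold frm; push_cast; ring
    have f2 : ρ.q + ρ.r2 + ρ.r4 = frm ρ (0, 0, 1) := by unfold frm; push_cast; ring
    have f3 : ρ.p + ρ.q + ρ.r2 + ρ.r3 = frm ρ (1, 0, 1) := by unfold frm; push_cast; ring
    have s1 : ((1, 0, 0) : Z3) ∈ SV := by decide +kernel
    have s2 : ((0, 0, 1) : Z3) ∈ SV := by decide +kernel
    have s3 : ((1, 0, 1) : Z3) ∈ SV := by decide +kernel
    rcases le_total (ρ.p + ρ.r3 + ρ.r4) (ρ.q + ρ.r2 + ρ.r4) with a | a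
    · rcases le_total (ρ.p + ρ.r3 + ρ.r4) (ρ.p + ρ.q + ρ.r2 + ρ.r3) with b | b
      · refine ⟨_, _, s1, f1, ?_, le_refl _, a, b⟩
        rcases h with h | h | h <;> rw [h] <;> assumption
      · refine ⟨_, _, s3, f3, ?_, b, b.trans a, le_refl _⟩
        rcases h with h | h | h <;> rw [h]
        · assumption
        · exact b.trans a
    · rcases le_total (ρ.q + ρ.r2 + ρ.r4) (ρ.p + ρ.q + ρ.r2 + ρ.r3) with b | b
      · refine ⟨_, _, s2, f2, ?_, a, le_refl _, b⟩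
        rcases h with h | h | h <;> rw [h] <;> assumption
      · refine ⟨_, _, s3, f3, ?_, b.trans a, b, le_refl _⟩
        rcases h with h | h | h <;> rw [h]
        · exact b.trans a
        · assumption
  have hn0 : 0 ≤ n := by
    rw [hn]; unfold frm; positivity
  have hd := dt_ge p0 q0 r10.le r20 r30 r40 hn0 n1 n2 n3
  rw [hdt] at hd
  have h1 : 4096 * n ≤ 983 * ρ.r1 := by linarith
  have h2 : n ^ 3 ≤ (10858 / 10000 * t) ^ 3 := by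
    have h3 := mul_le_mul_of_nonneg_left h1 (show 0 ≤ 3 * n ^ 2 by positivity)
    have t3 : 0 ≤ t ^ 3 := by positivity
    nlinarith
  have h3 : n ≤ 10858 / 10000 * t := le_of_pow_le_pow_left₀ (by norm_num) (by positivity) h2
  have h4 := Th_ge_one hs hx
  rw [← hn] at h4
  have h5 : Real.exp (-(10858 / 10000 * t)) ≤ Real.exp (-n) := Real.exp_le_exp.mpr (by linarith)
  have h6 := thin_exp ht
  linarith

end Theta3
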