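import Pool.Agent.H98.Theta3.SoundE
import Pool.Agent.H98.Theta3.Thin
import Pool.Agent.H98.Theta3.Bcc0
import Pool.Agent.H98.Theta3.CertTop

set_option autoImplicit false

/-!
# The comparison theorem, given the local statements at the two cubic lattices
-/

namespace Theta3

/-- the local statement at the face centred cubic lattice -/
def FccLocal : Prop := ∀ (ρ : Rho) (t : ℝ), Sorted ρ → 0 < ρ.r1 → 4096 * ρ.p ≤ 204 * ρ.r1 →
  4096 * ρ.q ≤ 204 * ρ.r1 → 3892 * ρ.r1 ≤ 4096 * ρ.r2 → 3892 * ρ.r1 ≤ 4096 * ρ.r3 →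
  3892 * ρ.r1 ≤ 4096 * ρ.r4 → 1979 / 1000 ≤ t → dt ρ = 4 * t ^ 3 →
  Summable (fun x : Z3 => Real.exp (-(frm ρ x))) →
  TF t < Th ρ ∨ (ρ.p = 0 ∧ ρ.q = 0 ∧ ρ.r1 = t ∧ ρ.r2 = t ∧ ρ.r3 = t ∧ ρ.r4 = t)

/-- the local statement at the body centred cubic lattice -/
def BccLocal : Prop := ∀ (ρ : Rho) (t s : ℝ), Sorted ρ → 0 < ρ.r1 →
  3892 * ρ.r1 ≤ 4096 * ρ.p → 4096 * ρ.p ≤ 4300 * ρ.r1 →
  3892 * ρ.r1 ≤ 4096 * ρ.q → 4096 * ρ.q ≤ 4300 * ρ.r1 →
  3892 * ρ.r1 ≤ 4096 * ρ.r2 → 4096 * ρ.r2 ≤ 4300 * ρ.r1 →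
  3892 * ρ.r1 ≤ 4096 * ρ.r3 → 4096 * ρ.r3 ≤ 4300 * ρ.r1 →
  3892 * ρ.r1 ≤ 4096 * ρ.r4 → 4096 * ρ.r4 ≤ 4300 * ρ.r1 →
  1979 / 1000 ≤ t → t ≤ 2046 / 1024 → dt ρ = 4 * t ^ 3 → 0 < s → 4 * s ^ 3 = t ^ 3 →
  Summable (fun x : Z3 => Real.exp (-(frm ρ x))) → TB s ≤ Th ρ

/-- comparison of the two cubic lattices -/
def BccGtFcc : Prop := ∀ (t s : ℝ), Real.pi ^ 3 < 4 * t ^ 3 → t ≤ 2046 / 1024 → 0 < s →
  4 * s ^ 3 = t ^ 3 → TF t < TB s

theorem main_of (hF : FccLocal) (hB : BccLocal) (hBF : BccGtFcc) (ρ : Rho) (t : ℝ)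
    (hS : Sorted ρ) (ht : Real.pi ^ 3 < 4 * t ^ 3) (ht0 : 0 < t) (hdt : dt ρ = 4 * t ^ 3)
    (hsum : Summable (fun x : Z3 => Real.exp (-(frm ρ x)))) :
    TF t < Th ρ ∨ (ρ.p = 0 ∧ ρ.q = 0 ∧ ρ.r1 = t ∧ ρ.r2 = t ∧ ρ.r3 = t ∧ ρ.r4 = t) := by
  obtain ⟨p0, q0, r30, r40, h32, h21, h41, hs1, hs2⟩ := id hS
  have ht3 : 0 < t ^ 3 := by positivity
  have r20 : 0 ≤ ρ.r2 := by linarith
  have r10 : 0 < ρ.r1 := by
    by_contra hcon
    have h1 : ρ.r1 = 0 := by linarith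
    have h2 : ρ.r2 = 0 := by linarith
    have h3 : ρ.r3 = 0 := by linarith
    have h4 : ρ.r4 = 0 := by linarith
    have : dt ρ = 0 := by unfold dt; rw [h1, h2, h3, h4]; ring
    linarith
  have ht1 : 1979 / 1000 ≤ t := by
    by_contra hcon
    push Not at hcon
    have hpi := Real.pi_gt_d4
    have h1 : (31415 / 10000 : ℝ) ^ 3 < Real.pi ^ 3 :=
      pow_lt_pow_left₀ (by norm_num at hpi ⊢; linarith) (by norm_num) (by norm_num)
    have h2 : t ^ 3 < (1979 / 1000 : ℝ) ^ 3 := pow_lt_pow_left₀ hcon ht0.le (by norm_num)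
    norm_num at h1 h2
    linarith
  have C : Ctx ρ t := ⟨p0, q0, r10, r20, r30, r40, by linarith, hdt, hsum⟩
  have hsc : ∀ a : ℝ, 4096 * a / ρ.r1 * ρ.r1 = 4096 * a := fun a => by field_simp
  have hbox : InBox 0 8192 0 8192 0 4096 0 4096 0 4096 (4096 * ρ.p / ρ.r1) (4096 * ρ.q / ρ.r1)
      (4096 * ρ.r2 / ρ.r1) (4096 * ρ.r3 / ρ.r1) (4096 * ρ.r4 / ρ.r1) := by
    refine ⟨?_, ?_, ?_, ?_, ?_, ?_, ?_, ?_, ?_, ?_⟩
    · push_cast; positivity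
    · rw [div_le_iff₀ r10]; push_cast; linarith
    · push_cast; positivity
    · rw [div_le_iff₀ r10]; push_cast; linarith
    · push_cast; positivity
    · rw [div_le_iff₀ r10]; push_cast; linarith
    · push_cast; positivity
    · rw [div_le_iff₀ r10]; push_cast; linarith
    · push_cast; positivity
    · rw [div_le_iff₀ r10]; push_cast; linarith
  have h := chk_sound C root 0 8192 0 8192 0 4096 0 4096 0 4096 root_ok (by norm_num)
    (by norm_num) (by norm_num) (by norm_num) (by norm_num) hbox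
  unfold Concl at h
  rcases h with h | h | h | h | h | h | h | h | h
  · exfalso
    rw [div_lt_div_iff_of_pos_right r10] at h
    linarith
  · exfalso
    have h' := mul_lt_mul_of_pos_right h r10
    rw [add_mul, add_mul, hsc, hsc, hsc] at h'
    linarith
  · exfalso
    rw [← add_div, ← add_div, div_lt_div_iff_of_pos_right r10] at h
    linarith
  · left
    rw [← add_div, ← add_div, div_le_iff₀ r10] at h
    exact thin_sound p0 q0 r10 r20 r30 r40 C.t0 hdt hsum (m := ρ.p + ρ.r3 + ρ.r4) (by linarith)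
      (Or.inl rfl)
  · left
    rw [← add_div, ← add_div, div_le_iff₀ r10] at h
    exact thin_sound p0 q0 r10 r20 r30 r40 C.t0 hdt hsum (m := ρ.q + ρ.r2 + ρ.r4) (by linarith)
      (Or.inr (Or.inl rfl))
  · left
    rw [← add_div, ← add_div, ← add_div, div_le_iff₀ r10] at h
    exact thin_sound p0 q0 r10 r20 r30 r40 C.t0 hdt hsum (m := ρ.p + ρ.q + ρ.r2 + ρ.r3)
      (by linarith) (Or.inr (Or.inr rfl))
  · obtain ⟨g1, g2, g3, g4, g5⟩ := h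
    rw [div_le_iff₀ r10] at g1 g2
    rw [le_div_iff₀ r10] at g3 g4 g5
    exact hF ρ t hS r10 g1 g2 g3 g4 g5 ht1 hdt hsum
  · obtain ⟨g1, g2, g3, g4, g5, g6, g7, g8⟩ := h
    rw [div_le_iff₀ r10] at g2 g4
    rw [le_div_iff₀ r10] at g1 g3 g5 g6 g7
    left
    -- the cube root
    obtain ⟨s, hs0, hs⟩ : ∃ s : ℝ, 0 < s ∧ 4 * s ^ 3 = t ^ 3 := by
      refine ⟨(t ^ 3 / 4) ^ ((1 : ℝ) / 3), by positivity, ?_⟩
      rw [← Real.rpow_natCast, ← Real.rpow_mul (by positivity)]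
      norm_num
      ring
    have a1 := hB ρ t s hS r10 g1 g2 g3 g4 g5 (by linarith) g6 (by linarith) g7 (by linarith)
      ht1 g8.le hdt hs0 hs hsum
    have a2 := hBF t s ht g8.le hs0 hs
    linarith
  · exact Or.inl h

end Theta3
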