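import Pool.Agent.H98.Theta3.Check
import Pool.Agent.H98.Theta3.Fcc

set_option autoImplicit false
set_option maxRecDepth 100000
set_option exponentiation.threshold 2000

/-!
# Soundness of the checker, part A: tables
-/

namespace Theta3

/-- check of the exponential table -/
noncomputable def tabchk (n : Nat) : Nat → Nat → Nat → Bool :=
  Nat.rec (fun _ _ _ => true) (fun _ ih i Vl Vu =>
    bq (Nat.ble (Nat.mul (lk i) (nat_lit 1099511627776)) Vl)
      (bq (Nat.ble Vu (Nat.mul (Nat.succ (lk i)) (nat_lit 1099511627776)))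
      (frc (Nat.shiftRight (Nat.mul Vl El) (nat_lit 80)) (fun Vl' =>
        frc (Nat.succ (Nat.shiftRight (Nat.mul Vu (Nat.succ El)) (nat_lit 80))) (fun Vu' =>
          ih (Nat.succ i) Vl' Vu'))) false) false) n

theorem tab_ok : tabchk 2048 0 1208925819614629174706176 1208925819614629174706176 = true := by
  decide +kernel

theorem exp128_lo : (∑ m ∈ Finset.range 11, ((1 : ℝ) / 128) ^ m / (Nat.factorial m : ℝ)) ≤
    Real.exp (1 / 128) := Real.sum_le_exp_of_nonneg (by norm_num) 11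

theorem exp128_hi : Real.exp (1 / 128) ≤
    (∑ m ∈ Finset.range 11, ((1 : ℝ) / 128) ^ m / (Nat.factorial m : ℝ)) +
      ((1 : ℝ) / 128) ^ 11 * (11 + 1) / ((Nat.factorial 11 : ℝ) * 11) := by
  have h := Real.exp_bound' (x := 1 / 128) (by norm_num) (by norm_num) (n := 11) (by norm_num)
  simpa using h

theorem El_lo : (El : ℝ) ≤ 1208925819614629174706176 * Real.exp (-(1 / 128)) := by
  have h := exp128_hi
  rw [Real.exp_neg, ← div_eq_mul_inv, le_div_iff₀ (Real.exp_pos _)]
  have h0 : (0 : ℝ) ≤ (El : ℝ) := Nat.cast_nonneg _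
  refine (mul_le_mul_of_nonneg_left h h0).trans ?_
  unfold El
  simp only [Finset.sum_range_succ, Finset.sum_range_zero, Nat.factorial]
  norm_num

theorem El_hi : 1208925819614629174706176 * Real.exp (-(1 / 128)) ≤ (El : ℝ) + 1 := by
  have h := exp128_lo
  rw [Real.exp_neg, ← div_eq_mul_inv, div_le_iff₀ (Real.exp_pos _)]
  have h0 : (0 : ℝ) ≤ (El : ℝ) + 1 := by positivity
  refine le_trans ?_ (mul_le_mul_of_nonneg_left h h0)
  unfold El
  simp only [Finset.sum_range_succ, Finset.sum_range_zero, Nat.factorial]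
  norm_num

theorem shr_le (a k : ℕ) : ((Nat.shiftRight a k : ℕ) : ℝ) * 2 ^ k ≤ (a : ℝ) := by
  have h : Nat.shiftRight a k = a / 2 ^ k := Nat.shiftRight_eq_div_pow a k
  rw [h]
  have := Nat.div_mul_le_self a (2 ^ k)
  exact_mod_cast this

theorem shr_ge (a k : ℕ) : (a : ℝ) ≤ (((Nat.shiftRight a k : ℕ) : ℝ) + 1) * 2 ^ k := by
  have h : Nat.shiftRight a k = a / 2 ^ k := Nat.shiftRight_eq_div_pow a k
  rw [h]
  have h2 := Nat.lt_div_mul_add (a := a) (b := 2 ^ k) (by positivity)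
  have h3 : a ≤ (a / 2 ^ k + 1) * 2 ^ k := by
    rw [add_mul, one_mul]
    exact h2.le
  exact_mod_cast h3

theorem tabchk_sound (n : ℕ) : ∀ (i Vl Vu : ℕ), tabchk n i Vl Vu = true →
    (Vl : ℝ) ≤ 1208925819614629174706176 * Real.exp (-((i : ℝ) / 128)) →
    1208925819614629174706176 * Real.exp (-((i : ℝ) / 128)) ≤ (Vu : ℝ) →
    ∀ j, i ≤ j → j < i + n → (lk j : ℝ) ≤ 1099511627776 * Real.exp (-((j : ℝ) / 128)) ∧
      1099511627776 * Real.exp (-((j : ℝ) / 128)) ≤ (lk j : ℝ) + 1 := by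
  induction n with
  | zero => intro i Vl Vu _ _ _ j h1 h2; omega
  | succ n ih =>
    intro i Vl Vu h hl hu j h1 h2
    have e : tabchk (n + 1) i Vl Vu = bq (Nat.ble (Nat.mul (lk i) (nat_lit 1099511627776)) Vl)
      (bq (Nat.ble Vu (Nat.mul (Nat.succ (lk i)) (nat_lit 1099511627776)))
      (frc (Nat.shiftRight (Nat.mul Vl El) (nat_lit 80)) (fun Vl' =>
        frc (Nat.succ (Nat.shiftRight (Nat.mul Vu (Nat.succ El)) (nat_lit 80))) (fun Vu' =>
          tabchk n (Nat.succ i) Vl' Vu'))) false) false := rfl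
    rw [e, bq_false, bq_false, frc_eq, frc_eq] at h
    obtain ⟨ha, hb, hc⟩ := h
    have ha' : lk i * 1099511627776 ≤ Vl := Nat.le_of_ble_eq_true ha
    have hb' : Vu ≤ (lk i + 1) * 1099511627776 := Nat.le_of_ble_eq_true hb
    have ha2 : (lk i : ℝ) * 1099511627776 ≤ Vl := by exact_mod_cast ha'
    have hb2 : (Vu : ℝ) ≤ ((lk i : ℝ) + 1) * 1099511627776 := by exact_mod_cast hb'
    rcases Nat.lt_or_ge i j with hij | hij
    · refine ih (Nat.succ i) _ _ hc ?_ ?_ j hij (by omega)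
      · have s1 := shr_le (Nat.mul Vl El) 80
        have e1 : ((Nat.mul Vl El : ℕ) : ℝ) = (Vl : ℝ) * (El : ℝ) := by
          have : Nat.mul Vl El = Vl * El := rfl
          rw [this]; push_cast; ring
        rw [e1] at s1
        have e2 : Real.exp (-(((Nat.succ i : ℕ) : ℝ) / 128)) =
            Real.exp (-((i : ℝ) / 128)) * Real.exp (-(1 / 128)) := by
          rw [← Real.exp_add]; congr 1; push_cast; ring
        rw [e2]
        have s2 : (Vl : ℝ) * (El : ℝ) ≤ (1208925819614629174706176 * Real.exp (-((i : ℝ) / 128))) *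
            (1208925819614629174706176 * Real.exp (-(1 / 128))) :=
          mul_le_mul hl El_lo (Nat.cast_nonneg _) (by positivity)
        have e3 : (2 : ℝ) ^ 80 = 1208925819614629174706176 := by norm_num
        rw [e3] at s1
        nlinarith [s1, s2]
      · have s1 := shr_ge (Nat.mul Vu (Nat.succ El)) 80
        have e1 : ((Nat.mul Vu (Nat.succ El) : ℕ) : ℝ) = (Vu : ℝ) * ((El : ℝ) + 1) := by
          have : Nat.mul Vu (Nat.succ El) = Vu * (El + 1) := rfl
          rw [this]; push_cast; ring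
        rw [e1] at s1
        have e2 : Real.exp (-(((Nat.succ i : ℕ) : ℝ) / 128)) =
            Real.exp (-((i : ℝ) / 128)) * Real.exp (-(1 / 128)) := by
          rw [← Real.exp_add]; congr 1; push_cast; ring
        rw [e2]
        have s2 : (1208925819614629174706176 * Real.exp (-((i : ℝ) / 128))) *
            (1208925819614629174706176 * Real.exp (-(1 / 128))) ≤ (Vu : ℝ) * ((El : ℝ) + 1) :=
          mul_le_mul hu El_hi (by positivity) (Nat.cast_nonneg _)
        have e3 : (2 : ℝ) ^ 80 = 1208925819614629174706176 := by norm_num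
        rw [e3] at s1
        push_cast
        nlinarith [s1, s2]
    · have : j = i := by omega
      subst this
      constructor <;> nlinarith

theorem lk_bounds {j : ℕ} (hj : j < 2048) :
    (lk j : ℝ) ≤ 1099511627776 * Real.exp (-((j : ℝ) / 128)) ∧
      1099511627776 * Real.exp (-((j : ℝ) / 128)) ≤ (lk j : ℝ) + 1 :=
  tabchk_sound 2048 0 _ _ tab_ok (by simp) (by simp) j (Nat.zero_le _) (by omega)

theorem lk_lt (i : ℕ) : lk i < 281474976710656 := by
  have h : lk i = (Nat.shiftRight TAB (Nat.mul (nat_lit 48) i)) % 281474976710656 := rfl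
  rw [h]
  exact Nat.mod_lt _ (by norm_num)

theorem exp_neg_le_quad {z : ℝ} (hz : 0 ≤ z) : Real.exp (-z) ≤ 1 - z + z ^ 2 / 2 := by
  have h := Real.quadratic_le_exp_of_nonneg hz
  have hp : 0 < 1 + z + z ^ 2 / 2 := by positivity
  have h1 : Real.exp (-z) ≤ 1 / (1 + z + z ^ 2 / 2) := by
    rw [Real.exp_neg, ← one_div]
    exact one_div_le_one_div_of_le hp h
  refine h1.trans ?_
  rw [div_le_iff₀ hp]
  nlinarith [sq_nonneg (z ^ 2)]

theorem expU_ge {D : ℕ} (hD : D ≤ 17179869183) :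
    2535301200456458802993406410752 * Real.exp (-((D : ℝ) / 1073741824)) ≤ (expU D : ℝ) := by
  set j := D / 8388608 with hj
  set r := D % 8388608 with hr
  have hjl : j < 2048 := by omega
  have hrl : r < 8388608 := Nat.mod_lt _ (by norm_num)
  have hDe : D = j * 8388608 + r := by omega
  have e1 : expU D = (lk j + 1) * (2305843009213693952 - r * 2147483648 + r * r) := by
    have h1 : Nat.shiftRight D (nat_lit 23) = j := by
      have : Nat.shiftRight D 23 = D / 2 ^ 23 := Nat.shiftRight_eq_div_pow D 23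
      rw [this, hj]
      norm_num
    have h2 : expU D = (lk (Nat.shiftRight D (nat_lit 23)) + 1) * (2305843009213693952 -
      (D % 8388608) * 2147483648 + (D % 8388608) * (D % 8388608)) := rfl
    rw [h2, h1]
  rw [e1]
  have h3 : r * 2147483648 ≤ 2305843009213693952 := by omega
  push_cast [Nat.cast_sub h3]
  have e2 : Real.exp (-((D : ℝ) / 1073741824)) =
      Real.exp (-((j : ℝ) / 128)) * Real.exp (-((r : ℝ) / 1073741824)) := by
    rw [← Real.exp_add, hDe]; congr 1; push_cast; ring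
  rw [e2]
  have hq := exp_neg_le_quad (z := (r : ℝ) / 1073741824) (by positivity)
  have hl := (lk_bounds hjl).2
  have hq0 : 0 ≤ 1 - (r : ℝ) / 1073741824 + ((r : ℝ) / 1073741824) ^ 2 / 2 :=
    (Real.exp_pos _).le.trans hq
  have h4 : (1099511627776 * Real.exp (-((j : ℝ) / 128))) *
      Real.exp (-((r : ℝ) / 1073741824)) ≤ ((lk j : ℝ) + 1) *
        (1 - (r : ℝ) / 1073741824 + ((r : ℝ) / 1073741824) ^ 2 / 2) :=
    mul_le_mul hl hq (Real.exp_pos _).le (by positivity)
  nlinarith [h4]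

/-- numerical check of the theta bounds -/
noncomputable def gkY (k : Nat) : Nat :=
  Nat.shiftRight (Nat.add (expU (Nat.mul (tau k) (nat_lit 1048576))) (nat_lit 2199023255551))
    (nat_lit 41)

/-- polynomial side of the check -/
noncomputable def gkP (Y : Nat) : Nat :=
  6 * Y ^ 2 * 2 ^ 720 + 3 * Y ^ 4 * 2 ^ 600 + 12 * Y ^ 6 * 2 ^ 480 + 6 * Y ^ 8 * 2 ^ 360 +
    12 * Y ^ 10 * 2 ^ 240 + 4 * Y ^ 12 * 2 ^ 120 + 67200 * Y ^ 14

/-- the check -/
def gkchk : Prop := ∀ k < 34, (tau k * 1048576 ≤ 17179869183 ∧ 2026 ≤ tau k) ∧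
  2 ^ 90 * gkP (gkY k) ≤ gk k * lk 1024 * 2 ^ 840

noncomputable instance : Decidable gkchk := by unfold gkchk; infer_instance

theorem gk_ok : gkchk := by decide +kernel

theorem gkY_ge (k : ℕ) : expU (tau k * 1048576) ≤ gkY k * 2199023255552 := by
  have h : gkY k = (expU (tau k * 1048576) + 2199023255551) / 2 ^ 41 :=
    Nat.shiftRight_eq_div_pow _ 41
  rw [h]
  norm_num
  omega

theorem TF_poly {t : ℝ} (ht : 35 / 100 ≤ t) {y : ℝ} (hy : Real.exp (-t) ≤ y) :
    (TF t - 1) / 2 ≤ 6 * y ^ 2 + 3 * y ^ 4 + 12 * y ^ 6 + 6 * y ^ 8 + 12 * y ^ 10 +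
      4 * y ^ 12 + 67200 * y ^ 14 := by
  have h := TF_le ht
  have h0 := (Real.exp_pos (-t)).le
  have g : ∀ n : ℕ, Real.exp (-t) ^ n ≤ y ^ n := fun n => pow_le_pow_left₀ h0 hy n
  have g2 := g 2
  have g4 := g 4
  have g6 := g 6
  have g8 := g 8
  have g10 := g 10
  have g12 := g 12
  have g14 := g 14
  linarith

/-- the constants bound the theta series at the slice end points -/
theorem gk_ge {k : ℕ} (hk : k < 34) :
    1125899906842624 * (Real.exp 8 * ((TF ((tau k : ℝ) / 1024) - 1) / 2)) ≤ (gk k : ℝ) := by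
  obtain ⟨⟨h1, h2⟩, h3⟩ := gk_ok k hk
  have hy : Real.exp (-((tau k : ℝ) / 1024)) ≤ (gkY k : ℝ) / 1152921504606846976 := by
    have a := expU_ge h1
    have b : ((expU (tau k * 1048576) : ℕ) : ℝ) ≤ (gkY k : ℝ) * 2199023255552 := by
      exact_mod_cast gkY_ge k
    have c : (((tau k * 1048576 : ℕ) : ℝ) / 1073741824) = (tau k : ℝ) / 1024 := by
      push_cast; ring
    rw [c] at a
    rw [le_div_iff₀ (by norm_num)]
    nlinarith
  have ht : (35 / 100 : ℝ) ≤ (tau k : ℝ) / 1024 := by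
    have : (2026 : ℝ) ≤ (tau k : ℝ) := by exact_mod_cast h2
    linarith
  have hp := TF_poly ht hy
  set P := (TF ((tau k : ℝ) / 1024) - 1) / 2 with hP
  have h3' : ((2 ^ 90 * gkP (gkY k) : ℕ) : ℝ) ≤ ((gk k * lk 1024 * 2 ^ 840 : ℕ) : ℝ) := by
    exact_mod_cast h3
  have e : ((2 ^ 90 * gkP (gkY k) : ℕ) : ℝ) = 2 ^ 840 * (2 ^ 90 *
      (6 * ((gkY k : ℝ) / 1152921504606846976) ^ 2 + 3 * ((gkY k : ℝ) / 1152921504606846976) ^ 4 +
      12 * ((gkY k : ℝ) / 1152921504606846976) ^ 6 + 6 * ((gkY k : ℝ) / 1152921504606846976) ^ 8 +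
      12 * ((gkY k : ℝ) / 1152921504606846976) ^ 10 +
      4 * ((gkY k : ℝ) / 1152921504606846976) ^ 12 +
      67200 * ((gkY k : ℝ) / 1152921504606846976) ^ 14)) := by
    unfold gkP
    push_cast
    generalize (gkY k : ℝ) = Y
    have : (1152921504606846976 : ℝ) = 2 ^ 60 := by norm_num
    rw [this]
    field_simp
    ring
  have e' : ((gk k * lk 1024 * 2 ^ 840 : ℕ) : ℝ) = (gk k : ℝ) * (lk 1024 : ℝ) * 2 ^ 840 := by
    rw [Nat.cast_mul, Nat.cast_mul, Nat.cast_pow, Nat.cast_ofNat]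
  rw [e, e'] at h3'
  have h4 : 2 ^ 90 * P ≤ (gk k : ℝ) * (lk 1024 : ℝ) := by
    have h5 : (2 : ℝ) ^ 840 * (2 ^ 90 * P) ≤ 2 ^ 840 * ((gk k : ℝ) * (lk 1024 : ℝ)) := by
      calc (2 : ℝ) ^ 840 * (2 ^ 90 * P) ≤ _ :=
            mul_le_mul_of_nonneg_left (mul_le_mul_of_nonneg_left hp (by positivity))
              (by positivity)
        _ ≤ (gk k : ℝ) * (lk 1024 : ℝ) * 2 ^ 840 := h3'
        _ = _ := by ring
    exact le_of_mul_le_mul_left h5 (by positivity)
  have h6 := (lk_bounds (j := 1024) (by norm_num)).1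
  have h7 : Real.exp (-(((1024 : ℕ) : ℝ) / 128)) = Real.exp (-8) := by congr 1; norm_num
  rw [h7] at h6
  have h8 : (lk 1024 : ℝ) * Real.exp 8 ≤ 1099511627776 := by
    have : (lk 1024 : ℝ) * Real.exp 8 ≤ 1099511627776 * Real.exp (-8) * Real.exp 8 :=
      mul_le_mul_of_nonneg_right h6 (Real.exp_pos _).le
    rwa [mul_assoc, ← Real.exp_add, neg_add_cancel, Real.exp_zero, mul_one] at this
  have h9 : 0 ≤ (gk k : ℝ) := Nat.cast_nonneg _
  have h10 : 2 ^ 90 * P * Real.exp 8 ≤ (gk k : ℝ) * 1099511627776 := by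
    calc 2 ^ 90 * P * Real.exp 8 ≤ (gk k : ℝ) * (lk 1024 : ℝ) * Real.exp 8 :=
          mul_le_mul_of_nonneg_right h4 (Real.exp_pos _).le
      _ = (gk k : ℝ) * ((lk 1024 : ℝ) * Real.exp 8) := by ring
      _ ≤ _ := mul_le_mul_of_nonneg_left h8 h9
  have e2 : (2 : ℝ) ^ 90 = 1125899906842624 * 1099511627776 := by norm_num
  rw [e2] at h10
  nlinarith [h10]

end Theta3
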