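import Pool.Agent.H98.Theta3.Check
import Pool.Agent.H98.Theta3.Defs

set_option autoImplicit false
set_option maxRecDepth 100000
set_option exponentiation.threshold 2000

/-!
# Soundness of the checker, part B: packed arithmetic, the weights loop, finite partial sums
-/

namespace Theta3

/-! ### Packed dot product -/

theorem dot_aux (X a0 a1 a2 a3 a4 a5 b0 b1 b2 b3 b4 b5 : ℕ) (hX : 0 < X)
    (h : (a0 + a1 + a2 + a3 + a4 + a5) * (b0 + b1 + b2 + b3 + b4 + b5) < X) :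
    ((a0 + a1 * X + a2 * X ^ 2 + a3 * X ^ 3 + a4 * X ^ 4 + a5 * X ^ 5) *
      (b0 * X ^ 5 + b1 * X ^ 4 + b2 * X ^ 3 + b3 * X ^ 2 + b4 * X + b5)) / X ^ 5 % X =
      a0 * b0 + a1 * b1 + a2 * b2 + a3 * b3 + a4 * b4 + a5 * b5 := by
  set S := a0 * b0 + a1 * b1 + a2 * b2 + a3 * b3 + a4 * b4 + a5 * b5 with hS
  set co4 := a0 * b1 + a1 * b2 + a2 * b3 + a3 * b4 + a4 * b5 with hc4
  set co3 := a0 * b2 + a1 * b3 + a2 * b4 + a3 * b5 with hc3
  set co2 := a0 * b3 + a1 * b4 + a2 * b5 with hc2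
  set co1 := a0 * b4 + a1 * b5 with hc1
  set co0 := a0 * b5 with hc0
  set H := (a1 * b0 + a2 * b1 + a3 * b2 + a4 * b3 + a5 * b4) +
    (a2 * b0 + a3 * b1 + a4 * b2 + a5 * b3) * X + (a3 * b0 + a4 * b1 + a5 * b2) * X ^ 2 +
    (a4 * b0 + a5 * b1) * X ^ 3 + a5 * b0 * X ^ 4 with hH
  have e : (a0 + a1 * X + a2 * X ^ 2 + a3 * X ^ 3 + a4 * X ^ 4 + a5 * X ^ 5) *
      (b0 * X ^ 5 + b1 * X ^ 4 + b2 * X ^ 3 + b3 * X ^ 2 + b4 * X + b5) =
      (co4 * X ^ 4 + co3 * X ^ 3 + co2 * X ^ 2 + co1 * X + co0) + X ^ 5 * (S + X * H) := by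
    rw [hS, hc4, hc3, hc2, hc1, hc0, hH]; ring
  have hsum : (a0 + a1 + a2 + a3 + a4 + a5) * (b0 + b1 + b2 + b3 + b4 + b5) =
      S + co4 + co3 + co2 + co1 + co0 + ((a1 * b0 + a2 * b1 + a3 * b2 + a4 * b3 + a5 * b4) +
    (a2 * b0 + a3 * b1 + a4 * b2 + a5 * b3) + (a3 * b0 + a4 * b1 + a5 * b2) +
    (a4 * b0 + a5 * b1) + a5 * b0) := by
    rw [hS, hc4, hc3, hc2, hc1, hc0]; ring
  have hc : co4 + co3 + co2 + co1 + co0 < X := by omega
  have hSX : S < X := by omega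
  have hL : co4 * X ^ 4 + co3 * X ^ 3 + co2 * X ^ 2 + co1 * X + co0 < X ^ 5 := by
    have p3 : X ^ 3 ≤ X ^ 4 := Nat.pow_le_pow_right hX (by norm_num)
    have p2 : X ^ 2 ≤ X ^ 4 := Nat.pow_le_pow_right hX (by norm_num)
    have p1 : X ≤ X ^ 4 := by simpa using Nat.pow_le_pow_right hX (show 1 ≤ 4 by norm_num)
    have p0 : 1 ≤ X ^ 4 := Nat.one_le_pow _ _ hX
    have q3 := Nat.mul_le_mul_left co3 p3
    have q2 := Nat.mul_le_mul_left co2 p2
    have q1 := Nat.mul_le_mul_left co1 p1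
    have q0 := Nat.mul_le_mul_left co0 p0
    calc co4 * X ^ 4 + co3 * X ^ 3 + co2 * X ^ 2 + co1 * X + co0
        ≤ co4 * X ^ 4 + co3 * X ^ 4 + co2 * X ^ 4 + co1 * X ^ 4 + co0 * X ^ 4 := by
          rw [Nat.mul_one] at q0
          exact Nat.add_le_add (Nat.add_le_add (Nat.add_le_add (Nat.add_le_add_left q3 _) q2) q1) q0
      _ = (co4 + co3 + co2 + co1 + co0) * X ^ 4 := by ring
      _ < X * X ^ 4 := Nat.mul_lt_mul_of_pos_right hc (by positivity)
      _ = X ^ 5 := by ring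
  rw [e, Nat.add_mul_div_left _ _ (by positivity), Nat.div_eq_of_lt hL, zero_add,
    Nat.add_mul_mod_self_left, Nat.mod_eq_of_lt hSX]

theorem dotp_eq (a0 a1 a2 a3 a4 a5 b0 b1 b2 b3 b4 b5 : ℕ)
    (h : (a0 + a1 + a2 + a3 + a4 + a5) * (b0 + b1 + b2 + b3 + b4 + b5) < 2 ^ 80) :
    dotp (a0 + a1 * 2 ^ 80 + a2 * 2 ^ 160 + a3 * 2 ^ 240 + a4 * 2 ^ 320 + a5 * 2 ^ 400)
      (rpk b0 b1 b2 b3 b4 b5) =
      a0 * b0 + a1 * b1 + a2 * b2 + a3 * b3 + a4 * b4 + a5 * b5 := by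
  have h1 := dot_aux (2 ^ 80) a0 a1 a2 a3 a4 a5 b0 b1 b2 b3 b4 b5 (by positivity) h
  have h2 : dotp (a0 + a1 * 2 ^ 80 + a2 * 2 ^ 160 + a3 * 2 ^ 240 + a4 * 2 ^ 320 + a5 * 2 ^ 400)
      (rpk b0 b1 b2 b3 b4 b5) =
      ((a0 + a1 * 2 ^ 80 + a2 * 2 ^ 160 + a3 * 2 ^ 240 + a4 * 2 ^ 320 + a5 * 2 ^ 400) *
      (rpk b0 b1 b2 b3 b4 b5)) / 2 ^ 400 % 2 ^ 80 := by
    have e1 : ∀ a b : ℕ, dotp a b = (Nat.shiftRight (a * b) 400) % 1208925819614629174706176 :=
      fun a b => rfl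
    have e2 : ∀ a : ℕ, Nat.shiftRight a 400 = a / 2 ^ 400 :=
      fun a => Nat.shiftRight_eq_div_pow a 400
    rw [e1, e2]
    norm_num
  have h3 : rpk b0 b1 b2 b3 b4 b5 = b0 * (2 ^ 80) ^ 5 + b1 * (2 ^ 80) ^ 4 + b2 * (2 ^ 80) ^ 3 +
      b3 * (2 ^ 80) ^ 2 + b4 * 2 ^ 80 + b5 := by
    have e1 : rpk b0 b1 b2 b3 b4 b5 = (b0 * 2582249878086908589655919172003011874329705792829223512830659356540647622016841194629645353280137831435903171972747493376 +
      b1 * 2135987035920910082395021706169552114602704522356652769947041607822219725780640550022962086936576 +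
      b2 * 1766847064778384329583297500742918515827483896875618958121606201292619776) +
      (b3 * 1461501637330902918203684832716283019655932542976 + (b4 * 1208925819614629174706176 + b5)) := rfl
    rw [e1]
    norm_num
    ring
  rw [h2, h3]
  have e4 : (a0 + a1 * 2 ^ 80 + a2 * 2 ^ 160 + a3 * 2 ^ 240 + a4 * 2 ^ 320 + a5 * 2 ^ 400) =
    (a0 + a1 * 2 ^ 80 + a2 * (2 ^ 80) ^ 2 + a3 * (2 ^ 80) ^ 3 + a4 * (2 ^ 80) ^ 4 +
      a5 * (2 ^ 80) ^ 5) := by
    norm_num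
  have e5 : (2 : ℕ) ^ 400 = (2 ^ 80) ^ 5 := by norm_num
  rw [e4]
  rw [e5]
  exact h1

/-! ### Coefficients of vectors -/

/-- coefficient of `p` -/
def co0 (x : Z3) : ℕ := x.1.natAbs ^ 2
/-- coefficient of `q` -/
def co1 (x : Z3) : ℕ := (x.2.1 - x.2.2).natAbs ^ 2
/-- coefficient of `r1` -/
def co2 (x : Z3) : ℕ := x.2.1.natAbs ^ 2
/-- coefficient of `r2` -/
def co3 (x : Z3) : ℕ := x.2.2.natAbs ^ 2
/-- coefficient of `r3` -/
def co4 (x : Z3) : ℕ := (x.1 - x.2.1).natAbs ^ 2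
/-- coefficient of `r4` -/
def co5 (x : Z3) : ℕ := (x.1 - x.2.2).natAbs ^ 2

theorem natAbs_sq_cast (n : ℤ) : ((n.natAbs ^ 2 : ℕ) : ℝ) = (n : ℝ) ^ 2 := by
  have h : ((n.natAbs : ℕ) : ℝ) = |(n : ℝ)| := by
    rw [Nat.cast_natAbs]
    push_cast
    rfl
  push_cast
  rw [h, sq_abs]

theorem frm_eq (ρ : Rho) (x : Z3) : frm ρ x = (co0 x : ℝ) * ρ.p + (co1 x : ℝ) * ρ.q +
    (co2 x : ℝ) * ρ.r1 + (co3 x : ℝ) * ρ.r2 + (co4 x : ℝ) * ρ.r3 + (co5 x : ℝ) * ρ.r4 := by
  unfold frm co0 co1 co2 co3 co4 co5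
  rw [natAbs_sq_cast, natAbs_sq_cast, natAbs_sq_cast, natAbs_sq_cast, natAbs_sq_cast,
    natAbs_sq_cast]
  push_cast
  ring

/-- packed coefficients -/
def pc (x : Z3) : ℕ := co0 x + co1 x * 2 ^ 80 + co2 x * 2 ^ 160 + co3 x * 2 ^ 240 + co4 x * 2 ^ 320 +
  co5 x * 2 ^ 400

/-- the 32 short vectors -/
def SV : List Z3 := [(0, 0, 1), (0, 1, 0), (1, 0, 0), (1, 1, 1), (0, 1, 1), (1, 0, 1), (1, 1, 0),
  (0, 1, -1), (1, -1, 0), (1, 0, -1), (1, 1, 2), (1, 2, 1), (2, 1, 1), (0, 1, 2), (0, 2, 1),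
  (1, -1, -1), (1, -1, 1), (1, 0, 2), (1, 1, -1), (1, 2, 0), (1, 2, 2), (2, 0, 1), (2, 1, 0),
  (2, 1, 2), (2, 2, 1), (0, 0, 2), (0, 2, 0), (2, 0, 0), (2, 2, 2), (0, 2, 2), (2, 0, 2),
  (2, 2, 0)]

theorem SL_eq : SL = SV.map pc := by decide +kernel

theorem SV_coef : ∀ x ∈ SV, co0 x + co1 x + co2 x + co3 x + co4 x + co5 x ≤ 16 := by decide +kernel

theorem SV_length : SV.length = 32 := rfl

/-- negation -/
def ng (x : Z3) : Z3 := (-x.1, -x.2.1, -x.2.2)

theorem SV_nodup : ((0, 0, 0) :: (SV ++ SV.map ng)).Nodup := by decide +kernel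

theorem frm_ng (ρ : Rho) (x : Z3) : frm ρ (ng x) = frm ρ x := by
  unfold frm ng
  push_cast
  ring

/-- partial sums are lower bounds -/
theorem Th_ge {ρ : Rho} (hs : Summable (fun x : Z3 => Real.exp (-(frm ρ x)))) {l : List Z3}
    (hl : l.Sublist SV) : 1 + 2 * (l.map (fun x => Real.exp (-(frm ρ x)))).sum ≤ Th ρ := by
  have hsub : ((0, 0, 0) :: (l ++ l.map ng)).Sublist ((0, 0, 0) :: (SV ++ SV.map ng)) :=
    List.Sublist.cons_cons _ (hl.append (hl.map ng))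
  have hnd := hsub.nodup SV_nodup
  have h := hs.sum_le_tsum ((0, 0, 0) :: (l ++ l.map ng)).toFinset
    (fun x _ => (Real.exp_pos _).le)
  rw [List.sum_toFinset _ hnd] at h
  refine le_trans (le_of_eq ?_) h
  simp only [List.map_cons, List.map_append, List.map_map, List.sum_cons, List.sum_append]
  have e0 : frm ρ (0, 0, 0) = 0 := by unfold frm; simp
  rw [e0, neg_zero, Real.exp_zero]
  have e1 : ((fun x => Real.exp (-(frm ρ x))) ∘ ng) = fun x => Real.exp (-(frm ρ x)) := by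
    funext x
    simp only [Function.comp, frm_ng]
  rw [e1]
  ring

/-! ### The weights loop -/

/-- sum over used vectors -/
def su (f : Z3 × ℕ → ℕ) (L : List (Z3 × ℕ)) : ℕ := (L.map f).sum

theorem acc_cons (s cen : ℕ) (k : ℕ → ℕ → ℕ → Bool) (C : ℕ) (l : List ℕ) (n M W A : ℕ) :
    acc s cen k (C :: l) (n + 1) M W A =
      frc (Nat.shiftRight (Nat.mul s (dotp C cen)) (nat_lit 20)) (fun i =>
        bq (Nat.ble (nat_lit 2048) i) (acc s cen k l n M W A)
          (frc (lk i) (fun T => acc s cen k l n (Nat.add M (Nat.mul (Nat.succ T) C)) (Nat.add W T)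
            (Nat.add A (Nat.mul T (Nat.add (nat_lit 128) i)))))) := rfl

theorem acc_sound (s cen : ℕ) (k : ℕ → ℕ → ℕ → Bool) : ∀ (l : List Z3) (n M W A : ℕ),
    acc s cen k (l.map pc) n M W A = true →
    ∃ L : List (Z3 × ℕ), (L.map Prod.fst).Sublist l ∧ (∀ e ∈ L, e.2 < 2048) ∧
      k (M + su (fun e => (lk e.2 + 1) * pc e.1) L) (W + su (fun e => lk e.2) L)
        (A + su (fun e => lk e.2 * (128 + e.2)) L) = true := by
  intro l
  induction l with
  | nil =>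
    intro n M W A h
    exact ⟨[], by simp, by simp, h⟩
  | cons x l ih =>
    intro n M W A h
    cases n with
    | zero => exact ⟨[], by simp, by simp, h⟩
    | succ n =>
      rw [List.map_cons, acc_cons, frc_eq, bq_true] at h
      rcases h with ⟨_, h⟩ | ⟨hi, h⟩
      · obtain ⟨L, h1, h2, h3⟩ := ih n M W A h
        exact ⟨L, h1.cons x, h2, h3⟩
      · rw [frc_eq] at h
        obtain ⟨L, h1, h2, h3⟩ := ih n _ _ _ h
        set i := Nat.shiftRight (Nat.mul s (dotp (pc x) cen)) (nat_lit 20) with hidef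
        have hi' : i < 2048 := by
          by_contra hcon
          have : Nat.ble 2048 i = true := Nat.ble_eq_true_of_le (by omega)
          rw [this] at hi
          exact absurd hi (by decide)
        refine ⟨(x, i) :: L, ?_, ?_, ?_⟩
        · rw [List.map_cons]
          exact h1.cons_cons x
        · intro e he
          rcases List.mem_cons.mp he with rfl | he
          · exact hi'
          · exact h2 e he
        · have e1 : M + su (fun e => (lk e.2 + 1) * pc e.1) ((x, i) :: L) =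
              Nat.add M (Nat.mul (Nat.succ (lk i)) (pc x)) +
                su (fun e => (lk e.2 + 1) * pc e.1) L := by
            have : Nat.add M (Nat.mul (Nat.succ (lk i)) (pc x)) = M + (lk i + 1) * pc x := rfl
            rw [this]
            simp only [su, List.map_cons, List.sum_cons]
            ring
          have e2 : W + su (fun e => lk e.2) ((x, i) :: L) = Nat.add W (lk i) +
              su (fun e => lk e.2) L := by
            have : Nat.add W (lk i) = W + lk i := rfl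
            rw [this]
            simp only [su, List.map_cons, List.sum_cons]
            ring
          have e3 : A + su (fun e => lk e.2 * (128 + e.2)) ((x, i) :: L) =
              Nat.add A (Nat.mul (lk i) (Nat.add (nat_lit 128) i)) +
                su (fun e => lk e.2 * (128 + e.2)) L := by
            have : Nat.add A (Nat.mul (lk i) (Nat.add (nat_lit 128) i)) =
              A + lk i * (128 + i) := rfl
            rw [this]
            simp only [su, List.map_cons, List.sum_cons]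
            ring
          rw [e1, e2, e3]
          exact h3

theorem su_pc (L : List (Z3 × ℕ)) : su (fun e => (lk e.2 + 1) * pc e.1) L =
    su (fun e => (lk e.2 + 1) * co0 e.1) L + su (fun e => (lk e.2 + 1) * co1 e.1) L * 2 ^ 80 +
    su (fun e => (lk e.2 + 1) * co2 e.1) L * 2 ^ 160 +
    su (fun e => (lk e.2 + 1) * co3 e.1) L * 2 ^ 240 +
    su (fun e => (lk e.2 + 1) * co4 e.1) L * 2 ^ 320 +
    su (fun e => (lk e.2 + 1) * co5 e.1) L * 2 ^ 400 := by
  induction L with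
  | nil => simp [su]
  | cons e L ih =>
    simp only [su, List.map_cons, List.sum_cons] at ih ⊢
    rw [ih]
    unfold pc
    ring

end Theta3
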