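import Pool.Agent.H98.Theta3.SoundB

set_option autoImplicit false
set_option maxRecDepth 100000
set_option exponentiation.threshold 2000

/-!
# Soundness of the checker, part C: vertices of a box
-/

namespace Theta3

/-- determinant with `r1 = 4096` -/
def detN (p q r2 r3 r4 : ℕ) : ℕ :=
  p * (q * ((4096 + r2) + (r3 + r4)) + (4096 + r3) * (r2 + r4)) +
    (q * ((4096 + r2) * (r3 + r4)) + (4096 * r2 * (r3 + r4) + r3 * r4 * (4096 + r2)))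

/-- a vertex -/
noncomputable def vtx (p q r2 r3 r4 : ℕ) : ℕ × ℕ := (rpk p q 4096 r2 r3 r4, detN p q r2 r3 r4)

theorem v2_eq (lp hp q r2 r3 r4 : ℕ) (tl : List (ℕ × ℕ)) (k : List (ℕ × ℕ) → Bool) :
    v2 lp hp q (Nat.add (Nat.add (nat_lit 7237005577332262213973186563042994240829374041602535252466099000494570602496)
    (Nat.mul r2 (nat_lit 1461501637330902918203684832716283019655932542976)))
    (Nat.add (Nat.mul r3 (nat_lit 1208925819614629174706176)) r4))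
    (Nat.add (Nat.add (nat_lit 4096) r2) (Nat.add r3 r4))
    (Nat.mul (Nat.add (nat_lit 4096) r3) (Nat.add r2 r4))
    (Nat.mul (Nat.add (nat_lit 4096) r2) (Nat.add r3 r4))
    (Nat.add (Nat.mul (Nat.mul (nat_lit 4096) r2) (Nat.add r3 r4))
    (Nat.mul (Nat.mul r3 r4) (Nat.add (nat_lit 4096) r2))) tl k =
    k (vtx lp q r2 r3 r4 :: vtx hp q r2 r3 r4 :: tl) := by
  unfold v2
  simp only [frc_eq]
  have e : ∀ z : ℕ, Nat.add (Nat.add (Nat.add (Nat.add (nat_lit 7237005577332262213973186563042994240829374041602535252466099000494570602496)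
    (Nat.mul r2 (nat_lit 1461501637330902918203684832716283019655932542976)))
    (Nat.add (Nat.mul r3 (nat_lit 1208925819614629174706176)) r4))
     (Nat.mul q (nat_lit 2135987035920910082395021706169552114602704522356652769947041607822219725780640550022962086936576)))
     (Nat.mul z (nat_lit 2582249878086908589655919172003011874329705792829223512830659356540647622016841194629645353280137831435903171972747493376)) =
    rpk z q 4096 r2 r3 r4 := by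
    intro z
    unfold rpk
    simp only [Nat.add_eq, Nat.mul_eq]
    ring
  have f : ∀ z : ℕ, Nat.add (Nat.mul z (Nat.add (Nat.mul q (Nat.add (Nat.add (nat_lit 4096) r2) (Nat.add r3 r4)))
      (Nat.mul (Nat.add (nat_lit 4096) r3) (Nat.add r2 r4)))) (Nat.add (Nat.mul q (Nat.mul (Nat.add (nat_lit 4096) r2) (Nat.add r3 r4)))
      (Nat.add (Nat.mul (Nat.mul (nat_lit 4096) r2) (Nat.add r3 r4))
    (Nat.mul (Nat.mul r3 r4) (Nat.add (nat_lit 4096) r2)))) = detN z q r2 r3 r4 := by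
    intro z
    rfl
  rw [e, e, f, f]
  rfl

theorem v4_eq (lp hp lq hq r2 r3 r4 : ℕ) (tl : List (ℕ × ℕ)) (k : List (ℕ × ℕ) → Bool) :
    v4 lp hp lq hq r2 r3 r4 tl k =
    k (vtx lp hq r2 r3 r4 :: vtx hp hq r2 r3 r4 :: vtx lp lq r2 r3 r4 :: vtx hp lq r2 r3 r4 ::
      tl) := by
  unfold v4
  simp only [frc_eq]
  rw [v2_eq, v2_eq]

/-- the list of vertices -/
noncomputable def vlist (lp hp lq hq l2 h2 l3 h3 l4 h4 : ℕ) : List (ℕ × ℕ) :=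
  let f := fun r2 r3 r4 (t : List (ℕ × ℕ)) =>
    vtx lp hq r2 r3 r4 :: vtx hp hq r2 r3 r4 :: vtx lp lq r2 r3 r4 :: vtx hp lq r2 r3 r4 :: t
  f h2 h3 h4 (f h2 h3 l4 (f h2 l3 h4 (f h2 l3 l4 (f l2 h3 h4 (f l2 h3 l4 (f l2 l3 h4
    (f l2 l3 l4 [])))))))

theorem v32_eq (lp hp lq hq l2 h2 l3 h3 l4 h4 : ℕ) (k : List (ℕ × ℕ) → Bool) :
    v32 lp hp lq hq l2 h2 l3 h3 l4 h4 k = k (vlist lp hp lq hq l2 h2 l3 h3 l4 h4) := by
  unfold v32 vlist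
  simp only [v4_eq]

theorem vtx_mem (lp hp lq hq l2 h2 l3 h3 l4 h4 : ℕ) {p q r2 r3 r4 : ℕ} (h_p : p = lp ∨ p = hp)
    (h_q : q = lq ∨ q = hq) (h_2 : r2 = l2 ∨ r2 = h2) (h_3 : r3 = l3 ∨ r3 = h3)
    (h_4 : r4 = l4 ∨ r4 = h4) : vtx p q r2 r3 r4 ∈ vlist lp hp lq hq l2 h2 l3 h3 l4 h4 := by
  unfold vlist
  rcases h_p with rfl | rfl <;> rcases h_q with rfl | rfl <;> rcases h_2 with rfl | rfl <;>
    rcases h_3 with rfl | rfl <;> rcases h_4 with rfl | rfl <;>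
    simp only [List.mem_cons, true_or, or_true]

theorem vchk_sound (M Y : ℕ) : ∀ l : List (ℕ × ℕ), vchk M Y l = true →
    ∀ v ∈ l, dotp M v.1 ^ 3 * 2 ^ 62 ≤ Y * v.2 := by
  intro l
  induction l with
  | nil => intro _ v hv; simp at hv
  | cons a l ih =>
    intro h
    have e : vchk M Y (a :: l) = frc (dotp M a.1) (fun X =>
      bq (Nat.ble (Nat.mul (Nat.mul (Nat.mul X X) X) (nat_lit 4611686018427387904))
      (Nat.mul Y a.2)) (vchk M Y l) false) := rfl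
    rw [e, frc_eq, bq_false] at h
    intro v hv
    rcases List.mem_cons.mp hv with rfl | hv
    · have h1 := Nat.le_of_ble_eq_true h.1
      simp only [Nat.mul_eq] at h1
      calc dotp M v.1 ^ 3 * 2 ^ 62 = dotp M v.1 * dotp M v.1 * dotp M v.1 * 4611686018427387904 := by
            ring
        _ ≤ _ := h1
    · exact ih h.2 v hv

/-! ### From the vertices to the box -/

theorem cube_conv {a b x al be ga de : ℝ} (hax : a ≤ x) (hxb : x ≤ b) (ha : 0 ≤ al * a + be)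
    (hb : 0 ≤ al * b + be) (h1 : (al * a + be) ^ 3 ≤ ga * a + de)
    (h2 : (al * b + be) ^ 3 ≤ ga * b + de) : (al * x + be) ^ 3 ≤ ga * x + de := by
  rcases eq_or_lt_of_le (hax.trans hxb) with hab | hab
  · have : x = a := le_antisymm (by linarith) hax
    rw [this]; exact h1
  · set l := (b - x) / (b - a) with hl
    set m := (x - a) / (b - a) with hm
    have hba : 0 < b - a := by linarith
    have hl0 : 0 ≤ l := div_nonneg (by linarith) hba.le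
    have hm0 : 0 ≤ m := div_nonneg (by linarith) hba.le
    have hlm : l + m = 1 := by rw [hl, hm]; field_simp; ring
    have hx : l * a + m * b = x := by rw [hl, hm]; field_simp; ring
    have key := (convexOn_pow 3).2 (Set.mem_Ici.mpr ha) (Set.mem_Ici.mpr hb) hl0 hm0 hlm
    simp only [smul_eq_mul] at key
    have e : l * (al * a + be) + m * (al * b + be) = al * x + be := by
      rw [← hx]; linear_combination be * hlm
    rw [e] at key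
    calc (al * x + be) ^ 3 ≤ _ := key
      _ ≤ l * (ga * a + de) + m * (ga * b + de) :=
        add_le_add (mul_le_mul_of_nonneg_left h1 hl0) (mul_le_mul_of_nonneg_left h2 hm0)
      _ = ga * x + de := by rw [← hx]; linear_combination de * hlm

/-- the inequality at a point -/
def Good (m0 m1 m2 m3 m4 m5 Y : ℝ) (p q r2 r3 r4 : ℝ) : Prop :=
  (m0 * p + m1 * q + m2 * 4096 + m3 * r2 + m4 * r3 + m5 * r4) ^ 3 * 2 ^ 62 ≤
    Y * (p * q * (4096 + r2 + r3 + r4) + p * ((4096 + r3) * (r2 + r4)) +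
    q * ((4096 + r2) * (r3 + r4)) + (4096 * r2 * (r3 + r4) + r3 * r4 * (4096 + r2)))

section
variable {m0 m1 m2 m3 m4 m5 Y a b x p q r2 r3 r4 : ℝ}

theorem good_p (n0 : 0 ≤ m0) (n1 : 0 ≤ m1) (n2 : 0 ≤ m2) (n3 : 0 ≤ m3) (n4 : 0 ≤ m4)
    (n5 : 0 ≤ m5) (ha : 0 ≤ a) (hax : a ≤ x) (hxb : x ≤ b) (hq : 0 ≤ q) (h2 : 0 ≤ r2)
    (h3 : 0 ≤ r3) (h4 : 0 ≤ r4) (g1 : Good m0 m1 m2 m3 m4 m5 Y a q r2 r3 r4)
    (g2 : Good m0 m1 m2 m3 m4 m5 Y b q r2 r3 r4) : Good m0 m1 m2 m3 m4 m5 Y x q r2 r3 r4 := by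
  unfold Good at *
  have hb : 0 ≤ b := by linarith
  have := cube_conv (al := m0) (be := m1 * q + m2 * 4096 + m3 * r2 + m4 * r3 + m5 * r4)
    (ga := Y * (q * (4096 + r2 + r3 + r4) + ((4096 + r3) * (r2 + r4))) / 2 ^ 62)
    (de := Y * (q * ((4096 + r2) * (r3 + r4)) + (4096 * r2 * (r3 + r4) +
      r3 * r4 * (4096 + r2))) / 2 ^ 62) hax hxb (by positivity) (by positivity)
    (by linarith) (by linarith)
  linarith

theorem good_q (n0 : 0 ≤ m0) (n1 : 0 ≤ m1) (n2 : 0 ≤ m2) (n3 : 0 ≤ m3) (n4 : 0 ≤ m4)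
    (n5 : 0 ≤ m5) (ha : 0 ≤ a) (hax : a ≤ x) (hxb : x ≤ b) (hp : 0 ≤ p) (h2 : 0 ≤ r2)
    (h3 : 0 ≤ r3) (h4 : 0 ≤ r4) (g1 : Good m0 m1 m2 m3 m4 m5 Y p a r2 r3 r4)
    (g2 : Good m0 m1 m2 m3 m4 m5 Y p b r2 r3 r4) : Good m0 m1 m2 m3 m4 m5 Y p x r2 r3 r4 := by
  unfold Good at *
  have hb : 0 ≤ b := by linarith
  have := cube_conv (al := m1) (be := m0 * p + m2 * 4096 + m3 * r2 + m4 * r3 + m5 * r4)
    (ga := Y * (p * (4096 + r2 + r3 + r4) + ((4096 + r2) * (r3 + r4))) / 2 ^ 62)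
    (de := Y * (p * ((4096 + r3) * (r2 + r4)) + (4096 * r2 * (r3 + r4) +
      r3 * r4 * (4096 + r2))) / 2 ^ 62) hax hxb (by positivity) (by positivity)
    (by linarith) (by linarith)
  linarith

theorem good_2 (n0 : 0 ≤ m0) (n1 : 0 ≤ m1) (n2 : 0 ≤ m2) (n3 : 0 ≤ m3) (n4 : 0 ≤ m4)
    (n5 : 0 ≤ m5) (ha : 0 ≤ a) (hax : a ≤ x) (hxb : x ≤ b) (hp : 0 ≤ p) (hq : 0 ≤ q)
    (h3 : 0 ≤ r3) (h4 : 0 ≤ r4) (g1 : Good m0 m1 m2 m3 m4 m5 Y p q a r3 r4)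
    (g2 : Good m0 m1 m2 m3 m4 m5 Y p q b r3 r4) : Good m0 m1 m2 m3 m4 m5 Y p q x r3 r4 := by
  unfold Good at *
  have hb : 0 ≤ b := by linarith
  have := cube_conv (al := m3) (be := m0 * p + m1 * q + m2 * 4096 + m4 * r3 + m5 * r4)
    (ga := Y * (p * q + p * (4096 + r3) + q * (r3 + r4) + (4096 * (r3 + r4) + r3 * r4)) / 2 ^ 62)
    (de := Y * (p * q * (4096 + r3 + r4) + p * ((4096 + r3) * r4) + q * (4096 * (r3 + r4)) +
      r3 * r4 * 4096) / 2 ^ 62) hax hxb (by positivity) (by positivity)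
    (by linarith) (by linarith)
  linarith

theorem good_3 (n0 : 0 ≤ m0) (n1 : 0 ≤ m1) (n2 : 0 ≤ m2) (n3 : 0 ≤ m3) (n4 : 0 ≤ m4)
    (n5 : 0 ≤ m5) (ha : 0 ≤ a) (hax : a ≤ x) (hxb : x ≤ b) (hp : 0 ≤ p) (hq : 0 ≤ q)
    (h2 : 0 ≤ r2) (h4 : 0 ≤ r4) (g1 : Good m0 m1 m2 m3 m4 m5 Y p q r2 a r4)
    (g2 : Good m0 m1 m2 m3 m4 m5 Y p q r2 b r4) : Good m0 m1 m2 m3 m4 m5 Y p q r2 x r4 := by
  unfold Good at *
  have hb : 0 ≤ b := by linarith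
  have := cube_conv (al := m4) (be := m0 * p + m1 * q + m2 * 4096 + m3 * r2 + m5 * r4)
    (ga := Y * (p * q + p * (r2 + r4) + q * (4096 + r2) + (4096 * r2 + r4 * (4096 + r2))) / 2 ^ 62)
    (de := Y * (p * q * (4096 + r2 + r4) + p * (4096 * (r2 + r4)) + q * ((4096 + r2) * r4) +
      4096 * r2 * r4) / 2 ^ 62) hax hxb (by positivity) (by positivity)
    (by linarith) (by linarith)
  linarith

theorem good_4 (n0 : 0 ≤ m0) (n1 : 0 ≤ m1) (n2 : 0 ≤ m2) (n3 : 0 ≤ m3) (n4 : 0 ≤ m4)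
    (n5 : 0 ≤ m5) (ha : 0 ≤ a) (hax : a ≤ x) (hxb : x ≤ b) (hp : 0 ≤ p) (hq : 0 ≤ q)
    (h2 : 0 ≤ r2) (h3 : 0 ≤ r3) (g1 : Good m0 m1 m2 m3 m4 m5 Y p q r2 r3 a)
    (g2 : Good m0 m1 m2 m3 m4 m5 Y p q r2 r3 b) : Good m0 m1 m2 m3 m4 m5 Y p q r2 r3 x := by
  unfold Good at *
  have hb : 0 ≤ b := by linarith
  have := cube_conv (al := m5) (be := m0 * p + m1 * q + m2 * 4096 + m3 * r2 + m4 * r3)
    (ga := Y * (p * q + p * (4096 + r3) + q * (4096 + r2) + (4096 * r2 + r3 * (4096 + r2))) /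
      2 ^ 62)
    (de := Y * (p * q * (4096 + r2 + r3) + p * ((4096 + r3) * r2) + q * ((4096 + r2) * r3) +
      4096 * r2 * r3) / 2 ^ 62) hax hxb (by positivity) (by positivity)
    (by linarith) (by linarith)
  linarith

end

/-- a box -/
structure InBox (lp hp lq hq l2 h2 l3 h3 l4 h4 : ℕ) (p q r2 r3 r4 : ℝ) : Prop where
  /-- bound -/
  p1 : (lp : ℝ) ≤ p
  /-- bound -/
  p2 : p ≤ (hp : ℝ)
  /-- bound -/
  q1 : (lq : ℝ) ≤ q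
  /-- bound -/
  q2 : q ≤ (hq : ℝ)
  /-- bound -/
  b1 : (l2 : ℝ) ≤ r2
  /-- bound -/
  b2 : r2 ≤ (h2 : ℝ)
  /-- bound -/
  c1 : (l3 : ℝ) ≤ r3
  /-- bound -/
  c2 : r3 ≤ (h3 : ℝ)
  /-- bound -/
  d1 : (l4 : ℝ) ≤ r4
  /-- bound -/
  d2 : r4 ≤ (h4 : ℝ)

theorem good_box {m0 m1 m2 m3 m4 m5 Y : ℕ} {lp hp lq hq l2 h2 l3 h3 l4 h4 : ℕ}
    {p q r2 r3 r4 : ℝ} (hbox : InBox lp hp lq hq l2 h2 l3 h3 l4 h4 p q r2 r3 r4)
    (hv : ∀ vp vq v2 v3 v4 : ℕ, (vp = lp ∨ vp = hp) → (vq = lq ∨ vq = hq) → (v2 = l2 ∨ v2 = h2) →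
      (v3 = l3 ∨ v3 = h3) → (v4 = l4 ∨ v4 = h4) → Good m0 m1 m2 m3 m4 m5 Y vp vq v2 v3 v4) :
    Good m0 m1 m2 m3 m4 m5 Y p q r2 r3 r4 := by
  obtain ⟨p1, p2, q1, q2, b1, b2, c1, c2, d1, d2⟩ := hbox
  have n0 : (0 : ℝ) ≤ m0 := Nat.cast_nonneg _
  have n1 : (0 : ℝ) ≤ m1 := Nat.cast_nonneg _
  have n2 : (0 : ℝ) ≤ m2 := Nat.cast_nonneg _
  have n3 : (0 : ℝ) ≤ m3 := Nat.cast_nonneg _
  have n4 : (0 : ℝ) ≤ m4 := Nat.cast_nonneg _
  have n5 : (0 : ℝ) ≤ m5 := Nat.cast_nonneg _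
  have g : ∀ n : ℕ, (0 : ℝ) ≤ n := fun n => Nat.cast_nonneg _
  have hp0 : 0 ≤ p := (g lp).trans p1
  have hq0 : 0 ≤ q := (g lq).trans q1
  have h20 : 0 ≤ r2 := (g l2).trans b1
  have h30 : 0 ≤ r3 := (g l3).trans c1
  -- step 1
  have s1 : ∀ vq v2 v3 v4 : ℕ, (vq = lq ∨ vq = hq) → (v2 = l2 ∨ v2 = h2) →
      (v3 = l3 ∨ v3 = h3) → (v4 = l4 ∨ v4 = h4) → Good m0 m1 m2 m3 m4 m5 Y p vq v2 v3 v4 := by
    intro vq v2 v3 v4 e1 e2 e3 e4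
    exact good_p n0 n1 n2 n3 n4 n5 (g lp) p1 p2 (g _) (g _) (g _) (g _)
      (hv lp vq v2 v3 v4 (Or.inl rfl) e1 e2 e3 e4) (hv hp vq v2 v3 v4 (Or.inr rfl) e1 e2 e3 e4)
  have s2 : ∀ v2 v3 v4 : ℕ, (v2 = l2 ∨ v2 = h2) →
      (v3 = l3 ∨ v3 = h3) → (v4 = l4 ∨ v4 = h4) → Good m0 m1 m2 m3 m4 m5 Y p q v2 v3 v4 := by
    intro v2 v3 v4 e2 e3 e4
    exact good_q n0 n1 n2 n3 n4 n5 (g lq) q1 q2 hp0 (g _) (g _) (g _)
      (s1 lq v2 v3 v4 (Or.inl rfl) e2 e3 e4) (s1 hq v2 v3 v4 (Or.inr rfl) e2 e3 e4)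
  have s3 : ∀ v3 v4 : ℕ,
      (v3 = l3 ∨ v3 = h3) → (v4 = l4 ∨ v4 = h4) → Good m0 m1 m2 m3 m4 m5 Y p q r2 v3 v4 := by
    intro v3 v4 e3 e4
    exact good_2 n0 n1 n2 n3 n4 n5 (g l2) b1 b2 hp0 hq0 (g _) (g _)
      (s2 l2 v3 v4 (Or.inl rfl) e3 e4) (s2 h2 v3 v4 (Or.inr rfl) e3 e4)
  have s4 : ∀ v4 : ℕ, (v4 = l4 ∨ v4 = h4) → Good m0 m1 m2 m3 m4 m5 Y p q r2 r3 v4 := by
    intro v4 e4
    exact good_3 n0 n1 n2 n3 n4 n5 (g l3) c1 c2 hp0 hq0 h20 (g _)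
      (s3 l3 v4 (Or.inl rfl) e4) (s3 h3 v4 (Or.inr rfl) e4)
  exact good_4 n0 n1 n2 n3 n4 n5 (g l4) d1 d2 hp0 hq0 h20 h30 (s4 l4 (Or.inl rfl))
    (s4 h4 (Or.inr rfl))

/-- the vertex inequalities imply the inequality on the box -/
theorem vchk_box {m0 m1 m2 m3 m4 m5 Y : ℕ} {lp hp lq hq l2 h2 l3 h3 l4 h4 : ℕ}
    {p q r2 r3 r4 : ℝ} (hbox : InBox lp hp lq hq l2 h2 l3 h3 l4 h4 p q r2 r3 r4)
    (hm : m0 + m1 + m2 + m3 + m4 + m5 ≤ 2 ^ 57) (hp8 : hp ≤ 8192) (hq8 : hq ≤ 8192)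
    (h28 : h2 ≤ 8192) (h38 : h3 ≤ 8192) (h48 : h4 ≤ 8192)
    (h : vchk (m0 + m1 * 2 ^ 80 + m2 * 2 ^ 160 + m3 * 2 ^ 240 + m4 * 2 ^ 320 + m5 * 2 ^ 400) Y
      (vlist lp hp lq hq l2 h2 l3 h3 l4 h4) = true) :
    Good m0 m1 m2 m3 m4 m5 Y p q r2 r3 r4 := by
  refine good_box hbox ?_
  intro vp vq w2 w3 w4 e0 e1 e2 e3 e4
  have hmem := vtx_mem lp hp lq hq l2 h2 l3 h3 l4 h4 e0 e1 e2 e3 e4
  have hle := vchk_sound _ _ _ h _ hmem
  have lpp : lp ≤ hp := by exact_mod_cast hbox.p1.trans hbox.p2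
  have lqq : lq ≤ hq := by exact_mod_cast hbox.q1.trans hbox.q2
  have l22 : l2 ≤ h2 := by exact_mod_cast hbox.b1.trans hbox.b2
  have l33 : l3 ≤ h3 := by exact_mod_cast hbox.c1.trans hbox.c2
  have l44 : l4 ≤ h4 := by exact_mod_cast hbox.d1.trans hbox.d2
  have hs : vp + vq + 4096 + w2 + w3 + w4 ≤ 2 ^ 16 := by
    have : (2 : ℕ) ^ 16 = 65536 := by norm_num
    omega
  have hlt : (m0 + m1 + m2 + m3 + m4 + m5) * (vp + vq + 4096 + w2 + w3 + w4) < 2 ^ 80 := by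
    calc (m0 + m1 + m2 + m3 + m4 + m5) * (vp + vq + 4096 + w2 + w3 + w4) ≤ 2 ^ 57 * 2 ^ 16 :=
          Nat.mul_le_mul hm hs
      _ < 2 ^ 80 := by norm_num
  have hd := dotp_eq m0 m1 m2 m3 m4 m5 vp vq 4096 w2 w3 w4 hlt
  simp only [vtx] at hle
  rw [hd] at hle
  have hle' : (((m0 * vp + m1 * vq + m2 * 4096 + m3 * w2 + m4 * w3 + m5 * w4) ^ 3 * 2 ^ 62 : ℕ) : ℝ) ≤
    ((Y * detN vp vq w2 w3 w4 : ℕ) : ℝ) := by exact_mod_cast hle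
  unfold Good
  unfold detN at hle'
  push_cast at hle'
  have e62 : (4611686018427387904 : ℝ) = 2 ^ 62 := by norm_num
  rw [e62] at hle'
  refine hle'.trans (le_of_eq ?_)
  ring

end Theta3
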