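import Pool.Agent.H98.Theta3.SoundA
import Pool.Agent.H98.Theta3.SoundC

set_option autoImplicit false
set_option maxRecDepth 100000
set_option exponentiation.threshold 2000

/-!
# Soundness of the checker, part D: tangents, slices, trees
-/

namespace Theta3

/-! ### Tangents -/

/-- the weight with index `i` -/
noncomputable def wgt (i : ℕ) : ℝ := Real.exp (-((i : ℝ) / 128))

theorem tangent (L : List (Z3 × ℕ)) (P : Z3 → ℝ) (cc Y : ℝ) :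
    Real.exp (cc - Y) * ((L.map (fun e => wgt e.2 * (1 + (e.2 : ℝ) / 128))).sum -
      cc * (L.map (fun e => wgt e.2)).sum + (Y * (L.map (fun e => wgt e.2)).sum -
      (L.map (fun e => wgt e.2 * P e.1)).sum)) ≤ (L.map (fun e => Real.exp (-(P e.1)))).sum := by
  induction L with
  | nil => simp
  | cons e L ih =>
    simp only [List.map_cons, List.sum_cons]
    have h1 : Real.exp (cc - Y) * (wgt e.2 * (1 + (e.2 : ℝ) / 128 - cc + Y - P e.1)) ≤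
        Real.exp (-(P e.1)) := by
      have h2 : Real.exp (-(P e.1)) = Real.exp (cc - Y) * (wgt e.2 *
          Real.exp ((e.2 : ℝ) / 128 - cc + Y - P e.1)) := by
        unfold wgt
        rw [← Real.exp_add, ← Real.exp_add]
        congr 1
        ring
      rw [h2]
      have h3 := Real.add_one_le_exp ((e.2 : ℝ) / 128 - cc + Y - P e.1)
      have h4 : 0 ≤ wgt e.2 := (Real.exp_pos _).le
      have h5 : 0 ≤ Real.exp (cc - Y) := (Real.exp_pos _).le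
      refine mul_le_mul_of_nonneg_left (mul_le_mul_of_nonneg_left (by linarith) h4) h5
    linarith [h1, ih]

theorem sum_A (L : List (Z3 × ℕ)) (hL : ∀ e ∈ L, e.2 < 2048) :
    ((su (fun e => lk e.2 * (128 + e.2)) L : ℕ) : ℝ) ≤
      2 ^ 47 * (L.map (fun e => wgt e.2 * (1 + (e.2 : ℝ) / 128))).sum := by
  induction L with
  | nil => simp [su]
  | cons e L ih =>
    have h1 := ih (fun e he => hL e (List.mem_cons_of_mem _ he))
    have h2 := (lk_bounds (hL e List.mem_cons_self)).1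
    unfold su at h1 ⊢
    simp only [List.map_cons, List.sum_cons]
    push_cast
    have h3 : (lk e.2 : ℝ) * (128 + (e.2 : ℝ)) ≤ 2 ^ 47 * (wgt e.2 * (1 + (e.2 : ℝ) / 128)) := by
      calc (lk e.2 : ℝ) * (128 + (e.2 : ℝ)) ≤
          (1099511627776 * Real.exp (-((e.2 : ℝ) / 128))) * (128 + (e.2 : ℝ)) :=
            mul_le_mul_of_nonneg_right h2 (by positivity)
        _ = _ := by unfold wgt; ring
    push_cast at h1
    linarith

theorem sum_W (L : List (Z3 × ℕ)) (hL : ∀ e ∈ L, e.2 < 2048) :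
    ((su (fun e => lk e.2) L : ℕ) : ℝ) ≤ 2 ^ 40 * (L.map (fun e => wgt e.2)).sum ∧
    2 ^ 40 * (L.map (fun e => wgt e.2)).sum ≤ ((su (fun e => lk e.2) L : ℕ) : ℝ) + L.length := by
  induction L with
  | nil => simp [su]
  | cons e L ih =>
    obtain ⟨h1, h1'⟩ := ih (fun e he => hL e (List.mem_cons_of_mem _ he))
    obtain ⟨h2, h2'⟩ := lk_bounds (hL e List.mem_cons_self)
    unfold su at h1 h1' ⊢
    simp only [List.map_cons, List.sum_cons, List.length_cons]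
    rw [Nat.cast_add, Nat.cast_succ]
    have e40 : (1099511627776 : ℝ) = 2 ^ 40 := by norm_num
    have h3 : (lk e.2 : ℝ) ≤ 2 ^ 40 * wgt e.2 := by rw [← e40]; exact h2
    have h3' : 2 ^ 40 * wgt e.2 ≤ (lk e.2 : ℝ) + 1 := by rw [← e40]; exact h2'
    constructor <;> linarith

theorem frm_nonneg {ρ : Rho} (h0 : 0 ≤ ρ.p) (h1 : 0 ≤ ρ.q) (h2 : 0 ≤ ρ.r1) (h3 : 0 ≤ ρ.r2)
    (h4 : 0 ≤ ρ.r3) (h5 : 0 ≤ ρ.r4) (x : Z3) : 0 ≤ frm ρ x := by
  unfold frm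
  positivity

theorem sum_P (ρ : Rho) (h0 : 0 ≤ ρ.p) (h1 : 0 ≤ ρ.q) (h2 : 0 ≤ ρ.r1) (h3 : 0 ≤ ρ.r2)
    (h4 : 0 ≤ ρ.r3) (h5 : 0 ≤ ρ.r4) (L : List (Z3 × ℕ)) (hL : ∀ e ∈ L, e.2 < 2048) :
    2 ^ 40 * (L.map (fun e => wgt e.2 * frm ρ e.1)).sum ≤
      ((su (fun e => (lk e.2 + 1) * co0 e.1) L : ℕ) : ℝ) * ρ.p +
      ((su (fun e => (lk e.2 + 1) * co1 e.1) L : ℕ) : ℝ) * ρ.q +
      ((su (fun e => (lk e.2 + 1) * co2 e.1) L : ℕ) : ℝ) * ρ.r1 +
      ((su (fun e => (lk e.2 + 1) * co3 e.1) L : ℕ) : ℝ) * ρ.r2 +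
      ((su (fun e => (lk e.2 + 1) * co4 e.1) L : ℕ) : ℝ) * ρ.r3 +
      ((su (fun e => (lk e.2 + 1) * co5 e.1) L : ℕ) : ℝ) * ρ.r4 := by
  induction L with
  | nil => simp [su]
  | cons e L ih =>
    have ih' := ih (fun e he => hL e (List.mem_cons_of_mem _ he))
    obtain ⟨_, g⟩ := lk_bounds (hL e List.mem_cons_self)
    have hf := frm_nonneg h0 h1 h2 h3 h4 h5 e.1
    have key : 2 ^ 40 * (wgt e.2 * frm ρ e.1) ≤ ((lk e.2 : ℝ) + 1) * frm ρ e.1 := by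
      have : 2 ^ 40 * (wgt e.2 * frm ρ e.1) = (1099511627776 * Real.exp (-((e.2 : ℝ) / 128))) *
          frm ρ e.1 := by unfold wgt; ring
      rw [this]
      exact mul_le_mul_of_nonneg_right g hf
    rw [frm_eq] at key
    unfold su at ih' ⊢
    simp only [List.map_cons, List.sum_cons]
    push_cast at ih' ⊢
    rw [frm_eq] at *
    linarith

theorem su_coef (L : List (Z3 × ℕ)) (hL : ∀ e ∈ L, e.1 ∈ SV) :
    su (fun e => (lk e.2 + 1) * co0 e.1) L + su (fun e => (lk e.2 + 1) * co1 e.1) L +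
    su (fun e => (lk e.2 + 1) * co2 e.1) L + su (fun e => (lk e.2 + 1) * co3 e.1) L +
    su (fun e => (lk e.2 + 1) * co4 e.1) L + su (fun e => (lk e.2 + 1) * co5 e.1) L ≤
    L.length * 2 ^ 52 := by
  induction L with
  | nil => simp [su]
  | cons e L ih =>
    have ih' := ih (fun e he => hL e (List.mem_cons_of_mem _ he))
    have h1 := SV_coef e.1 (hL e List.mem_cons_self)
    have h2 := lk_lt e.2
    have h3 : (lk e.2 + 1) * (co0 e.1 + co1 e.1 + co2 e.1 + co3 e.1 + co4 e.1 + co5 e.1) ≤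
        2 ^ 48 * 16 := Nat.mul_le_mul (by norm_num; omega) h1
    unfold su at ih' ⊢
    simp only [List.map_cons, List.sum_cons, List.length_cons]
    have el : (L.length + 1) * 2 ^ 52 = L.length * 2 ^ 52 + 2 ^ 52 := by ring
    rw [el]
    have e52 : (2 : ℕ) ^ 48 * 16 = 2 ^ 52 := by norm_num
    rw [e52] at h3
    have e3 : (lk e.2 + 1) * (co0 e.1 + co1 e.1 + co2 e.1 + co3 e.1 + co4 e.1 + co5 e.1) =
      (lk e.2 + 1) * co0 e.1 + (lk e.2 + 1) * co1 e.1 + (lk e.2 + 1) * co2 e.1 +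
      (lk e.2 + 1) * co3 e.1 + (lk e.2 + 1) * co4 e.1 + (lk e.2 + 1) * co5 e.1 := by ring
    rw [e3] at h3
    obtain ⟨Z, hZ⟩ : ∃ Z : ℕ, Z = 2 ^ 52 := ⟨_, rfl⟩
    rw [← hZ] at h3 ih' ⊢
    clear h2 hZ
    linarith

/-- the hypotheses on the form -/
structure Ctx (ρ : Rho) (t : ℝ) : Prop where
  /-- nonnegativity -/
  p0 : 0 ≤ ρ.p
  /-- nonnegativity -/
  q0 : 0 ≤ ρ.q
  /-- positivity -/
  r10 : 0 < ρ.r1
  /-- nonnegativity -/
  r20 : 0 ≤ ρ.r2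
  /-- nonnegativity -/
  r30 : 0 ≤ ρ.r3
  /-- nonnegativity -/
  r40 : 0 ≤ ρ.r4
  /-- the parameter is large -/
  t0 : 2026 / 1024 ≤ t
  /-- normalisation of the determinant -/
  hdt : dt ρ = 4 * t ^ 3
  /-- convergence -/
  hs : Summable (fun x : Z3 => Real.exp (-(frm ρ x)))

theorem good_conv {ρ : Rho} {t : ℝ} (C : Ctx ρ t) {m0 m1 m2 m3 m4 m5 : ℕ} {h W : ℕ}
    (hg : Good m0 m1 m2 m3 m4 m5 (((h * W) ^ 3 : ℕ) : ℝ) (4096 * ρ.p / ρ.r1) (4096 * ρ.q / ρ.r1)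
      (4096 * ρ.r2 / ρ.r1) (4096 * ρ.r3 / ρ.r1) (4096 * ρ.r4 / ρ.r1)) :
    (m0 : ℝ) * ρ.p + m1 * ρ.q + m2 * ρ.r1 + m3 * ρ.r2 + m4 * ρ.r3 + m5 * ρ.r4 ≤
      (h : ℝ) / 2 ^ 20 * t * W := by
  obtain ⟨p0, q0, r10, r20, r30, r40, t0, hdt, _⟩ := C
  unfold Good at hg
  set lam := 4096 / ρ.r1 with hlam
  have hl : 0 < lam := by positivity
  have hr : (4096 : ℝ) = lam * ρ.r1 := by rw [hlam]; field_simp
  have e1 : 4096 * ρ.p / ρ.r1 = lam * ρ.p := by rw [hlam]; ring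
  have e2 : 4096 * ρ.q / ρ.r1 = lam * ρ.q := by rw [hlam]; ring
  have e3 : 4096 * ρ.r2 / ρ.r1 = lam * ρ.r2 := by rw [hlam]; ring
  have e4 : 4096 * ρ.r3 / ρ.r1 = lam * ρ.r3 := by rw [hlam]; ring
  have e5 : 4096 * ρ.r4 / ρ.r1 = lam * ρ.r4 := by rw [hlam]; ring
  rw [e1, e2, e3, e4, e5, hr] at hg
  set X := (m0 : ℝ) * ρ.p + m1 * ρ.q + m2 * ρ.r1 + m3 * ρ.r2 + m4 * ρ.r3 + m5 * ρ.r4 with hX
  have f1 : ((m0 : ℝ) * (lam * ρ.p) + m1 * (lam * ρ.q) + m2 * (lam * ρ.r1) + m3 * (lam * ρ.r2) +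
      m4 * (lam * ρ.r3) + m5 * (lam * ρ.r4)) = lam * X := by rw [hX]; ring
  have f2 : (lam * ρ.p * (lam * ρ.q) * (lam * ρ.r1 + lam * ρ.r2 + lam * ρ.r3 + lam * ρ.r4) +
      lam * ρ.p * ((lam * ρ.r1 + lam * ρ.r3) * (lam * ρ.r2 + lam * ρ.r4)) +
      lam * ρ.q * ((lam * ρ.r1 + lam * ρ.r2) * (lam * ρ.r3 + lam * ρ.r4)) +
      (lam * ρ.r1 * (lam * ρ.r2) * (lam * ρ.r3 + lam * ρ.r4) +
        lam * ρ.r3 * (lam * ρ.r4) * (lam * ρ.r1 + lam * ρ.r2))) = lam ^ 3 * (4 * t ^ 3) := by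
    rw [← hdt]; unfold dt; ring
  rw [f1, f2] at hg
  push_cast at hg
  have g1 : X ^ 3 ≤ ((h : ℝ) / 2 ^ 20 * t * W) ^ 3 := by
    have h3 : 0 < lam ^ 3 * 2 ^ 62 := by positivity
    have h4 : lam ^ 3 * 2 ^ 62 * X ^ 3 ≤ lam ^ 3 * 2 ^ 62 * ((h : ℝ) / 2 ^ 20 * t * W) ^ 3 := by
      calc lam ^ 3 * 2 ^ 62 * X ^ 3 = (lam * X) ^ 3 * 2 ^ 62 := by ring
        _ ≤ _ := hg
        _ = _ := by ring
    exact le_of_mul_le_mul_left h4 h3
  have t1 : 0 ≤ t := by linarith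
  have hY : 0 ≤ (h : ℝ) / 2 ^ 20 * t * W := by positivity
  exact le_of_pow_le_pow_left₀ (by norm_num) hY g1

/-- soundness of one tangent -/
theorem pair_sound {ρ : Rho} {t : ℝ} (C : Ctx ρ t) {lp hp lq hq l2 h2 l3 h3 l4 h4 : ℕ}
    (hbox : InBox lp hp lq hq l2 h2 l3 h3 l4 h4 (4096 * ρ.p / ρ.r1) (4096 * ρ.q / ρ.r1)
      (4096 * ρ.r2 / ρ.r1) (4096 * ρ.r3 / ρ.r1) (4096 * ρ.r4 / ρ.r1))
    (hp8 : hp ≤ 8192) (hq8 : hq ≤ 8192)
    (h28 : h2 ≤ 8192) (h38 : h3 ≤ 8192) (h48 : h4 ≤ 8192) {cen n s c h : ℕ} {fin : ℕ → Bool}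
    (hpair : pairOK (vlist lp hp lq hq l2 h2 l3 h3 l4 h4) cen n s c h fin = true) :
    ∃ K : ℕ, fin K = true ∧
      1 + 2 * (Real.exp ((c : ℝ) / 128 - (h : ℝ) / 2 ^ 20 * t) * ((K : ℝ) / 2 ^ 47)) ≤ Th ρ := by
  unfold pairOK at hpair
  rw [SL_eq] at hpair
  obtain ⟨L, hsub, hL, hk⟩ := acc_sound _ _ _ _ _ _ _ _ hpair
  simp only [frc_eq] at hk
  rw [bq_false] at hk
  obtain ⟨hK, hk⟩ := hk
  rw [bq_false] at hk
  obtain ⟨hv, hfin⟩ := hk
  have z0 : ∀ n : ℕ, nat_lit 0 + n = n := fun n => Nat.zero_add n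
  rw [z0, z0] at hK hfin
  rw [z0, z0] at hv
  have hL2 : ∀ e ∈ L, e.1 ∈ SV := fun e he => hsub.subset (List.mem_map_of_mem he)
  have hlen : L.length ≤ 32 := by
    have := hsub.length_le
    rw [List.length_map, SV_length] at this
    exact this
  set A := su (fun e => lk e.2 * (128 + e.2)) L with hA
  set W := su (fun e => lk e.2) L with hW
  have hK' : 1 ≤ A - c * (W + 32) := Nat.le_of_ble_eq_true hK
  have eK : Nat.sub A (Nat.mul c (Nat.add W (nat_lit 32))) = A - c * (W + 32) := rfl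
  rw [eK] at hfin
  refine ⟨A - c * (W + 32), hfin, ?_⟩
  -- vertices
  rw [su_pc] at hv
  have eY : Nat.mul (Nat.mul (Nat.mul h W) (Nat.mul h W)) (Nat.mul h W) = (h * W) ^ 3 := by
    simp only [Nat.mul_eq]; ring
  rw [eY] at hv
  have hcoef := su_coef L hL2
  have hcoef' : su (fun e => (lk e.2 + 1) * co0 e.1) L + su (fun e => (lk e.2 + 1) * co1 e.1) L +
    su (fun e => (lk e.2 + 1) * co2 e.1) L + su (fun e => (lk e.2 + 1) * co3 e.1) L +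
    su (fun e => (lk e.2 + 1) * co4 e.1) L + su (fun e => (lk e.2 + 1) * co5 e.1) L ≤ 2 ^ 57 := by
    refine hcoef.trans ?_
    calc L.length * 2 ^ 52 ≤ 32 * 2 ^ 52 := Nat.mul_le_mul_right _ hlen
      _ = 2 ^ 57 := by norm_num
  have hg := vchk_box hbox hcoef' hp8 hq8 h28 h38 h48 hv
  have hX := good_conv C hg
  have hP := sum_P ρ C.p0 C.q0 C.r10.le C.r20 C.r30 C.r40 L hL
  have hT := tangent L (frm ρ) ((c : ℝ) / 128) ((h : ℝ) / 2 ^ 20 * t)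
  have hA' := sum_A L hL
  obtain ⟨hW1, hW2⟩ := sum_W L hL
  have hTh := Th_ge C.hs hsub
  rw [List.map_map] at hTh
  have ecomp : ((fun x => Real.exp (-(frm ρ x))) ∘ Prod.fst) =
    fun e : Z3 × ℕ => Real.exp (-(frm ρ e.1)) := rfl
  rw [ecomp] at hTh
  refine le_trans ?_ hTh
  have key : ((A - c * (W + 32) : ℕ) : ℝ) / 2 ^ 47 ≤
      (L.map (fun e => wgt e.2 * (1 + (e.2 : ℝ) / 128))).sum -
      (c : ℝ) / 128 * (L.map (fun e => wgt e.2)).sum +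
      ((h : ℝ) / 2 ^ 20 * t * (L.map (fun e => wgt e.2)).sum -
      (L.map (fun e => wgt e.2 * frm ρ e.1)).sum) := by
    have hle : c * (W + 32) ≤ A := by omega
    rw [Nat.cast_sub hle, div_le_iff₀ (by positivity)]
    push_cast
    set S1 := (L.map (fun e => wgt e.2 * (1 + (e.2 : ℝ) / 128))).sum
    set S2 := (L.map (fun e => wgt e.2)).sum
    set S3 := (L.map (fun e => wgt e.2 * frm ρ e.1)).sum
    have t1 : 0 ≤ t := by have := C.t0; linarith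
    have hh : 0 ≤ (h : ℝ) / 2 ^ 20 * t := by positivity
    have g1 := mul_le_mul_of_nonneg_left hW1 hh
    have hlen' : (L.length : ℝ) ≤ 32 := by exact_mod_cast hlen
    have g2 : (c : ℝ) * (2 ^ 40 * S2) ≤ c * ((W : ℝ) + 32) :=
      mul_le_mul_of_nonneg_left (by linarith) (Nat.cast_nonneg _)
    have e47 : (2 : ℝ) ^ 47 = 128 * 2 ^ 40 := by norm_num
    rw [e47] at hA' ⊢
    rw [← hA] at hA'
    rw [← hW] at g1
    generalize (2 : ℝ) ^ 40 = Z at *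
    generalize (h : ℝ) / 2 ^ 20 * t = y at *
    linarith
  have := mul_le_mul_of_nonneg_left key (Real.exp_pos ((c : ℝ) / 128 - (h : ℝ) / 2 ^ 20 * t)).le
  linarith

end Theta3
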