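import Pool.Agent.H98.Theta3.SoundD

set_option autoImplicit false
set_option maxRecDepth 100000
set_option exponentiation.threshold 2000

/-!
# Soundness of the checker, part E: slices and trees
-/

namespace Theta3

/-! ### The function `exp (eta t) (TF t - 1)` -/

theorem nF_two_le {x : Z3} (hx : x ≠ (0, 0, 0)) : 2 ≤ nF x := by
  obtain ⟨m, hm⟩ := nF_even x
  have h0 := nF_nonneg x
  by_contra hcon
  have h1 : nF x = 0 := by omega
  apply hx
  obtain ⟨a, b, c⟩ := x
  simp only [nF] at h1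
  have hb : b ^ 2 = 0 := by nlinarith [sq_nonneg b, sq_nonneg c, sq_nonneg (a - b), sq_nonneg (a - c)]
  have hc : c ^ 2 = 0 := by nlinarith [sq_nonneg b, sq_nonneg c, sq_nonneg (a - b), sq_nonneg (a - c)]
  have hb0 : b = 0 := by simpa using hb
  have hc0 : c = 0 := by simpa using hc
  subst hb0 hc0
  have ha : a ^ 2 = 0 := by nlinarith [sq_nonneg a]
  have ha0 : a = 0 := by simpa using ha
  rw [ha0]

theorem TF_sub_one {t : ℝ} (ht : 0 < t) (eta : ℝ) : Real.exp (eta * t) * (TF t - 1) =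
    ∑' x : Z3, if x = (0, 0, 0) then 0 else Real.exp (-(t * ((nF x : ℝ) - eta))) := by
  have h := (summable_nF ht).tsum_eq_add_tsum_ite (0, 0, 0)
  have h0 : Real.exp (-(t * (nF (0, 0, 0) : ℝ))) = 1 := by simp [nF]
  have h1 : TF t - 1 = ∑' x : Z3, if x = (0, 0, 0) then 0 else Real.exp (-(t * (nF x : ℝ))) := by
    unfold TF
    rw [h, h0]
    ring
  rw [h1, ← tsum_mul_left]
  refine tsum_congr (fun x => ?_)
  split_ifs
  · ring
  · rw [← Real.exp_add]
    congr 1
    ring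

theorem summable_slice {t : ℝ} (ht : 0 < t) (eta : ℝ) : Summable (fun x : Z3 =>
    if x = (0, 0, 0) then 0 else Real.exp (-(t * ((nF x : ℝ) - eta)))) := by
  have h := (summable_nF ht).mul_left (Real.exp (eta * t))
  refine Summable.of_nonneg_of_le (fun x => ?_) (fun x => ?_) h
  · split_ifs
    · exact le_refl _
    · exact (Real.exp_pos _).le
  · split_ifs
    · positivity
    · rw [← Real.exp_add]
      apply le_of_eq
      congr 1
      ring

theorem slice_conv {eta a b t B : ℝ} (ha : 0 < a) (hat : a ≤ t) (htb : t ≤ b)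
    (h1 : Real.exp (eta * a) * (TF a - 1) < B) (h2 : Real.exp (eta * b) * (TF b - 1) < B) :
    Real.exp (eta * t) * (TF t - 1) < B := by
  rcases eq_or_lt_of_le (hat.trans htb) with hab | hab
  · have : t = a := le_antisymm (by linarith) hat
    rw [this]; exact h1
  · set l := (b - t) / (b - a) with hl
    set m := (t - a) / (b - a) with hm
    have hba : 0 < b - a := by linarith
    have hl0 : 0 ≤ l := div_nonneg (by linarith) hba.le
    have hm0 : 0 ≤ m := div_nonneg (by linarith) hba.le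
    have hlm : l + m = 1 := by rw [hl, hm]; field_simp; ring
    have hx : l * a + m * b = t := by rw [hl, hm]; field_simp; ring
    rw [TF_sub_one ha] at h1
    rw [TF_sub_one (by linarith)] at h2
    rw [TF_sub_one (by linarith)]
    have s1 := summable_slice ha eta
    have s2 := summable_slice (t := b) (by linarith) eta
    have s3 := summable_slice (t := t) (by linarith) eta
    have key : (∑' x : Z3, if x = (0, 0, 0) then 0 else Real.exp (-(t * ((nF x : ℝ) - eta)))) ≤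
        l * (∑' x : Z3, if x = (0, 0, 0) then 0 else Real.exp (-(a * ((nF x : ℝ) - eta)))) +
        m * (∑' x : Z3, if x = (0, 0, 0) then 0 else Real.exp (-(b * ((nF x : ℝ) - eta)))) := by
      rw [← tsum_mul_left, ← tsum_mul_left, ← (s1.mul_left l).tsum_add (s2.mul_left m)]
      refine s3.tsum_le_tsum (fun x => ?_) ((s1.mul_left l).add (s2.mul_left m))
      split_ifs
      · simp
      · have := convexOn_exp.2 (Set.mem_univ (-(a * ((nF x : ℝ) - eta))))
          (Set.mem_univ (-(b * ((nF x : ℝ) - eta)))) hl0 hm0 hlm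
        simp only [smul_eq_mul] at this
        refine le_trans (le_of_eq ?_) this
        congr 1
        rw [← hx]
        ring
    refine lt_of_le_of_lt key ?_
    set X := (∑' x : Z3, if x = (0, 0, 0) then 0 else Real.exp (-(a * ((nF x : ℝ) - eta))))
    set Z := (∑' x : Z3, if x = (0, 0, 0) then 0 else Real.exp (-(b * ((nF x : ℝ) - eta))))
    have e : B = l * B + m * B := by rw [← add_mul, hlm, one_mul]
    rcases eq_or_lt_of_le hl0 with hl1 | hl1
    · have hm1 : m = 1 := by linarith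
      rw [← hl1, hm1]
      linarith
    · have f1 : l * X < l * B := mul_lt_mul_of_pos_left h1 hl1
      have f2 : m * Z ≤ m * B := mul_le_mul_of_nonneg_left h2.le hm0
      linarith

theorem slice_mono {eta a t : ℝ} (ha : 0 < a) (hat : a ≤ t) (he : eta ≤ 2) :
    Real.exp (eta * t) * (TF t - 1) ≤ Real.exp (eta * a) * (TF a - 1) := by
  rw [TF_sub_one ha, TF_sub_one (by linarith)]
  refine (summable_slice (by linarith) eta).tsum_le_tsum (fun x => ?_) (summable_slice ha eta)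
  split_ifs with h
  · exact le_refl _
  · apply Real.exp_le_exp.mpr
    have h2 : (2 : ℝ) ≤ (nF x : ℝ) := by exact_mod_cast nF_two_le h
    nlinarith

/-! ### The end points of the slices -/

theorem end_sound {K c h k : ℕ} (hE : endOK K c h k = true) :
    Real.exp ((h : ℝ) / 2 ^ 20 * ((tau k : ℝ) / 1024)) * (TF ((tau k : ℝ) / 1024) - 1) <
      2 * (Real.exp ((c : ℝ) / 128) * ((K : ℝ) / 2 ^ 47)) := by
  unfold endOK at hE
  rw [frc_eq, bq_false, bq_false, bq_false] at hE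
  obtain ⟨hk, hD1, hD2, hle⟩ := hE
  have hk' : k < 34 := by
    have : k ≤ 33 := Nat.le_of_ble_eq_true hk
    omega
  have eD : Nat.sub (Nat.add (Nat.mul c (nat_lit 8388608)) (nat_lit 8589934592)) (Nat.mul h (tau k))
    = c * 8388608 + 8589934592 - h * tau k := rfl
  rw [eD] at hD1 hD2 hle
  set D := c * 8388608 + 8589934592 - h * tau k with hD
  have hD1' : 1 ≤ D := Nat.le_of_ble_eq_true hD1
  have hD2' : D ≤ 17179869183 := Nat.le_of_ble_eq_true hD2
  have hle' : gk k * expU D + 1 ≤ K * 20282409603651670423947251286016 :=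
    Nat.le_of_ble_eq_true hle
  have hDr : (D : ℝ) = (c : ℝ) * 8388608 + 8589934592 - h * tau k := by
    have hle2 : h * tau k ≤ c * 8388608 + 8589934592 := by omega
    rw [hD, Nat.cast_sub hle2]
    push_cast
    ring
  have hU := expU_ge hD2'
  have hG := gk_ge hk'
  have hle'' : (gk k : ℝ) * (expU D : ℝ) + 1 ≤ (K : ℝ) * 20282409603651670423947251286016 := by
    exact_mod_cast hle'
  set P := (TF ((tau k : ℝ) / 1024) - 1) / 2 with hP
  have h1 : (1125899906842624 * (Real.exp 8 * P)) *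
      (2535301200456458802993406410752 * Real.exp (-((D : ℝ) / 1073741824))) ≤
      (gk k : ℝ) * (expU D : ℝ) := by
    refine mul_le_mul hG hU (by positivity) (Nat.cast_nonneg _)
  have e2 : Real.exp ((h : ℝ) / 2 ^ 20 * ((tau k : ℝ) / 1024)) =
      Real.exp ((c : ℝ) / 128) * (Real.exp 8 * Real.exp (-((D : ℝ) / 1073741824))) := by
    rw [← Real.exp_add, ← Real.exp_add]
    congr 1
    rw [hDr]
    ring
  have e3 : TF ((tau k : ℝ) / 1024) - 1 = 2 * P := by rw [hP]; ring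
  rw [e2, e3]
  have h2 : Real.exp 8 * Real.exp (-((D : ℝ) / 1073741824)) * P < (K : ℝ) / 2 ^ 47 := by
    rw [lt_div_iff₀ (by positivity)]
    have e4 : (1125899906842624 * (Real.exp 8 * P)) *
      (2535301200456458802993406410752 * Real.exp (-((D : ℝ) / 1073741824))) =
      20282409603651670423947251286016 *
        (Real.exp 8 * Real.exp (-((D : ℝ) / 1073741824)) * P * 2 ^ 47) := by ring
    rw [e4] at h1
    generalize Real.exp 8 * Real.exp (-((D : ℝ) / 1073741824)) * P * 2 ^ 47 = V at *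
    linarith
  have h3 : 0 < Real.exp ((c : ℝ) / 128) := Real.exp_pos _
  have h4 := mul_lt_mul_of_pos_left h2 h3
  linarith

/-! ### Leaves -/

section
variable {ρ : Rho} {t : ℝ} {lp hp lq hq l2 h2 l3 h3 l4 h4 : ℕ}

theorem leaf_cons (VS : List (ℕ × ℕ)) (cen e : ℕ) (es : List ℕ) (k0 : ℕ) :
    leaf VS cen (e :: es) k0 =
      frc (Nat.mod e (nat_lit 64)) (fun k1 =>
      frc (Nat.mod (Nat.shiftRight e (nat_lit 6)) (nat_lit 64)) (fun n =>
      frc (Nat.mod (Nat.shiftRight e (nat_lit 12)) (nat_lit 262144)) (fun s =>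
      frc (Nat.mod (Nat.shiftRight e (nat_lit 30)) (nat_lit 4096)) (fun c =>
      frc (Nat.shiftRight e (nat_lit 42)) (fun h =>
        pairOK VS cen n s c h (fun K => bq (endOK K c h k0)
          (bq (Nat.beq k1 (nat_lit 34)) (Nat.ble h (nat_lit 2097152))
            (bq (endOK K c h k1) (leaf VS cen es k1) false)) false)))))) := rfl

theorem finish {h c K : ℕ} (hT : 1 + 2 * (Real.exp ((c : ℝ) / 128 - (h : ℝ) / 2 ^ 20 * t) *
    ((K : ℝ) / 2 ^ 47)) ≤ Th ρ) (hG : Real.exp ((h : ℝ) / 2 ^ 20 * t) * (TF t - 1) <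
      2 * (Real.exp ((c : ℝ) / 128) * ((K : ℝ) / 2 ^ 47))) : TF t < Th ρ := by
  refine lt_of_lt_of_le ?_ hT
  have e : Real.exp ((c : ℝ) / 128 - (h : ℝ) / 2 ^ 20 * t) =
      Real.exp (-((h : ℝ) / 2 ^ 20 * t)) * Real.exp ((c : ℝ) / 128) := by
    rw [← Real.exp_add]; congr 1; ring
  rw [e]
  have h0 : 0 < Real.exp (-((h : ℝ) / 2 ^ 20 * t)) := Real.exp_pos _
  have h1 := mul_lt_mul_of_pos_left hG h0
  rw [← mul_assoc, ← Real.exp_add, neg_add_cancel, Real.exp_zero, one_mul] at h1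
  linarith

theorem leaf_sound (C : Ctx ρ t)
    (hbox : InBox lp hp lq hq l2 h2 l3 h3 l4 h4 (4096 * ρ.p / ρ.r1) (4096 * ρ.q / ρ.r1)
      (4096 * ρ.r2 / ρ.r1) (4096 * ρ.r3 / ρ.r1) (4096 * ρ.r4 / ρ.r1))
    (hp8 : hp ≤ 8192) (hq8 : hq ≤ 8192)
    (h28 : h2 ≤ 8192) (h38 : h3 ≤ 8192) (h48 : h4 ≤ 8192) {cen : ℕ} : ∀ (es : List ℕ) (k0 : ℕ),
    leaf (vlist lp hp lq hq l2 h2 l3 h3 l4 h4) cen es k0 = true → (tau k0 : ℝ) / 1024 ≤ t →
    TF t < Th ρ := by
  intro es
  induction es with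
  | nil => intro k0 h _; exact absurd h (by simp [leaf])
  | cons e es ih =>
    intro k0 h ht
    rw [leaf_cons] at h
    simp only [frc_eq] at h
    generalize Nat.mod e (nat_lit 64) = k1 at h
    generalize Nat.mod (Nat.shiftRight e (nat_lit 6)) (nat_lit 64) = n at h
    generalize Nat.mod (Nat.shiftRight e (nat_lit 12)) (nat_lit 262144) = s at h
    generalize Nat.mod (Nat.shiftRight e (nat_lit 30)) (nat_lit 4096) = c at h
    generalize Nat.shiftRight e (nat_lit 42) = hh at h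
    obtain ⟨K, hfin, hT⟩ := pair_sound C hbox hp8 hq8 h28 h38 h48 h
    rw [bq_false] at hfin
    obtain ⟨hE0, hfin⟩ := hfin
    have hk0 : k0 < 34 := by
      have hE0' := hE0
      unfold endOK at hE0'
      rw [frc_eq, bq_false] at hE0'
      have : k0 ≤ 33 := Nat.le_of_ble_eq_true hE0'.1
      omega
    have h2026 : (2026 : ℝ) ≤ (tau k0 : ℝ) := by exact_mod_cast (gk_ok k0 hk0).1.2
    have g0 := end_sound hE0
    have hpos : (0 : ℝ) < (tau k0 : ℝ) / 1024 := by positivity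
    rw [bq_true] at hfin
    rcases hfin with ⟨_, hh2⟩ | ⟨_, hfin⟩
    · have hh3 : hh ≤ 2097152 := Nat.le_of_ble_eq_true hh2
      have hh4 : (hh : ℝ) ≤ 2097152 := by exact_mod_cast hh3
      have hh' : (hh : ℝ) / 2 ^ 20 ≤ 2 := by
        rw [div_le_iff₀ (by positivity)]
        have e21 : (2 : ℝ) * 2 ^ 20 = 2097152 := by norm_num
        rw [e21]
        exact hh4
      exact finish hT (lt_of_le_of_lt (slice_mono hpos ht hh') g0)
    · rw [bq_false] at hfin
      obtain ⟨hE1, hrec⟩ := hfin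
      rcases le_total ((tau k1 : ℝ) / 1024) t with hcase | hcase
      · exact ih k1 hrec hcase
      · exact finish hT (slice_conv hpos ht hcase g0 (end_sound hE1))

end

/-! ### Trees -/

/-- the conclusion of the check of a box (in scaled coordinates) -/
def Concl (ρ : Rho) (t p q r2 r3 r4 : ℝ) : Prop :=
  r2 < r3 ∨ 4096 + r4 < p + q ∨ r2 + r3 < p + q ∨ p + r3 + r4 ≤ 983 ∨ q + r2 + r4 ≤ 983 ∨
    p + q + r2 + r3 ≤ 983 ∨ (p ≤ 204 ∧ q ≤ 204 ∧ 3892 ≤ r2 ∧ 3892 ≤ r3 ∧ 3892 ≤ r4) ∨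
    (3892 ≤ p ∧ p ≤ 4300 ∧ 3892 ≤ q ∧ q ≤ 4300 ∧ 3892 ≤ r2 ∧ 3892 ≤ r3 ∧ 3892 ≤ r4 ∧
      t < 2046 / 1024) ∨ TF t < Th ρ

theorem tau_vals : tau 0 = 2026 ∧ tau 4 = 2046 := by decide +kernel

theorem chk_sound {ρ : Rho} {t : ℝ} (C : Ctx ρ t) : ∀ (tr : Tr)
    (lp hp lq hq l2 h2 l3 h3 l4 h4 : ℕ), chk tr lp hp lq hq l2 h2 l3 h3 l4 h4 = true →
    hp ≤ 8192 → hq ≤ 8192 → h2 ≤ 8192 → h3 ≤ 8192 → h4 ≤ 8192 →
    InBox lp hp lq hq l2 h2 l3 h3 l4 h4 (4096 * ρ.p / ρ.r1) (4096 * ρ.q / ρ.r1)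
      (4096 * ρ.r2 / ρ.r1) (4096 * ρ.r3 / ρ.r1) (4096 * ρ.r4 / ρ.r1) →
    Concl ρ t (4096 * ρ.p / ρ.r1) (4096 * ρ.q / ρ.r1)
      (4096 * ρ.r2 / ρ.r1) (4096 * ρ.r3 / ρ.r1) (4096 * ρ.r4 / ρ.r1) := by
  intro tr
  induction tr with
  | O =>
    intro lp hp lq hq l2 h2 l3 h3 l4 h4 h hp8 hq8 h28 h38 h48 hbox
    obtain ⟨p1, p2, q1, q2, b1, b2, c1, c2, d1, d2⟩ := hbox
    have e : chk .O lp hp lq hq l2 h2 l3 h3 l4 h4 = bq (Nat.ble (Nat.succ h2) l3) true
      (bq (Nat.ble (Nat.succ (Nat.add (nat_lit 4096) h4)) (Nat.add lp lq)) true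
        (Nat.ble (Nat.succ (Nat.add h2 h3)) (Nat.add lp lq))) := rfl
    rw [e, bq_true, bq_true] at h
    unfold Concl
    rcases h with ⟨h, _⟩ | ⟨_, ⟨h, _⟩ | ⟨_, h⟩⟩
    · have h' : h2 + 1 ≤ l3 := Nat.le_of_ble_eq_true h
      have h'' : (h2 : ℝ) + 1 ≤ l3 := by exact_mod_cast h'
      left; linarith
    · have h' : 4096 + h4 + 1 ≤ lp + lq := Nat.le_of_ble_eq_true h
      have h'' : 4096 + (h4 : ℝ) + 1 ≤ lp + lq := by exact_mod_cast h'
      right; left; linarith
    · have h' : h2 + h3 + 1 ≤ lp + lq := Nat.le_of_ble_eq_true h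
      have h'' : (h2 : ℝ) + h3 + 1 ≤ lp + lq := by exact_mod_cast h'
      right; right; left; linarith
  | T =>
    intro lp hp lq hq l2 h2 l3 h3 l4 h4 h hp8 hq8 h28 h38 h48 hbox
    obtain ⟨p1, p2, q1, q2, b1, b2, c1, c2, d1, d2⟩ := hbox
    have e : chk .T lp hp lq hq l2 h2 l3 h3 l4 h4 =
      bq (Nat.ble (Nat.add hp (Nat.add h3 h4)) (nat_lit 983)) true
      (bq (Nat.ble (Nat.add hq (Nat.add h2 h4)) (nat_lit 983)) true
        (Nat.ble (Nat.add (Nat.add hp hq) (Nat.add h2 h3)) (nat_lit 983))) := rfl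
    rw [e, bq_true, bq_true] at h
    unfold Concl
    rcases h with ⟨h, _⟩ | ⟨_, ⟨h, _⟩ | ⟨_, h⟩⟩
    · have h' : hp + (h3 + h4) ≤ 983 := Nat.le_of_ble_eq_true h
      have h'' : (hp : ℝ) + (h3 + h4) ≤ 983 := by exact_mod_cast h'
      right; right; right; left; linarith
    · have h' : hq + (h2 + h4) ≤ 983 := Nat.le_of_ble_eq_true h
      have h'' : (hq : ℝ) + (h2 + h4) ≤ 983 := by exact_mod_cast h'
      right; right; right; right; left; linarith
    · have h' : hp + hq + (h2 + h3) ≤ 983 := Nat.le_of_ble_eq_true h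
      have h'' : (hp : ℝ) + hq + (h2 + h3) ≤ 983 := by exact_mod_cast h'
      right; right; right; right; right; left; linarith
  | F =>
    intro lp hp lq hq l2 h2 l3 h3 l4 h4 h hp8 hq8 h28 h38 h48 hbox
    obtain ⟨p1, p2, q1, q2, b1, b2, c1, c2, d1, d2⟩ := hbox
    have e : chk .F lp hp lq hq l2 h2 l3 h3 l4 h4 =
      bq (Nat.ble hp (nat_lit 204)) (bq (Nat.ble hq (nat_lit 204))
      (bq (Nat.ble (nat_lit 3892) l2) (bq (Nat.ble (nat_lit 3892) l3)
        (Nat.ble (nat_lit 3892) l4) false) false) false) false := rfl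
    rw [e, bq_false, bq_false, bq_false, bq_false] at h
    obtain ⟨g1, g2, g3, g4, g5⟩ := h
    have g1' : hp ≤ 204 := Nat.le_of_ble_eq_true g1
    have g2' : hq ≤ 204 := Nat.le_of_ble_eq_true g2
    have g3' : 3892 ≤ l2 := Nat.le_of_ble_eq_true g3
    have g4' : 3892 ≤ l3 := Nat.le_of_ble_eq_true g4
    have g5' : 3892 ≤ l4 := Nat.le_of_ble_eq_true g5
    have g1'' : (hp : ℝ) ≤ 204 := by exact_mod_cast g1'
    have g2'' : (hq : ℝ) ≤ 204 := by exact_mod_cast g2'
    have g3'' : (3892 : ℝ) ≤ l2 := by exact_mod_cast g3'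
    have g4'' : (3892 : ℝ) ≤ l3 := by exact_mod_cast g4'
    have g5'' : (3892 : ℝ) ≤ l4 := by exact_mod_cast g5'
    unfold Concl
    right; right; right; right; right; right; left
    refine ⟨?_, ?_, ?_, ?_, ?_⟩ <;> linarith
  | L es =>
    intro lp hp lq hq l2 h2 l3 h3 l4 h4 h hp8 hq8 h28 h38 h48 hbox
    have e : chk (.L es) lp hp lq hq l2 h2 l3 h3 l4 h4 =
      leafB es lp hp lq hq l2 h2 l3 h3 l4 h4 := rfl
    rw [e] at h
    unfold leafB at h
    rw [v32_eq, frc_eq, bq_true] at h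
    rcases h with ⟨hB, h⟩ | ⟨_, h⟩
    · by_cases ht : t < 2046 / 1024
      · unfold inB at hB
        rw [bq_false, bq_false, bq_false, bq_false, bq_false, bq_false, bq_false, bq_false,
          bq_false] at hB
        obtain ⟨g1, g2, g3, g4, g5, g6, g7, -, -, -⟩ := hB
        have g1' : 3892 ≤ lp := Nat.le_of_ble_eq_true g1
        have g2' : hp ≤ 4300 := Nat.le_of_ble_eq_true g2
        have g3' : 3892 ≤ lq := Nat.le_of_ble_eq_true g3
        have g4' : hq ≤ 4300 := Nat.le_of_ble_eq_true g4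
        have g5' : 3892 ≤ l2 := Nat.le_of_ble_eq_true g5
        have g6' : 3892 ≤ l3 := Nat.le_of_ble_eq_true g6
        have g7' : 3892 ≤ l4 := Nat.le_of_ble_eq_true g7
        have g1'' : (3892 : ℝ) ≤ lp := by exact_mod_cast g1'
        have g2'' : (hp : ℝ) ≤ 4300 := by exact_mod_cast g2'
        have g3'' : (3892 : ℝ) ≤ lq := by exact_mod_cast g3'
        have g4'' : (hq : ℝ) ≤ 4300 := by exact_mod_cast g4'
        have g5'' : (3892 : ℝ) ≤ l2 := by exact_mod_cast g5'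
        have g6'' : (3892 : ℝ) ≤ l3 := by exact_mod_cast g6'
        have g7'' : (3892 : ℝ) ≤ l4 := by exact_mod_cast g7'
        obtain ⟨p1, p2, q1, q2, b1, b2, c1, c2, d1, d2⟩ := hbox
        unfold Concl
        right; right; right; right; right; right; right; left
        refine ⟨?_, ?_, ?_, ?_, ?_, ?_, ?_, ht⟩ <;> linarith
      · unfold Concl
        right; right; right; right; right; right; right; right
        refine leaf_sound C hbox hp8 hq8 h28 h38 h48 es 4 h ?_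
        rw [tau_vals.2]
        push_cast
        linarith
    · unfold Concl
      right; right; right; right; right; right; right; right
      refine leaf_sound C hbox hp8 hq8 h28 h38 h48 es 0 h ?_
      have e0 : tau (nat_lit 0) = 2026 := tau_vals.1
      rw [e0]
      have := C.t0
      push_cast
      linarith
  | P l r ihl ihr =>
    intro lp hp lq hq l2 h2 l3 h3 l4 h4 h hp8 hq8 h28 h38 h48 hbox
    have e : chk (.P l r) lp hp lq hq l2 h2 l3 h3 l4 h4 =
      frc (Nat.shiftRight (Nat.add lp hp) (nat_lit 1)) (fun m =>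
        bq (chk l lp m lq hq l2 h2 l3 h3 l4 h4) (chk r m hp lq hq l2 h2 l3 h3 l4 h4) false) := rfl
    rw [e, frc_eq, bq_false] at h
    have em : Nat.shiftRight (Nat.add lp hp) (nat_lit 1) = (lp + hp) / 2 := by
      have := Nat.shiftRight_eq_div_pow (lp + hp) 1
      simpa using this
    have hlh : lp ≤ hp := by exact_mod_cast hbox.p1.trans hbox.p2
    have hm8 : Nat.shiftRight (Nat.add lp hp) (nat_lit 1) ≤ 8192 := by rw [em]; omega
    generalize Nat.shiftRight (Nat.add lp hp) (nat_lit 1) = m at *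
    rcases le_total (4096 * ρ.p / ρ.r1) (m : ℝ) with hc | hc
    · exact ihl lp m lq hq l2 h2 l3 h3 l4 h4 h.1 hm8 hq8 h28 h38 h48
        { hbox with p2 := hc }
    · exact ihr m hp lq hq l2 h2 l3 h3 l4 h4 h.2 hp8 hq8 h28 h38 h48
        { hbox with p1 := hc }
  | Q l r ihl ihr =>
    intro lp hp lq hq l2 h2 l3 h3 l4 h4 h hp8 hq8 h28 h38 h48 hbox
    have e : chk (.Q l r) lp hp lq hq l2 h2 l3 h3 l4 h4 =
      frc (Nat.shiftRight (Nat.add lq hq) (nat_lit 1)) (fun m =>
        bq (chk l lp hp lq m l2 h2 l3 h3 l4 h4) (chk r lp hp m hq l2 h2 l3 h3 l4 h4) false) := rfl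
    rw [e, frc_eq, bq_false] at h
    have em : Nat.shiftRight (Nat.add lq hq) (nat_lit 1) = (lq + hq) / 2 := by
      have := Nat.shiftRight_eq_div_pow (lq + hq) 1
      simpa using this
    have hlh : lq ≤ hq := by exact_mod_cast hbox.q1.trans hbox.q2
    have hm8 : Nat.shiftRight (Nat.add lq hq) (nat_lit 1) ≤ 8192 := by rw [em]; omega
    generalize Nat.shiftRight (Nat.add lq hq) (nat_lit 1) = m at *
    rcases le_total (4096 * ρ.q / ρ.r1) (m : ℝ) with hc | hc
    · exact ihl lp hp lq m l2 h2 l3 h3 l4 h4 h.1 hp8 hm8 h28 h38 h48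
        { hbox with q2 := hc }
    · exact ihr lp hp m hq l2 h2 l3 h3 l4 h4 h.2 hp8 hq8 h28 h38 h48
        { hbox with q1 := hc }
  | B l r ihl ihr =>
    intro lp hp lq hq l2 h2 l3 h3 l4 h4 h hp8 hq8 h28 h38 h48 hbox
    have e : chk (.B l r) lp hp lq hq l2 h2 l3 h3 l4 h4 =
      frc (Nat.shiftRight (Nat.add l2 h2) (nat_lit 1)) (fun m =>
        bq (chk l lp hp lq hq l2 m l3 h3 l4 h4) (chk r lp hp lq hq m h2 l3 h3 l4 h4) false) := rfl
    rw [e, frc_eq, bq_false] at h
    have em : Nat.shiftRight (Nat.add l2 h2) (nat_lit 1) = (l2 + h2) / 2 := by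
      have := Nat.shiftRight_eq_div_pow (l2 + h2) 1
      simpa using this
    have hlh : l2 ≤ h2 := by exact_mod_cast hbox.b1.trans hbox.b2
    have hm8 : Nat.shiftRight (Nat.add l2 h2) (nat_lit 1) ≤ 8192 := by rw [em]; omega
    generalize Nat.shiftRight (Nat.add l2 h2) (nat_lit 1) = m at *
    rcases le_total (4096 * ρ.r2 / ρ.r1) (m : ℝ) with hc | hc
    · exact ihl lp hp lq hq l2 m l3 h3 l4 h4 h.1 hp8 hq8 hm8 h38 h48
        { hbox with b2 := hc }
    · exact ihr lp hp lq hq m h2 l3 h3 l4 h4 h.2 hp8 hq8 h28 h38 h48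
        { hbox with b1 := hc }
  | C l r ihl ihr =>
    intro lp hp lq hq l2 h2 l3 h3 l4 h4 h hp8 hq8 h28 h38 h48 hbox
    have e : chk (.C l r) lp hp lq hq l2 h2 l3 h3 l4 h4 =
      frc (Nat.shiftRight (Nat.add l3 h3) (nat_lit 1)) (fun m =>
        bq (chk l lp hp lq hq l2 h2 l3 m l4 h4) (chk r lp hp lq hq l2 h2 m h3 l4 h4) false) := rfl
    rw [e, frc_eq, bq_false] at h
    have em : Nat.shiftRight (Nat.add l3 h3) (nat_lit 1) = (l3 + h3) / 2 := by
      have := Nat.shiftRight_eq_div_pow (l3 + h3) 1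
      simpa using this
    have hlh : l3 ≤ h3 := by exact_mod_cast hbox.c1.trans hbox.c2
    have hm8 : Nat.shiftRight (Nat.add l3 h3) (nat_lit 1) ≤ 8192 := by rw [em]; omega
    generalize Nat.shiftRight (Nat.add l3 h3) (nat_lit 1) = m at *
    rcases le_total (4096 * ρ.r3 / ρ.r1) (m : ℝ) with hc | hc
    · exact ihl lp hp lq hq l2 h2 l3 m l4 h4 h.1 hp8 hq8 h28 hm8 h48
        { hbox with c2 := hc }
    · exact ihr lp hp lq hq l2 h2 m h3 l4 h4 h.2 hp8 hq8 h28 h38 h48
        { hbox with c1 := hc }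
  | D l r ihl ihr =>
    intro lp hp lq hq l2 h2 l3 h3 l4 h4 h hp8 hq8 h28 h38 h48 hbox
    have e : chk (.D l r) lp hp lq hq l2 h2 l3 h3 l4 h4 =
      frc (Nat.shiftRight (Nat.add l4 h4) (nat_lit 1)) (fun m =>
        bq (chk l lp hp lq hq l2 h2 l3 h3 l4 m) (chk r lp hp lq hq l2 h2 l3 h3 m h4) false) := rfl
    rw [e, frc_eq, bq_false] at h
    have em : Nat.shiftRight (Nat.add l4 h4) (nat_lit 1) = (l4 + h4) / 2 := by
      have := Nat.shiftRight_eq_div_pow (l4 + h4) 1
      simpa using this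
    have hlh : l4 ≤ h4 := by exact_mod_cast hbox.d1.trans hbox.d2
    have hm8 : Nat.shiftRight (Nat.add l4 h4) (nat_lit 1) ≤ 8192 := by rw [em]; omega
    generalize Nat.shiftRight (Nat.add l4 h4) (nat_lit 1) = m at *
    rcases le_total (4096 * ρ.r4 / ρ.r1) (m : ℝ) with hc | hc
    · exact ihl lp hp lq hq l2 h2 l3 h3 l4 m h.1 hp8 hq8 h28 h38 hm8
        { hbox with d2 := hc }
    · exact ihr lp hp lq hq l2 h2 l3 h3 m h4 h.2 hp8 hq8 h28 h38 h48
        { hbox with d1 := hc }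

end Theta3
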